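import Pool.Agent.H77.RT.Stm

set_option autoImplicit false

namespace Pool.Agent.H77.RT.T.ADD

open MeasureTheory Filter Topology Set
open scoped ENNReal ContDiff FourierTransform

theorem nice_cont {a : ℝ → ℂ} (ha : Nice a) : Continuous a := by
  obtain ⟨b, hb⟩ := ha 0
  have e : a = b := by
    ext x
    rw [hb x, iteratedDeriv_zero]
  rw [e]
  exact b.continuous

theorem kern_int {a : ℝ → ℂ} (ha : Nice a) {Θ : ℝ → ℝ} (hΘ : Test Θ) (x y : ℝ) :
    Integrable fun k : ℝ => (Θ k : ℂ) * a (x - k * y) := by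
  have hc := nice_cont ha
  have hΘc : Continuous Θ := hΘ.1.continuous
  refine Continuous.integrable_of_hasCompactSupport ?_ ?_
  · exact (Complex.continuous_ofReal.comp hΘc).mul (hc.comp (by fun_prop))
  · refine HasCompactSupport.mul_right ?_
    exact hΘ.2.comp_left (g := fun r : ℝ => (r : ℂ)) (by simp)

theorem kern_meas {a : ℝ → ℂ} (ha : Nice a) {Θ : ℝ → ℝ} (hΘ : Test Θ) :
    StronglyMeasurable fun q : ℝ × ℝ => kern a Θ q.1 q.2 := by
  have hc := nice_cont ha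
  have hΘc : Continuous Θ := hΘ.1.continuous
  have h : Continuous fun p : (ℝ × ℝ) × ℝ => (Θ p.2 : ℂ) * a (p.1.1 - p.2 * p.1.2) :=
    (Complex.continuous_ofReal.comp (hΘc.comp continuous_snd)).mul (hc.comp (by fun_prop))
  exact h.stronglyMeasurable.integral_prod_right'

theorem f_kern_int (h : S_KER) {f : ℝ × ℝ → ℂ} {N : ℕ} {a : ℝ → ℂ} (hf : Measurable f) (hT : Tem f N) (ha : Nice a)
    {Θ : ℝ → ℝ} (hΘ : Test Θ) : Integrable fun q : ℝ × ℝ => f q * kern a Θ q.1 q.2 := by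
  obtain ⟨C, hC⟩ := h a ha Θ hΘ N
  refine (hT.const_mul C).mono' (hf.aestronglyMeasurable.mul (kern_meas ha hΘ).aestronglyMeasurable)
    (Eventually.of_forall fun q => ?_)
  rw [norm_mul]
  calc ‖f q‖ * ‖kern a Θ q.1 q.2‖ ≤ ‖f q‖ * (C / (1 + |q.1| + |q.2|) ^ N) :=
        mul_le_mul_of_nonneg_left (hC q.1 q.2) (norm_nonneg _)
    _ = C * (‖f q‖ / (1 + |q.1| + |q.2|) ^ N) := by ring

theorem main (h : S_KER) : S_ADD := by
  intro f N a hf hT ha Θ₁ Θ₂ h₁ h₂
  unfold T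
  rw [← integral_add (f_kern_int h hf hT ha h₁) (f_kern_int h hf hT ha h₂)]
  refine integral_congr_ae (Eventually.of_forall fun q => ?_)
  have e : kern a (Θ₁ + Θ₂) q.1 q.2 = kern a Θ₁ q.1 q.2 + kern a Θ₂ q.1 q.2 := by
    unfold kern
    rw [← integral_add (kern_int ha h₁ _ _) (kern_int ha h₂ _ _)]
    refine integral_congr_ae (Eventually.of_forall fun k => ?_)
    simp only [Pi.add_apply]
    push_cast
    ring
  show f q * kern a (Θ₁ + Θ₂) q.1 q.2 = f q * kern a Θ₁ q.1 q.2 + f q * kern a Θ₂ q.1 q.2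
  rw [e]; ring

end Pool.Agent.H77.RT.T.ADD
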