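import Pool.Agent.H77.RT.Stm

/-! ALP: `T` vanishes where `W` is integrable. -/

set_option autoImplicit false

namespace Pool.Agent.H77.RT.T.ALP

open MeasureTheory Filter Topology Set
open scoped ENNReal ContDiff FourierTransform

/-- a nice function is continuous and decays -/
lemma nice_decay {a : ℝ → ℂ} (ha : Nice a) (N : ℕ) :
    Continuous a ∧ ∃ C : ℝ, 0 ≤ C ∧ ∀ p, ‖a p‖ ≤ C / (1 + |p|) ^ N := by
  obtain ⟨b, hb⟩ := ha 0
  have hab : a = b := by
    funext x
    rw [hb x, iteratedDeriv_zero]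
  refine ⟨hab ▸ b.continuous, ?_⟩
  refine ⟨2 ^ N * (Finset.Iic (N, 0)).sup (fun m => SchwartzMap.seminorm ℝ m.1 m.2) b, by positivity,
    fun p => ?_⟩
  have h := SchwartzMap.one_add_le_sup_seminorm_apply (𝕜 := ℝ) (m := (N, 0)) (k := N) (n := 0)
    le_rfl le_rfl b p
  rw [norm_iteratedFDeriv_zero] at h
  rw [hab, le_div_iff₀ (by positivity), mul_comm]
  exact h

theorem main (h : S_RAD) : S_ALP := by
  intro f N c d hf hW hV a ha Θ hΘ hsupp
  obtain ⟨hac, C, hC0, hC⟩ := nice_decay ha N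
  have hΘc : Continuous Θ := hΘ.1.continuous
  obtain ⟨M, hM⟩ := hΘ.2.exists_bound_of_continuous hΘc
  have hM0 : 0 ≤ M := (norm_nonneg _).trans (hM 0)
  set F : (ℝ × ℝ) → ℝ → ℂ := fun q k => f q * ((Θ k : ℂ) * a (q.1 - k * q.2)) with hF
  have hFm : AEStronglyMeasurable (Function.uncurry F)
      ((volume : Measure (ℝ × ℝ)).prod (volume : Measure ℝ)) := by
    apply Measurable.aestronglyMeasurable
    apply Measurable.mul
    · exact hf.comp measurable_fst
    · apply Continuous.measurable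
      have h1 : Continuous fun z : (ℝ × ℝ) × ℝ => ((Θ z.2 : ℝ) : ℂ) :=
        Complex.continuous_ofReal.comp (hΘc.comp continuous_snd)
      have h2 : Continuous fun z : (ℝ × ℝ) × ℝ => a (z.1.1 - z.2 * z.1.2) :=
        hac.comp (by fun_prop)
      exact h1.mul h2
  have hz : ∀ k, k ∉ Ioo c d → Θ k = 0 := by
    intro k hk
    by_contra hne
    exact hk (hsupp (subset_tsupport Θ hne))
  have hFint : Integrable (Function.uncurry F)
      ((volume : Measure (ℝ × ℝ)).prod (volume : Measure ℝ)) := by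
    refine ⟨hFm, ?_⟩
    rw [hasFiniteIntegral_def, lintegral_prod_symm _ hFm.enorm]
    have h1 : ∀ k : ℝ, ∫⁻ q : ℝ × ℝ, ‖Function.uncurry F (q, k)‖ₑ ≤
        (Ioo c d).indicator (fun k => ENNReal.ofReal (M * C) * W f N k) k := by
      intro k
      by_cases hk : k ∈ Ioo c d
      · rw [indicator_of_mem hk]
        unfold W
        rw [← lintegral_const_mul' _ _ ENNReal.ofReal_ne_top]
        apply lintegral_mono
        intro q
        show ‖F q k‖ₑ ≤ ENNReal.ofReal (M * C) *
          ENNReal.ofReal (‖f q‖ / (1 + |q.1 - k * q.2|) ^ N)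
        rw [← ofReal_norm, ← ENNReal.ofReal_mul (mul_nonneg hM0 hC0)]
        apply ENNReal.ofReal_le_ofReal
        show ‖f q * ((Θ k : ℂ) * a (q.1 - k * q.2))‖ ≤ _
        rw [norm_mul, norm_mul]
        have h2 : ‖(Θ k : ℂ)‖ ≤ M := by
          rw [Complex.norm_real]
          exact hM k
        calc ‖f q‖ * (‖(Θ k : ℂ)‖ * ‖a (q.1 - k * q.2)‖)
            ≤ ‖f q‖ * (M * (C / (1 + |q.1 - k * q.2|) ^ N)) := by
              apply mul_le_mul_of_nonneg_left _ (norm_nonneg _)
              exact mul_le_mul h2 (hC _) (norm_nonneg _) hM0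
          _ = M * C * (‖f q‖ / (1 + |q.1 - k * q.2|) ^ N) := by ring
      · rw [indicator_of_notMem hk]
        have : ∀ q : ℝ × ℝ, ‖Function.uncurry F (q, k)‖ₑ = 0 := by
          intro q
          show ‖f q * ((Θ k : ℂ) * a (q.1 - k * q.2))‖ₑ = 0
          rw [hz k hk]
          simp
        rw [lintegral_congr this, lintegral_zero]
    refine (lintegral_mono h1).trans_lt ?_
    rw [lintegral_indicator measurableSet_Ioo, lintegral_const_mul' _ _ ENNReal.ofReal_ne_top]
    exact ENNReal.mul_lt_top ENNReal.ofReal_lt_top hW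
  have e1 : T f a Θ = ∫ q : ℝ × ℝ, ∫ k : ℝ, F q k := by
    unfold T kern
    congr 1
    funext q
    rw [← integral_const_mul]
  rw [e1, integral_integral_swap hFint]
  -- almost every slope
  have hWm : AEMeasurable (fun k => W f N k) (volume.restrict (Ioo c d)) := by
    apply Measurable.aemeasurable
    unfold W
    apply Measurable.lintegral_prod_right'
      (f := fun z : ℝ × (ℝ × ℝ) => ENNReal.ofReal (‖f z.2‖ / (1 + |z.2.1 - z.1 * z.2.2|) ^ N))
    apply ENNReal.measurable_ofReal.comp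
    apply Measurable.div
    · exact (hf.comp measurable_snd).norm
    · fun_prop
  have h2 : ∀ᵐ k ∂(volume.restrict (Ioo c d)), W f N k < ⊤ := ae_lt_top' hWm hW.ne
  rw [ae_restrict_iff' measurableSet_Ioo] at h2
  rw [integral_eq_zero_of_ae]
  filter_upwards [h2, hV] with k hk1 hk2
  show ∫ q : ℝ × ℝ, F q k = 0
  by_cases hk : k ∈ Ioo c d
  · have h3 := h f N k hf (hk1 hk) hk2 a hac ⟨C, hC⟩
    have e2 : ∀ q : ℝ × ℝ, F q k = (Θ k : ℂ) * (f q * a (q.1 - k * q.2)) := by
      intro q
      show f q * ((Θ k : ℂ) * a (q.1 - k * q.2)) = _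
      ring
    simp only [e2]
    rw [integral_const_mul, h3, mul_zero]
  · have e2 : ∀ q : ℝ × ℝ, F q k = 0 := by
      intro q
      show f q * ((Θ k : ℂ) * a (q.1 - k * q.2)) = 0
      rw [hz k hk]
      simp
    simp only [e2, integral_zero]

end Pool.Agent.H77.RT.T.ALP
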