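import Pool.Agent.H77.RT.Stm

/-!
# ALS: from the hypothesis on directions to the hypothesis on slopes
-/

set_option autoImplicit false

namespace Pool.Agent.H77.RT.T.ALS

open MeasureTheory Filter Topology Set
open scoped ENNReal ContDiff FourierTransform

lemma exists_lt_top {α : Type*} [MeasurableSpace α] {μ : Measure α} {s : Set α}
    (hs : MeasurableSet s) (h0 : μ s ≠ 0) {F : α → ℝ≥0∞} (h : ∫⁻ x in s, F x ∂μ < ⊤) :
    ∃ x ∈ s, F x < ⊤ := by
  by_contra hcon
  push Not at hcon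
  have h1 : ∫⁻ x in s, F x ∂μ = ⊤ := by
    have h2 : ∫⁻ x in s, F x ∂μ = ∫⁻ _ in s, ⊤ ∂μ :=
      setLIntegral_congr_fun hs (fun x hx => top_le_iff.1 (hcon x hx))
    rw [h2, setLIntegral_const, ENNReal.top_mul h0]
  exact h.ne h1

lemma measurable_Wn (f : ℝ × ℝ → ℂ) (hf : Measurable f) (N : ℕ) : Measurable (Wn f N) := by
  unfold Wn
  apply Measurable.lintegral_prod_right'
    (f := fun p : (ℝ × ℝ) × (ℝ × ℝ) =>
      ENNReal.ofReal (‖f p.2‖ / (1 + |p.1.1 * p.2.1 + p.1.2 * p.2.2|) ^ N))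
  fun_prop

lemma W_le (f : ℝ × ℝ → ℂ) (N : ℕ) {u k : ℝ} (h1 : 1 / 2 ≤ u) (h2 : u ≤ 3 / 2) :
    W f N k ≤ ENNReal.ofReal ((3 / 2) ^ N) * Wn f N (u, -u * k) := by
  unfold W Wn
  rw [← lintegral_const_mul' _ _ ENNReal.ofReal_ne_top]
  refine lintegral_mono fun q => ?_
  simp only
  rw [← ENNReal.ofReal_mul (by positivity)]
  apply ENNReal.ofReal_le_ofReal
  have e1 : u * q.1 + -u * k * q.2 = u * (q.1 - k * q.2) := by ring
  rw [e1, abs_mul, abs_of_nonneg (by linarith : 0 ≤ u)]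
  obtain ⟨z, hz⟩ : ∃ z, z = |q.1 - k * q.2| := ⟨_, rfl⟩
  have hz0 : 0 ≤ z := hz ▸ abs_nonneg _
  rw [← hz, mul_div_assoc', div_le_div_iff₀ (by positivity) (by positivity)]
  have h3 : (1 + u * z) ^ N ≤ (3 / 2) ^ N * (1 + z) ^ N := by
    rw [← mul_pow]
    apply pow_le_pow_left₀ (by positivity)
    nlinarith
  calc ‖f q‖ * (1 + u * z) ^ N ≤ ‖f q‖ * ((3 / 2) ^ N * (1 + z) ^ N) :=
        mul_le_mul_of_nonneg_left h3 (norm_nonneg _)
    _ = _ := by ring

lemma comp_mul (g : ℝ → ℝ≥0∞) {a : ℝ} (ha : a ≠ 0) :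
    ∫⁻ k, g (a * k) = ENNReal.ofReal |a⁻¹| * ∫⁻ v, g v := by
  have h1 := lintegral_map_equiv (μ := volume) g (MeasurableEquiv.mulLeft₀ a ha)
  have h2 : (MeasurableEquiv.mulLeft₀ a ha : ℝ → ℝ) = fun x => a * x := rfl
  rw [h2, Real.map_volume_mul_left ha, lintegral_smul_measure, smul_eq_mul] at h1
  exact h1.symm

theorem main : S_ALS := by
  intro f k hf hgood
  rcases hgood with ⟨N, hN⟩ | ⟨N, ε, hε, hint⟩
  · left
    refine ⟨N, ?_⟩
    have h1 : Wn f N (1, -k) = W f N k := by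
      unfold Wn W
      refine lintegral_congr fun q => ?_
      have : (1 : ℝ) * q.1 + -k * q.2 = q.1 - k * q.2 := by ring
      simp only [this]
    rw [← h1]
    exact hN
  · right
    obtain ⟨δ, hδ⟩ : ∃ δ, δ = min (1 / 2) (ε / (2 + |k|)) := ⟨_, rfl⟩
    have hk2 : 0 < 2 + |k| := by positivity
    have hδ0 : 0 < δ := by rw [hδ]; exact lt_min (by norm_num) (by positivity)
    have hδ1 : δ ≤ 1 / 2 := by rw [hδ]; exact min_le_left _ _
    have hδ2 : δ * (2 + |k|) ≤ ε := by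
      have : δ ≤ ε / (2 + |k|) := by rw [hδ]; exact min_le_right _ _
      rwa [le_div_iff₀ hk2] at this
    refine ⟨N, k - δ, k + δ, by linarith, by linarith, ?_⟩
    obtain ⟨H, hH⟩ : ∃ H : ℝ × ℝ → ℝ≥0∞, H = (Metric.ball ((1 : ℝ), -k) ε).indicator (Wn f N) :=
      ⟨_, rfl⟩
    have hHm : Measurable H := by
      rw [hH]
      exact (measurable_Wn f hf N).indicator measurableSet_ball
    have hHint : ∫⁻ u : ℝ, ∫⁻ v : ℝ, H (u, v) < ⊤ := by
      have h1 : ∫⁻ m : ℝ × ℝ, H m = ∫⁻ m in Metric.ball ((1 : ℝ), -k) ε, Wn f N m := by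
        rw [hH, lintegral_indicator measurableSet_ball]
      rw [← h1] at hint
      rw [Measure.volume_eq_prod, lintegral_prod _ hHm.aemeasurable] at hint
      exact hint
    have hU : ∫⁻ u in Ioo (1 - δ) (1 + δ), ∫⁻ v : ℝ, H (u, v) < ⊤ :=
      (setLIntegral_le_lintegral _ _).trans_lt hHint
    have hvol : volume (Ioo (1 - δ) (1 + δ)) ≠ 0 := by
      rw [Real.volume_Ioo]
      simp only [ne_eq, ENNReal.ofReal_eq_zero, not_le]
      linarith
    obtain ⟨u, ⟨hu1, hu2⟩, hlt⟩ := exists_lt_top measurableSet_Ioo hvol hU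
    have hu0 : -u ≠ 0 := by
      intro h
      linarith
    have hmem : ∀ k' ∈ Ioo (k - δ) (k + δ), (u, -u * k') ∈ Metric.ball ((1 : ℝ), -k) ε := by
      rintro k' ⟨hk1, hk2'⟩
      rw [Metric.mem_ball, Prod.dist_eq, max_lt_iff, Real.dist_eq, Real.dist_eq]
      simp only
      have a1 : |u - 1| < δ := by rw [abs_lt]; constructor <;> linarith
      have a2 : |k' - k| < δ := by rw [abs_lt]; constructor <;> linarith
      have a3 : |u| ≤ 3 / 2 := by rw [abs_le]; constructor <;> linarith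
      have hkn := abs_nonneg k
      constructor
      · nlinarith
      · have e1 : -u * k' - -k = -(u * (k' - k)) - (u - 1) * k := by ring
        rw [e1]
        calc |-(u * (k' - k)) - (u - 1) * k| ≤ |-(u * (k' - k))| + |(u - 1) * k| := abs_sub _ _
          _ = |u| * |k' - k| + |u - 1| * |k| := by rw [abs_neg, abs_mul, abs_mul]
          _ < ε := by nlinarith [abs_nonneg (k' - k), abs_nonneg (u - 1), abs_nonneg u]
    have hfin : ∫⁻ t in Ioo (k - δ) (k + δ), W f N t ≤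
        ENNReal.ofReal ((3 / 2) ^ N) * (ENNReal.ofReal |(-u)⁻¹| * ∫⁻ v : ℝ, H (u, v)) := by
      rw [← comp_mul (fun v => H (u, v)) hu0, ← lintegral_const_mul' _ _ ENNReal.ofReal_ne_top]
      refine (setLIntegral_mono' measurableSet_Ioo fun t ht => ?_).trans
        (setLIntegral_le_lintegral _ _)
      have h1 := W_le f N (u := u) (k := t) (by linarith) (by linarith)
      have h2 : H (u, -u * t) = Wn f N (u, -u * t) := by
        rw [hH, Set.indicator_of_mem (hmem t ht)]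
      rw [h2]
      exact h1
    exact hfin.trans_lt (ENNReal.mul_lt_top ENNReal.ofReal_lt_top
      (ENNReal.mul_lt_top ENNReal.ofReal_lt_top hlt))

end Pool.Agent.H77.RT.T.ALS
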