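import Pool.Agent.H77.RT.Stm

/-! Stub BAI of project RT: Baire category in a closed set of reals. -/

set_option autoImplicit false

namespace Pool.Agent.H77.RT.T.BAI

open Set Topology

/-- Baire category in a closed set of reals. -/
theorem main : S_BAI := by
  intro E F hE hne hF hsub
  have hcomplete : CompleteSpace E := hE.completeSpace_coe
  have hnonempty : Nonempty E := hne.to_subtype
  have h1 : ∀ n, IsClosed ((↑) ⁻¹' F n : Set E) := fun n => (hF n).preimage continuous_subtype_val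
  have h2 : (⋃ n, ((↑) ⁻¹' F n : Set E)) = univ := by
    rw [eq_univ_iff_forall]
    intro x
    obtain ⟨n, hn⟩ := mem_iUnion.1 (hsub x.2)
    exact mem_iUnion.2 ⟨n, hn⟩
  obtain ⟨n, x, hx⟩ := nonempty_interior_of_iUnion_of_closed h1 h2
  rw [mem_interior] at hx
  obtain ⟨U, hU, hUo, hxU⟩ := hx
  rw [isOpen_induced_iff] at hUo
  obtain ⟨V, hV, rfl⟩ := hUo
  obtain ⟨ε, hε, hball⟩ := Metric.isOpen_iff.1 hV x.1 hxU
  refine ⟨n, x.1 - ε, x.1 + ε, ⟨x.1, x.2, by constructor <;> linarith⟩, ?_⟩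
  rintro y ⟨hyE, hy1, hy2⟩
  have hyV : y ∈ V := hball (by
    rw [Metric.mem_ball, Real.dist_eq, abs_lt]
    constructor <;> linarith)
  exact hU (show (⟨y, hyE⟩ : E) ∈ (↑) ⁻¹' V from hyV)

end Pool.Agent.H77.RT.T.BAI
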