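import Pool.Agent.H77.RT.Stm

/-! BND: uniform bound near a slope with `W < ∞`. -/

set_option autoImplicit false

namespace Pool.Agent.H77.RT.T.BND

open MeasureTheory Filter Topology Set
open scoped ENNReal ContDiff FourierTransform

theorem main (h : S_KER) : S_BND := by
  intro a ha θ hθ N
  obtain ⟨C, hC⟩ := h a ha θ hθ N
  refine ⟨max C 0, le_max_right _ _, ?_⟩
  intro f hf r k k₁ hr hk hW
  have hb : ∀ q : ℝ × ℝ, ‖f q * kern a θ (q.1 - k * q.2) (r * q.2)‖ ≤
      max C 0 * (‖f q‖ / (1 + |q.1 - k₁ * q.2|) ^ N) := by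
    intro q
    have h1 : 1 + |q.1 - k₁ * q.2| ≤ 1 + |q.1 - k * q.2| + |r * q.2| := by
      have h2 : |q.1 - k₁ * q.2| ≤ |q.1 - k * q.2| + |(k - k₁) * q.2| := by
        have := abs_add_le (q.1 - k * q.2) ((k - k₁) * q.2)
        have e : q.1 - k * q.2 + (k - k₁) * q.2 = q.1 - k₁ * q.2 := by ring
        rwa [e] at this
      have h3 : |(k - k₁) * q.2| ≤ |r * q.2| := by
        rw [abs_mul, abs_mul, abs_of_pos hr]
        exact mul_le_mul_of_nonneg_right hk (abs_nonneg _)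
      linarith
    have h0 : 0 < 1 + |q.1 - k₁ * q.2| := by positivity
    have h4 : ‖kern a θ (q.1 - k * q.2) (r * q.2)‖ ≤ max C 0 / (1 + |q.1 - k₁ * q.2|) ^ N := by
      calc ‖kern a θ (q.1 - k * q.2) (r * q.2)‖
          ≤ C / (1 + |q.1 - k * q.2| + |r * q.2|) ^ N := hC _ _
        _ ≤ max C 0 / (1 + |q.1 - k * q.2| + |r * q.2|) ^ N := by
            apply div_le_div_of_nonneg_right (le_max_left _ _)
            positivity
        _ ≤ max C 0 / (1 + |q.1 - k₁ * q.2|) ^ N := by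
            apply div_le_div_of_nonneg_left (le_max_right _ _) (pow_pos h0 N)
            exact pow_le_pow_left₀ h0.le h1 N
    rw [norm_mul]
    calc ‖f q‖ * ‖kern a θ (q.1 - k * q.2) (r * q.2)‖
        ≤ ‖f q‖ * (max C 0 / (1 + |q.1 - k₁ * q.2|) ^ N) :=
          mul_le_mul_of_nonneg_left h4 (norm_nonneg _)
      _ = _ := by ring
  unfold Gr
  refine (norm_integral_le_lintegral_norm _).trans ?_
  have h5 : ∫⁻ q : ℝ × ℝ, ENNReal.ofReal ‖f q * kern a θ (q.1 - k * q.2) (r * q.2)‖ ≤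
      ENNReal.ofReal (max C 0) * W f N k₁ := by
    unfold W
    rw [← lintegral_const_mul' _ _ ENNReal.ofReal_ne_top]
    apply lintegral_mono
    intro q
    show ENNReal.ofReal _ ≤ ENNReal.ofReal _ * ENNReal.ofReal _
    rw [← ENNReal.ofReal_mul (le_max_right _ _)]
    exact ENNReal.ofReal_le_ofReal (hb q)
  have h6 := ENNReal.toReal_mono (ENNReal.mul_ne_top ENNReal.ofReal_ne_top hW.ne) h5
  rwa [ENNReal.toReal_mul, ENNReal.toReal_ofReal (le_max_right _ _)] at h6

end Pool.Agent.H77.RT.T.BND
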