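import Pool.Agent.H77.RT.Stm

/-!
# EXN: two independent directions with finite weights
-/

set_option autoImplicit false

namespace Pool.Agent.H77.RT.T.EXN

open MeasureTheory Filter Topology Set
open scoped ENNReal ContDiff FourierTransform

lemma exists_lt_top {α : Type*} [MeasurableSpace α] {μ : Measure α} {s : Set α}
    (hs : MeasurableSet s) (h0 : μ s ≠ 0) {F : α → ℝ≥0∞} (h : ∫⁻ x in s, F x ∂μ < ⊤) :
    ∃ x ∈ s, F x < ⊤ := by
  by_contra hcon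
  push Not at hcon
  have h1 : ∫⁻ x in s, F x ∂μ = ⊤ := by
    have h2 : ∫⁻ x in s, F x ∂μ = ∫⁻ _ in s, ⊤ ∂μ :=
      setLIntegral_congr_fun hs (fun x hx => top_le_iff.1 (hcon x hx))
    rw [h2, setLIntegral_const, ENNReal.top_mul h0]
  exact h.ne h1

lemma near (f : ℝ × ℝ → ℂ) (n : ℝ × ℝ) (h : GoodN f n) {r : ℝ} (hr : 0 < r) :
    ∃ m ∈ Metric.ball n r, ∃ N : ℕ, Wn f N m < ⊤ := by
  rcases h with ⟨N, hN⟩ | ⟨N, ε, hε, hint⟩
  · exact ⟨n, Metric.mem_ball_self hr, N, hN⟩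
  · have hρ : 0 < min ε r := lt_min hε hr
    have h1 : ∫⁻ m in Metric.ball n (min ε r), Wn f N m < ⊤ :=
      (lintegral_mono_set (Metric.ball_subset_ball (min_le_left _ _))).trans_lt hint
    obtain ⟨m, hm, hlt⟩ := exists_lt_top measurableSet_ball
      (Metric.measure_ball_pos volume n hρ).ne' h1
    exact ⟨m, Metric.ball_subset_ball (min_le_right _ _) hm, N, hlt⟩

lemma Wn_anti (f : ℝ × ℝ → ℂ) {N N' : ℕ} (h : N ≤ N') (n : ℝ × ℝ) : Wn f N' n ≤ Wn f N n := by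
  unfold Wn
  refine lintegral_mono fun q => ENNReal.ofReal_le_ofReal ?_
  have h1 : 1 ≤ 1 + |n.1 * q.1 + n.2 * q.2| := by
    have := abs_nonneg (n.1 * q.1 + n.2 * q.2)
    linarith
  exact div_le_div_of_nonneg_left (norm_nonneg _) (by positivity) (pow_le_pow_right₀ h1 h)

theorem main : S_EXN := by
  intro f _ hgood
  obtain ⟨n₁, h1, N₁, hN₁⟩ := near f (1, 0) (hgood (1, 0) (by simp)) (r := 1 / 4) (by norm_num)
  obtain ⟨n₂, h2, N₂, hN₂⟩ := near f (0, 1) (hgood (0, 1) (by simp)) (r := 1 / 4) (by norm_num)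
  refine ⟨n₁, n₂, max N₁ N₂, ?_, (Wn_anti f (le_max_left _ _) _).trans_lt hN₁,
    (Wn_anti f (le_max_right _ _) _).trans_lt hN₂⟩
  rw [Metric.mem_ball, Prod.dist_eq, max_lt_iff, Real.dist_eq, Real.dist_eq, abs_lt, abs_lt] at h1 h2
  obtain ⟨⟨a1, a2⟩, b1, b2⟩ := h1
  obtain ⟨⟨c1, c2⟩, d1, d2⟩ := h2
  simp only at a1 a2 b1 b2 c1 c2 d1 d2
  have e1 : (3 / 4 : ℝ) * (3 / 4) < n₁.1 * n₂.2 :=
    mul_lt_mul'' (by linarith) (by linarith) (by norm_num) (by norm_num)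
  have e2 : n₁.2 * n₂.1 ≤ 1 / 4 * (1 / 4) := by
    have h3 : |n₁.2| ≤ 1 / 4 := by rw [abs_le]; constructor <;> linarith
    have h4 : |n₂.1| ≤ 1 / 4 := by rw [abs_le]; constructor <;> linarith
    calc n₁.2 * n₂.1 ≤ |n₁.2 * n₂.1| := le_abs_self _
      _ = |n₁.2| * |n₂.1| := abs_mul _ _
      _ ≤ 1 / 4 * (1 / 4) := mul_le_mul h3 h4 (abs_nonneg _) (by norm_num)
  intro h
  linarith

end Pool.Agent.H77.RT.T.EXN
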