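import Pool.Agent.H77.RT.Stm

/-! # Project RT, stub FIN (helper44) -/

set_option autoImplicit false

namespace Pool.Agent.H77.RT.T.FIN

open MeasureTheory Filter Topology Set
open scoped ENNReal ContDiff FourierTransform SchwartzMap

/-- the Fourier transform of a test function is rapidly decreasing and continuous -/
theorem four (B : ℝ → ℂ) (h1 : ContDiff ℝ ∞ B) (h2 : HasCompactSupport B) (N : ℕ) :
    Continuous (𝓕 B) ∧ ∃ C : ℝ, ∀ y, ‖𝓕 B y‖ ≤ C / (1 + |y|) ^ N := by
  set b : 𝓢(ℝ, ℂ) := h2.toSchwartzMap h1 with hb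
  have hbB : (b : ℝ → ℂ) = B := by
    ext x
    rfl
  have hF : ((𝓕 b : 𝓢(ℝ, ℂ)) : ℝ → ℂ) = 𝓕 B := by
    rw [SchwartzMap.fourier_coe, hbB]
  refine ⟨?_, ?_⟩
  · rw [← hF]
    exact (𝓕 b : 𝓢(ℝ, ℂ)).continuous
  · refine ⟨2 ^ N * ((Finset.Iic (N, 0)).sup fun m => SchwartzMap.seminorm ℝ m.1 m.2) (𝓕 b : 𝓢(ℝ, ℂ)), fun y => ?_⟩
    have h3 := SchwartzMap.one_add_le_sup_seminorm_apply (𝕜 := ℝ) (m := (N, 0)) (k := N) (n := 0)
      le_rfl le_rfl (𝓕 b : 𝓢(ℝ, ℂ)) y
    rw [norm_iteratedFDeriv_zero, Real.norm_eq_abs, hF] at h3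
    rw [le_div_iff₀ (by positivity), mul_comm]
    exact h3

/-- integrability of `f q * w q` when `|w q| ≤ C / (1 + |q.i|)^N` -/
theorem int_aux (f w : ℝ × ℝ → ℂ) (v : ℝ × ℝ → ℝ) (hf : Measurable f) (hw : Measurable w)
    (hI : ∫⁻ q : ℝ × ℝ, ENNReal.ofReal (‖f q‖ / v q) < ⊤) (C : ℝ) (hC : 0 ≤ C)
    (hb : ∀ q, ‖w q‖ ≤ C / v q) : Integrable fun q => f q * w q := by
  refine ⟨(hf.mul hw).aestronglyMeasurable, ?_⟩
  rw [hasFiniteIntegral_iff_norm]
  have h1 : ∫⁻ q : ℝ × ℝ, ENNReal.ofReal ‖f q * w q‖ ≤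
      ENNReal.ofReal C * ∫⁻ q : ℝ × ℝ, ENNReal.ofReal (‖f q‖ / v q) := by
    rw [← lintegral_const_mul' _ _ ENNReal.ofReal_ne_top]
    refine lintegral_mono fun q => ?_
    rw [← ENNReal.ofReal_mul hC]
    apply ENNReal.ofReal_le_ofReal
    rw [norm_mul]
    calc ‖f q‖ * ‖w q‖ ≤ ‖f q‖ * (C / v q) := mul_le_mul_of_nonneg_left (hb q) (norm_nonneg _)
      _ = C * (‖f q‖ / v q) := by ring
  exact h1.trans_lt (ENNReal.mul_lt_top ENNReal.ofReal_lt_top hI)

/-- the integrals over rectangles determine an integrable function -/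
theorem rect (F : ℝ × ℝ → ℂ) (hF : Integrable F)
    (h : ∀ s t : Set ℝ, MeasurableSet s → MeasurableSet t → ∫ q in s ×ˢ t, F q = 0) :
    F =ᵐ[volume] 0 := by
  have hu : ∫ q, F q = 0 := by
    have := h univ univ MeasurableSet.univ MeasurableSet.univ
    rwa [univ_prod_univ, setIntegral_univ] at this
  have key : ∀ S : Set (ℝ × ℝ), MeasurableSet S → ∫ q in S, F q = 0 := by
    intro S hS
    induction S, hS using MeasurableSpace.induction_on_inter generateFrom_prod.symm isPiSystem_prod with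
    | empty => simp
    | basic S hS =>
      obtain ⟨s, hs, t, ht, rfl⟩ := hS
      exact h s t hs ht
    | compl S hS ih =>
      have := integral_add_compl hS hF
      rw [ih, hu, zero_add] at this
      exact this
    | iUnion S hd hm ih =>
      rw [integral_iUnion hm hd hF.integrableOn]
      simp [ih]
  exact hF.ae_eq_zero_of_forall_setIntegral_eq_zero fun s hs _ => key s hs

theorem main (h : S_L1F) : S_FIN := by
  intro f N hf hI1 hI2 hz
  -- first step
  have step1 : ∀ B : ℝ → ℂ, ContDiff ℝ ∞ B → HasCompactSupport B →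
      ∀ᵐ x : ℝ, ∫ y : ℝ, f (x, y) * 𝓕 B y = 0 := by
    intro B hB1 hB2
    obtain ⟨hc, C, hC⟩ := four B hB1 hB2 N
    have hC0 : 0 ≤ C := by
      have h0 := hC 0
      simp only [abs_zero, add_zero, one_pow, div_one] at h0
      exact (norm_nonneg _).trans h0
    have hm : Measurable fun q : ℝ × ℝ => 𝓕 B q.2 := hc.measurable.comp measurable_snd
    have hi : Integrable (fun q : ℝ × ℝ => f q * 𝓕 B q.2) (volume.prod volume) :=
      int_aux f (fun q => 𝓕 B q.2) (fun q => (1 + |q.2|) ^ N) hf hm hI2 C hC0 fun q => hC q.2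
    refine h (fun x => ∫ y : ℝ, f (x, y) * 𝓕 B y) hi.integral_prod_left ?_
    intro A hA1 hA2 hA0
    obtain ⟨hcA, CA, hCA⟩ := four A hA1 hA2 0
    have hi2 : Integrable (fun q : ℝ × ℝ => f q * 𝓕 B q.2 * 𝓕 A q.1) (volume.prod volume) := by
      refine hi.mul_bdd (c := CA) ?_ ?_
      · exact (hcA.comp continuous_fst).aestronglyMeasurable
      · exact Eventually.of_forall fun q => by simpa using hCA q.1
    have h1 : ∫ x : ℝ, (∫ y : ℝ, f (x, y) * 𝓕 B y) * 𝓕 A x =
        ∫ q : ℝ × ℝ, f q * 𝓕 B q.2 * 𝓕 A q.1 := by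
      rw [Measure.volume_eq_prod, integral_prod _ hi2]
      refine integral_congr_ae (Eventually.of_forall fun x => ?_)
      exact (integral_mul_const _ _).symm
    rw [h1, ← hz A B hA1 hA2 hA0 hB1 hB2]
    refine integral_congr_ae (Eventually.of_forall fun q => ?_)
    change f q * 𝓕 B q.2 * 𝓕 A q.1 = f q * (𝓕 A q.1 * 𝓕 B q.2)
    ring
  -- second step
  have step2 : ∀ (R : ℕ) (s : Set ℝ), MeasurableSet s →
      ∀ᵐ y : ℝ, ∫ x : ℝ, f (x, y) * (s ∩ Icc (-(R : ℝ)) R).indicator (fun _ => (1 : ℂ)) x = 0 := by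
    intro R s hs
    set u : ℝ → ℂ := (s ∩ Icc (-(R : ℝ)) R).indicator (fun _ => (1 : ℂ)) with hu
    have hum : Measurable u := measurable_const.indicator (hs.inter measurableSet_Icc)
    have hub : ∀ x, ‖u x‖ ≤ (1 + (R : ℝ)) ^ N / (1 + |x|) ^ N := by
      intro x
      by_cases hx : x ∈ s ∩ Icc (-(R : ℝ)) R
      · rw [hu, indicator_of_mem hx, norm_one, one_le_div (by positivity)]
        have := abs_le.2 hx.2
        gcongr
      · rw [hu, indicator_of_notMem hx, norm_zero]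
        positivity
    have hi : Integrable (fun q : ℝ × ℝ => f q * u q.1) (volume.prod volume) :=
      int_aux f (fun q => u q.1) (fun q => (1 + |q.1|) ^ N) hf (hum.comp measurable_fst) hI1
        ((1 + (R : ℝ)) ^ N) (by positivity) fun q => hub q.1
    refine h (fun y => ∫ x : ℝ, f (x, y) * u x) hi.integral_prod_right ?_
    intro B hB1 hB2 _
    obtain ⟨hcB, CB, hCB⟩ := four B hB1 hB2 0
    have hi2 : Integrable (fun q : ℝ × ℝ => f q * u q.1 * 𝓕 B q.2) (volume.prod volume) := by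
      refine hi.mul_bdd (c := CB) ?_ ?_
      · exact (hcB.comp continuous_snd).aestronglyMeasurable
      · exact Eventually.of_forall fun q => by simpa using hCB q.2
    have h1 : ∫ y : ℝ, (∫ x : ℝ, f (x, y) * u x) * 𝓕 B y =
        ∫ q : ℝ × ℝ, f q * u q.1 * 𝓕 B q.2 := by
      rw [Measure.volume_eq_prod, integral_prod_symm _ hi2]
      refine integral_congr_ae (Eventually.of_forall fun y => ?_)
      exact (integral_mul_const _ _).symm
    rw [h1, Measure.volume_eq_prod, integral_prod _ hi2, integral_eq_zero_of_ae]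
    filter_upwards [step1 B hB1 hB2] with x hx
    have h2 : ∀ y : ℝ, f (x, y) * u x * 𝓕 B y = u x * (f (x, y) * 𝓕 B y) := fun y => by ring
    simp only [h2, integral_const_mul, hx, mul_zero, Pi.zero_apply]
  -- third step
  have step3 : ∀ R : ℕ, ∀ᵐ q : ℝ × ℝ, q.1 ∈ Icc (-(R : ℝ)) R → f q = 0 := by
    intro R
    set u : ℝ → ℂ := (Icc (-(R : ℝ)) R).indicator (fun _ => (1 : ℂ)) with hu
    have hum : Measurable u := measurable_const.indicator measurableSet_Icc
    have hub : ∀ x, ‖u x‖ ≤ (1 + (R : ℝ)) ^ N / (1 + |x|) ^ N := by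
      intro x
      by_cases hx : x ∈ Icc (-(R : ℝ)) R
      · rw [hu, indicator_of_mem hx, norm_one, one_le_div (by positivity)]
        have := abs_le.2 hx
        gcongr
      · rw [hu, indicator_of_notMem hx, norm_zero]
        positivity
    have hi : Integrable (fun q : ℝ × ℝ => f q * u q.1) (volume.prod volume) :=
      int_aux f (fun q => u q.1) (fun q => (1 + |q.1|) ^ N) hf (hum.comp measurable_fst) hI1
        ((1 + (R : ℝ)) ^ N) (by positivity) fun q => hub q.1
    have h0 : (fun q : ℝ × ℝ => f q * u q.1) =ᵐ[volume] 0 := by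
      refine rect _ hi fun s t hs ht => ?_
      rw [← integral_indicator (hs.prod ht), Measure.volume_eq_prod,
        integral_prod_symm _ (by exact hi.indicator (hs.prod ht)), integral_eq_zero_of_ae]
      filter_upwards [step2 R s hs] with y hy
      by_cases hyt : y ∈ t
      · rw [Pi.zero_apply, ← hy]
        refine integral_congr_ae (Eventually.of_forall fun x => ?_)
        by_cases hx1 : x ∈ s
        · by_cases hx2 : x ∈ Icc (-(R : ℝ)) R
          · have h3 : (x, y) ∈ s ×ˢ t := ⟨hx1, hyt⟩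
            have h4 : x ∈ s ∩ Icc (-(R : ℝ)) R := ⟨hx1, hx2⟩
            simp only [indicator_of_mem h3, indicator_of_mem h4, hu, indicator_of_mem hx2]
          · have h4 : x ∉ s ∩ Icc (-(R : ℝ)) R := fun h => hx2 h.2
            have h3 : (x, y) ∈ s ×ˢ t := ⟨hx1, hyt⟩
            simp only [indicator_of_mem h3, indicator_of_notMem h4, hu, indicator_of_notMem hx2]
        · have h3 : (x, y) ∉ s ×ˢ t := fun h => hx1 h.1
          have h4 : x ∉ s ∩ Icc (-(R : ℝ)) R := fun h => hx1 h.1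
          simp only [indicator_of_notMem h3, indicator_of_notMem h4, mul_zero]
      · have h3 : ∀ x : ℝ, (x, y) ∉ s ×ˢ t := fun x h => hyt h.2
        simp only [indicator_of_notMem (h3 _), integral_zero, Pi.zero_apply]
    filter_upwards [h0] with q hq hqm
    have h5 : f q * u q.1 = 0 := hq
    rwa [hu, indicator_of_mem hqm, mul_one] at h5
  have h6 : ∀ᵐ q : ℝ × ℝ, ∀ R : ℕ, q.1 ∈ Icc (-(R : ℝ)) R → f q = 0 := ae_all_iff.2 step3
  filter_upwards [h6] with q hq
  obtain ⟨R, hR⟩ := exists_nat_ge |q.1|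
  exact hq R (abs_le.1 hR)

end Pool.Agent.H77.RT.T.FIN
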