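import Pool.Agent.H77.RT.Stm

/-! # RT-GEO: linear change of variables -/

set_option autoImplicit false

namespace Pool.Agent.H77.RT.T.GEO

open MeasureTheory Filter Topology Set
open scoped ENNReal ContDiff

/-- the linear equivalence with matrix `(a b; c d)` -/
noncomputable def lin (a b c d : ℝ) (h : a * d - b * c ≠ 0) : (ℝ × ℝ) ≃L[ℝ] (ℝ × ℝ) :=
  LinearEquiv.toContinuousLinearEquiv
  { toFun := fun q => (a * q.1 + b * q.2, c * q.1 + d * q.2)
    map_add' := by intro x y; ext <;> simp <;> ring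
    map_smul' := by intro r x; ext <;> simp <;> ring
    invFun := fun u => ((d * u.1 - b * u.2) / (a * d - b * c),
      (-c * u.1 + a * u.2) / (a * d - b * c))
    left_inv := by
      intro x
      ext
      · show (d * (a * x.1 + b * x.2) - b * (c * x.1 + d * x.2)) / (a * d - b * c) = x.1
        rw [div_eq_iff h]; ring
      · show (-c * (a * x.1 + b * x.2) + a * (c * x.1 + d * x.2)) / (a * d - b * c) = x.2
        rw [div_eq_iff h]; ring
    right_inv := by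
      intro x
      ext
      · show a * ((d * x.1 - b * x.2) / (a * d - b * c))
          + b * ((-c * x.1 + a * x.2) / (a * d - b * c)) = x.1
        rw [mul_div_assoc', mul_div_assoc', ← add_div, div_eq_iff h]; ring
      · show c * ((d * x.1 - b * x.2) / (a * d - b * c))
          + d * ((-c * x.1 + a * x.2) / (a * d - b * c)) = x.2
        rw [mul_div_assoc', mul_div_assoc', ← add_div, div_eq_iff h]; ring }

lemma lin_apply (a b c d : ℝ) (h : a * d - b * c ≠ 0) (q : ℝ × ℝ) :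
    lin a b c d h q = (a * q.1 + b * q.2, c * q.1 + d * q.2) := rfl

lemma lin_symm_apply (a b c d : ℝ) (h : a * d - b * c ≠ 0) (u : ℝ × ℝ) :
    (lin a b c d h).symm u = ((d * u.1 - b * u.2) / (a * d - b * c),
      (-c * u.1 + a * u.2) / (a * d - b * c)) := rfl

lemma cov (e : (ℝ × ℝ) ≃L[ℝ] (ℝ × ℝ)) : ∃ C : ℝ≥0∞, C ≠ 0 ∧ C ≠ ⊤ ∧
    Measure.map e (volume : Measure (ℝ × ℝ)) = C • volume := by
  have hdet : LinearMap.det (e.toLinearEquiv : (ℝ × ℝ) →ₗ[ℝ] (ℝ × ℝ)) ≠ 0 :=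
    (LinearEquiv.isUnit_det' _).ne_zero
  refine ⟨ENNReal.ofReal |(LinearMap.det (e.toLinearEquiv : (ℝ × ℝ) →ₗ[ℝ] (ℝ × ℝ)))⁻¹|,
    ?_, ENNReal.ofReal_ne_top, ?_⟩
  · rw [Ne, ENNReal.ofReal_eq_zero, not_le]
    exact abs_pos.2 (inv_ne_zero hdet)
  · exact Measure.map_linearMap_addHaar_eq_smul_addHaar _ hdet

lemma lint (e : (ℝ × ℝ) ≃L[ℝ] (ℝ × ℝ)) : ∃ C : ℝ≥0∞, C ≠ ⊤ ∧
    ∀ F : ℝ × ℝ → ℝ≥0∞, ∫⁻ u, F (e u) = C * ∫⁻ q, F q := by
  obtain ⟨C, _, h1, h2⟩ := cov e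
  refine ⟨C, h1, fun F => ?_⟩
  have h3 : ∫⁻ q, F q ∂(Measure.map e (volume : Measure (ℝ × ℝ))) = ∫⁻ u, F (e u) :=
    MeasurableEmbedding.lintegral_map e.toHomeomorph.measurableEmbedding F
  rw [← h3, h2, lintegral_smul_measure, smul_eq_mul]

lemma aeq (e : (ℝ × ℝ) ≃L[ℝ] (ℝ × ℝ)) (P : ℝ × ℝ → Prop) :
    (∀ᵐ u : ℝ × ℝ, P (e u)) ↔ ∀ᵐ q : ℝ × ℝ, P q := by
  obtain ⟨C, h0, h1, h2⟩ := cov e
  have h3 : (∀ᵐ q ∂(Measure.map e (volume : Measure (ℝ × ℝ))), P q) ↔ ∀ᵐ u : ℝ × ℝ, P (e u) :=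
    MeasurableEmbedding.ae_map_iff e.toHomeomorph.measurableEmbedding
  rw [← h3, h2, Measure.ae_ennreal_smul_measure_iff h0]

theorem main : S_GEO := by
  intro f n₁ n₂ hf hD
  obtain ⟨a, b⟩ := n₁
  obtain ⟨c, d⟩ := n₂
  simp only at hD
  have hD' : a * d - c * b ≠ 0 := by rwa [mul_comm c b]
  set e := lin a b c d hD with he
  set L := lin a c b d hD' with hL
  obtain ⟨C, hC, hCF⟩ := lint e.symm
  obtain ⟨C', hC', hCF'⟩ := lint L
  have hW : ∀ (N : ℕ) (n : ℝ × ℝ), Wn (fun u => f (e.symm u)) N n = C * Wn f N (L n) := by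
    intro N n
    unfold Wn
    rw [← hCF]
    refine lintegral_congr fun u => ?_
    have h1 : (L n).1 * (e.symm u).1 + (L n).2 * (e.symm u).2 = n.1 * u.1 + n.2 * u.2 := by
      have h2 : e (e.symm u) = u := e.apply_symm_apply u
      have h3 : a * (e.symm u).1 + b * (e.symm u).2 = u.1 := congrArg Prod.fst h2
      have h4 : c * (e.symm u).1 + d * (e.symm u).2 = u.2 := congrArg Prod.snd h2
      rw [← h3, ← h4, hL, lin_apply]
      simp only
      ring
    rw [h1]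
  refine ⟨fun u => f (e.symm u), hf.comp e.symm.continuous.measurable, ?_, ?_, ?_, ?_, ?_⟩
  · intro N h
    rw [hW]
    have h1 : L (1, 0) = (a, b) := by rw [hL, lin_apply]; simp
    rw [h1]
    exact ENNReal.mul_lt_top hC.lt_top h
  · intro N h
    rw [hW]
    have h1 : L (0, 1) = (c, d) := by rw [hL, lin_apply]; simp
    rw [h1]
    exact ENNReal.mul_lt_top hC.lt_top h
  · intro hG n hn
    have hLn : L n ≠ 0 := by
      intro h
      exact hn (by simpa using h)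
    rcases hG _ hLn with ⟨N, h⟩ | ⟨N, ε, hε, h⟩
    · left
      refine ⟨N, ?_⟩
      rw [hW]
      exact ENNReal.mul_lt_top hC.lt_top h
    · right
      obtain ⟨δ, hδ, hδb⟩ := Metric.continuousAt_iff.1 (L.continuous.continuousAt (x := n)) ε hε
      refine ⟨N, δ, hδ, ?_⟩
      have h1 : ∫⁻ m in Metric.ball n δ, Wn (fun u => f (e.symm u)) N m
          ≤ ∫⁻ m, C * (Metric.ball (L n) ε).indicator (Wn f N) (L m) := by
        rw [← lintegral_indicator Metric.isOpen_ball.measurableSet]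
        refine lintegral_mono fun m => ?_
        by_cases hm : m ∈ Metric.ball n δ
        · rw [indicator_of_mem hm, hW, indicator_of_mem]
          exact hδb hm
        · rw [indicator_of_notMem hm]
          exact zero_le
      refine lt_of_le_of_lt h1 ?_
      rw [lintegral_const_mul' _ _ hC, hCF' (fun m => (Metric.ball (L n) ε).indicator (Wn f N) m),
        lintegral_indicator Metric.isOpen_ball.measurableSet]
      exact ENNReal.mul_lt_top hC.lt_top (ENNReal.mul_lt_top hC'.lt_top h)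
  · intro hLZ
    unfold LineZero at hLZ ⊢
    rw [← aeq L] at hLZ
    filter_upwards [hLZ] with n hn
    by_cases hn0 : n = 0
    · subst hn0
      simp [Measure.real]
    have hLn : L n ≠ 0 := by
      intro h
      exact hn0 (by simpa using h)
    set m := L n with hm
    have hm1 : m.1 = a * n.1 + c * n.2 := by rw [hm, hL, lin_apply]
    have hm2 : m.2 = b * n.1 + d * n.2 := by rw [hm, hL, lin_apply]
    have hmm : m.1 ^ 2 + m.2 ^ 2 ≠ 0 := by
      intro h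
      apply hLn
      have h1 : m.1 = 0 := by nlinarith [sq_nonneg m.1, sq_nonneg m.2]
      have h2 : m.2 = 0 := by nlinarith [sq_nonneg m.1, sq_nonneg m.2]
      exact Prod.ext h1 h2
    have hnn : n.1 ^ 2 + n.2 ^ 2 ≠ 0 := by
      intro h
      apply hn0
      have h1 : n.1 = 0 := by nlinarith [sq_nonneg n.1, sq_nonneg n.2]
      have h2 : n.2 = 0 := by nlinarith [sq_nonneg n.1, sq_nonneg n.2]
      exact Prod.ext h1 h2
    -- base point
    set x0 : ℝ := (d * (n.1 / (n.1 ^ 2 + n.2 ^ 2)) - b * (n.2 / (n.1 ^ 2 + n.2 ^ 2)))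
      / (a * d - b * c) with hx0
    set y0 : ℝ := (-c * (n.1 / (n.1 ^ 2 + n.2 ^ 2)) + a * (n.2 / (n.1 ^ 2 + n.2 ^ 2)))
      / (a * d - b * c) with hy0
    have hxy : m.1 * x0 + m.2 * y0 = 1 := by
      rw [hm1, hm2, hx0, hy0]
      field_simp
      ring
    set t0 : ℝ := (-m.2 * x0 + m.1 * y0) / (m.1 ^ 2 + m.2 ^ 2) with ht0
    have hX : ∀ s : ℝ, m.1 / (m.1 ^ 2 + m.2 ^ 2) - (t0 + (a * d - b * c)⁻¹ * s) * m.2
        = (d * (n.1 / (n.1 ^ 2 + n.2 ^ 2) - s * n.2) - b * (n.2 / (n.1 ^ 2 + n.2 ^ 2) + s * n.1))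
          / (a * d - b * c) := by
      intro s
      have h1 : m.1 / (m.1 ^ 2 + m.2 ^ 2) - t0 * m.2 = x0 := by
        rw [ht0]
        rw [div_mul_eq_mul_div, ← sub_div, div_eq_iff hmm]
        linear_combination (-m.1) * hxy
      have h2 : (d * (n.1 / (n.1 ^ 2 + n.2 ^ 2) - s * n.2)
          - b * (n.2 / (n.1 ^ 2 + n.2 ^ 2) + s * n.1)) / (a * d - b * c)
          = x0 - (a * d - b * c)⁻¹ * s * m.2 := by
        rw [hx0, hm2, div_eq_mul_inv _ (a * d - b * c), div_eq_mul_inv _ (a * d - b * c)]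
        ring
      rw [h2, ← h1]
      ring
    have hY : ∀ s : ℝ, m.2 / (m.1 ^ 2 + m.2 ^ 2) + (t0 + (a * d - b * c)⁻¹ * s) * m.1
        = (-c * (n.1 / (n.1 ^ 2 + n.2 ^ 2) - s * n.2) + a * (n.2 / (n.1 ^ 2 + n.2 ^ 2) + s * n.1))
          / (a * d - b * c) := by
      intro s
      have h1 : m.2 / (m.1 ^ 2 + m.2 ^ 2) + t0 * m.1 = y0 := by
        rw [ht0]
        rw [div_mul_eq_mul_div, ← add_div, div_eq_iff hmm]
        linear_combination (-m.2) * hxy
      have h2 : (-c * (n.1 / (n.1 ^ 2 + n.2 ^ 2) - s * n.2)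
          + a * (n.2 / (n.1 ^ 2 + n.2 ^ 2) + s * n.1)) / (a * d - b * c)
          = y0 + (a * d - b * c)⁻¹ * s * m.1 := by
        rw [hy0, hm1, div_eq_mul_inv _ (a * d - b * c), div_eq_mul_inv _ (a * d - b * c)]
        ring
      rw [h2, ← h1]
      ring
    have hE : ∀ s : ℝ, f (e.symm (n.1 / (n.1 ^ 2 + n.2 ^ 2) - s * n.2,
        n.2 / (n.1 ^ 2 + n.2 ^ 2) + s * n.1))
        = (fun r : ℝ => f (m.1 / (m.1 ^ 2 + m.2 ^ 2) - (t0 + r) * m.2,
            m.2 / (m.1 ^ 2 + m.2 ^ 2) + (t0 + r) * m.1)) ((a * d - b * c)⁻¹ * s) := by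
      intro s
      simp only
      rw [hX, hY, he, lin_symm_apply]
    show ∫ s : ℝ, f (e.symm (n.1 / (n.1 ^ 2 + n.2 ^ 2) - s * n.2,
        n.2 / (n.1 ^ 2 + n.2 ^ 2) + s * n.1)) = 0
    rw [integral_congr_ae (Eventually.of_forall hE)]
    refine (Measure.integral_comp_mul_left (fun r : ℝ => f (m.1 / (m.1 ^ 2 + m.2 ^ 2)
      - (t0 + r) * m.2, m.2 / (m.1 ^ 2 + m.2 ^ 2) + (t0 + r) * m.1)) (a * d - b * c)⁻¹).trans ?_
    have h5 := integral_add_left_eq_self (μ := (volume : Measure ℝ))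
      (fun r : ℝ => f (m.1 / (m.1 ^ 2 + m.2 ^ 2) - r * m.2,
        m.2 / (m.1 ^ 2 + m.2 ^ 2) + r * m.1)) t0
    rw [h5, hn, smul_zero]
  · intro h
    have h1 : ∀ᵐ u : ℝ × ℝ, f (e.symm u) = 0 := h
    exact (aeq e.symm (fun q => f q = 0)).1 h1

end Pool.Agent.H77.RT.T.GEO
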