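import Pool.Agent.H77.RT.Stm

set_option autoImplicit false

namespace Pool.Agent.H77.RT.T.GRT

open MeasureTheory Filter Topology Set
open scoped ENNReal ContDiff FourierTransform

theorem main : S_GRT := by
  intro f a θ r k hr
  unfold Gr T
  congr 1
  funext q
  congr 1
  unfold kern
  have h1 : (fun t : ℝ => ((r⁻¹ * θ ((t - k) / r) : ℝ) : ℂ) * a (q.1 - t * q.2)) =
      fun t => (fun s : ℝ => ((r⁻¹ * θ s : ℝ) : ℂ) * a (q.1 - (k + r * s) * q.2)) ((t - k) / r) := by
    funext t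
    simp only
    rw [mul_div_cancel₀ _ hr.ne', add_sub_cancel]
  rw [h1, integral_sub_right_eq_self
    (fun t => (fun s : ℝ => ((r⁻¹ * θ s : ℝ) : ℂ) * a (q.1 - (k + r * s) * q.2)) (t / r)) k,
    Measure.integral_comp_div
      (fun s : ℝ => ((r⁻¹ * θ s : ℝ) : ℂ) * a (q.1 - (k + r * s) * q.2)) r, abs_of_pos hr,
    ← integral_smul]
  congr 1
  funext s
  rw [Complex.real_smul, show q.1 - k * q.2 - s * (r * q.2) = q.1 - (k + r * s) * q.2 by ring]
  have : (r : ℂ) ≠ 0 := by exact_mod_cast hr.ne'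
  push_cast
  field_simp

end Pool.Agent.H77.RT.T.GRT
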