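import Pool.Agent.H77.RT.Stm

/-! # Project RT, stub IDF (helper27) -/

set_option autoImplicit false

namespace Pool.Agent.H77.RT.T.IDF

open MeasureTheory Filter Topology Set
open scoped ENNReal ContDiff FourierTransform

/-- the character -/
noncomputable def E (u : ℝ) : ℂ := Complex.exp (((2 * Real.pi * u : ℝ) : ℂ) * Complex.I)

theorem E_norm (u : ℝ) : ‖E u‖ = 1 := Complex.norm_exp_ofReal_mul_I _

theorem E_add (u v : ℝ) : E (u + v) = E u * E v := by
  unfold E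
  rw [← Complex.exp_add]
  congr 1
  push_cast
  ring

theorem E_cont : Continuous E := by
  unfold E
  fun_prop

theorem four (f : ℝ → ℂ) (w : ℝ) : 𝓕 f w = ∫ v : ℝ, f v * E (-(v * w)) := by
  rw [Real.fourier_real_eq_integral_exp_smul]
  refine integral_congr_ae (ae_of_all _ fun v => ?_)
  simp only [smul_eq_mul]
  rw [mul_comm]
  unfold E
  congr 2
  push_cast
  ring

theorem fub (p q : ℝ → ℂ) (φ : ℝ × ℝ → ℂ) (hp : Integrable p) (hq : Integrable q)
    (hφ : Continuous φ) (C : ℝ) (hb : ∀ z, ‖φ z‖ ≤ C) :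
    ∫ s, p s * ∫ t, q t * φ (s, t) = ∫ t, q t * ∫ s, p s * φ (s, t) := by
  have h : Integrable (Function.uncurry fun s t => p s * (q t * φ (s, t)))
      ((volume : Measure ℝ).prod (volume : Measure ℝ)) := by
    have h0 := (hp.mul_prod hq)
    have h1 := h0.bdd_mul (hφ.aestronglyMeasurable) (ae_of_all _ hb)
    refine h1.congr (ae_of_all _ fun z => ?_)
    simp only [Function.uncurry]
    ring
  have h2 := integral_integral_swap h
  calc ∫ s, p s * ∫ t, q t * φ (s, t) = ∫ s, ∫ t, p s * (q t * φ (s, t)) := by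
        refine integral_congr_ae (ae_of_all _ fun s => ?_)
        exact (integral_const_mul _ _).symm
    _ = ∫ t, ∫ s, p s * (q t * φ (s, t)) := h2
    _ = _ := by
        refine integral_congr_ae (ae_of_all _ fun t => ?_)
        simp only
        rw [← integral_const_mul]
        refine integral_congr_ae (ae_of_all _ fun s => ?_)
        ring

theorem stepA (g : ℝ → ℂ) (Θ : ℝ → ℝ) (hg : Integrable g) (hΘ : Integrable fun k => (Θ k : ℂ))
    (x u : ℝ) :
    kern (𝓕 g) Θ x u = ∫ ξ, (g ξ * E (-(ξ * x))) * 𝓕 (fun k => (Θ k : ℂ)) (-(ξ * u)) := by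
  unfold kern
  have h1 : ∀ k : ℝ, (Θ k : ℂ) * 𝓕 g (x - k * u) =
      (Θ k : ℂ) * ∫ ξ, g ξ * E (-(ξ * (x - k * u))) := by
    intro k
    rw [four]
  simp_rw [h1]
  have hf := fub (fun k => (Θ k : ℂ)) g (fun z => E (-(z.2 * (x - z.1 * u)))) hΘ hg
    (E_cont.comp (by fun_prop)) 1 (fun z => (E_norm _).le)
  simp only at hf
  rw [hf]
  refine integral_congr_ae (ae_of_all _ fun ξ => ?_)
  have h5 : ∫ k, (Θ k : ℂ) * E (-(ξ * (x - k * u))) =
      E (-(ξ * x)) * 𝓕 (fun k => (Θ k : ℂ)) (-(ξ * u)) := by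
    rw [four (fun k => (Θ k : ℂ)), ← integral_const_mul]
    refine integral_congr_ae (ae_of_all _ fun k => ?_)
    simp only
    rw [show -(ξ * (x - k * u)) = -(ξ * x) + -(k * -(ξ * u)) by ring, E_add]
    ring
  simp only
  rw [h5]
  ring

theorem stepC (B : ℝ → ℂ) (hB : ContDiff ℝ ∞ B) (hBc : HasCompactSupport B) (Θ : ℝ → ℝ)
    (hΘ : Integrable fun k => (Θ k : ℂ)) (ξ : ℝ) (hξ : ξ ≠ 0)
    (hone : ∀ η, B η ≠ 0 → Θ (-η / ξ) = 1) (y : ℝ) :
    ∫ t, 𝓕 B t * 𝓕 (fun k => (Θ k : ℂ)) (-(ξ * (y - t))) = ((|ξ|⁻¹ : ℝ) : ℂ) * 𝓕 B y := by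
  have hBi : Integrable B := hB.continuous.integrable_of_hasCompactSupport hBc
  have hFB : Integrable (𝓕 B) := by
    have := (𝓕 (hBc.toSchwartzMap hB)).integrable (μ := volume)
    rwa [SchwartzMap.fourier_coe] at this
  have hinv : ∀ w, 𝓕 (𝓕 B) w = B (-w) := by
    intro w
    have h1 := hB.continuous.fourierInv_fourier_eq hBi hFB
    have h2 := congrFun h1 (-w)
    rw [Real.fourierInv_eq_fourier_neg, neg_neg] at h2
    exact h2
  have h1 : ∀ t : ℝ, 𝓕 B t * 𝓕 (fun k => (Θ k : ℂ)) (-(ξ * (y - t))) =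
      𝓕 B t * ∫ k, (Θ k : ℂ) * E (-(k * -(ξ * (y - t)))) := by
    intro t
    rw [four (fun k => (Θ k : ℂ))]
  simp_rw [h1]
  have hf := fub (𝓕 B) (fun k => (Θ k : ℂ)) (fun z => E (-(z.2 * -(ξ * (y - z.1))))) hFB hΘ
    (E_cont.comp (by fun_prop)) 1 (fun z => (E_norm _).le)
  simp only at hf
  rw [hf]
  have h2 : ∀ k : ℝ, (Θ k : ℂ) * ∫ t, 𝓕 B t * E (-(k * -(ξ * (y - t)))) =
      (fun η => B η * E (-(η * y))) (-ξ * k) := by
    intro k
    have h3 : ∫ t, 𝓕 B t * E (-(k * -(ξ * (y - t)))) =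
        E (k * ξ * y) * B (-(k * ξ)) := by
      rw [← hinv, four, ← integral_const_mul]
      refine integral_congr_ae (ae_of_all _ fun t => ?_)
      simp only
      rw [show -(k * -(ξ * (y - t))) = k * ξ * y + -(t * (k * ξ)) by ring, E_add]
      ring
    rw [h3]
    simp only
    by_cases hz : B (-(k * ξ)) = 0
    · rw [show -ξ * k = -(k * ξ) by ring, hz]
      ring
    · have h4 := hone _ hz
      rw [show -(-(k * ξ)) / ξ = k by field_simp] at h4
      rw [h4, show -ξ * k = -(k * ξ) by ring, show -(-(k * ξ) * y) = k * ξ * y by ring]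
      push_cast
      ring
  rw [integral_congr_ae (ae_of_all _ h2),
    Measure.integral_comp_mul_left (fun η => B η * E (-(η * y))) (-ξ), ← four, abs_inv, abs_neg,
    Complex.real_smul]

theorem main : S_IDF := by
  intro A B hA hAc h0 hB hBc
  -- the radii
  obtain ⟨δ, hδ, hδb⟩ := Metric.isOpen_iff.1 (isClosed_tsupport A).isOpen_compl 0 h0
  have hδ' : ∀ ξ, A ξ ≠ 0 → δ ≤ |ξ| := by
    intro ξ hξ
    by_contra hcon
    push Not at hcon
    have h1 : ξ ∈ Metric.ball (0 : ℝ) δ := by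
      rw [Metric.mem_ball, Real.dist_eq, sub_zero]
      exact hcon
    exact hδb h1 (subset_tsupport A hξ)
  obtain ⟨R, hR⟩ := hBc.isCompact.isBounded.subset_closedBall (0 : ℝ)
  have hR' : ∀ η, B η ≠ 0 → |η| ≤ max R 0 := by
    intro η hη
    have h1 := hR (subset_tsupport B hη)
    rw [Metric.mem_closedBall, Real.dist_eq, sub_zero] at h1
    exact h1.trans (le_max_left _ _)
  have hρ : 0 ≤ max R 0 / δ := div_nonneg (le_max_right _ _) hδ.le
  let F : ContDiffBump (0 : ℝ) := ⟨max R 0 / δ + 1, max R 0 / δ + 2, by linarith, by linarith⟩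
  have hF1 : ∀ k : ℝ, |k| ≤ max R 0 / δ → F k = 1 := by
    intro k hk
    refine F.one_of_mem_closedBall ?_
    rw [Metric.mem_closedBall, Real.dist_eq, sub_zero]
    exact hk.trans (by change _ ≤ max R 0 / δ + 1; linarith)
  have hFs : ContDiff ℝ ∞ (fun k => F k) := F.contDiff
  have hFc : HasCompactSupport (fun k => F k) := F.hasCompactSupport
  have hA0 : A =ᶠ[𝓝 0] 0 := by
    filter_upwards [Metric.ball_mem_nhds (0 : ℝ) hδ] with ξ hξ
    by_contra hne
    have h1 := hδ' ξ hne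
    rw [Metric.mem_ball, Real.dist_eq, sub_zero] at hξ
    linarith
  -- the functions g_L
  have hgL : ∀ L : ℕ, ContDiff ℝ ∞ (fun ξ : ℝ => A ξ *
      (((|ξ| : ℝ) : ℂ) / (-2 * Real.pi * Complex.I * ξ) ^ L)) := by
    intro L
    rw [contDiff_iff_contDiffAt]
    intro ξ
    by_cases hξ : ξ = 0
    · subst hξ
      refine (contDiffAt_const (c := (0 : ℂ))).congr_of_eventuallyEq ?_
      filter_upwards [hA0] with ξ h
      rw [h]
      simp
    · have h1 : ContDiffAt ℝ ∞ (fun ξ : ℝ => ((|ξ| : ℝ) : ℂ)) ξ :=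
        Complex.ofRealCLM.contDiff.contDiffAt.comp ξ (contDiffAt_abs hξ)
      have h2 : ContDiffAt ℝ ∞ (fun ξ : ℝ => (-2 * Real.pi * Complex.I * ξ : ℂ) ^ L) ξ :=
        ((contDiff_const.mul Complex.ofRealCLM.contDiff).pow L).contDiffAt
      have h3 : (-2 * Real.pi * Complex.I * ξ : ℂ) ^ L ≠ 0 := by
        refine pow_ne_zero _ ?_
        have := Real.pi_ne_zero
        simp [hξ, this]
      have h4 := hA.contDiffAt.mul (h1.mul (h2.inv h3))
      refine h4.congr_of_eventuallyEq (Eventually.of_forall fun ξ => ?_)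
      simp only [Pi.inv_apply, div_eq_mul_inv]
  have hgc : ∀ L : ℕ, HasCompactSupport (fun ξ : ℝ => A ξ *
      (((|ξ| : ℝ) : ℂ) / (-2 * Real.pi * Complex.I * ξ) ^ L)) := fun L => hAc.mul_right
  have hgi : ∀ L : ℕ, Integrable (fun ξ : ℝ => A ξ *
      (((|ξ| : ℝ) : ℂ) / (-2 * Real.pi * Complex.I * ξ) ^ L)) := fun L =>
    (hgL L).continuous.integrable_of_hasCompactSupport (hgc L)
  refine ⟨𝓕 (fun ξ : ℝ => A ξ * ((|ξ| : ℝ) : ℂ)), fun k => F k, ?_, ⟨hFs, hFc⟩, ?_⟩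
  · -- Nice
    intro L
    refine ⟨𝓕 ((hgc L).toSchwartzMap (hgL L)), fun x => ?_⟩
    have h1 := Real.iteratedDeriv_fourier (f := fun ξ : ℝ => A ξ *
      (((|ξ| : ℝ) : ℂ) / (-2 * Real.pi * Complex.I * ξ) ^ L)) (N := (L : ℕ∞)) (n := L)
      (fun n _ => by
        refine Continuous.integrable_of_hasCompactSupport ?_ ?_
        · exact (continuous_pow n).smul (hgL L).continuous
        · exact (hgc L).smul_left) le_rfl
    have h2 : ⇑(𝓕 ((hgc L).toSchwartzMap (hgL L)) : SchwartzMap ℝ ℂ) = 𝓕 (fun ξ : ℝ => A ξ *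
      (((|ξ| : ℝ) : ℂ) / (-2 * Real.pi * Complex.I * ξ) ^ L)) := by
      rw [SchwartzMap.fourier_coe]
      rfl
    rw [h2, h1]
    have h9 : (fun ξ : ℝ => A ξ * ((|ξ| : ℝ) : ℂ)) = fun ξ : ℝ =>
        (-2 * Real.pi * Complex.I * ξ) ^ L • (A ξ *
          (((|ξ| : ℝ) : ℂ) / (-2 * Real.pi * Complex.I * ξ) ^ L)) := ?_
    · rw [h9]
    funext ξ
    by_cases hξ : A ξ = 0
    · simp [hξ]
    · have h3 : ξ ≠ 0 := by
        rintro rfl
        have := hδ' 0 hξ
        rw [abs_zero] at this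
        linarith
      have h4 : (-2 * Real.pi * Complex.I * ξ : ℂ) ^ L ≠ 0 := by
        refine pow_ne_zero _ ?_
        have := Real.pi_ne_zero
        simp [h3, this]
      rw [smul_eq_mul]
      generalize (-2 * Real.pi * Complex.I * ξ : ℂ) ^ L = w at h4 ⊢
      field_simp
  · -- the identity
    intro x y
    have hg0 : ∀ ξ : ℝ, A ξ * ((|ξ| : ℝ) : ℂ) = A ξ *
      (((|ξ| : ℝ) : ℂ) / (-2 * Real.pi * Complex.I * ξ) ^ 0) := by
      intro ξ
      rw [pow_zero, div_one]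
    have hg : Integrable (fun ξ : ℝ => A ξ * ((|ξ| : ℝ) : ℂ)) := by
      simp_rw [hg0]
      exact hgi 0
    have hΘs : ContDiff ℝ ∞ (fun k => ((F k : ℝ) : ℂ)) := Complex.ofRealCLM.contDiff.comp hFs
    have hΘc : HasCompactSupport (fun k => ((F k : ℝ) : ℂ)) :=
      hFc.comp_left (g := fun r : ℝ => (r : ℂ)) Complex.ofReal_zero
    have hΘi : Integrable (fun k => ((F k : ℝ) : ℂ)) :=
      hΘs.continuous.integrable_of_hasCompactSupport hΘc
    have hFB : Integrable (𝓕 B) := by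
      have := (𝓕 (hBc.toSchwartzMap hB)).integrable (μ := volume)
      rwa [SchwartzMap.fourier_coe] at this
    have hFΘ : Continuous (𝓕 (fun k => ((F k : ℝ) : ℂ))) := by
      have := (𝓕 (hΘc.toSchwartzMap hΘs)).continuous
      rwa [SchwartzMap.fourier_coe] at this
    have hbd : ∀ w, ‖𝓕 (fun k => ((F k : ℝ) : ℂ)) w‖ ≤ ∫ k, ‖((F k : ℝ) : ℂ)‖ := by
      intro w
      rw [four]
      refine (norm_integral_le_integral_norm _).trans (le_of_eq ?_)
      refine integral_congr_ae (ae_of_all _ fun k => ?_)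
      simp only
      rw [norm_mul, E_norm, mul_one]
    have h1 : ∀ t : ℝ, 𝓕 B t * kern (𝓕 (fun ξ : ℝ => A ξ * ((|ξ| : ℝ) : ℂ))) (fun k => F k) x (y - t) =
        𝓕 B t * ∫ ξ, (A ξ * ((|ξ| : ℝ) : ℂ) * E (-(ξ * x))) *
          𝓕 (fun k => ((F k : ℝ) : ℂ)) (-(ξ * (y - t))) := by
      intro t
      rw [stepA _ _ hg hΘi]
    have hgE : Integrable (fun ξ => A ξ * ((|ξ| : ℝ) : ℂ) * E (-(ξ * x))) := by
      have h2 := hg.bdd_mul (c := 1) (f := fun ξ => E (-(ξ * x)))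
        ((E_cont.comp (by fun_prop)).aestronglyMeasurable) (ae_of_all _ fun ξ => (E_norm _).le)
      refine h2.congr (ae_of_all _ fun ξ => ?_)
      simp only
      ring
    have hf := fub (𝓕 B) (fun ξ => A ξ * ((|ξ| : ℝ) : ℂ) * E (-(ξ * x)))
      (fun z => 𝓕 (fun k => ((F k : ℝ) : ℂ)) (-(z.2 * (y - z.1)))) hFB hgE
      (hFΘ.comp (by fun_prop)) (∫ k, ‖((F k : ℝ) : ℂ)‖) (fun z => hbd _)
    simp only at hf
    rw [integral_congr_ae (ae_of_all _ h1), hf]
    · have h2 : ∀ ξ : ℝ, (A ξ * ((|ξ| : ℝ) : ℂ) * E (-(ξ * x))) *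
          ∫ t, 𝓕 B t * 𝓕 (fun k => ((F k : ℝ) : ℂ)) (-(ξ * (y - t))) =
          (A ξ * E (-(ξ * x))) * 𝓕 B y := by
        intro ξ
        by_cases hξ : A ξ = 0
        · simp [hξ]
        · have h3 := hδ' ξ hξ
          have h4 : ξ ≠ 0 := by
            rintro rfl
            rw [abs_zero] at h3
            linarith
          have h5 := stepC B hB hBc (fun k => F k) hΘi ξ h4 (fun η hη => hF1 _ (by
            rw [abs_div, abs_neg]
            exact div_le_div₀ (le_max_right _ _) (hR' η hη) hδ h3)) y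
          rw [h5]
          have h6 : ((|ξ| : ℝ) : ℂ) * ((|ξ|⁻¹ : ℝ) : ℂ) = 1 := by
            rw [← Complex.ofReal_mul, mul_inv_cancel₀ (abs_pos.2 h4).ne', Complex.ofReal_one]
          calc A ξ * ((|ξ| : ℝ) : ℂ) * E (-(ξ * x)) * (((|ξ|⁻¹ : ℝ) : ℂ) * 𝓕 B y)
              = A ξ * E (-(ξ * x)) * 𝓕 B y * (((|ξ| : ℝ) : ℂ) * ((|ξ|⁻¹ : ℝ) : ℂ)) := by ring
            _ = _ := by rw [h6, mul_one]
      rw [integral_congr_ae (ae_of_all _ h2), integral_mul_const, ← four]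

end Pool.Agent.H77.RT.T.IDF
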