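import Pool.Agent.H77.RT.Stm
set_option autoImplicit false

/-! RT-KER (helper69): decay of the kernel. -/

namespace Pool.Agent.H77.RT.T.KER

open MeasureTheory Filter Topology Set
open scoped ENNReal ContDiff FourierTransform

lemma test_deriv {Θ : ℝ → ℝ} (h : Test Θ) : Test (deriv Θ) :=
  ⟨(contDiff_infty_iff_deriv.1 h.1).2, h.2.deriv⟩

lemma test_iter {Θ : ℝ → ℝ} (h : Test Θ) (L : ℕ) : Test (iteratedDeriv L Θ) := by
  induction L with
  | zero => rwa [iteratedDeriv_zero]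
  | succ L ih => rw [iteratedDeriv_succ]; exact test_deriv ih

lemma kern_le {a : ℝ → ℂ} {Θ : ℝ → ℝ} (hΘ : Test Θ) {B x y : ℝ} (hB : 0 ≤ B)
    (h : ∀ k, Θ k ≠ 0 → ‖a (x - k * y)‖ ≤ B) : ‖kern a Θ x y‖ ≤ (∫ k, |Θ k|) * B := by
  unfold kern
  have hc : Continuous fun k => |Θ k| := hΘ.1.continuous.abs
  have hs : HasCompactSupport fun k => |Θ k| := hΘ.2.comp_left (g := fun t : ℝ => |t|) abs_zero
  have hi : Integrable fun k => |Θ k| := hc.integrable_of_hasCompactSupport hs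
  rw [← integral_mul_const]
  refine norm_integral_le_of_norm_le (hi.mul_const B) (Filter.Eventually.of_forall fun k => ?_)
  rw [norm_mul, Complex.norm_real, Real.norm_eq_abs]
  by_cases h0 : Θ k = 0
  · rw [h0]; simp
  · exact mul_le_mul_of_nonneg_left (h k h0) (abs_nonneg _)

lemma ibp {c : ℝ → ℂ} (hc : ContDiff ℝ ∞ c) {Θ : ℝ → ℝ} (hΘ : Test Θ) (x y : ℝ) :
    (y : ℂ) * kern (deriv c) Θ x y = kern c (deriv Θ) x y := by
  have hcd : ContDiff ℝ ∞ (deriv c) := (contDiff_infty_iff_deriv.1 hc).2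
  have hΘ' := test_deriv hΘ
  have hu : ∀ k, HasDerivAt (fun k => (Θ k : ℂ)) ((deriv Θ k : ℝ) : ℂ) k := by
    intro k
    exact ((contDiff_infty_iff_deriv.1 hΘ.1).1 k).hasDerivAt.ofReal_comp
  have hv : ∀ k, HasDerivAt (fun k => c (x - k * y)) (-(y : ℂ) * deriv c (x - k * y)) k := by
    intro k
    have h1 : HasDerivAt (fun k : ℝ => x - k * y) (-y) k := by
      have := ((hasDerivAt_id k).mul_const y).const_sub x
      simpa using this
    have h2 : HasDerivAt c (deriv c (x - k * y)) (x - k * y) :=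
      ((contDiff_infty_iff_deriv.1 hc).1 _).hasDerivAt
    have h3 := h2.scomp k h1
    rw [Complex.real_smul] at h3
    push_cast at h3
    exact h3
  have cu : Continuous fun k => (Θ k : ℂ) := Complex.continuous_ofReal.comp hΘ.1.continuous
  have cu' : Continuous fun k => ((deriv Θ k : ℝ) : ℂ) :=
    Complex.continuous_ofReal.comp hΘ'.1.continuous
  have cv : Continuous fun k : ℝ => c (x - k * y) := hc.continuous.comp (by fun_prop)
  have cv' : Continuous fun k : ℝ => -(y : ℂ) * deriv c (x - k * y) :=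
    continuous_const.mul (hcd.continuous.comp (by fun_prop))
  have su : HasCompactSupport fun k => (Θ k : ℂ) :=
    hΘ.2.comp_left (g := fun t : ℝ => (t : ℂ)) Complex.ofReal_zero
  have su' : HasCompactSupport fun k => ((deriv Θ k : ℝ) : ℂ) :=
    hΘ'.2.comp_left (g := fun t : ℝ => (t : ℂ)) Complex.ofReal_zero
  have h := integral_mul_deriv_eq_deriv_mul_of_integrable (fun k _ => hu k) (fun k _ => hv k)
    ((cu.mul cv').integrable_of_hasCompactSupport su.mul_right)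
    ((cu'.mul cv).integrable_of_hasCompactSupport su'.mul_right)
    ((cu.mul cv).integrable_of_hasCompactSupport su.mul_right)
  unfold kern
  have h2 : ∫ k : ℝ, (Θ k : ℂ) * (-(y : ℂ) * deriv c (x - k * y)) =
      -((y : ℂ) * ∫ k : ℝ, (Θ k : ℂ) * deriv c (x - k * y)) := by
    rw [← integral_const_mul, ← integral_neg]
    congr 1
    funext k
    ring
  rw [h2] at h
  exact neg_injective h

lemma ibp_iter {c : ℝ → ℂ} (hc : ContDiff ℝ ∞ c) (L : ℕ) : ∀ {Θ : ℝ → ℝ}, Test Θ → ∀ x y : ℝ,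
    (y : ℂ) ^ L * kern (iteratedDeriv L c) Θ x y = kern c (iteratedDeriv L Θ) x y := by
  induction L with
  | zero => intro Θ _ x y; simp [iteratedDeriv_zero]
  | succ L ih =>
    intro Θ hΘ x y
    have hcL : ContDiff ℝ ∞ (iteratedDeriv L c) := by
      rw [iteratedDeriv_eq_iterate]
      exact hc.iterate_deriv L
    rw [iteratedDeriv_succ, pow_succ, mul_assoc, ibp hcL hΘ, ih (test_deriv hΘ), iteratedDeriv_succ']

lemma one_add_pow_le (N : ℕ) {t : ℝ} (ht : 0 ≤ t) : (1 + t) ^ N ≤ 2 ^ N * (1 + t ^ N) := by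
  have h1 : 1 + t ≤ 2 * max 1 t := by
    have := le_max_left 1 t
    have := le_max_right 1 t
    linarith
  calc (1 + t) ^ N ≤ (2 * max 1 t) ^ N := pow_le_pow_left₀ (by linarith) h1 N
    _ = 2 ^ N * (max 1 t) ^ N := mul_pow _ _ _
    _ ≤ 2 ^ N * (1 + t ^ N) := by
      apply mul_le_mul_of_nonneg_left _ (by positivity)
      rcases le_total 1 t with h | h
      · rw [max_eq_right h]; linarith
      · rw [max_eq_left h, one_pow]; have : 0 ≤ t ^ N := by positivity
        linarith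

lemma schwartz_decay (b : SchwartzMap ℝ ℂ) (N : ℕ) :
    ∃ C : ℝ, 0 ≤ C ∧ ∀ t, (1 + |t|) ^ N * ‖b t‖ ≤ C := by
  obtain ⟨C1, h1, h1'⟩ := b.decay N 0
  obtain ⟨C0, h0, h0'⟩ := b.decay 0 0
  refine ⟨2 ^ N * (C0 + C1), by positivity, fun t => ?_⟩
  have e1 := h1' t
  have e0 := h0' t
  rw [norm_iteratedFDeriv_zero, Real.norm_eq_abs] at e1
  rw [norm_iteratedFDeriv_zero, pow_zero, one_mul] at e0
  calc (1 + |t|) ^ N * ‖b t‖ ≤ (2 ^ N * (1 + |t| ^ N)) * ‖b t‖ :=
        mul_le_mul_of_nonneg_right (one_add_pow_le N (abs_nonneg t)) (norm_nonneg _)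
    _ = 2 ^ N * (‖b t‖ + |t| ^ N * ‖b t‖) := by ring
    _ ≤ 2 ^ N * (C0 + C1) := by gcongr

theorem main : S_KER := by
  intro a ha Θ hΘ N
  obtain ⟨b0, hb0⟩ := ha 0
  obtain ⟨bN, hbN⟩ := ha N
  have ha0 : a = b0 := by
    funext t; rw [hb0, iteratedDeriv_zero]
  have haN : a = iteratedDeriv N bN := funext hbN
  obtain ⟨C1, hC1, h1⟩ := schwartz_decay b0 N
  obtain ⟨C0, hC0, h0⟩ := schwartz_decay b0 0
  obtain ⟨C2, hC2, h2⟩ := schwartz_decay bN 0
  simp only [pow_zero, one_mul] at h0 h2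
  obtain ⟨r, hr1, hr⟩ : ∃ r : ℝ, 1 ≤ r ∧ ∀ k, Θ k ≠ 0 → |k| ≤ r := by
    obtain ⟨R, hR⟩ := hΘ.2.isCompact.isBounded.exists_norm_le
    refine ⟨max 1 R, le_max_left _ _, fun k hk => ?_⟩
    exact (hR k (subset_tsupport _ hk)).trans (le_max_right _ _)
  set M0 : ℝ := ∫ k, |Θ k| with hM0
  set M1 : ℝ := ∫ k, |iteratedDeriv N Θ k| with hM1
  have hM0' : 0 ≤ M0 := integral_nonneg fun _ => abs_nonneg _
  have hM1' : 0 ≤ M1 := integral_nonneg fun _ => abs_nonneg _
  refine ⟨3 ^ N * (M0 * C1) + (2 * r + 1) ^ N * (2 ^ N * (M0 * C0 + M1 * C2)), fun x y => ?_⟩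
  have hpos : 0 < 1 + |x| + |y| := by positivity
  rw [le_div_iff₀ (by positivity)]
  have hr0 : 0 ≤ r := by linarith
  by_cases hcase : 2 * r * |y| ≤ |x|
  · -- case A
    have hb : ‖kern a Θ x y‖ ≤ M0 * (C1 * 3 ^ N / (1 + |x| + |y|) ^ N) := by
      apply kern_le hΘ (by positivity)
      intro k hk
      have e1 := hr k hk
      have e2 : |k * y| ≤ r * |y| := by
        rw [abs_mul]; exact mul_le_mul_of_nonneg_right e1 (abs_nonneg _)
      have e3 : |x| - |k * y| ≤ |x - k * y| := abs_sub_abs_le_abs_sub _ _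
      have e4 : |y| ≤ r * |y| := by
        have := abs_nonneg y
        nlinarith
      have e5 : 1 + |x| + |y| ≤ 3 * (1 + |x - k * y|) := by
        have := abs_nonneg x
        linarith
      rw [le_div_iff₀ (by positivity)]
      have e6 := h1 (x - k * y)
      rw [← ha0] at e6
      calc ‖a (x - k * y)‖ * (1 + |x| + |y|) ^ N
          ≤ ‖a (x - k * y)‖ * (3 * (1 + |x - k * y|)) ^ N := by gcongr
        _ = 3 ^ N * ((1 + |x - k * y|) ^ N * ‖a (x - k * y)‖) := by rw [mul_pow]; ring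
        _ ≤ 3 ^ N * C1 := by gcongr
        _ = C1 * 3 ^ N := mul_comm _ _
    calc ‖kern a Θ x y‖ * (1 + |x| + |y|) ^ N
        ≤ M0 * (C1 * 3 ^ N / (1 + |x| + |y|) ^ N) * (1 + |x| + |y|) ^ N := by gcongr
      _ = 3 ^ N * (M0 * C1) := by field_simp
      _ ≤ _ := by
        have : 0 ≤ (2 * r + 1) ^ N * (2 ^ N * (M0 * C0 + M1 * C2)) := by positivity
        linarith
  · -- case B
    push Not at hcase
    have e1 : 1 + |x| + |y| ≤ (2 * r + 1) * (1 + |y|) := by
      have := abs_nonneg y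
      nlinarith
    have e2 : (1 + |x| + |y|) ^ N ≤ (2 * r + 1) ^ N * (2 ^ N * (1 + |y| ^ N)) := by
      calc (1 + |x| + |y|) ^ N ≤ ((2 * r + 1) * (1 + |y|)) ^ N := by gcongr
        _ = (2 * r + 1) ^ N * (1 + |y|) ^ N := mul_pow _ _ _
        _ ≤ _ := by
          apply mul_le_mul_of_nonneg_left (one_add_pow_le N (abs_nonneg y)) (by positivity)
    have e3 : ‖kern a Θ x y‖ ≤ M0 * C0 := by
      apply kern_le hΘ hC0
      intro k _
      rw [ha0]; exact h0 _
    have e4 : |y| ^ N * ‖kern a Θ x y‖ ≤ M1 * C2 := by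
      have e5 := ibp_iter (bN.smooth ⊤) N hΘ x y
      rw [← haN] at e5
      have e6 : |y| ^ N * ‖kern a Θ x y‖ = ‖kern bN (iteratedDeriv N Θ) x y‖ := by
        rw [← e5, norm_mul, norm_pow, Complex.norm_real, Real.norm_eq_abs]
      rw [e6]
      apply kern_le (test_iter hΘ N) hC2
      intro k _
      exact h2 _
    calc ‖kern a Θ x y‖ * (1 + |x| + |y|) ^ N
        ≤ ‖kern a Θ x y‖ * ((2 * r + 1) ^ N * (2 ^ N * (1 + |y| ^ N))) := by gcongr
      _ = (2 * r + 1) ^ N * (2 ^ N * (‖kern a Θ x y‖ + |y| ^ N * ‖kern a Θ x y‖)) := by ring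
      _ ≤ (2 * r + 1) ^ N * (2 ^ N * (M0 * C0 + M1 * C2)) := by gcongr
      _ ≤ _ := by
        have : 0 ≤ 3 ^ N * (M0 * C1) := by positivity
        linarith

end Pool.Agent.H77.RT.T.KER
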