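import Pool.Agent.H77.RT.Stm

/-! # RT-KNO (helper75): the classical class satisfies the hypothesis -/

set_option autoImplicit false

namespace Pool.Agent.H77.RT.T.KNO

open MeasureTheory Filter Topology Set
open scoped ENNReal ContDiff FourierTransform

noncomputable def I0 : ℝ≥0∞ := ∫⁻ u : ℝ, ENNReal.ofReal (1 / (1 + |u|) ^ 2)

theorem I0_lt : I0 < ⊤ := by
  have h1 : Integrable (fun x : ℝ => (1 + x ^ 2)⁻¹) := integrable_inv_one_add_sq
  have h2 : I0 ≤ ∫⁻ x : ℝ, ENNReal.ofReal ((1 + x ^ 2)⁻¹) := by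
    refine lintegral_mono fun u => ENNReal.ofReal_le_ofReal ?_
    rw [one_div]
    apply inv_anti₀ (by positivity)
    nlinarith [abs_nonneg u, sq_abs u]
  exact h2.trans_lt h1.lintegral_lt_top

theorem scaled (a c : ℝ) (ha : a ≠ 0) :
    ∫⁻ x : ℝ, ENNReal.ofReal (1 / (1 + |a * x + c|) ^ 2) = ENNReal.ofReal |a⁻¹| * I0 := by
  have hm : Measurable fun u : ℝ => ENNReal.ofReal (1 / (1 + |u + c|) ^ 2) := by fun_prop
  have h1 : ∫⁻ x : ℝ, ENNReal.ofReal (1 / (1 + |a * x + c|) ^ 2) =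
      ∫⁻ u, ENNReal.ofReal (1 / (1 + |u + c|) ^ 2) ∂(Measure.map (a * ·) volume) := by
    rw [lintegral_map hm (measurable_const_mul a)]
  rw [h1, Real.map_volume_mul_left ha, lintegral_smul_measure,
    lintegral_add_right_eq_self (fun u => ENNReal.ofReal (1 / (1 + |u|) ^ 2)) c]
  rfl

theorem one (a c n : ℝ) :
    ∫⁻ x in Metric.ball n 1, ENNReal.ofReal (1 / (1 + |a * x + c|) ^ 2) ≤
      (6 + 3 * I0) * ENNReal.ofReal (1 / (1 + 2 * |a|)) := by
  rcases le_or_gt |a| 1 with h | h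
  · have h1 : ∫⁻ x in Metric.ball n 1, ENNReal.ofReal (1 / (1 + |a * x + c|) ^ 2) ≤
        ∫⁻ _ in Metric.ball n 1, 1 := by
      refine lintegral_mono fun x => ?_
      rw [ENNReal.ofReal_le_one, div_le_one (by positivity)]
      nlinarith [abs_nonneg (a * x + c)]
    rw [setLIntegral_one, Real.volume_ball] at h1
    refine h1.trans ?_
    have h2 : ENNReal.ofReal (2 * 1) ≤ 6 * ENNReal.ofReal (1 / (1 + 2 * |a|)) := by
      rw [show (6 : ℝ≥0∞) = ENNReal.ofReal 6 by simp, ← ENNReal.ofReal_mul (by norm_num)]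
      apply ENNReal.ofReal_le_ofReal
      rw [mul_one_div, le_div_iff₀ (by positivity)]
      nlinarith
    exact h2.trans (mul_le_mul' le_self_add le_rfl)
  · have ha : a ≠ 0 := by
      rintro rfl
      rw [abs_zero] at h
      linarith
    have h1 := (setLIntegral_le_lintegral (Metric.ball n 1)
      (fun x => ENNReal.ofReal (1 / (1 + |a * x + c|) ^ 2))).trans (scaled a c ha).le
    refine h1.trans ?_
    have h2 : ENNReal.ofReal |a⁻¹| ≤ 3 * ENNReal.ofReal (1 / (1 + 2 * |a|)) := by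
      rw [show (3 : ℝ≥0∞) = ENNReal.ofReal 3 by simp, ← ENNReal.ofReal_mul (by norm_num)]
      apply ENNReal.ofReal_le_ofReal
      have h0 : 0 < |a| := by linarith
      rw [mul_one_div, le_div_iff₀ (by positivity), abs_inv, inv_mul_le_iff₀ h0]
      nlinarith
    calc ENNReal.ofReal |a⁻¹| * I0 ≤ 3 * ENNReal.ofReal (1 / (1 + 2 * |a|)) * I0 :=
          mul_le_mul' h2 le_rfl
      _ = (3 * I0) * ENNReal.ofReal (1 / (1 + 2 * |a|)) := by ring
      _ ≤ _ := mul_le_mul' le_add_self le_rfl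

theorem inner (n q : ℝ × ℝ) :
    ∫⁻ m in Metric.ball n 1, ENNReal.ofReal (1 / (1 + |m.1 * q.1 + m.2 * q.2|) ^ 2) ≤
      (6 + 3 * I0) * 2 * ENNReal.ofReal (1 / (1 + |q.1| + |q.2|)) := by
  have hb : Metric.ball n 1 = Metric.ball n.1 1 ×ˢ Metric.ball n.2 1 :=
    (ball_prod_same n.1 n.2 1).symm
  have hme : Measurable fun m : ℝ × ℝ =>
    ENNReal.ofReal (1 / (1 + |m.1 * q.1 + m.2 * q.2|) ^ 2) := by fun_prop
  have hfin : ∀ a : ℝ, |q.1| ≤ |a| → |q.2| ≤ |a| →
      (6 + 3 * I0) * ENNReal.ofReal (1 / (1 + 2 * |a|)) * ENNReal.ofReal (2 * 1) ≤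
      (6 + 3 * I0) * 2 * ENNReal.ofReal (1 / (1 + |q.1| + |q.2|)) := by
    intro a h1 h2
    have h3 : ENNReal.ofReal (1 / (1 + 2 * |a|)) ≤ ENNReal.ofReal (1 / (1 + |q.1| + |q.2|)) := by
      apply ENNReal.ofReal_le_ofReal
      apply one_div_le_one_div_of_le (by positivity)
      linarith
    have h4 : ENNReal.ofReal (2 * 1) = 2 := by simp
    rw [h4]
    calc (6 + 3 * I0) * ENNReal.ofReal (1 / (1 + 2 * |a|)) * 2 =
          (6 + 3 * I0) * 2 * ENNReal.ofReal (1 / (1 + 2 * |a|)) := by ring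
      _ ≤ _ := mul_le_mul' le_rfl h3
  rw [hb, Measure.volume_eq_prod, ← Measure.prod_restrict]
  rcases le_total |q.2| |q.1| with h | h
  · rw [lintegral_prod_symm _ hme.aemeasurable]
    calc _ ≤ ∫⁻ _ in Metric.ball n.2 1, (6 + 3 * I0) * ENNReal.ofReal (1 / (1 + 2 * |q.1|)) := by
          refine lintegral_mono fun y => ?_
          refine le_trans (le_of_eq ?_) (one q.1 (y * q.2) n.1)
          refine lintegral_congr fun x => ?_
          rw [mul_comm x q.1]
      _ = (6 + 3 * I0) * ENNReal.ofReal (1 / (1 + 2 * |q.1|)) * ENNReal.ofReal (2 * 1) := by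
          rw [setLIntegral_const, Real.volume_ball]
      _ ≤ _ := hfin q.1 le_rfl h
  · rw [lintegral_prod _ hme.aemeasurable]
    calc _ ≤ ∫⁻ _ in Metric.ball n.1 1, (6 + 3 * I0) * ENNReal.ofReal (1 / (1 + 2 * |q.2|)) := by
          refine lintegral_mono fun x => ?_
          refine le_trans (le_of_eq ?_) (one q.2 (x * q.1) n.2)
          refine lintegral_congr fun y => ?_
          show ENNReal.ofReal (1 / (1 + |x * q.1 + y * q.2|) ^ 2) = _
          rw [mul_comm y q.2, add_comm (x * q.1)]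
      _ = (6 + 3 * I0) * ENNReal.ofReal (1 / (1 + 2 * |q.2|)) * ENNReal.ofReal (2 * 1) := by
          rw [setLIntegral_const, Real.volume_ball]
      _ ≤ _ := hfin q.2 h le_rfl

theorem main : S_KNO := by
  intro f hf hfi n
  refine Or.inr ⟨2, 1, one_pos, ?_⟩
  unfold Wn
  rw [lintegral_lintegral_swap (by
    have : Measurable fun p : (ℝ × ℝ) × (ℝ × ℝ) =>
      ENNReal.ofReal (‖f p.2‖ / (1 + |p.1.1 * p.2.1 + p.1.2 * p.2.2|) ^ 2) := by fun_prop
    exact this.aemeasurable)]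
  have h1 : ∀ q : ℝ × ℝ, ∫⁻ m in Metric.ball n 1,
      ENNReal.ofReal (‖f q‖ / (1 + |m.1 * q.1 + m.2 * q.2|) ^ 2) ≤
      (6 + 3 * I0) * 2 * ENNReal.ofReal (‖f q‖ / (1 + |q.1| + |q.2|)) := by
    intro q
    calc ∫⁻ m in Metric.ball n 1, ENNReal.ofReal (‖f q‖ / (1 + |m.1 * q.1 + m.2 * q.2|) ^ 2)
        = ∫⁻ m in Metric.ball n 1, ENNReal.ofReal ‖f q‖ *
            ENNReal.ofReal (1 / (1 + |m.1 * q.1 + m.2 * q.2|) ^ 2) := by
          refine lintegral_congr fun m => ?_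
          rw [← ENNReal.ofReal_mul (norm_nonneg _), mul_one_div]
      _ = ENNReal.ofReal ‖f q‖ * ∫⁻ m in Metric.ball n 1,
            ENNReal.ofReal (1 / (1 + |m.1 * q.1 + m.2 * q.2|) ^ 2) :=
          lintegral_const_mul _ (by fun_prop)
      _ ≤ ENNReal.ofReal ‖f q‖ * ((6 + 3 * I0) * 2 * ENNReal.ofReal (1 / (1 + |q.1| + |q.2|))) :=
          mul_le_mul' le_rfl (inner n q)
      _ = (6 + 3 * I0) * 2 * (ENNReal.ofReal ‖f q‖ * ENNReal.ofReal (1 / (1 + |q.1| + |q.2|))) := by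
          ring
      _ = _ := by rw [← ENNReal.ofReal_mul (norm_nonneg _), mul_one_div]
  refine (lintegral_mono h1).trans_lt ?_
  rw [lintegral_const_mul _ (by fun_prop)]
  refine ENNReal.mul_lt_top ?_ hfi
  have := I0_lt
  refine ENNReal.mul_lt_top (ENNReal.add_lt_top.2 ⟨by simp, ENNReal.mul_lt_top (by simp) this⟩)
    (by simp)

end Pool.Agent.H77.RT.T.KNO

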