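import Pool.Agent.H77.RT.Stm

/-! Stub L1F of project RT: uniqueness in `L¹(ℝ)` from test functions which vanish near `0`. -/

set_option autoImplicit false

namespace Pool.Agent.H77.RT.T.L1F

open MeasureTheory Set Filter Topology
open scoped FourierTransform ContDiff

theorem flip {g A : ℝ → ℂ} (hg : Integrable g) (hA : Integrable A) :
    ∫ x : ℝ, 𝓕 g x * A x = ∫ x : ℝ, g x * 𝓕 A x := by
  have h := VectorFourier.integral_fourierIntegral_smul_eq_flip (L := innerₗ ℝ)
    Real.continuous_fourierChar continuous_inner hg hA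
  simpa using! h

theorem cont {g : ℝ → ℂ} (hg : Integrable g) : Continuous (𝓕 g) :=
  VectorFourier.fourierIntegral_continuous Real.continuous_fourierChar
    (innerSL ℝ).continuous₂ hg

/-- uniqueness -/
theorem main : S_L1F := by
  intro g hg h
  -- the complexification of a real test function
  have hcx : ∀ φ : ℝ → ℝ, ContDiff ℝ ∞ φ → HasCompactSupport φ →
      ContDiff ℝ ∞ (fun x => (φ x : ℂ)) ∧ HasCompactSupport (fun x => (φ x : ℂ)) ∧
        tsupport (fun x => (φ x : ℂ)) = tsupport φ := by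
    intro φ h1 h2
    refine ⟨Complex.ofRealCLM.contDiff.comp h1, h2.comp_left (g := Complex.ofReal) rfl, ?_⟩
    unfold tsupport
    congr 1
    ext x
    simp
  have hF0 : ∀ᵐ x : ℝ, x ∈ ({0}ᶜ : Set ℝ) → 𝓕 g x = 0 := by
    refine IsOpen.ae_eq_zero_of_integral_contDiff_smul_eq_zero isOpen_compl_singleton
      ((cont hg).locallyIntegrable.locallyIntegrableOn _) ?_
    intro φ h1 h2 h3
    obtain ⟨g1, g2, g3⟩ := hcx φ h1 h2
    have h4 := h _ g1 g2 (by rw [g3]; exact fun h0 => h3 h0 rfl)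
    rw [← flip hg (g1.continuous.integrable_of_hasCompactSupport g2)] at h4
    rw [← h4]
    congr 1
    funext x
    rw [Complex.real_smul, mul_comm]
  have hF1 : 𝓕 g =ᵐ[volume] fun _ => (0 : ℂ) := by
    have h0 : ∀ᵐ x : ℝ, x ≠ 0 := by
      rw [ae_iff]
      simp
    filter_upwards [hF0, h0] with x hx hx0
    exact hx hx0
  have hF : 𝓕 g = fun _ => (0 : ℂ) := (Continuous.ae_eq_iff_eq volume (cont hg) continuous_const).1 hF1
  refine ae_eq_zero_of_integral_contDiff_smul_eq_zero hg.locallyIntegrable ?_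
  intro φ h1 h2
  obtain ⟨g1, g2, g3⟩ := hcx φ h1 h2
  set S : SchwartzMap ℝ ℂ := g2.toSchwartzMap g1 with hS
  have hB : 𝓕 (𝓕⁻ S) = S := FourierInvPair.fourier_fourierInv_eq S
  have h5 : ∫ x : ℝ, 𝓕 g x * (𝓕⁻ S) x = ∫ x : ℝ, g x * 𝓕 ((𝓕⁻ S : SchwartzMap ℝ ℂ) : ℝ → ℂ) x :=
    flip hg (𝓕⁻ S).integrable
  rw [hF, ← SchwartzMap.fourier_coe, hB] at h5
  simp only [zero_mul, integral_zero] at h5
  rw [h5]
  congr 1
  funext x
  rw [Complex.real_smul, mul_comm]
  rfl

end Pool.Agent.H77.RT.T.L1F
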