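import Pool.Agent.H77.RT.Stm

set_option autoImplicit false

/-! # RT-LIM (helper81) -/

namespace Pool.Agent.H77.RT.T.LIM

open Pool.Agent.H77.RT
open MeasureTheory Filter Topology Set
open scoped ENNReal ContDiff FourierTransform

lemma nice_cont {a : ℝ → ℂ} (ha : Nice a) : Continuous a ∧ ∃ M : ℝ, 0 ≤ M ∧ ∀ x, ‖a x‖ ≤ M := by
  obtain ⟨b, hb⟩ := ha 0
  have h1 : a = fun x => b x := by
    funext x
    rw [hb x, iteratedDeriv_zero]
  obtain ⟨C, hC⟩ := b.decay 0 0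
  have h2 : ∀ x, ‖b x‖ ≤ C := fun x => by
    have := hC.2 x
    simpa using this
  refine ⟨by rw [h1]; exact b.continuous, C, hC.1.le, fun x => ?_⟩
  rw [h1]
  exact h2 x

lemma test_int {Θ : ℝ → ℝ} (h : Test Θ) : Integrable Θ :=
  h.1.continuous.integrable_of_hasCompactSupport h.2

lemma kern_cont {a : ℝ → ℂ} (ha : Nice a) {Θ : ℝ → ℝ} (hΘ : Test Θ) :
    Continuous fun p : ℝ × ℝ => kern a Θ p.1 p.2 := by
  obtain ⟨hc, M, hM0, hM⟩ := nice_cont ha
  unfold kern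
  refine continuous_of_dominated (bound := fun k => ‖Θ k‖ * M) (fun p => ?_) (fun p => ?_)
    ((test_int hΘ).norm.mul_const M) ?_
  · have h1 := hΘ.1.continuous
    exact Continuous.aestronglyMeasurable (by fun_prop)
  · refine Eventually.of_forall fun k => ?_
    rw [norm_mul, Complex.norm_real]
    exact mul_le_mul_of_nonneg_left (hM _) (norm_nonneg _)
  · refine Eventually.of_forall fun k => ?_
    fun_prop

lemma ker_nonneg {a : ℝ → ℂ} {Θ : ℝ → ℝ} {N : ℕ} {C : ℝ}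
    (h : ∀ x y : ℝ, ‖kern a Θ x y‖ ≤ C / (1 + |x| + |y|) ^ N) : 0 ≤ C := by
  have h1 := (norm_nonneg _).trans (h 0 0)
  simpa using h1

/-- the inner exchange -/
lemma swap1 {a : ℝ → ℂ} (ha : Nice a) {Θ θ : ℝ → ℝ} (hΘ : Test Θ) (hθ : Test θ) (x y u : ℝ) :
    ∫ k : ℝ, (Θ k : ℂ) * kern a θ (x - k * y) u = ∫ s : ℝ, (θ s : ℂ) * kern a Θ (x - s * u) y := by
  obtain ⟨hc, M, hM0, hM⟩ := nice_cont ha
  have e1 : ∀ k : ℝ, (Θ k : ℂ) * kern a θ (x - k * y) u =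
      ∫ s : ℝ, (Θ k : ℂ) * ((θ s : ℂ) * a (x - k * y - s * u)) := fun k => by
    rw [integral_const_mul]; rfl
  have e2 : ∀ s : ℝ, (θ s : ℂ) * kern a Θ (x - s * u) y =
      ∫ k : ℝ, (Θ k : ℂ) * ((θ s : ℂ) * a (x - k * y - s * u)) := fun s => by
    unfold kern
    rw [← integral_const_mul]
    refine integral_congr_ae (Eventually.of_forall fun k => ?_)
    show (θ s : ℂ) * ((Θ k : ℂ) * a (x - s * u - k * y)) =
      (Θ k : ℂ) * ((θ s : ℂ) * a (x - k * y - s * u))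
    rw [show x - s * u - k * y = x - k * y - s * u by ring]
    ring
  simp_rw [e1, e2]
  refine integral_integral_swap ?_
  have h1 := hΘ.1.continuous
  have h2 := hθ.1.continuous
  have hi : Integrable (fun z : ℝ × ℝ => ‖Θ z.1‖ * ‖θ z.2‖ * M) (volume.prod volume) :=
    ((test_int hΘ).norm.mul_prod (test_int hθ).norm).mul_const M
  refine hi.mono' ?_ ?_
  · exact Continuous.aestronglyMeasurable (by unfold Function.uncurry; fun_prop)
  · refine Eventually.of_forall fun z => ?_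
    simp only [Function.uncurry]
    rw [norm_mul, norm_mul, Complex.norm_real, Complex.norm_real, mul_assoc]
    gcongr
    exact hM _

lemma test_bdd {Θ : ℝ → ℝ} (h : Test Θ) : ∃ R : ℝ, 0 ≤ R ∧ ∀ k, Θ k ≠ 0 → |k| ≤ R := by
  obtain ⟨R, hR⟩ := h.2.isCompact.isBounded.subset_closedBall 0
  refine ⟨max R 0, le_max_right _ _, fun k hk => ?_⟩
  have h1 := hR (subset_tsupport Θ (Function.mem_support.2 hk))
  rw [Metric.mem_closedBall, Real.dist_eq, sub_zero] at h1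
  exact h1.trans (le_max_left _ _)

lemma geo {x y k R r : ℝ} (hk : |k| ≤ R) (hR : 0 ≤ R) (hr : 0 < r) :
    1 + |x| + |y| ≤ (1 + (R + 1) / r) * (1 + |x - k * y| + |r * y|) := by
  have h1 : |x| ≤ |x - k * y| + R * |y| := by
    have h2 : |x| = |(x - k * y) + k * y| := by ring_nf
    rw [h2]
    refine (abs_add_le _ _).trans ?_
    rw [abs_mul]
    gcongr
  have h3 : |r * y| = r * |y| := by rw [abs_mul, abs_of_pos hr]
  rw [h3]
  have h4 : (R + 1) / r * (r * |y|) = (R + 1) * |y| := by field_simp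
  have h5 : 0 ≤ (R + 1) / r := by positivity
  have h6 := abs_nonneg (x - k * y)
  have h7 := abs_nonneg y
  have h8 : 0 ≤ (R + 1) / r * (1 + |x - k * y|) := by positivity
  have h9 : 0 ≤ r * |y| := by positivity
  nlinarith

lemma geo2 {x y u R : ℝ} (hu : |u| ≤ R * |y|) (hR : 0 ≤ R) :
    1 + |x| + |y| ≤ (1 + R) * (1 + |x - u| + |y|) := by
  have h1 : |x| ≤ |x - u| + R * |y| := by
    have h2 : |x| = |(x - u) + u| := by ring_nf
    rw [h2]
    refine (abs_add_le _ _).trans ?_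
    gcongr
  have h6 := abs_nonneg (x - u)
  have h7 := abs_nonneg y
  nlinarith [mul_nonneg hR h6, mul_nonneg hR h7]

lemma div_comp {A B C D : ℝ} (N : ℕ) (hA : 0 < A) (hB : 0 < B) (hC : 0 ≤ C) (h : A ≤ D * B) :
    C / B ^ N ≤ C * D ^ N / A ^ N := by
  rw [div_le_div_iff₀ (by positivity) (by positivity)]
  have h1 : A ^ N ≤ (D * B) ^ N := pow_le_pow_left₀ hA.le h N
  rw [mul_pow] at h1
  calc C * A ^ N ≤ C * (D ^ N * B ^ N) := by gcongr
    _ = C * D ^ N * B ^ N := by ring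

/-- the outer exchange -/
lemma swap2 (hK : S_KER) {f : ℝ × ℝ → ℂ} {N : ℕ} {a : ℝ → ℂ} (hf : Measurable f) (hT : Tem f N)
    (ha : Nice a) {Θ θ : ℝ → ℝ} (hΘ : Test Θ) (hθ : Test θ) {r : ℝ} (hr : 0 < r) :
    ∫ k : ℝ, (Θ k : ℂ) * Gr f a θ r k =
      ∫ q : ℝ × ℝ, f q * ∫ s : ℝ, (θ s : ℂ) * kern a Θ (q.1 - s * (r * q.2)) q.2 := by
  obtain ⟨C, hC⟩ := hK a ha θ hθ N
  have hC0 := ker_nonneg hC
  obtain ⟨R, hR0, hR⟩ := test_bdd hΘ
  have e1 : ∀ k : ℝ, (Θ k : ℂ) * Gr f a θ r k =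
      ∫ q : ℝ × ℝ, (Θ k : ℂ) * (f q * kern a θ (q.1 - k * q.2) (r * q.2)) := fun k => by
    rw [integral_const_mul]; rfl
  have e2 : ∀ q : ℝ × ℝ, (f q * ∫ s : ℝ, (θ s : ℂ) * kern a Θ (q.1 - s * (r * q.2)) q.2) =
      ∫ k : ℝ, (Θ k : ℂ) * (f q * kern a θ (q.1 - k * q.2) (r * q.2)) := fun q => by
    rw [← swap1 ha hΘ hθ q.1 q.2 (r * q.2), ← integral_const_mul]
    refine integral_congr_ae (Eventually.of_forall fun k => ?_)
    show f q * ((Θ k : ℂ) * kern a θ (q.1 - k * q.2) (r * q.2)) = _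
    ring
  simp_rw [e1, e2]
  refine integral_integral_swap ?_
  have h1 := hΘ.1.continuous
  have hi : Integrable (fun z : ℝ × (ℝ × ℝ) => ‖Θ z.1‖ * (‖f z.2‖ / (1 + |z.2.1| + |z.2.2|) ^ N) *
      (C * (1 + (R + 1) / r) ^ N)) (volume.prod volume) :=
    ((test_int hΘ).norm.mul_prod hT).mul_const _
  refine hi.mono' ?_ ?_
  · have h3 : Continuous fun z : ℝ × (ℝ × ℝ) => kern a θ (z.2.1 - z.1 * z.2.2) (r * z.2.2) := by
      have := (kern_cont ha hθ).comp (show Continuous fun z : ℝ × (ℝ × ℝ) =>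
        ((z.2.1 - z.1 * z.2.2, r * z.2.2) : ℝ × ℝ) by fun_prop)
      exact this
    have h4 : Continuous fun z : ℝ × (ℝ × ℝ) => (Θ z.1 : ℂ) := by fun_prop
    have h5 : Measurable fun z : ℝ × (ℝ × ℝ) => f z.2 := hf.comp measurable_snd
    exact (h4.measurable.mul (h5.mul h3.measurable)).aestronglyMeasurable
  · refine Eventually.of_forall fun z => ?_
    simp only [Function.uncurry]
    by_cases hz : Θ z.1 = 0
    · rw [hz]; simp
    rw [norm_mul, norm_mul, Complex.norm_real]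
    have h6 := (hC (z.2.1 - z.1 * z.2.2) (r * z.2.2)).trans
      (div_comp N (A := 1 + |z.2.1| + |z.2.2|) (by positivity) (by positivity) hC0
        (geo (hR _ hz) hR0 hr))
    calc ‖Θ z.1‖ * (‖f z.2‖ * ‖kern a θ (z.2.1 - z.1 * z.2.2) (r * z.2.2)‖) ≤
        ‖Θ z.1‖ * (‖f z.2‖ * (C * (1 + (R + 1) / r) ^ N / (1 + |z.2.1| + |z.2.2|) ^ N)) := by
          gcongr
      _ = _ := by ring

/-- joint continuity -/
lemma G_cont {a : ℝ → ℂ} (ha : Nice a) {Θ θ : ℝ → ℝ} (hΘ : Test Θ) (hθ : Test θ) {C : ℝ}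
    (hC : ∀ x y, ‖kern a Θ x y‖ ≤ C) :
    Continuous fun z : ℝ × (ℝ × ℝ) =>
      ∫ s : ℝ, (θ s : ℂ) * kern a Θ (z.2.1 - s * (z.1 * z.2.2)) z.2.2 := by
  have h1 := hθ.1.continuous
  refine continuous_of_dominated (bound := fun s => ‖θ s‖ * C) (fun p => ?_) (fun p => ?_)
    ((test_int hθ).norm.mul_const C) ?_
  · have h2 : Continuous fun s : ℝ => kern a Θ (p.2.1 - s * (p.1 * p.2.2)) p.2.2 :=
      (kern_cont ha hΘ).comp (show Continuous fun s : ℝ =>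
        ((p.2.1 - s * (p.1 * p.2.2), p.2.2) : ℝ × ℝ) by fun_prop)
    exact Continuous.aestronglyMeasurable (by fun_prop)
  · refine Eventually.of_forall fun s => ?_
    rw [norm_mul, Complex.norm_real]
    exact mul_le_mul_of_nonneg_left (hC _ _) (norm_nonneg _)
  · refine Eventually.of_forall fun s => ?_
    have h2 : Continuous fun z : ℝ × (ℝ × ℝ) => kern a Θ (z.2.1 - s * (z.1 * z.2.2)) z.2.2 :=
      (kern_cont ha hΘ).comp (show Continuous fun z : ℝ × (ℝ × ℝ) =>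
        ((z.2.1 - s * (z.1 * z.2.2), z.2.2) : ℝ × ℝ) by fun_prop)
    exact continuous_const.mul h2

theorem main (hK : S_KER) : S_LIM := by
  intro f N a hf hT ha Θ θ hΘ hθ
  obtain ⟨C0, hC0⟩ := hK a ha Θ hΘ 0
  have hC0' : ∀ x y, ‖kern a Θ x y‖ ≤ C0 := fun x y => by simpa using hC0 x y
  obtain ⟨C, hC⟩ := hK a ha Θ hΘ N
  have hCn := ker_nonneg hC
  obtain ⟨R, hR0, hR⟩ := test_bdd hθ
  have hG := G_cont ha hΘ hθ hC0'
  have hr : ∀ n : ℕ, (0 : ℝ) < 1 / ((n : ℝ) + 1) := fun n => by positivity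
  have e1 : (fun n : ℕ => ∫ k : ℝ, (Θ k : ℂ) * Gr f a θ (1 / ((n : ℝ) + 1)) k) = fun n : ℕ =>
      ∫ q : ℝ × ℝ, f q * ∫ s : ℝ, (θ s : ℂ) *
        kern a Θ (q.1 - s * (1 / ((n : ℝ) + 1) * q.2)) q.2 := by
    funext n
    exact swap2 hK hf hT ha hΘ hθ (hr n)
  have e2 : (∫ s : ℝ, (θ s : ℂ)) * T f a Θ =
      ∫ q : ℝ × ℝ, f q * ((∫ s : ℝ, (θ s : ℂ)) * kern a Θ q.1 q.2) := by
    unfold T
    rw [← integral_const_mul]
    refine integral_congr_ae (Eventually.of_forall fun q => ?_)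
    show (∫ s : ℝ, (θ s : ℂ)) * (f q * kern a Θ q.1 q.2) = _
    ring
  rw [e1, e2]
  refine tendsto_integral_of_dominated_convergence
    (fun q : ℝ × ℝ => ‖f q‖ / (1 + |q.1| + |q.2|) ^ N * ((∫ s, ‖θ s‖) * (C * (1 + R) ^ N)))
    (fun n => ?_) (hT.mul_const _) (fun n => ?_) ?_
  · have h1 : Continuous fun q : ℝ × ℝ => ∫ s : ℝ, (θ s : ℂ) *
        kern a Θ (q.1 - s * (1 / ((n : ℝ) + 1) * q.2)) q.2 :=
      hG.comp (show Continuous fun q : ℝ × ℝ => ((1 / ((n : ℝ) + 1), q) : ℝ × (ℝ × ℝ)) by fun_prop)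
    exact (hf.mul h1.measurable).aestronglyMeasurable
  · refine Eventually.of_forall fun q => ?_
    rw [norm_mul]
    have h2 : ‖∫ s : ℝ, (θ s : ℂ) * kern a Θ (q.1 - s * (1 / ((n : ℝ) + 1) * q.2)) q.2‖ ≤
        ∫ s : ℝ, ‖θ s‖ * (C * (1 + R) ^ N / (1 + |q.1| + |q.2|) ^ N) := by
      refine norm_integral_le_of_norm_le ((test_int hθ).norm.mul_const _)
        (Eventually.of_forall fun s => ?_)
      by_cases hs : θ s = 0
      · rw [hs]; simp
      rw [norm_mul, Complex.norm_real]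
      refine mul_le_mul_of_nonneg_left ?_ (norm_nonneg _)
      refine (hC _ _).trans (div_comp N (by positivity) (by positivity) hCn (geo2 ?_ hR0))
      have h3 : (1 : ℝ) / ((n : ℝ) + 1) ≤ 1 := by
        rw [div_le_one (by positivity)]
        have : (0 : ℝ) ≤ n := Nat.cast_nonneg n
        linarith
      rw [abs_mul, abs_mul, abs_of_pos (hr n)]
      calc |s| * (1 / ((n : ℝ) + 1) * |q.2|) ≤ R * (1 * |q.2|) := by
            gcongr
            exact hR s hs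
        _ = R * |q.2| := by ring
    rw [integral_mul_const] at h2
    calc ‖f q‖ * ‖∫ s : ℝ, (θ s : ℂ) * kern a Θ (q.1 - s * (1 / ((n : ℝ) + 1) * q.2)) q.2‖ ≤
        ‖f q‖ * ((∫ s, ‖θ s‖) * (C * (1 + R) ^ N / (1 + |q.1| + |q.2|) ^ N)) := by gcongr
      _ = _ := by ring
  · refine Eventually.of_forall fun q => ?_
    refine Tendsto.const_mul (f q) ?_
    have h4 : Tendsto (fun n : ℕ => ((1 / ((n : ℝ) + 1), q) : ℝ × (ℝ × ℝ))) atTop (𝓝 (0, q)) :=
      (tendsto_one_div_add_atTop_nhds_zero_nat (𝕜 := ℝ)).prodMk_nhds tendsto_const_nhds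
    have h5 := (hG.tendsto (0, q)).comp h4
    have h6 : (∫ s : ℝ, (θ s : ℂ) * kern a Θ (((0, q) : ℝ × (ℝ × ℝ)).2.1 -
        s * (((0, q) : ℝ × (ℝ × ℝ)).1 * ((0, q) : ℝ × (ℝ × ℝ)).2.2)) ((0, q) : ℝ × (ℝ × ℝ)).2.2) =
        (∫ s : ℝ, (θ s : ℂ)) * kern a Θ q.1 q.2 := by
      simp only [zero_mul, mul_zero, sub_zero]
      rw [integral_mul_const]
    rw [h6] at h5
    exact h5

end Pool.Agent.H77.RT.T.LIM
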