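import Pool.Agent.H77.RT.Stm

set_option autoImplicit false

namespace Pool.Agent.H77.RT.T.LOC

open MeasureTheory Filter Topology Set
open scoped ENNReal ContDiff FourierTransform Manifold

/-- a cutoff -/
lemma cutoff (S U : Set ℝ) (hS : IsClosed S) (hU : IsOpen U) (hSU : S ⊆ U) :
    ∃ ρ : ℝ → ℝ, ContDiff ℝ ∞ ρ ∧ (∀ x ∈ S, ∀ᶠ y in 𝓝 x, ρ y = 1) ∧ tsupport ρ ⊆ U := by
  obtain ⟨u, hu, hSu, huU⟩ := normal_exists_closure_subset hS hU hSU
  obtain ⟨ρ, h1, h2, -⟩ := exists_contMDiffMap_one_nhds_of_subset_interior (n := (⊤ : ℕ∞)) 𝓘(ℝ, ℝ) hS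
    (t := closure u) (hSu.trans (hu.subset_interior_iff.2 subset_closure))
  refine ⟨ρ, ρ.contMDiff.contDiff, fun x hx => ?_, ?_⟩
  · rw [eventually_nhdsSet_iff_forall] at h1
    exact h1 x hx
  · refine subset_trans ?_ huU
    refine closure_minimal (fun x hx => ?_) isClosed_closure
    by_contra hn
    exact hx (h2 x hn)

theorem main : S_LOC := by
  intro F hadd Θ hΘ hloc
  have h0 : F 0 = 0 := by
    have ht : Test (0 : ℝ → ℝ) := ⟨contDiff_const, HasCompactSupport.zero⟩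
    have := hadd 0 0 ht ht
    rw [add_zero] at this
    simpa using this
  have key : ∃ U : Set ℝ, IsOpen U ∧ tsupport Θ ⊆ U ∧ ∀ Θ', Test Θ' → tsupport Θ' ⊆ U → F Θ' = 0 := by
    refine IsCompact.induction_on (p := fun S => ∃ U : Set ℝ, IsOpen U ∧ S ⊆ U ∧
      ∀ Θ', Test Θ' → tsupport Θ' ⊆ U → F Θ' = 0) hΘ.2 ?_ ?_ ?_ ?_
    · refine ⟨∅, isOpen_empty, subset_rfl, fun Θ' _ h => ?_⟩
      have : Θ' = 0 := by
        rw [← tsupport_eq_empty_iff]
        exact subset_empty_iff.1 h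
      rw [this, h0]
    · rintro S T hST ⟨U, h1, h2, h3⟩
      exact ⟨U, h1, hST.trans h2, h3⟩
    · rintro S T ⟨U, h1, h2, h3⟩ ⟨V, g1, g2, g3⟩
      refine ⟨U ∪ V, h1.union g1, union_subset_union h2 g2, fun Θ' ht hs => ?_⟩
      obtain ⟨ρ, r1, r2, r3⟩ := cutoff (tsupport Θ' \ V) U
        ((isClosed_tsupport _).sdiff g1) h1 (by
          intro x hx
          rcases hs hx.1 with h | h
          · exact h
          · exact absurd h hx.2)
      have e : Θ' = (fun x => ρ x * Θ' x) + fun x => (1 - ρ x) * Θ' x := by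
        funext x
        simp only [Pi.add_apply]
        ring
      have t1 : Test fun x => ρ x * Θ' x := ⟨r1.mul ht.1, ht.2.mul_left⟩
      have t2 : Test fun x => (1 - ρ x) * Θ' x := ⟨(contDiff_const.sub r1).mul ht.1, ht.2.mul_left⟩
      rw [e, hadd _ _ t1 t2, h3 _ t1 ((tsupport_mul_subset_left).trans r3), g3 _ t2 ?_, add_zero]
      intro x hx
      have hx1 : x ∈ tsupport Θ' := tsupport_mul_subset_right hx
      by_contra hV
      have h4 := r2 x ⟨hx1, hV⟩
      have h5 : x ∉ tsupport fun x => (1 - ρ x) * Θ' x := by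
        rw [notMem_tsupport_iff_eventuallyEq]
        filter_upwards [h4] with y hy
        rw [hy]
        simp
      exact h5 hx
    · intro k hk
      obtain ⟨ε, hε, h⟩ := hloc k hk
      exact ⟨Ioo (k - ε) (k + ε), mem_nhdsWithin_of_mem_nhds (Ioo_mem_nhds (by linarith) (by linarith)),
        Ioo (k - ε) (k + ε), isOpen_Ioo, subset_rfl, h⟩
  obtain ⟨U, -, h2, h3⟩ := key
  exact h3 Θ hΘ h2

end Pool.Agent.H77.RT.T.LOC
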