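import Pool.Agent.H77.RT.Stm

set_option autoImplicit false

namespace Pool.Agent.H77.RT.T.LSC

open MeasureTheory Filter Topology Set
open scoped ENNReal ContDiff FourierTransform

theorem main : S_LSC := by
  intro f N M hf
  apply IsSeqClosed.isClosed
  intro u k hu hk
  have hu' : ∀ n, W f N (u n) ≤ M := fun n => hu n
  change W f N k ≤ M
  have h1 : ∀ q : ℝ × ℝ, ENNReal.ofReal (‖f q‖ / (1 + |q.1 - k * q.2|) ^ N) =
      liminf (fun n => ENNReal.ofReal (‖f q‖ / (1 + |q.1 - u n * q.2|) ^ N)) atTop := by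
    intro q
    symm
    apply Tendsto.liminf_eq
    have hc : Continuous fun t : ℝ => ENNReal.ofReal (‖f q‖ / (1 + |q.1 - t * q.2|) ^ N) :=
      ENNReal.continuous_ofReal.comp (continuous_const.div (by fun_prop) fun t => by positivity)
    exact (hc.tendsto k).comp hk
  have hm : ∀ n, Measurable fun q : ℝ × ℝ =>
      ENNReal.ofReal (‖f q‖ / (1 + |q.1 - u n * q.2|) ^ N) := fun n => by
    refine ENNReal.measurable_ofReal.comp (hf.norm.div ?_)
    have : Continuous fun q : ℝ × ℝ => (1 + |q.1 - u n * q.2|) ^ N := by fun_prop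
    exact this.measurable
  have h2 : W f N k = ∫⁻ q : ℝ × ℝ,
      liminf (fun n => ENNReal.ofReal (‖f q‖ / (1 + |q.1 - u n * q.2|) ^ N)) atTop :=
    lintegral_congr h1
  rw [h2]
  refine (lintegral_liminf_le hm).trans ?_
  exact liminf_le_of_frequently_le' (Frequently.of_forall fun n => hu' n)

end Pool.Agent.H77.RT.T.LSC
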