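import Pool.Agent.H77.RT.Stm

/-! Stub NUL of project RT: null sets of lines. -/

set_option autoImplicit false

namespace Pool.Agent.H77.RT.T.NULL

open MeasureTheory Set

/-- the inversion preserves null sets -/
theorem inv_null {N : Set ℝ} (hN : volume N = 0) : volume {p : ℝ | p⁻¹ ∈ N} = 0 := by
  have h1 : volume ((fun u : ℝ => u⁻¹) '' (N \ {0})) = 0 := by
    refine addHaar_image_eq_zero_of_differentiableOn_of_addHaar_eq_zero volume ?_
      (measure_mono_null sdiff_subset hN)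
    intro x hx
    exact (differentiableAt_inv (fun h => hx.2 h)).differentiableWithinAt
  have h2 : {p : ℝ | p⁻¹ ∈ N} ⊆ {0} ∪ (fun u : ℝ => u⁻¹) '' (N \ {0}) := by
    intro p hp
    by_cases h : p = 0
    · exact Or.inl h
    · refine Or.inr ⟨p⁻¹, ⟨hp, fun h0 => h (inv_eq_zero.1 h0)⟩, inv_inv p⟩
  refine measure_mono_null h2 ?_
  rw [measure_union_null_iff]
  exact ⟨Real.volume_singleton, h1⟩

/-- null sets of lines -/
theorem main : S_NUL := by
  intro P hP
  obtain ⟨Z, hZP, hZm, hZ0⟩ := exists_measurable_superset_of_null (ae_iff.1 hP)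
  have hmeas : Measurable fun z : ℝ × ℝ => ((z.1)⁻¹, -z.2 / z.1) :=
    (measurable_fst.inv).prodMk ((measurable_snd.neg).div measurable_fst)
  have hZs : ∀ᵐ u : ℝ, volume (Prod.mk u ⁻¹' Z) = 0 := by
    have h := Measure.measure_ae_null_of_prod_null (μ := (volume : Measure ℝ))
      (ν := (volume : Measure ℝ)) (s := Z) hZ0
    filter_upwards [h] with u hu
    exact hu
  have hinv : ∀ᵐ p : ℝ, volume (Prod.mk p⁻¹ ⁻¹' Z) = 0 := by
    rw [ae_iff] at hZs ⊢
    exact inv_null hZs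
  have h0 : ∀ᵐ p : ℝ, p ≠ 0 := by
    rw [ae_iff]
    simp
  have hS : ∀ᵐ p : ℝ, ∀ᵐ k : ℝ, (p⁻¹, -k / p) ∉ Z := by
    filter_upwards [hinv, h0] with p hp hp0
    rw [ae_iff]
    have e : {k : ℝ | ¬ (p⁻¹, -k / p) ∉ Z} = (fun k : ℝ => k * (-p⁻¹)) ⁻¹' (Prod.mk p⁻¹ ⁻¹' Z) := by
      ext k
      simp only [mem_ofPred_eq, not_not, mem_preimage]
      have : -k / p = k * -p⁻¹ := by
        rw [div_eq_mul_inv]
        ring
      rw [this]
    rw [e, Real.volume_preimage_mul_right (neg_ne_zero.2 (inv_ne_zero hp0)), hp, mul_zero]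
  have hprod : ∀ᵐ z : ℝ × ℝ, (z.1⁻¹, -z.2 / z.1) ∉ Z := by
    have hms : MeasurableSet {z : ℝ × ℝ | ¬ (z.1⁻¹, -z.2 / z.1) ∉ Z} := by
      have : {z : ℝ × ℝ | ¬ (z.1⁻¹, -z.2 / z.1) ∉ Z} =
          (fun z : ℝ × ℝ => (z.1⁻¹, -z.2 / z.1)) ⁻¹' Z := by
        ext z
        simp
      rw [this]
      exact hmeas hZm
    rw [ae_iff, Measure.volume_eq_prod, Measure.measure_prod_null hms]
    filter_upwards [hS] with p hp
    exact hp
  have hswap : ∀ᵐ z : ℝ × ℝ, (z.2⁻¹, -z.1 / z.2) ∉ Z := by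
    have := (Measure.measurePreserving_swap (μ := (volume : Measure ℝ))
      (ν := (volume : Measure ℝ))).quasiMeasurePreserving.ae hprod
    exact this
  have hfin : ∀ᵐ k : ℝ, ∀ᵐ p : ℝ, (p⁻¹, -k / p) ∉ Z := Measure.ae_ae_of_ae_prod hswap
  filter_upwards [hfin] with k hk
  filter_upwards [hk] with p hp
  by_contra hn
  rw [one_div] at hn
  exact hp (hZP hn)

end Pool.Agent.H77.RT.T.NULL
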