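import Pool.Agent.H77.RT.Stm

/-!
# RT-POR (helper1): the portion
-/

set_option autoImplicit false

namespace Pool.Agent.H77.RT.T.POR

open MeasureTheory Filter Topology Set
open scoped ENNReal ContDiff FourierTransform

theorem cont_of_nice {a : ℝ → ℂ} (ha : Nice a) : Continuous a := by
  obtain ⟨b, hb⟩ := ha 0
  have : a = b := by
    funext x
    rw [hb x, iteratedDeriv_zero]
  rw [this]
  exact b.continuous

theorem sm_kern {a : ℝ → ℂ} (ha : Continuous a) {θ : ℝ → ℝ} (hθ : Continuous θ) :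
    StronglyMeasurable fun z : ℝ × ℝ => kern a θ z.1 z.2 := by
  unfold kern
  have h1 : Continuous (Function.uncurry fun (z : ℝ × ℝ) (k : ℝ) =>
      (θ k : ℂ) * a (z.1 - k * z.2)) := by
    unfold Function.uncurry
    fun_prop
  exact (h1.stronglyMeasurable).integral_prod_right

theorem sm_Gr {f : ℝ × ℝ → ℂ} (hf : Measurable f) {a : ℝ → ℂ} (ha : Continuous a) {θ : ℝ → ℝ}
    (hθ : Continuous θ) (r : ℝ) : StronglyMeasurable fun k : ℝ => Gr f a θ r k := by
  unfold Gr
  have h1 : StronglyMeasurable (Function.uncurry fun (k : ℝ) (q : ℝ × ℝ) =>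
      f q * kern a θ (q.1 - k * q.2) (r * q.2)) := by
    have h2 : StronglyMeasurable fun z : ℝ × (ℝ × ℝ) => f z.2 :=
      (hf.comp measurable_snd).stronglyMeasurable
    have h3 : Measurable fun z : ℝ × (ℝ × ℝ) => ((z.2.1 - z.1 * z.2.2, r * z.2.2) : ℝ × ℝ) := by
      fun_prop
    have h4 := (sm_kern ha hθ).comp_measurable h3
    exact h2.mul h4
  exact h1.integral_prod_right

theorem test_scale {θ : ℝ → ℝ} (hθ : Test θ) (r k : ℝ) (hr : 0 < r)
    (hs : tsupport θ ⊆ Metric.closedBall 0 1) :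
    Test (fun t => r⁻¹ * θ ((t - k) / r)) ∧
      tsupport (fun t => r⁻¹ * θ ((t - k) / r)) ⊆ Metric.closedBall k r := by
  have hsub : tsupport (fun t => r⁻¹ * θ ((t - k) / r)) ⊆ Metric.closedBall k r := by
    refine closure_minimal ?_ Metric.isClosed_closedBall
    intro t ht
    have h1 : θ ((t - k) / r) ≠ 0 := by
      intro h
      exact ht (by simp [h])
    have h2 := hs (subset_tsupport _ (Function.mem_support.2 h1))
    rw [mem_closedBall_zero_iff, Real.norm_eq_abs, abs_div, abs_of_pos hr, div_le_one hr] at h2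
    rw [Metric.mem_closedBall, Real.dist_eq]
    exact h2
  refine ⟨⟨?_, ?_⟩, hsub⟩
  · refine contDiff_const.mul (hθ.1.comp ?_)
    exact (contDiff_id.sub contDiff_const).div_const r
  · exact HasCompactSupport.of_support_subset_isCompact (isCompact_closedBall k r)
      (subset_closure.trans hsub)

theorem main (hg : S_GRT) (hl : S_LIM) (hb : S_BND) (hp : S_PTW) : S_POR := by
  intro f N a hf ha hvan E c d M hE hM hW hT hdis Θ hΘ hsup
  -- the bump
  let φ : ContDiffBump (0 : ℝ) := ⟨1 / 2, 1, by norm_num, by norm_num⟩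
  set θ : ℝ → ℝ := φ.normed volume with hθdef
  have hθ1 : ∫ s : ℝ, θ s = 1 := φ.integral_normed
  have hθs : tsupport θ ⊆ Metric.closedBall 0 1 := by
    rw [hθdef, φ.tsupport_normed_eq]
  have hθ : Test θ := ⟨φ.contDiff_normed, φ.hasCompactSupport_normed⟩
  have hθ1' : (∫ s : ℝ, (θ s : ℂ)) = 1 := by
    rw [integral_complex_ofReal, hθ1, Complex.ofReal_one]
  obtain ⟨C, hC0, hC⟩ := hb a ha θ hθ N
  obtain ⟨r₀, hr₀, hthick⟩ := hΘ.2.isCompact.exists_cthickening_subset_open isOpen_Ioo hsup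
  -- vanishing away from `E`
  have hzero : ∀ r k : ℝ, 0 < r → (∀ k₁ ∈ E, r < |k - k₁|) → Gr f a θ r k = 0 := by
    intro r k hr hk
    rw [hg f a θ r k hr]
    obtain ⟨h1, h2⟩ := test_scale hθ r k hr hθs
    refine hdis _ h1 ?_
    rw [Set.disjoint_left]
    intro t ht htE
    have h3 := h2 ht
    rw [Metric.mem_closedBall, dist_comm, Real.dist_eq] at h3
    exact absurd h3 (not_le.2 (hk t htE))
  have hWlt : ∀ k ∈ E, k ∈ Ioo c d → W f N k < ⊤ := fun k hk hcd =>
    lt_of_le_of_lt (hW k hk hcd.1 hcd.2) hM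
  have hbound : ∀ r k : ℝ, 0 < r → r ≤ r₀ → k ∈ tsupport Θ → ‖Gr f a θ r k‖ ≤ C * M.toReal := by
    intro r k hr hr' hk
    by_cases h : ∃ k₁ ∈ E, |k - k₁| ≤ r
    · obtain ⟨k₁, hk₁, hkk⟩ := h
      have h1 : k₁ ∈ Ioo c d := by
        refine hthick (Metric.closedBall_subset_cthickening hk r₀ ?_)
        rw [Metric.mem_closedBall, dist_comm, Real.dist_eq]
        exact hkk.trans hr'
      refine (hC f hf r k k₁ hr hkk (hWlt k₁ hk₁ h1)).trans ?_
      exact mul_le_mul_of_nonneg_left (ENNReal.toReal_mono hM.ne (hW k₁ hk₁ h1.1 h1.2)) hC0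
    · push Not at h
      rw [hzero r k hr h, norm_zero]
      exact mul_nonneg hC0 ENNReal.toReal_nonneg
  have hrpos : ∀ n : ℕ, (0 : ℝ) < 1 / ((n : ℝ) + 1) := fun n => Nat.one_div_pos_of_nat
  have hrlim : Tendsto (fun n : ℕ => 1 / ((n : ℝ) + 1)) atTop (𝓝 0) :=
    tendsto_one_div_add_atTop_nhds_zero_nat
  have hlim0 : Tendsto (fun n : ℕ => ∫ k : ℝ, (Θ k : ℂ) * Gr f a θ (1 / ((n : ℝ) + 1)) k) atTop
      (𝓝 (∫ _ : ℝ, (0 : ℂ))) := by
    refine tendsto_integral_filter_of_dominated_convergence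
      (fun k => |Θ k| * (C * M.toReal)) ?_ ?_ ?_ ?_
    · refine Eventually.of_forall fun n => ?_
      refine StronglyMeasurable.aestronglyMeasurable ?_
      refine StronglyMeasurable.mul ?_ (sm_Gr hf (cont_of_nice ha) hθ.1.continuous _)
      exact (Complex.continuous_ofReal.comp hΘ.1.continuous).stronglyMeasurable
    · have h1 : ∀ᶠ n : ℕ in atTop, 1 / ((n : ℝ) + 1) < r₀ := hrlim.eventually_lt_const hr₀
      filter_upwards [h1] with n hn
      refine Eventually.of_forall fun k => ?_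
      rw [norm_mul, Complex.norm_real, Real.norm_eq_abs]
      by_cases hk : k ∈ tsupport Θ
      · exact mul_le_mul_of_nonneg_left (hbound _ k (hrpos n) hn.le hk) (abs_nonneg _)
      · rw [image_eq_zero_of_notMem_tsupport hk, abs_zero, zero_mul, zero_mul]
    · exact ((hΘ.1.continuous.abs.integrable_of_hasCompactSupport hΘ.2.abs)).mul_const _
    · filter_upwards [hvan] with k hk
      by_cases hkK : k ∈ tsupport Θ
      · by_cases hkE : k ∈ E
        · have h1 := hp f N k hf (hWlt k hkE (hsup hkK)) hk a ha θ hθ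
          have h2 := h1.const_mul (Θ k : ℂ)
          rwa [mul_zero] at h2
        · obtain ⟨ε, hε, hball⟩ := Metric.isOpen_iff.1 hE.isOpen_compl k hkE
          have h1 : ∀ᶠ n : ℕ in atTop, 1 / ((n : ℝ) + 1) < ε := hrlim.eventually_lt_const hε
          refine tendsto_const_nhds.congr' ?_
          filter_upwards [h1] with n hn
          rw [hzero _ k (hrpos n), mul_zero]
          intro k₁ hk₁
          by_contra hcon
          push Not at hcon
          have h3 : k₁ ∈ Metric.ball k ε := by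
            rw [Metric.mem_ball, dist_comm, Real.dist_eq]
            exact lt_of_le_of_lt hcon hn
          exact hball h3 hk₁
      · rw [image_eq_zero_of_notMem_tsupport hkK]
        simp
  have hlim1 := hl f N a hf hT ha Θ θ hΘ hθ
  have h := tendsto_nhds_unique hlim1 hlim0
  rwa [hθ1', one_mul, integral_zero] at h

end Pool.Agent.H77.RT.T.POR
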