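import Pool.Agent.H77.RT.Stm

/-! PTW: `Gr(r,k) → 0` at slopes with `W < ∞` and vanishing integrals. -/

set_option autoImplicit false

namespace Pool.Agent.H77.RT.T.PTW

open MeasureTheory Filter Topology Set
open scoped ENNReal ContDiff FourierTransform

/-- a nice function is continuous and decays -/
lemma nice_decay {a : ℝ → ℂ} (ha : Nice a) (N : ℕ) :
    Continuous a ∧ ∃ C : ℝ, 0 ≤ C ∧ ∀ p, ‖a p‖ ≤ C / (1 + |p|) ^ N := by
  obtain ⟨b, hb⟩ := ha 0
  have hab : a = b := by
    funext x
    rw [hb x, iteratedDeriv_zero]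
  refine ⟨hab ▸ b.continuous, ?_⟩
  refine ⟨2 ^ N * (Finset.Iic (N, 0)).sup (fun m => SchwartzMap.seminorm ℝ m.1 m.2) b, by positivity,
    fun p => ?_⟩
  have h := SchwartzMap.one_add_le_sup_seminorm_apply (𝕜 := ℝ) (m := (N, 0)) (k := N) (n := 0)
    le_rfl le_rfl b p
  rw [norm_iteratedFDeriv_zero] at h
  rw [hab, le_div_iff₀ (by positivity), mul_comm]
  exact h

lemma kern_meas {a : ℝ → ℂ} (hac : Continuous a) {θ : ℝ → ℝ} (hθ : Continuous θ) :
    Measurable fun z : ℝ × ℝ => kern a θ z.1 z.2 := by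
  have h1 : StronglyMeasurable fun w : (ℝ × ℝ) × ℝ => (θ w.2 : ℂ) * a (w.1.1 - w.2 * w.1.2) := by
    apply Continuous.stronglyMeasurable
    exact (Complex.continuous_ofReal.comp (hθ.comp continuous_snd)).mul (hac.comp (by fun_prop))
  exact (h1.integral_prod_right' (ν := (volume : Measure ℝ))).measurable

theorem main (h : S_KER) (h' : S_RAD) : S_PTW := by
  intro f N k hf hW hV a ha θ hθ
  obtain ⟨hac, C, hC0, hC⟩ := nice_decay ha N
  obtain ⟨_, A, hA0, hA⟩ := nice_decay ha 0
  obtain ⟨D, hD⟩ := h a ha θ hθ N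
  have hθc : Continuous θ := hθ.1.continuous
  have hR := h' f N k hf hW hV a hac ⟨C, hC⟩
  have hθi : Integrable (fun s : ℝ => (θ s : ℂ)) :=
    (hθc.integrable_of_hasCompactSupport hθ.2).ofReal
  have hlim : ∫ q : ℝ × ℝ, f q * ((∫ s : ℝ, (θ s : ℂ)) * a (q.1 - k * q.2)) = 0 := by
    have e : ∀ q : ℝ × ℝ, f q * ((∫ s : ℝ, (θ s : ℂ)) * a (q.1 - k * q.2)) =
        (∫ s : ℝ, (θ s : ℂ)) * (f q * a (q.1 - k * q.2)) := fun q => by ring
    simp only [e]
    rw [integral_const_mul, hR, mul_zero]
  rw [← hlim]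
  unfold Gr
  apply tendsto_integral_of_dominated_convergence
    (fun q : ℝ × ℝ => max D 0 * (‖f q‖ / (1 + |q.1 - k * q.2|) ^ N))
  · intro n
    apply Measurable.aestronglyMeasurable
    exact hf.mul ((kern_meas hac hθc).comp
      (by fun_prop : Measurable fun q : ℝ × ℝ => (q.1 - k * q.2, 1 / ((n : ℝ) + 1) * q.2)))
  · apply Integrable.const_mul
    refine ⟨?_, ?_⟩
    · apply Measurable.aestronglyMeasurable
      exact hf.norm.div (by fun_prop)
    · rw [hasFiniteIntegral_iff_ofReal (Eventually.of_forall fun q => by positivity)]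
      exact hW
  · intro n
    refine Eventually.of_forall fun q => ?_
    rw [norm_mul]
    set r : ℝ := 1 / ((n : ℝ) + 1) with hr
    have h0 : 0 < 1 + |q.1 - k * q.2| := by positivity
    have h4 : ‖kern a θ (q.1 - k * q.2) (r * q.2)‖ ≤ max D 0 / (1 + |q.1 - k * q.2|) ^ N := by
      calc ‖kern a θ (q.1 - k * q.2) (r * q.2)‖
          ≤ D / (1 + |q.1 - k * q.2| + |r * q.2|) ^ N := hD _ _
        _ ≤ max D 0 / (1 + |q.1 - k * q.2| + |r * q.2|) ^ N := by
            apply div_le_div_of_nonneg_right (le_max_left _ _)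
            positivity
        _ ≤ max D 0 / (1 + |q.1 - k * q.2|) ^ N := by
            apply div_le_div_of_nonneg_left (le_max_right _ _) (pow_pos h0 N)
            exact pow_le_pow_left₀ h0.le (by linarith [abs_nonneg (r * q.2)]) N
    calc ‖f q‖ * ‖kern a θ (q.1 - k * q.2) (r * q.2)‖
        ≤ ‖f q‖ * (max D 0 / (1 + |q.1 - k * q.2|) ^ N) :=
          mul_le_mul_of_nonneg_left h4 (norm_nonneg _)
      _ = _ := by ring
  · refine Eventually.of_forall fun q => ?_
    apply Tendsto.const_mul
    rw [← integral_mul_const]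
    unfold kern
    apply tendsto_integral_of_dominated_convergence (fun s : ℝ => ‖(θ s : ℂ)‖ * A)
    · intro n
      apply Continuous.aestronglyMeasurable
      exact (Complex.continuous_ofReal.comp hθc).mul (hac.comp (by fun_prop))
    · exact hθi.norm.mul_const A
    · intro n
      refine Eventually.of_forall fun s => ?_
      rw [norm_mul]
      apply mul_le_mul_of_nonneg_left _ (norm_nonneg _)
      have := hA (q.1 - k * q.2 - s * (1 / ((n : ℝ) + 1) * q.2))
      simpa using this
    · refine Eventually.of_forall fun s => ?_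
      apply Tendsto.const_mul
      have h1 : Tendsto (fun n : ℕ => q.1 - k * q.2 - s * (1 / ((n : ℝ) + 1) * q.2)) atTop
          (𝓝 (q.1 - k * q.2 - s * (0 * q.2))) := by
        apply Tendsto.sub tendsto_const_nhds
        apply Tendsto.const_mul
        apply Tendsto.mul_const
        exact tendsto_one_div_add_atTop_nhds_zero_nat
      have e : q.1 - k * q.2 - s * (0 * q.2) = q.1 - k * q.2 := by ring
      rw [e] at h1
      exact (hac.tendsto _).comp h1

end Pool.Agent.H77.RT.T.PTW
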