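import Pool.Agent.H77.RT.Stm

/-! # Project RT, stub RAD (helper10) -/

set_option autoImplicit false

namespace Pool.Agent.H77.RT.T.RAD

open MeasureTheory Filter Topology Set
open scoped ENNReal

/-- the shear `(p, y) ↦ (p + k y, y)` -/
def shear (k : ℝ) : (ℝ × ℝ) ≃ᵐ (ℝ × ℝ) where
  toFun z := (z.1 + k * z.2, z.2)
  invFun z := (z.1 - k * z.2, z.2)
  left_inv z := by ext <;> simp
  right_inv z := by ext <;> simp
  measurable_toFun := by
    change Measurable fun z : ℝ × ℝ => (z.1 + k * z.2, z.2)
    fun_prop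
  measurable_invFun := by
    change Measurable fun z : ℝ × ℝ => (z.1 - k * z.2, z.2)
    fun_prop

lemma shear_apply (k : ℝ) (z : ℝ × ℝ) : shear k z = (z.1 + k * z.2, z.2) := rfl

lemma shear_mp (k : ℝ) : MeasurePreserving (shear k) volume volume := by
  have h1 : MeasurePreserving (fun z : ℝ × ℝ => (z.1, z.2 + k * z.1)) (volume.prod volume) (volume.prod volume) := by
    refine (MeasurePreserving.id (volume : Measure ℝ)).skew_product (g := fun y p => p + k * y) ?_ ?_
    · change Measurable fun z : ℝ × ℝ => z.2 + k * z.1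
      fun_prop
    · refine Filter.Eventually.of_forall fun y => ?_
      exact (measurePreserving_add_right (volume : Measure ℝ) (k * y)).map_eq
  have h2 := (Measure.measurePreserving_swap (μ := (volume : Measure ℝ)) (ν := (volume : Measure ℝ))).comp
    (h1.comp (Measure.measurePreserving_swap (μ := (volume : Measure ℝ)) (ν := (volume : Measure ℝ))))
  exact h2

theorem main : S_RAD := by
  intro f N k hf hW hV φ hφ hC
  obtain ⟨C, hC⟩ := hC
  have hC0 : 0 ≤ C := by
    have h := hC 0
    simp only [abs_zero, add_zero, one_pow, div_one] at h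
    exact (norm_nonneg _).trans h
  have hm : Measurable fun q : ℝ × ℝ => f q * φ (q.1 - k * q.2) := by
    have h1 : Measurable fun q : ℝ × ℝ => q.1 - k * q.2 := by fun_prop
    exact hf.mul (hφ.measurable.comp h1)
  have hint : Integrable fun q : ℝ × ℝ => f q * φ (q.1 - k * q.2) := by
    refine ⟨hm.aestronglyMeasurable, ?_⟩
    rw [hasFiniteIntegral_iff_norm]
    have h1 : ∫⁻ q : ℝ × ℝ, ENNReal.ofReal ‖f q * φ (q.1 - k * q.2)‖ ≤
        ENNReal.ofReal C * W f N k := by
      rw [W, ← lintegral_const_mul']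
      · refine lintegral_mono fun q => ?_
        rw [← ENNReal.ofReal_mul hC0]
        apply ENNReal.ofReal_le_ofReal
        rw [norm_mul]
        calc ‖f q‖ * ‖φ (q.1 - k * q.2)‖ ≤ ‖f q‖ * (C / (1 + |q.1 - k * q.2|) ^ N) :=
              mul_le_mul_of_nonneg_left (hC _) (norm_nonneg _)
          _ = C * (‖f q‖ / (1 + |q.1 - k * q.2|) ^ N) := by ring
      · exact ENNReal.ofReal_ne_top
    exact h1.trans_lt (ENNReal.mul_lt_top ENNReal.ofReal_lt_top hW)
  have h2 : ∫ q : ℝ × ℝ, f q * φ (q.1 - k * q.2) =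
      ∫ z : ℝ × ℝ, f (z.1 + k * z.2, z.2) * φ z.1 := by
    rw [← (shear_mp k).integral_comp' (fun q : ℝ × ℝ => f q * φ (q.1 - k * q.2))]
    refine integral_congr_ae (Filter.Eventually.of_forall fun z => ?_)
    simp [shear_apply]
  have hint2 : Integrable (fun z : ℝ × ℝ => f (z.1 + k * z.2, z.2) * φ z.1) (volume.prod volume) := by
    have h3 := (shear_mp k).integrable_comp_emb (shear k).measurableEmbedding
      (g := fun q : ℝ × ℝ => f q * φ (q.1 - k * q.2))
    have h4 := h3.2 hint
    refine h4.congr (Filter.Eventually.of_forall fun z => ?_)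
    simp [shear_apply]
  rw [h2, Measure.volume_eq_prod, integral_prod _ hint2]
  rw [integral_eq_zero_of_ae]
  filter_upwards [hV] with p hp
  rw [integral_mul_const, hp, zero_mul]
  rfl

end Pool.Agent.H77.RT.T.RAD
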