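import Pool.Agent.H77.RT.Stm

set_option autoImplicit false

namespace Pool.Agent.H77.RT.T.TEM

open MeasureTheory Filter Topology Set
open scoped ENNReal ContDiff FourierTransform

theorem key {F u v c : ℝ} (N : ℕ) (hF : 0 ≤ F) (hu : 0 < u) (hv : 0 < v) (hc : 0 ≤ c) (h : v ≤ c * u) :
    F / u ^ N ≤ c ^ N * (F / v ^ N) := by
  have h1 : v ^ N ≤ c ^ N * u ^ N := by
    rw [← mul_pow]
    exact pow_le_pow_left₀ hv.le h N
  rw [mul_div_assoc', div_le_div_iff₀ (pow_pos hu N) (pow_pos hv N)]
  nlinarith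

theorem main : S_TEM := by
  refine ⟨fun f N k hf hW => ?_, fun f N t hf hT => ?_⟩
  · unfold Tem
    have hm : Measurable fun q : ℝ × ℝ => ‖f q‖ / (1 + |q.1| + |q.2|) ^ N := by
      have h1 : Continuous fun q : ℝ × ℝ => (1 + |q.1| + |q.2|) ^ N := by fun_prop
      exact hf.norm.div h1.measurable
    refine ⟨hm.aestronglyMeasurable, ?_⟩
    rw [hasFiniteIntegral_iff_ofReal (Eventually.of_forall fun q => by positivity)]
    have h1 : ∫⁻ q : ℝ × ℝ, ENNReal.ofReal (‖f q‖ / (1 + |q.1| + |q.2|) ^ N) ≤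
        ∫⁻ q : ℝ × ℝ, ENNReal.ofReal ((1 + |k|) ^ N) * ENNReal.ofReal (‖f q‖ / (1 + |q.1 - k * q.2|) ^ N) := by
      refine lintegral_mono fun q => ?_
      rw [← ENNReal.ofReal_mul (by positivity)]
      refine ENNReal.ofReal_le_ofReal ?_
      refine key N (norm_nonneg _) (by positivity) (by positivity) (by positivity) ?_
      have h2 : |q.1 - k * q.2| ≤ |q.1| + |k| * |q.2| := by
        rw [← abs_mul]
        exact abs_sub _ _
      have h3 := abs_nonneg q.1
      have h4 := abs_nonneg q.2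
      have h5 := abs_nonneg k
      nlinarith [mul_nonneg h5 h3, mul_nonneg h5 h4]
    refine h1.trans_lt ?_
    rw [lintegral_const_mul' _ _ ENNReal.ofReal_ne_top]
    exact ENNReal.mul_lt_top ENNReal.ofReal_lt_top hW
  · unfold Tem at hT ⊢
    have h0 := (hT.comp_add_right ((0 : ℝ), t)).const_mul ((1 + |t|) ^ N)
    have hm : Measurable fun q : ℝ × ℝ => ‖f (q.1, q.2 + t)‖ / (1 + |q.1| + |q.2|) ^ N := by
      have h1 : Continuous fun q : ℝ × ℝ => (1 + |q.1| + |q.2|) ^ N := by fun_prop
      have h2 : Measurable fun q : ℝ × ℝ => (q.1, q.2 + t) := by fun_prop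
      exact (hf.comp h2).norm.div h1.measurable
    refine h0.mono' hm.aestronglyMeasurable (Eventually.of_forall fun q => ?_)
    rw [Real.norm_eq_abs, abs_of_nonneg (by positivity)]
    have e : q + ((0 : ℝ), t) = (q.1, q.2 + t) := by
      ext <;> simp
    simp only [e]
    refine key N (norm_nonneg _) (by positivity) (by positivity) (by positivity) ?_
    have h2 := abs_add_le q.2 t
    have h3 := abs_nonneg q.1
    have h4 := abs_nonneg q.2
    have h5 := abs_nonneg t
    nlinarith [mul_nonneg h5 h3, mul_nonneg h5 h4]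

end Pool.Agent.H77.RT.T.TEM
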