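import Pool.Agent.H77.RT.Stm

/-!
# Stub TRA: invariance under translations in `y`
-/

set_option autoImplicit false

namespace Pool.Agent.H77.RT.T.TRA

open MeasureTheory Filter Topology Set
open scoped ENNReal ContDiff FourierTransform

lemma W_le (f : ℝ × ℝ → ℂ) (t : ℝ) (N : ℕ) (k c : ℝ) (hc : |k * t| ≤ c) :
    W (fun q => f (q.1, q.2 + t)) N k ≤ ENNReal.ofReal ((1 + c) ^ N) * W f N k := by
  unfold W
  have h1 : ∫⁻ q : ℝ × ℝ, ENNReal.ofReal (‖f (q.1, q.2 + t)‖ / (1 + |q.1 - k * q.2|) ^ N) =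
      ∫⁻ q : ℝ × ℝ, ENNReal.ofReal (‖f q‖ / (1 + |q.1 - k * (q.2 - t)|) ^ N) := by
    rw [← lintegral_add_right_eq_self
      (fun q : ℝ × ℝ => ENNReal.ofReal (‖f q‖ / (1 + |q.1 - k * (q.2 - t)|) ^ N)) ((0, t) : ℝ × ℝ)]
    refine lintegral_congr fun q => ?_
    have e1 : q + ((0, t) : ℝ × ℝ) = (q.1, q.2 + t) := by
      ext <;> simp
    simp only [e1, add_sub_cancel_right]
  rw [h1, ← lintegral_const_mul' _ _ ENNReal.ofReal_ne_top]
  refine lintegral_mono fun q => ?_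
  have hc0 : 0 ≤ c := (abs_nonneg _).trans hc
  rw [← ENNReal.ofReal_mul (by positivity)]
  refine ENNReal.ofReal_le_ofReal ?_
  have hA : 0 < 1 + |q.1 - k * q.2| := by positivity
  have hB : 0 < 1 + |q.1 - k * (q.2 - t)| := by positivity
  have h2 : 1 + |q.1 - k * q.2| ≤ (1 + c) * (1 + |q.1 - k * (q.2 - t)|) := by
    have h3 : |q.1 - k * q.2| ≤ |q.1 - k * (q.2 - t)| + |k * t| := by
      have e : q.1 - k * q.2 = (q.1 - k * (q.2 - t)) - k * t := by ring
      rw [e]
      exact abs_sub _ _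
    nlinarith [abs_nonneg (q.1 - k * (q.2 - t))]
  have h4 : (1 + |q.1 - k * q.2|) ^ N ≤ (1 + c) ^ N * (1 + |q.1 - k * (q.2 - t)|) ^ N := by
    rw [← mul_pow]
    exact pow_le_pow_left₀ hA.le h2 N
  rw [← mul_div_assoc, div_le_div_iff₀ (pow_pos hB N) (pow_pos hA N)]
  calc ‖f q‖ * (1 + |q.1 - k * q.2|) ^ N
      ≤ ‖f q‖ * ((1 + c) ^ N * (1 + |q.1 - k * (q.2 - t)|) ^ N) :=
        mul_le_mul_of_nonneg_left h4 (norm_nonneg _)
    _ = (1 + c) ^ N * ‖f q‖ * (1 + |q.1 - k * (q.2 - t)|) ^ N := by ring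

theorem main : S_TRA := by
  intro f t hf
  refine ⟨fun k hk => ?_, fun k hk => ?_⟩
  · rcases hk with ⟨N, hN⟩ | ⟨N, c, d, hc, hd, h⟩
    · refine Or.inl ⟨N, lt_of_le_of_lt (W_le f t N k |k * t| le_rfl) ?_⟩
      exact ENNReal.mul_lt_top ENNReal.ofReal_lt_top hN
    · refine Or.inr ⟨N, c, d, hc, hd, ?_⟩
      have h1 : ∫⁻ s in Ioo c d, W (fun q => f (q.1, q.2 + t)) N s ≤
          ∫⁻ s in Ioo c d, ENNReal.ofReal ((1 + (|c| + |d|) * |t|) ^ N) * W f N s := by
        refine setLIntegral_mono' measurableSet_Ioo fun s hs => ?_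
        refine W_le f t N s _ ?_
        rw [abs_mul]
        refine mul_le_mul_of_nonneg_right ?_ (abs_nonneg t)
        rw [abs_le]
        constructor
        · have := neg_abs_le c; have := abs_nonneg d; linarith [hs.1]
        · have := le_abs_self d; have := abs_nonneg c; linarith [hs.2]
      refine lt_of_le_of_lt h1 ?_
      rw [lintegral_const_mul' _ _ ENNReal.ofReal_ne_top]
      exact ENNReal.mul_lt_top ENNReal.ofReal_lt_top h
  · have h1 : ∀ᵐ p : ℝ, ∫ y : ℝ, f ((p - k * t) + k * y, y) = 0 :=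
      (measurePreserving_sub_right volume (k * t)).quasiMeasurePreserving.ae hk
    filter_upwards [h1] with p hp
    rw [← hp, ← integral_add_right_eq_self (fun y : ℝ => f ((p - k * t) + k * y, y)) t]
    refine integral_congr_ae (Filter.Eventually.of_forall fun y => ?_)
    have e : p - k * t + k * (y + t) = p + k * y := by ring
    simp only [e]

end Pool.Agent.H77.RT.T.TRA
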