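import Pool.Agent.H77.RT.Stm

/-!
# ZER: the pairing vanishes for all test functions
-/

set_option autoImplicit false

namespace Pool.Agent.H77.RT.T.ZER

open MeasureTheory Filter Topology Set
open scoped ENNReal ContDiff FourierTransform

theorem W_anti (f : ℝ × ℝ → ℂ) {N N' : ℕ} (h : N ≤ N') (k : ℝ) : W f N' k ≤ W f N k := by
  unfold W
  refine lintegral_mono fun q => ENNReal.ofReal_le_ofReal ?_
  have h1 : (1 : ℝ) ≤ 1 + |q.1 - k * q.2| := by linarith [abs_nonneg (q.1 - k * q.2)]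
  exact div_le_div_of_nonneg_left (norm_nonneg _) (by positivity) (pow_le_pow_right₀ h1 h)

theorem Tem_mono {f : ℝ × ℝ → ℂ} (hf : Measurable f) {N N' : ℕ} (h : N ≤ N') (ht : Tem f N) : Tem f N' := by
  unfold Tem at *
  refine ht.mono ?_ (Eventually.of_forall fun q => ?_)
  · refine (hf.norm.div ?_).aestronglyMeasurable
    exact ((measurable_const.add measurable_fst.norm).add measurable_snd.norm).pow_const _
  · have h1 : (1 : ℝ) ≤ 1 + |q.1| + |q.2| := by linarith [abs_nonneg q.1, abs_nonneg q.2]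
    rw [Real.norm_of_nonneg (by positivity), Real.norm_of_nonneg (by positivity)]
    exact div_le_div_of_nonneg_left (norm_nonneg _) (by positivity) (pow_le_pow_right₀ h1 h)

theorem main (ha : S_ADD) (hal : S_ALP) (hl : S_LSC) (hlo : S_LOC) (hb : S_BAI) (hp : S_POR) : S_ZER := by
  intro f N₀ hf ht hgood hvan a haN
  obtain ⟨E, hE⟩ : ∃ E : Set ℝ, E = {k | ∀ ε : ℝ, 0 < ε → ∃ Θ, Test Θ ∧ tsupport Θ ⊆ Ioo (k - ε) (k + ε) ∧
    T f a Θ ≠ 0} := ⟨_, rfl⟩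
  have hnotE : ∀ k, k ∉ E → ∃ ε : ℝ, 0 < ε ∧ ∀ Θ, Test Θ → tsupport Θ ⊆ Ioo (k - ε) (k + ε) →
      T f a Θ = 0 := by
    intro k hk
    rw [hE, mem_setOf_eq] at hk
    push Not at hk
    exact hk
  have hclosed : IsClosed E := by
    rw [← isOpen_compl_iff, Metric.isOpen_iff]
    intro k hk
    obtain ⟨ε, hε, h⟩ := hnotE k hk
    refine ⟨ε / 2, by positivity, fun k' hk' hmem => ?_⟩
    rw [hE] at hmem
    obtain ⟨Θ, h1, h2, h3⟩ := hmem (ε / 2) (by positivity)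
    rw [Metric.mem_ball, Real.dist_eq, abs_lt] at hk'
    refine h3 (h Θ h1 (h2.trans (Ioo_subset_Ioo (by linarith) (by linarith))))
  have hE0 : ∀ Θ, Test Θ → Disjoint (tsupport Θ) E → T f a Θ = 0 := by
    intro Θ hΘ hdis
    exact hlo (T f a) (ha f N₀ a hf ht haN) Θ hΘ fun k hk => hnotE k (disjoint_left.1 hdis hk)
  -- tests in a neighbourhood of a point of `E`
  have hnear : ∀ k ∈ E, ∀ c d : ℝ, c < k → k < d →
      ∃ Θ, Test Θ ∧ tsupport Θ ⊆ Ioo c d ∧ T f a Θ ≠ 0 := by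
    intro k hk c d hc hd
    rw [hE] at hk
    obtain ⟨Θ, h1, h2, h3⟩ := hk (min (k - c) (d - k)) (lt_min (by linarith) (by linarith))
    refine ⟨Θ, h1, h2.trans (Ioo_subset_Ioo ?_ ?_), h3⟩
    · linarith [min_le_left (k - c) (d - k)]
    · linarith [min_le_right (k - c) (d - k)]
  by_contra hcon
  push Not at hcon
  obtain ⟨Θ₀, hΘ₀, hne⟩ := hcon
  have hEne : E.Nonempty := by
    by_contra h
    rw [not_nonempty_iff_eq_empty] at h
    exact hne (hE0 Θ₀ hΘ₀ (by rw [h]; exact disjoint_empty _))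
  have hcov : E ⊆ ⋃ n : ℕ, {k : ℝ | W f (Nat.unpair n).1 k ≤ ((Nat.unpair n).2 : ℝ≥0∞)} := by
    intro k hk
    have h1 : ∃ N, W f N k < ⊤ := by
      rcases hgood k with h | ⟨N, c, d, hc, hd, h⟩
      · exact h
      · exfalso
        obtain ⟨Θ, h1, h2, h3⟩ := hnear k hk c d hc hd
        exact h3 (hal f N c d hf h hvan a haN Θ h1 h2)
    obtain ⟨N, hN⟩ := h1
    obtain ⟨M, hM⟩ := ENNReal.exists_nat_gt hN.ne
    refine mem_iUnion.2 ⟨Nat.pair N M, ?_⟩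
    simp only [Nat.unpair_pair, mem_setOf_eq]
    exact hM.le
  obtain ⟨n, c, d, ⟨k₀, hk₀, hk₀'⟩, hsub⟩ := hb E
    (fun n => {k : ℝ | W f (Nat.unpair n).1 k ≤ ((Nat.unpair n).2 : ℝ≥0∞)}) hclosed hEne
    (fun n => hl f _ _ hf) hcov
  obtain ⟨Θ, h1, h2, h3⟩ := hnear k₀ hk₀ c d hk₀'.1 hk₀'.2
  refine h3 (hp f (max (Nat.unpair n).1 N₀) a hf haN hvan E c d ((Nat.unpair n).2 : ℝ≥0∞) hclosed
    (ENNReal.natCast_lt_top _) ?_ (Tem_mono hf (le_max_right _ _) ht) hE0 Θ h1 h2)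
  intro k hk hc hd
  exact (W_anti f (le_max_left _ _) k).trans (hsub ⟨hk, hc, hd⟩)

end Pool.Agent.H77.RT.T.ZER
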