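import Pool.Agent.H77.RT.T.UNI

set_option autoImplicit false

/-! RT-BAN: the reproducing formula for band-limited functions. -/

namespace Pool.Agent.H77.RT.T.BAN

open MeasureTheory Filter Topology Set
open scoped ENNReal ContDiff FourierTransform
open Pool.Agent.H77.RT.T.PAI (four_sch sch_int)
open Pool.Agent.H77.RT.T.UNI

/-- the Fourier transform of a product -/
theorem four_mul {Φ Y : ℝ → ℂ} (hΦ : Sm Φ) (hY : Sm Y) (x : ℝ) :
    𝓕 (fun ξ => Φ ξ * Y ξ) x = ∫ u : ℝ, 𝓕 Φ u * 𝓕 Y (x - u) := by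
  let P : SchwartzMap ℝ ℂ := hΦ.2.toSchwartzMap hΦ.1
  have hP : ∀ ξ, P ξ = Φ ξ := fun ξ => rfl
  have hPF : ∀ u, 𝓕 Φ u = (𝓕 P : SchwartzMap ℝ ℂ) u := fun u => by rw [SchwartzMap.fourier_coe]; rfl
  have hYc : Continuous Y := hY.1.continuous
  have hYi : Integrable Y := hYc.integrable_of_hasCompactSupport hY.2
  have hint : Integrable (fun p : ℝ × ℝ => (𝓕 P : SchwartzMap ℝ ℂ) p.1 *
      (Complex.exp (((-2 * Real.pi * p.2 * (x - p.1) : ℝ) : ℂ) * Complex.I) * Y p.2))
      ((volume : Measure ℝ).prod (volume : Measure ℝ)) := by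
    have h1 := (((𝓕 P : SchwartzMap ℝ ℂ).integrable (μ := (volume : Measure ℝ))).norm).mul_prod hYi.norm
    refine h1.mono' ?_ (Eventually.of_forall fun p => ?_)
    · refine Continuous.aestronglyMeasurable ?_
      refine ((𝓕 P : SchwartzMap ℝ ℂ).continuous.comp continuous_fst).mul ?_
      refine Continuous.mul ?_ (hYc.comp continuous_snd)
      refine Complex.continuous_exp.comp (Continuous.mul ?_ continuous_const)
      exact Complex.continuous_ofReal.comp (by fun_prop)
    · rw [norm_mul, norm_mul, Complex.norm_exp_ofReal_mul_I, one_mul]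
  have e1 : ∫ u : ℝ, 𝓕 Φ u * 𝓕 Y (x - u) = ∫ u : ℝ, ∫ ξ : ℝ, (𝓕 P : SchwartzMap ℝ ℂ) u *
      (Complex.exp (((-2 * Real.pi * ξ * (x - u) : ℝ) : ℂ) * Complex.I) * Y ξ) := by
    refine integral_congr_ae (Eventually.of_forall fun u => ?_)
    simp only
    rw [integral_const_mul, hPF, Real.fourier_real_eq_integral_exp_smul]
    rfl
  rw [e1, integral_integral_swap hint, Real.fourier_real_eq_integral_exp_smul]
  refine integral_congr_ae (Eventually.of_forall fun ξ => ?_)
  simp only [smul_eq_mul]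
  have e2 : ∫ u : ℝ, (𝓕 P : SchwartzMap ℝ ℂ) u *
      (Complex.exp (((-2 * Real.pi * ξ * (x - u) : ℝ) : ℂ) * Complex.I) * Y ξ) =
      Complex.exp (((-2 * Real.pi * ξ * x : ℝ) : ℂ) * Complex.I) * Y ξ *
        ∫ u : ℝ, Complex.exp (((2 * Real.pi * (u * ξ) : ℝ) : ℂ) * Complex.I) • (𝓕 P : SchwartzMap ℝ ℂ) u := by
    rw [← integral_const_mul]
    refine integral_congr_ae (Eventually.of_forall fun u => ?_)
    simp only [smul_eq_mul]
    have e3 : Complex.exp (((-2 * Real.pi * ξ * (x - u) : ℝ) : ℂ) * Complex.I) =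
        Complex.exp (((-2 * Real.pi * ξ * x : ℝ) : ℂ) * Complex.I) *
          Complex.exp (((2 * Real.pi * (u * ξ) : ℝ) : ℂ) * Complex.I) := by
      rw [← Complex.exp_add]
      congr 1
      push_cast
      ring
    rw [e3]; ring
  have e4 : ∫ u : ℝ, Complex.exp (((2 * Real.pi * (u * ξ) : ℝ) : ℂ) * Complex.I) • (𝓕 P : SchwartzMap ℝ ℂ) u = Φ ξ := by
    have h1 : (𝓕⁻ (𝓕 P) : SchwartzMap ℝ ℂ) ξ = Φ ξ := by
      have : (𝓕⁻ (𝓕 P) : SchwartzMap ℝ ℂ) = P := by simp
      rw [this]; rfl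
    rw [← h1, SchwartzMap.fourierInv_coe, Real.fourierInv_eq']
    refine integral_congr_ae (Eventually.of_forall fun u => ?_)
    simp only [smul_eq_mul, RCLike.inner_apply, conj_trivial]
    rw [mul_comm ξ u]
  rw [e2, e4]; ring

theorem main (hU : S_UNI) : S_BAN := by
  intro h K ρ Y hρ hh hI h0 hY hY1
  have hI' := wint hh hI
  obtain ⟨SY, hSY⟩ := four_sch hY.1 hY.2
  obtain ⟨C, hC, hCY⟩ := decay SY K
  have hSY' : 𝓕 Y = SY := funext hSY
  set D := ∫ x : ℝ, ‖h x‖ / (1 + |x|) ^ K with hD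
  have hD0 : 0 ≤ D := integral_nonneg fun x => by positivity
  -- the candidate
  set H : ℝ → ℂ := fun u => ∫ x : ℝ, h x * 𝓕 Y (x - u) with hH
  have hHm : Measurable H := by
    have h1 : Measurable fun p : ℝ × ℝ => h p.2 * SY (p.2 - p.1) :=
      (hh.comp measurable_snd).mul (SY.continuous.measurable.comp (measurable_snd.sub measurable_fst))
    have h2 := (h1.stronglyMeasurable.integral_prod_right' (ν := (volume : Measure ℝ))).measurable
    rw [hH, hSY']
    exact h2
  have hkb : ∀ x u : ℝ, ‖SY (x - u)‖ ≤ C * (1 + |u|) ^ K / (1 + |x|) ^ K := fun x u => shift_le K hC (hCY _)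
  have hHb : ∀ u, ‖H u‖ ≤ C * (1 + |u|) ^ K * D := by
    intro u
    have h1 : ‖H u‖ ≤ ∫ x : ℝ, C * (1 + |u|) ^ K * (‖h x‖ / (1 + |x|) ^ K) := by
      refine norm_integral_le_of_norm_le (hI'.const_mul _) (Eventually.of_forall fun x => ?_)
      rw [norm_mul, hSY']
      calc ‖h x‖ * ‖SY (x - u)‖ ≤ ‖h x‖ * (C * (1 + |u|) ^ K / (1 + |x|) ^ K) :=
            mul_le_mul_of_nonneg_left (hkb x u) (norm_nonneg _)
        _ = C * (1 + |u|) ^ K * (‖h x‖ / (1 + |x|) ^ K) := by ring
    rwa [integral_const_mul] at h1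
  have hhi : ∀ A, Sm A → Integrable fun x => h x * 𝓕 A x := by
    intro A hA
    obtain ⟨S, hS⟩ := four_sch hA.1 hA.2
    obtain ⟨C', _, hC'⟩ := decay S K
    have hS' : 𝓕 A = S := funext hS
    rw [hS']
    exact wmul hh hI' S.continuous.measurable hC'
  -- the difference
  have hv := hU (fun x => h x - H x) (K + 2) (hh.sub hHm) ?_ ?_
  · filter_upwards [hv] with x hx
    have h1 : h x - H x = 0 := hx
    exact sub_eq_zero.1 h1
  · have h1 : Integrable fun x : ℝ => ‖h x - H x‖ / (1 + |x|) ^ (K + 2) := by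
      have h2 : Integrable fun x : ℝ => (1 + ‖x‖) ^ (-(2 : ℝ)) := integrable_one_add_norm (by simp)
      refine (hI'.add (h2.const_mul (C * D))).mono' ?_ (Eventually.of_forall fun x => ?_)
      · have h3 : Continuous fun x : ℝ => (1 + |x|) ^ (K + 2) := by fun_prop
        exact ((hh.sub hHm).norm.div h3.measurable).aestronglyMeasurable
      · rw [Real.norm_eq_abs, abs_of_nonneg (by positivity)]
        have h4 : ‖h x - H x‖ ≤ ‖h x‖ + C * (1 + |x|) ^ K * D := (norm_sub_le _ _).trans (by linarith [hHb x])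
        have h5 : (1 : ℝ) ≤ (1 + |x|) ^ 2 := one_le_pow₀ (by linarith [abs_nonneg x])
        have h6 : (1 + |x|) ^ K > 0 := by positivity
        have e1 : (1 + ‖x‖) ^ (-(2 : ℝ)) = 1 / (1 + |x|) ^ 2 := by
          rw [Real.rpow_neg (by positivity), Real.norm_eq_abs]
          norm_num
        simp only [Pi.add_apply]
        rw [e1]
        calc ‖h x - H x‖ / (1 + |x|) ^ (K + 2) ≤ (‖h x‖ + C * (1 + |x|) ^ K * D) / (1 + |x|) ^ (K + 2) :=
              div_le_div_of_nonneg_right h4 (by positivity)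
          _ = ‖h x‖ / (1 + |x|) ^ K * (1 / (1 + |x|) ^ 2) + C * D * (1 / (1 + |x|) ^ 2) := by
              rw [pow_add]; field_simp
          _ ≤ ‖h x‖ / (1 + |x|) ^ K + C * D * (1 / (1 + |x|) ^ 2) := by
              have h7 : 1 / (1 + |x|) ^ 2 ≤ 1 := by
                rw [div_le_one (by positivity)]; exact h5
              have h8 : 0 ≤ ‖h x‖ / (1 + |x|) ^ K := by positivity
              nlinarith
    have h3 := h1.2
    rw [hasFiniteIntegral_iff_ofReal (Eventually.of_forall fun q => by positivity)] at h3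
    exact h3
  · intro Φ hΦ
    obtain ⟨S, hS⟩ := four_sch hΦ.1 hΦ.2
    have hS' : 𝓕 Φ = S := funext hS
    have hΦY : Sm fun ξ => Φ ξ * Y ξ := ⟨hΦ.1.mul hY.1, hΦ.2.mul_right⟩
    have hΦY' : Sm fun ξ => Φ ξ * (1 - Y ξ) := ⟨hΦ.1.mul (contDiff_const.sub hY.1), hΦ.2.mul_right⟩
    have hF : ∀ x, 𝓕 Φ x = 𝓕 (fun ξ => Φ ξ * Y ξ) x + 𝓕 (fun ξ => Φ ξ * (1 - Y ξ)) x := by
      intro x
      rw [Real.fourier_eq, Real.fourier_eq, Real.fourier_eq, ← integral_add]
      · refine integral_congr_ae (Eventually.of_forall fun v => ?_)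
        simp only [← smul_add]
        congr 1; ring
      · exact (Real.fourierIntegral_convergent_iff (μ := (volume : Measure ℝ)) x).2 (hΦY.1.continuous.integrable_of_hasCompactSupport hΦY.2)
      · exact (Real.fourierIntegral_convergent_iff (μ := (volume : Measure ℝ)) x).2 (hΦY'.1.continuous.integrable_of_hasCompactSupport hΦY'.2)
    have hz : ∫ x : ℝ, h x * 𝓕 (fun ξ => Φ ξ * (1 - Y ξ)) x = 0 := by
      refine h0 _ hΦY' fun ξ hξ => ?_
      have h1 : tsupport (fun ξ => Φ ξ * (1 - Y ξ)) ⊆ {ξ : ℝ | 2 * ρ ≤ |ξ|} := by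
        refine closure_minimal ?_ (isClosed_le continuous_const continuous_abs)
        intro η hη
        by_contra hc
        have hc : |η| < 2 * ρ := not_le.1 hc
        apply hη
        simp only [hY1 η hc.le, sub_self, mul_zero]
      have h2 : 2 * ρ ≤ |ξ| := h1 hξ
      linarith
    have hint : Integrable (fun p : ℝ × ℝ => h p.1 * (S p.2 * SY (p.1 - p.2)))
        ((volume : Measure ℝ).prod (volume : Measure ℝ)) := by
      have h1 := (hI'.mul_prod (sch_int S K)).const_mul C
      refine h1.mono' ?_ (Eventually.of_forall fun p => ?_)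
      · exact (hh.comp measurable_fst).aestronglyMeasurable.mul
          (((S.continuous.comp continuous_snd).mul (SY.continuous.comp (continuous_fst.sub continuous_snd))).aestronglyMeasurable)
      · rw [norm_mul, norm_mul]
        calc ‖h p.1‖ * (‖S p.2‖ * ‖SY (p.1 - p.2)‖)
            ≤ ‖h p.1‖ * (‖S p.2‖ * (C * (1 + |p.2|) ^ K / (1 + |p.1|) ^ K)) := by
              gcongr
              exact hkb _ _
          _ = C * (‖h p.1‖ / (1 + |p.1|) ^ K * ((1 + |p.2|) ^ K * ‖S p.2‖)) := by ring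
    have e1 : ∫ x : ℝ, h x * 𝓕 Φ x = ∫ u : ℝ, H u * 𝓕 Φ u := by
      calc ∫ x : ℝ, h x * 𝓕 Φ x = ∫ x : ℝ, (h x * 𝓕 (fun ξ => Φ ξ * Y ξ) x + h x * 𝓕 (fun ξ => Φ ξ * (1 - Y ξ)) x) := by
            refine integral_congr_ae (Eventually.of_forall fun x => ?_)
            simp only
            rw [hF x]; ring
        _ = ∫ x : ℝ, h x * 𝓕 (fun ξ => Φ ξ * Y ξ) x := by
            rw [integral_add (hhi _ hΦY) (hhi _ hΦY'), hz, add_zero]
        _ = ∫ x : ℝ, ∫ u : ℝ, h x * (S u * SY (x - u)) := by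
            refine integral_congr_ae (Eventually.of_forall fun x => ?_)
            simp only
            rw [four_mul hΦ hY, integral_const_mul, hS', hSY']
        _ = ∫ u : ℝ, ∫ x : ℝ, h x * (S u * SY (x - u)) := integral_integral_swap hint
        _ = ∫ u : ℝ, H u * 𝓕 Φ u := by
            refine integral_congr_ae (Eventually.of_forall fun u => ?_)
            simp only [hH, hS', hSY']
            rw [mul_comm, ← integral_const_mul]
            refine integral_congr_ae (Eventually.of_forall fun x => ?_)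
            simp only
            ring
    have hHi : Integrable fun u => H u * 𝓕 Φ u := by
      rw [hS']
      refine ((sch_int S K).const_mul (C * D)).mono' (hHm.mul S.continuous.measurable).aestronglyMeasurable
        (Eventually.of_forall fun u => ?_)
      rw [norm_mul]
      calc ‖H u‖ * ‖S u‖ ≤ (C * (1 + |u|) ^ K * D) * ‖S u‖ := mul_le_mul_of_nonneg_right (hHb u) (norm_nonneg _)
        _ = C * D * ((1 + |u|) ^ K * ‖S u‖) := by ring
    calc ∫ x : ℝ, (h x - H x) * 𝓕 Φ x = ∫ x : ℝ, (h x * 𝓕 Φ x - H x * 𝓕 Φ x) := by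
          refine integral_congr_ae (Eventually.of_forall fun x => ?_)
          simp only
          ring
      _ = 0 := by rw [integral_sub (hhi _ hΦ) hHi, e1, sub_self]

end Pool.Agent.H77.RT.T.BAN
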