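import Pool.Agent.H77.RT.Stm2

/-! # Project RT, stub BNI (helper44; the computation is that of IDF by helper27) -/

set_option autoImplicit false

namespace Pool.Agent.H77.RT.T.BNI

open MeasureTheory Filter Topology Set
open scoped ENNReal ContDiff FourierTransform

theorem main : S_BNI := by
  rintro a ⟨A, ⟨hA, hAc⟩, hA0, rfl⟩
  have hev : A =ᶠ[𝓝 0] 0 := notMem_tsupport_iff_eventuallyEq.1 hA0
  have hz : A 0 = 0 := hev.eq_of_nhds
  -- the functions g_L
  have hgL : ∀ L : ℕ, ContDiff ℝ ∞ (fun ξ : ℝ => A ξ *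
      (1 / (-2 * Real.pi * Complex.I * ξ) ^ L)) := by
    intro L
    rw [contDiff_iff_contDiffAt]
    intro ξ
    by_cases hξ : ξ = 0
    · subst hξ
      refine (contDiffAt_const (c := (0 : ℂ))).congr_of_eventuallyEq ?_
      filter_upwards [hev] with ξ h
      rw [h]
      simp
    · have h2 : ContDiffAt ℝ ∞ (fun ξ : ℝ => (-2 * Real.pi * Complex.I * ξ : ℂ) ^ L) ξ :=
        ((contDiff_const.mul Complex.ofRealCLM.contDiff).pow L).contDiffAt
      have h3 : (-2 * Real.pi * Complex.I * ξ : ℂ) ^ L ≠ 0 := by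
        refine pow_ne_zero _ ?_
        have := Real.pi_ne_zero
        simp [hξ, this]
      have h4 := hA.contDiffAt.mul (h2.inv h3)
      refine h4.congr_of_eventuallyEq (Eventually.of_forall fun ξ => ?_)
      simp only [Pi.inv_apply, one_div]
  have hgc : ∀ L : ℕ, HasCompactSupport (fun ξ : ℝ => A ξ *
      (1 / (-2 * Real.pi * Complex.I * ξ) ^ L)) := fun L => hAc.mul_right
  intro L
  refine ⟨𝓕 ((hgc L).toSchwartzMap (hgL L)), fun x => ?_⟩
  have h1 := Real.iteratedDeriv_fourier (f := fun ξ : ℝ => A ξ *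
    (1 / (-2 * Real.pi * Complex.I * ξ) ^ L)) (N := (L : ℕ∞)) (n := L)
    (fun n _ => by
      refine Continuous.integrable_of_hasCompactSupport ?_ ?_
      · exact (continuous_pow n).smul (hgL L).continuous
      · exact (hgc L).smul_left) le_rfl
  have h2 : ⇑(𝓕 ((hgc L).toSchwartzMap (hgL L)) : SchwartzMap ℝ ℂ) = 𝓕 (fun ξ : ℝ => A ξ *
    (1 / (-2 * Real.pi * Complex.I * ξ) ^ L)) := by
    rw [SchwartzMap.fourier_coe]
    rfl
  rw [h2, h1]
  have h9 : A = fun ξ : ℝ =>
      (-2 * Real.pi * Complex.I * ξ) ^ L • (A ξ *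
        (1 / (-2 * Real.pi * Complex.I * ξ) ^ L)) := by
    funext ξ
    by_cases hξ : A ξ = 0
    · simp [hξ]
    · have h3 : ξ ≠ 0 := by
        rintro rfl
        exact hξ hz
      have h4 : (-2 * Real.pi * Complex.I * ξ : ℂ) ^ L ≠ 0 := by
        refine pow_ne_zero _ ?_
        have := Real.pi_ne_zero
        simp [h3, this]
      rw [smul_eq_mul]
      generalize (-2 * Real.pi * Complex.I * ξ : ℂ) ^ L = w at h4 ⊢
      field_simp
  exact congrArg (fun g : ℝ → ℂ => 𝓕 g x) h9

end Pool.Agent.H77.RT.T.BNI
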