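import Pool.Agent.H77.RT.Stm2
import Pool.Agent.H77.RT.T.GEO

/-! # RT-GE2: linear change of variables, with exceptional directions -/

set_option autoImplicit false

namespace Pool.Agent.H77.RT.T.GE2

open MeasureTheory Filter Topology Set Pool.Agent.H77.RT.T.GEO
open scoped ENNReal ContDiff

theorem main : S_GE2 := by
  intro f n₁ n₂ Z hf hZ hD hH
  obtain ⟨a, b⟩ := n₁
  obtain ⟨c, d⟩ := n₂
  simp only at hD
  have hD' : a * d - c * b ≠ 0 := by rwa [mul_comm c b]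
  set e := lin a b c d hD with he
  set L := lin a c b d hD' with hL
  obtain ⟨C, hC, hCF⟩ := lint e.symm
  obtain ⟨C', hC', hCF'⟩ := lint L
  have hW : ∀ (N : ℕ) (n : ℝ × ℝ), Wn (fun u => f (e.symm u)) N n = C * Wn f N (L n) := by
    intro N n
    unfold Wn
    rw [← hCF]
    refine lintegral_congr fun u => ?_
    have h1 : (L n).1 * (e.symm u).1 + (L n).2 * (e.symm u).2 = n.1 * u.1 + n.2 * u.2 := by
      have h2 : e (e.symm u) = u := e.apply_symm_apply u
      have h3 : a * (e.symm u).1 + b * (e.symm u).2 = u.1 := congrArg Prod.fst h2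
      have h4 : c * (e.symm u).1 + d * (e.symm u).2 = u.2 := congrArg Prod.snd h2
      rw [← h3, ← h4, hL, lin_apply]
      simp only
      ring
    rw [h1]
  have hLne : ∀ n : ℝ × ℝ, n ≠ 0 → L n ≠ 0 := by
    intro n hn h
    exact hn (by simpa using h)
  have hgood : ∀ n : ℝ × ℝ, n ≠ 0 → GoodN f (L n) → GoodN (fun u => f (e.symm u)) n := by
    intro n hn hG
    rcases hG with ⟨N, h⟩ | ⟨N, ε, hε, h⟩
    · left
      refine ⟨N, ?_⟩
      rw [hW]
      exact ENNReal.mul_lt_top hC.lt_top h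
    · right
      obtain ⟨δ, hδ, hδb⟩ := Metric.continuousAt_iff.1 (L.continuous.continuousAt (x := n)) ε hε
      refine ⟨N, δ, hδ, ?_⟩
      have h1 : ∫⁻ m in Metric.ball n δ, Wn (fun u => f (e.symm u)) N m
          ≤ ∫⁻ m, C * (Metric.ball (L n) ε).indicator (Wn f N) (L m) := by
        rw [← lintegral_indicator Metric.isOpen_ball.measurableSet]
        refine lintegral_mono fun m => ?_
        by_cases hm : m ∈ Metric.ball n δ
        · rw [indicator_of_mem hm, hW, indicator_of_mem]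
          exact hδb hm
        · rw [indicator_of_notMem hm]
          exact zero_le
      refine lt_of_le_of_lt h1 ?_
      rw [lintegral_const_mul' _ _ hC, hCF' (fun m => (Metric.ball (L n) ε).indicator (Wn f N) m),
        lintegral_indicator Metric.isOpen_ball.measurableSet]
      exact ENNReal.mul_lt_top hC.lt_top (ENNReal.mul_lt_top hC'.lt_top h)
  have hpar : ∀ n z : ℝ × ℝ, (L n).1 * (L z).2 = (L n).2 * (L z).1 → n.1 * z.2 = n.2 * z.1 := by
    intro n z h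
    rw [hL, lin_apply, lin_apply] at h
    simp only at h
    have h2 : (a * d - b * c) * (n.1 * z.2 - n.2 * z.1) = 0 := by linear_combination h
    rcases mul_eq_zero.1 h2 with h3 | h3
    · exact absurd h3 hD
    · linarith
  have hex : ∀ n : ℝ × ℝ, n ≠ 0 → ExN f (L n) → ExN (fun u => f (e.symm u)) n := by
    intro n hn0 hE0
    have hLn : L n ≠ 0 := hLne n hn0
    unfold ExN at hE0 ⊢
    filter_upwards [hE0] with p hp
    set m := L n with hm
    have hm1 : m.1 = a * n.1 + c * n.2 := by rw [hm, hL, lin_apply]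
    have hm2 : m.2 = b * n.1 + d * n.2 := by rw [hm, hL, lin_apply]
    have hmm : m.1 ^ 2 + m.2 ^ 2 ≠ 0 := by
      intro h
      apply hLn
      have h1 : m.1 = 0 := by nlinarith [sq_nonneg m.1, sq_nonneg m.2]
      have h2 : m.2 = 0 := by nlinarith [sq_nonneg m.1, sq_nonneg m.2]
      exact Prod.ext h1 h2
    have hnn : n.1 ^ 2 + n.2 ^ 2 ≠ 0 := by
      intro h
      apply hn0
      have h1 : n.1 = 0 := by nlinarith [sq_nonneg n.1, sq_nonneg n.2]
      have h2 : n.2 = 0 := by nlinarith [sq_nonneg n.1, sq_nonneg n.2]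
      exact Prod.ext h1 h2
    -- base point
    set x0 : ℝ := (d * (p * n.1 / (n.1 ^ 2 + n.2 ^ 2)) - b * (p * n.2 / (n.1 ^ 2 + n.2 ^ 2)))
      / (a * d - b * c) with hx0
    set y0 : ℝ := (-c * (p * n.1 / (n.1 ^ 2 + n.2 ^ 2)) + a * (p * n.2 / (n.1 ^ 2 + n.2 ^ 2)))
      / (a * d - b * c) with hy0
    have hxy : m.1 * x0 + m.2 * y0 = p := by
      rw [hm1, hm2, hx0, hy0]
      field_simp
      ring
    set t0 : ℝ := (-m.2 * x0 + m.1 * y0) / (m.1 ^ 2 + m.2 ^ 2) with ht0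
    have hX : ∀ s : ℝ, p * m.1 / (m.1 ^ 2 + m.2 ^ 2) - (t0 + (a * d - b * c)⁻¹ * s) * m.2
        = (d * (p * n.1 / (n.1 ^ 2 + n.2 ^ 2) - s * n.2)
          - b * (p * n.2 / (n.1 ^ 2 + n.2 ^ 2) + s * n.1)) / (a * d - b * c) := by
      intro s
      have h1 : p * m.1 / (m.1 ^ 2 + m.2 ^ 2) - t0 * m.2 = x0 := by
        rw [ht0]
        rw [div_mul_eq_mul_div, ← sub_div, div_eq_iff hmm]
        linear_combination (-m.1) * hxy
      have h2 : (d * (p * n.1 / (n.1 ^ 2 + n.2 ^ 2) - s * n.2)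
          - b * (p * n.2 / (n.1 ^ 2 + n.2 ^ 2) + s * n.1)) / (a * d - b * c)
          = x0 - (a * d - b * c)⁻¹ * s * m.2 := by
        rw [hx0, hm2, div_eq_mul_inv _ (a * d - b * c), div_eq_mul_inv _ (a * d - b * c)]
        ring
      rw [h2, ← h1]
      ring
    have hY : ∀ s : ℝ, p * m.2 / (m.1 ^ 2 + m.2 ^ 2) + (t0 + (a * d - b * c)⁻¹ * s) * m.1
        = (-c * (p * n.1 / (n.1 ^ 2 + n.2 ^ 2) - s * n.2)
          + a * (p * n.2 / (n.1 ^ 2 + n.2 ^ 2) + s * n.1)) / (a * d - b * c) := by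
      intro s
      have h1 : p * m.2 / (m.1 ^ 2 + m.2 ^ 2) + t0 * m.1 = y0 := by
        rw [ht0]
        rw [div_mul_eq_mul_div, ← add_div, div_eq_iff hmm]
        linear_combination (-m.2) * hxy
      have h2 : (-c * (p * n.1 / (n.1 ^ 2 + n.2 ^ 2) - s * n.2)
          + a * (p * n.2 / (n.1 ^ 2 + n.2 ^ 2) + s * n.1)) / (a * d - b * c)
          = y0 + (a * d - b * c)⁻¹ * s * m.1 := by
        rw [hy0, hm1, div_eq_mul_inv _ (a * d - b * c), div_eq_mul_inv _ (a * d - b * c)]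
        ring
      rw [h2, ← h1]
      ring
    have hE : (fun s : ℝ => f (e.symm (p * n.1 / (n.1 ^ 2 + n.2 ^ 2) - s * n.2,
        p * n.2 / (n.1 ^ 2 + n.2 ^ 2) + s * n.1)))
        = fun s : ℝ => (fun r : ℝ => f (p * m.1 / (m.1 ^ 2 + m.2 ^ 2) - r * m.2,
            p * m.2 / (m.1 ^ 2 + m.2 ^ 2) + r * m.1)) (t0 + (a * d - b * c)⁻¹ * s) := by
      funext s
      simp only
      rw [hX, hY, he, lin_symm_apply]
    show Integrable fun s : ℝ => f (e.symm (p * n.1 / (n.1 ^ 2 + n.2 ^ 2) - s * n.2,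
        p * n.2 / (n.1 ^ 2 + n.2 ^ 2) + s * n.1))
    rw [hE]
    exact (hp.comp_add_left t0).comp_mul_left' (inv_ne_zero hD)
  refine ⟨fun u => f (e.symm u), L ⁻¹' Z, hf.comp e.symm.continuous.measurable,
    hZ.preimage L.injective, ?_, ?_, ?_, ?_, ?_⟩
  · intro n hn
    rcases hH (L n) (hLne n hn) with h | ⟨⟨z, hz, hz0, hzn⟩, h⟩
    · exact Or.inl (hgood n hn h)
    · right
      refine ⟨⟨L.symm z, ?_, ?_, ?_⟩, hex n hn h⟩
      · show L (L.symm z) ∈ Z
        rwa [L.apply_symm_apply]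
      · intro h0
        apply hz0
        rw [← L.apply_symm_apply z, h0, map_zero]
      · apply hpar
        rwa [L.apply_symm_apply]
  · intro N h
    rw [hW]
    have h1 : L (1, 0) = (a, b) := by rw [hL, lin_apply]; simp
    rw [h1]
    exact ENNReal.mul_lt_top hC.lt_top h
  · intro N h
    rw [hW]
    have h1 : L (0, 1) = (c, d) := by rw [hL, lin_apply]; simp
    rw [h1]
    exact ENNReal.mul_lt_top hC.lt_top h
  · intro hLZ
    unfold LineZero at hLZ ⊢
    rw [← aeq L] at hLZ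
    filter_upwards [hLZ] with n hn
    by_cases hn0 : n = 0
    · subst hn0
      simp [Measure.real]
    have hLn : L n ≠ 0 := by
      intro h
      exact hn0 (by simpa using h)
    set m := L n with hm
    have hm1 : m.1 = a * n.1 + c * n.2 := by rw [hm, hL, lin_apply]
    have hm2 : m.2 = b * n.1 + d * n.2 := by rw [hm, hL, lin_apply]
    have hmm : m.1 ^ 2 + m.2 ^ 2 ≠ 0 := by
      intro h
      apply hLn
      have h1 : m.1 = 0 := by nlinarith [sq_nonneg m.1, sq_nonneg m.2]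
      have h2 : m.2 = 0 := by nlinarith [sq_nonneg m.1, sq_nonneg m.2]
      exact Prod.ext h1 h2
    have hnn : n.1 ^ 2 + n.2 ^ 2 ≠ 0 := by
      intro h
      apply hn0
      have h1 : n.1 = 0 := by nlinarith [sq_nonneg n.1, sq_nonneg n.2]
      have h2 : n.2 = 0 := by nlinarith [sq_nonneg n.1, sq_nonneg n.2]
      exact Prod.ext h1 h2
    -- base point
    set x0 : ℝ := (d * (n.1 / (n.1 ^ 2 + n.2 ^ 2)) - b * (n.2 / (n.1 ^ 2 + n.2 ^ 2)))
      / (a * d - b * c) with hx0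
    set y0 : ℝ := (-c * (n.1 / (n.1 ^ 2 + n.2 ^ 2)) + a * (n.2 / (n.1 ^ 2 + n.2 ^ 2)))
      / (a * d - b * c) with hy0
    have hxy : m.1 * x0 + m.2 * y0 = 1 := by
      rw [hm1, hm2, hx0, hy0]
      field_simp
      ring
    set t0 : ℝ := (-m.2 * x0 + m.1 * y0) / (m.1 ^ 2 + m.2 ^ 2) with ht0
    have hX : ∀ s : ℝ, m.1 / (m.1 ^ 2 + m.2 ^ 2) - (t0 + (a * d - b * c)⁻¹ * s) * m.2
        = (d * (n.1 / (n.1 ^ 2 + n.2 ^ 2) - s * n.2) - b * (n.2 / (n.1 ^ 2 + n.2 ^ 2) + s * n.1))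
          / (a * d - b * c) := by
      intro s
      have h1 : m.1 / (m.1 ^ 2 + m.2 ^ 2) - t0 * m.2 = x0 := by
        rw [ht0]
        rw [div_mul_eq_mul_div, ← sub_div, div_eq_iff hmm]
        linear_combination (-m.1) * hxy
      have h2 : (d * (n.1 / (n.1 ^ 2 + n.2 ^ 2) - s * n.2)
          - b * (n.2 / (n.1 ^ 2 + n.2 ^ 2) + s * n.1)) / (a * d - b * c)
          = x0 - (a * d - b * c)⁻¹ * s * m.2 := by
        rw [hx0, hm2, div_eq_mul_inv _ (a * d - b * c), div_eq_mul_inv _ (a * d - b * c)]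
        ring
      rw [h2, ← h1]
      ring
    have hY : ∀ s : ℝ, m.2 / (m.1 ^ 2 + m.2 ^ 2) + (t0 + (a * d - b * c)⁻¹ * s) * m.1
        = (-c * (n.1 / (n.1 ^ 2 + n.2 ^ 2) - s * n.2) + a * (n.2 / (n.1 ^ 2 + n.2 ^ 2) + s * n.1))
          / (a * d - b * c) := by
      intro s
      have h1 : m.2 / (m.1 ^ 2 + m.2 ^ 2) + t0 * m.1 = y0 := by
        rw [ht0]
        rw [div_mul_eq_mul_div, ← add_div, div_eq_iff hmm]
        linear_combination (-m.2) * hxy
      have h2 : (-c * (n.1 / (n.1 ^ 2 + n.2 ^ 2) - s * n.2)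
          + a * (n.2 / (n.1 ^ 2 + n.2 ^ 2) + s * n.1)) / (a * d - b * c)
          = y0 + (a * d - b * c)⁻¹ * s * m.1 := by
        rw [hy0, hm1, div_eq_mul_inv _ (a * d - b * c), div_eq_mul_inv _ (a * d - b * c)]
        ring
      rw [h2, ← h1]
      ring
    have hE : ∀ s : ℝ, f (e.symm (n.1 / (n.1 ^ 2 + n.2 ^ 2) - s * n.2,
        n.2 / (n.1 ^ 2 + n.2 ^ 2) + s * n.1))
        = (fun r : ℝ => f (m.1 / (m.1 ^ 2 + m.2 ^ 2) - (t0 + r) * m.2,
            m.2 / (m.1 ^ 2 + m.2 ^ 2) + (t0 + r) * m.1)) ((a * d - b * c)⁻¹ * s) := by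
      intro s
      simp only
      rw [hX, hY, he, lin_symm_apply]
    show ∫ s : ℝ, f (e.symm (n.1 / (n.1 ^ 2 + n.2 ^ 2) - s * n.2,
        n.2 / (n.1 ^ 2 + n.2 ^ 2) + s * n.1)) = 0
    rw [integral_congr_ae (Eventually.of_forall hE)]
    refine (Measure.integral_comp_mul_left (fun r : ℝ => f (m.1 / (m.1 ^ 2 + m.2 ^ 2)
      - (t0 + r) * m.2, m.2 / (m.1 ^ 2 + m.2 ^ 2) + (t0 + r) * m.1)) (a * d - b * c)⁻¹).trans ?_
    have h5 := integral_add_left_eq_self (μ := (volume : Measure ℝ))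
      (fun r : ℝ => f (m.1 / (m.1 ^ 2 + m.2 ^ 2) - r * m.2,
        m.2 / (m.1 ^ 2 + m.2 ^ 2) + r * m.1)) t0
    rw [h5, hn, smul_zero]
  · intro h
    have h1 : ∀ᵐ u : ℝ × ℝ, f (e.symm u) = 0 := h
    exact (aeq e.symm (fun q => f q = 0)).1 h1

end Pool.Agent.H77.RT.T.GE2
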