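import Pool.Agent.H77.RT.Stm2
import Pool.Agent.H77.RT.T.IDF

/-! # Project RT, stub IDG (copy of IDF of helper27, with `Band` and `tsupport Θ ⊆ U`) -/

set_option autoImplicit false

namespace Pool.Agent.H77.RT.T.IDG

open MeasureTheory Filter Topology Set
open scoped ENNReal ContDiff FourierTransform Manifold
open Pool.Agent.H77.RT.T.IDF (E E_norm E_add E_cont four fub stepA stepC)

/-- a smooth function with compact support in `U`, equal to `1` on the compact set `K` -/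
theorem exists_one {K U : Set ℝ} (hK : IsCompact K) (hU : IsOpen U) (hKU : K ⊆ U) :
    ∃ F : ℝ → ℝ, ContDiff ℝ ∞ F ∧ HasCompactSupport F ∧ tsupport F ⊆ U ∧ ∀ k ∈ K, F k = 1 := by
  obtain ⟨L, hL, hKL, hLU⟩ := exists_compact_between hK hU hKU
  obtain ⟨f, hf1, hf0, -⟩ := exists_contMDiffMap_one_nhds_of_subset_interior (n := (⊤ : ℕ∞)) 𝓘(ℝ, ℝ)
    hK.isClosed hKL
  have hs : tsupport (f : ℝ → ℝ) ⊆ L := by
    refine closure_minimal ?_ hL.isClosed
    intro x hx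
    by_contra hxL
    exact hx (hf0 x hxL)
  refine ⟨f, f.contMDiff.contDiff, hL.of_isClosed_subset (isClosed_tsupport _) hs,
    hs.trans hLU, fun k hk => ?_⟩
  exact (hf1.self_of_nhdsSet k hk)

theorem main : S_IDG := by
  intro A B U hAS h0 hBS hU hAB
  obtain ⟨hA, hAc⟩ := hAS
  obtain ⟨hB, hBc⟩ := hBS
  -- the radii
  obtain ⟨δ, hδ, hδb⟩ := Metric.isOpen_iff.1 (isClosed_tsupport A).isOpen_compl 0 h0
  have hδ' : ∀ ξ, A ξ ≠ 0 → δ ≤ |ξ| := by
    intro ξ hξ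
    by_contra hcon
    push Not at hcon
    have h1 : ξ ∈ Metric.ball (0 : ℝ) δ := by
      rw [Metric.mem_ball, Real.dist_eq, sub_zero]
      exact hcon
    exact hδb h1 (subset_tsupport A hξ)
  have hKc : IsCompact ((fun z : ℝ × ℝ => -z.2 / z.1) '' (tsupport A ×ˢ tsupport B)) := by
    refine (hAc.isCompact.prod hBc.isCompact).image_of_continuousOn ?_
    refine ContinuousOn.div (by fun_prop) (by fun_prop) fun z hz h => ?_
    apply h0
    rw [← h]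
    exact hz.1
  obtain ⟨F, hFs, hFc, hFU, hF1⟩ := exists_one hKc hU (by
    rintro _ ⟨z, hz, rfl⟩
    exact hAB _ hz.1 _ hz.2)
  have hF1' : ∀ ξ η, A ξ ≠ 0 → B η ≠ 0 → F (-η / ξ) = 1 := fun ξ η hξ hη =>
    hF1 _ ⟨(ξ, η), ⟨subset_tsupport A hξ, subset_tsupport B hη⟩, rfl⟩
  have hA0 : A =ᶠ[𝓝 0] 0 := by
    filter_upwards [Metric.ball_mem_nhds (0 : ℝ) hδ] with ξ hξ
    by_contra hne
    have h1 := hδ' ξ hne
    rw [Metric.mem_ball, Real.dist_eq, sub_zero] at hξ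
    linarith
  -- the functions g_L
  have hgL : ∀ L : ℕ, ContDiff ℝ ∞ (fun ξ : ℝ => A ξ *
      (((|ξ| : ℝ) : ℂ) / (-2 * Real.pi * Complex.I * ξ) ^ L)) := by
    intro L
    rw [contDiff_iff_contDiffAt]
    intro ξ
    by_cases hξ : ξ = 0
    · subst hξ
      refine (contDiffAt_const (c := (0 : ℂ))).congr_of_eventuallyEq ?_
      filter_upwards [hA0] with ξ h
      rw [h]
      simp
    · have h1 : ContDiffAt ℝ ∞ (fun ξ : ℝ => ((|ξ| : ℝ) : ℂ)) ξ :=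
        Complex.ofRealCLM.contDiff.contDiffAt.comp ξ (contDiffAt_abs hξ)
      have h2 : ContDiffAt ℝ ∞ (fun ξ : ℝ => (-2 * Real.pi * Complex.I * ξ : ℂ) ^ L) ξ :=
        ((contDiff_const.mul Complex.ofRealCLM.contDiff).pow L).contDiffAt
      have h3 : (-2 * Real.pi * Complex.I * ξ : ℂ) ^ L ≠ 0 := by
        refine pow_ne_zero _ ?_
        have := Real.pi_ne_zero
        simp [hξ, this]
      have h4 := hA.contDiffAt.mul (h1.mul (h2.inv h3))
      refine h4.congr_of_eventuallyEq (Eventually.of_forall fun ξ => ?_)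
      simp only [Pi.inv_apply, div_eq_mul_inv]
  have hgc : ∀ L : ℕ, HasCompactSupport (fun ξ : ℝ => A ξ *
      (((|ξ| : ℝ) : ℂ) / (-2 * Real.pi * Complex.I * ξ) ^ L)) := fun L => hAc.mul_right
  have hgi : ∀ L : ℕ, Integrable (fun ξ : ℝ => A ξ *
      (((|ξ| : ℝ) : ℂ) / (-2 * Real.pi * Complex.I * ξ) ^ L)) := fun L =>
    (hgL L).continuous.integrable_of_hasCompactSupport (hgc L)
  have hg0' : (fun ξ : ℝ => A ξ * ((|ξ| : ℝ) : ℂ)) = fun ξ : ℝ => A ξ *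
      (((|ξ| : ℝ) : ℂ) / (-2 * Real.pi * Complex.I * ξ) ^ 0) := by
    funext ξ
    rw [pow_zero, div_one]
  refine ⟨𝓕 (fun ξ : ℝ => A ξ * ((|ξ| : ℝ) : ℂ)), F, ?_, ⟨hFs, hFc⟩, hFU, ?_⟩
  · -- Band
    have hsm : ContDiff ℝ ∞ (fun ξ : ℝ => A ξ * ((|ξ| : ℝ) : ℂ)) := by
      rw [hg0']
      exact hgL 0
    refine ⟨fun ξ : ℝ => A ξ * ((|ξ| : ℝ) : ℂ), ⟨hsm, hAc.mul_right⟩, ?_, rfl⟩
    intro h
    exact h0 (tsupport_mul_subset_left h)
  · -- the identity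
    intro x y
    have hg0 : ∀ ξ : ℝ, A ξ * ((|ξ| : ℝ) : ℂ) = A ξ *
      (((|ξ| : ℝ) : ℂ) / (-2 * Real.pi * Complex.I * ξ) ^ 0) := by
      intro ξ
      rw [pow_zero, div_one]
    have hg : Integrable (fun ξ : ℝ => A ξ * ((|ξ| : ℝ) : ℂ)) := by
      simp_rw [hg0]
      exact hgi 0
    have hΘs : ContDiff ℝ ∞ (fun k => ((F k : ℝ) : ℂ)) := Complex.ofRealCLM.contDiff.comp hFs
    have hΘc : HasCompactSupport (fun k => ((F k : ℝ) : ℂ)) :=
      hFc.comp_left (g := fun r : ℝ => (r : ℂ)) Complex.ofReal_zero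
    have hΘi : Integrable (fun k => ((F k : ℝ) : ℂ)) :=
      hΘs.continuous.integrable_of_hasCompactSupport hΘc
    have hFB : Integrable (𝓕 B) := by
      have := (𝓕 (hBc.toSchwartzMap hB)).integrable (μ := volume)
      rwa [SchwartzMap.fourier_coe] at this
    have hFΘ : Continuous (𝓕 (fun k => ((F k : ℝ) : ℂ))) := by
      have := (𝓕 (hΘc.toSchwartzMap hΘs)).continuous
      rwa [SchwartzMap.fourier_coe] at this
    have hbd : ∀ w, ‖𝓕 (fun k => ((F k : ℝ) : ℂ)) w‖ ≤ ∫ k, ‖((F k : ℝ) : ℂ)‖ := by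
      intro w
      rw [four]
      refine (norm_integral_le_integral_norm _).trans (le_of_eq ?_)
      refine integral_congr_ae (ae_of_all _ fun k => ?_)
      simp only
      rw [norm_mul, E_norm, mul_one]
    have h1 : ∀ t : ℝ, 𝓕 B t * kern (𝓕 (fun ξ : ℝ => A ξ * ((|ξ| : ℝ) : ℂ))) (fun k => F k) x (y - t) =
        𝓕 B t * ∫ ξ, (A ξ * ((|ξ| : ℝ) : ℂ) * E (-(ξ * x))) *
          𝓕 (fun k => ((F k : ℝ) : ℂ)) (-(ξ * (y - t))) := by
      intro t
      rw [stepA _ _ hg hΘi]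
    have hgE : Integrable (fun ξ => A ξ * ((|ξ| : ℝ) : ℂ) * E (-(ξ * x))) := by
      have h2 := hg.bdd_mul (c := 1) (f := fun ξ => E (-(ξ * x)))
        ((E_cont.comp (by fun_prop)).aestronglyMeasurable) (ae_of_all _ fun ξ => (E_norm _).le)
      refine h2.congr (ae_of_all _ fun ξ => ?_)
      simp only
      ring
    have hf := fub (𝓕 B) (fun ξ => A ξ * ((|ξ| : ℝ) : ℂ) * E (-(ξ * x)))
      (fun z => 𝓕 (fun k => ((F k : ℝ) : ℂ)) (-(z.2 * (y - z.1)))) hFB hgE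
      (hFΘ.comp (by fun_prop)) (∫ k, ‖((F k : ℝ) : ℂ)‖) (fun z => hbd _)
    simp only at hf
    rw [integral_congr_ae (ae_of_all _ h1), hf]
    · have h2 : ∀ ξ : ℝ, (A ξ * ((|ξ| : ℝ) : ℂ) * E (-(ξ * x))) *
          ∫ t, 𝓕 B t * 𝓕 (fun k => ((F k : ℝ) : ℂ)) (-(ξ * (y - t))) =
          (A ξ * E (-(ξ * x))) * 𝓕 B y := by
        intro ξ
        by_cases hξ : A ξ = 0
        · simp [hξ]
        · have h3 := hδ' ξ hξ
          have h4 : ξ ≠ 0 := by
            rintro rfl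
            rw [abs_zero] at h3
            linarith
          have h5 := stepC B hB hBc (fun k => F k) hΘi ξ h4 (fun η hη => hF1' ξ η hξ hη) y
          rw [h5]
          have h6 : ((|ξ| : ℝ) : ℂ) * ((|ξ|⁻¹ : ℝ) : ℂ) = 1 := by
            rw [← Complex.ofReal_mul, mul_inv_cancel₀ (abs_pos.2 h4).ne', Complex.ofReal_one]
          calc A ξ * ((|ξ| : ℝ) : ℂ) * E (-(ξ * x)) * (((|ξ|⁻¹ : ℝ) : ℂ) * 𝓕 B y)
              = A ξ * E (-(ξ * x)) * 𝓕 B y * (((|ξ| : ℝ) : ℂ) * ((|ξ|⁻¹ : ℝ) : ℂ)) := by ring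
            _ = _ := by rw [h6, mul_one]
      rw [integral_congr_ae (ae_of_all _ h2), integral_mul_const, ← four]

end Pool.Agent.H77.RT.T.IDG
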