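import Pool.Agent.H77.RT.Stm2
import Pool.Agent.H77.RT.T.FIN

/-! # ISM (helper62): the smoothed means satisfy the hypotheses of SEQ -/

set_option autoImplicit false

namespace Pool.Agent.H77.RT.T.ISM

open MeasureTheory Filter Topology Set
open scoped ENNReal ContDiff FourierTransform

/-- Fourier transform of a difference -/
theorem four_diff {u v : ℝ → ℂ} (hu : Continuous u) (hv : Continuous v) (hui : Integrable u)
    (hvi : Integrable v) (y : ℝ) : 𝓕 (fun η => u η - v η) y = 𝓕 u y - 𝓕 v y := by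
  have hint : ∀ w : ℝ → ℂ, Continuous w → Integrable w →
      Integrable fun η : ℝ => Complex.exp (((-2 * Real.pi * η * y : ℝ) : ℂ) * Complex.I) • w η := by
    intro w hw hwi
    refine hwi.norm.mono' ?_ (Eventually.of_forall fun η => ?_)
    · refine Continuous.aestronglyMeasurable ?_
      exact (by fun_prop : Continuous fun η : ℝ =>
        Complex.exp (((-2 * Real.pi * η * y : ℝ) : ℂ) * Complex.I)).smul hw
    · rw [norm_smul, Complex.norm_exp_ofReal_mul_I, one_mul]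
  rw [Real.fourier_real_eq_integral_exp_smul, Real.fourier_real_eq_integral_exp_smul,
    Real.fourier_real_eq_integral_exp_smul, ← integral_sub (hint u hu hui) (hint v hv hvi)]
  refine integral_congr_ae (Eventually.of_forall fun η => ?_)
  exact smul_sub _ _ _

/-- scaling -/
theorem four_scale (X : ℝ → ℂ) {a : ℝ} (ha : 0 < a) (y : ℝ) :
    𝓕 (fun η => X (a * η)) y = (a⁻¹ : ℝ) • 𝓕 X (y / a) := by
  rw [Real.fourier_real_eq_integral_exp_smul, Real.fourier_real_eq_integral_exp_smul]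
  have h := Measure.integral_comp_mul_left
    (fun v : ℝ => Complex.exp (((-2 * Real.pi * v * (y / a) : ℝ) : ℂ) * Complex.I) • X v) a
  rw [abs_of_pos (inv_pos.2 ha)] at h
  rw [← h]
  refine integral_congr_ae (Eventually.of_forall fun η => ?_)
  show Complex.exp (((-2 * Real.pi * η * y : ℝ) : ℂ) * Complex.I) • X (a * η) =
    Complex.exp (((-2 * Real.pi * (a * η) * (y / a) : ℝ) : ℂ) * Complex.I) • X (a * η)
  congr 4
  field_simp

theorem sm_scale {X : ℝ → ℂ} (hX : Sm X) {a : ℝ} (ha : a ≠ 0) : Sm fun η => X (a * η) :=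
  ⟨hX.1.comp (contDiff_const.mul contDiff_id), hX.2.comp_homeomorph (Homeomorph.mulLeft₀ a ha)⟩

theorem main (h : S_SEQ) : S_ISM := by
  intro f N X c hf hT hX hc hint hzero
  obtain ⟨Φ, hΦ⟩ : ∃ Φ : ℕ → ℝ → ℂ, Φ = fun n => 𝓕 (fun η => X (2 ^ n * η)) := ⟨_, rfl⟩
  have hsm : ∀ n : ℕ, Sm fun η => X (2 ^ n * η) := fun n => sm_scale hX (by positivity)
  have hΦc : ∀ n, Continuous (Φ n) := by
    intro n
    rw [hΦ]
    exact (FIN.four _ (hsm n).1 (hsm n).2 0).1
  obtain ⟨-, C₀, hC₀⟩ := FIN.four X hX.1 hX.2 N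
  have hC0 : 0 ≤ C₀ := by
    have h1 := (norm_nonneg _).trans (hC₀ 0)
    simpa using h1
  have hΦ1 : ∀ n y, ‖Φ n y‖ ≤ (1 / 2) ^ n * (C₀ / (1 + |y / 2 ^ n|) ^ N) := by
    intro n y
    rw [hΦ]
    simp only
    rw [four_scale X (by positivity : (0:ℝ) < 2 ^ n), norm_smul, Real.norm_of_nonneg (by positivity)]
    have e : ((2:ℝ) ^ n)⁻¹ = (1 / 2) ^ n := by rw [one_div, inv_pow]
    rw [e]
    exact mul_le_mul_of_nonneg_left (hC₀ _) (by positivity)
  have hΦa : ∀ n y, ‖Φ n y‖ ≤ (1 / 2) ^ n * C₀ := by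
    intro n y
    refine (hΦ1 n y).trans (mul_le_mul_of_nonneg_left ?_ (by positivity))
    refine div_le_self hC0 (one_le_pow₀ ?_)
    linarith [abs_nonneg (y / 2 ^ n)]
  have hΦb : ∀ n y, ‖Φ n y‖ ≤ (C₀ * 2 ^ (n * N)) / (1 + |y|) ^ N := by
    intro n y
    have h2 : (0:ℝ) < 2 ^ n := by positivity
    have h1 : (1 + |y|) / 2 ^ n ≤ 1 + |y / 2 ^ n| := by
      rw [abs_div, abs_of_pos h2, add_div]
      have : 1 / (2:ℝ) ^ n ≤ 1 := by
        rw [div_le_one h2]
        exact one_le_pow₀ (by norm_num)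
      linarith
    have h3 : ((1 + |y|) / 2 ^ n) ^ N ≤ (1 + |y / 2 ^ n|) ^ N := pow_le_pow_left₀ (by positivity) h1 N
    calc ‖Φ n y‖ ≤ (1 / 2) ^ n * (C₀ / (1 + |y / 2 ^ n|) ^ N) := hΦ1 n y
      _ ≤ 1 * (C₀ / (1 + |y / 2 ^ n|) ^ N) :=
          mul_le_mul_of_nonneg_right (pow_le_one₀ (by norm_num) (by norm_num)) (by positivity)
      _ = C₀ / (1 + |y / 2 ^ n|) ^ N := one_mul _
      _ ≤ C₀ / ((1 + |y|) / 2 ^ n) ^ N := div_le_div_of_nonneg_left hC0 (by positivity) h3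
      _ = (C₀ * 2 ^ (n * N)) / (1 + |y|) ^ N := by
          rw [div_pow, ← pow_mul]
          field_simp
  -- the weight
  have hw : ∀ x y : ℝ, (1 + |x| + |y|) ^ N ≤ (1 + |x|) ^ N * (1 + |y|) ^ N := by
    intro x y
    rw [← mul_pow]
    refine pow_le_pow_left₀ (by positivity) ?_ N
    nlinarith [mul_nonneg (abs_nonneg x) (abs_nonneg y)]
  obtain ⟨I, hI⟩ : ∃ I : ℝ≥0∞, I = ∫⁻ q : ℝ × ℝ, ENNReal.ofReal (‖f q‖ / (1 + |q.1| + |q.2|) ^ N) :=
    ⟨_, rfl⟩
  have hI1 : I < ⊤ := by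
    have h1 := hT.2
    rw [hasFiniteIntegral_iff_norm] at h1
    rw [hI]
    refine lt_of_le_of_lt (lintegral_mono fun q => ?_) h1
    exact ENNReal.ofReal_le_ofReal (le_abs_self _)
  obtain ⟨g, hg⟩ : ∃ g : ℕ → ℝ → ℂ, g = fun n x => ∫ y : ℝ, f (x, y) * Φ n y := ⟨_, rfl⟩
  have hgm : ∀ n, Measurable (g n) := by
    intro n
    rw [hg]
    have h1 : StronglyMeasurable fun p : ℝ × ℝ => f p * Φ n p.2 :=
      (hf.mul ((hΦc n).measurable.comp measurable_snd)).stronglyMeasurable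
    exact h1.integral_prod_right'.measurable
  -- bound
  have hgb : ∀ n, ∫⁻ x : ℝ, ENNReal.ofReal (‖g n x‖ / (1 + |x|) ^ N) ≤
      ENNReal.ofReal ((C₀ * I.toReal) * 2 ^ (n * N)) := by
    intro n
    have hmeas : Measurable fun q : ℝ × ℝ =>
        ENNReal.ofReal (((1 + |q.1|) ^ N)⁻¹) * ‖f q * Φ n q.2‖ₑ := by
      have m0 : Measurable fun q : ℝ × ℝ => ((1 + |q.1|) ^ N)⁻¹ :=
        ((measurable_const.add measurable_fst.norm).pow_const N).inv
      have m1 : Measurable fun q : ℝ × ℝ => ENNReal.ofReal (((1 + |q.1|) ^ N)⁻¹) :=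
        ENNReal.measurable_ofReal.comp m0
      have m2 : Measurable fun q : ℝ × ℝ => ‖f q * Φ n q.2‖ₑ :=
        (hf.mul ((hΦc n).measurable.comp measurable_snd)).enorm
      exact m1.mul m2
    calc ∫⁻ x : ℝ, ENNReal.ofReal (‖g n x‖ / (1 + |x|) ^ N)
        = ∫⁻ x : ℝ, ENNReal.ofReal (((1 + |x|) ^ N)⁻¹) * ‖g n x‖ₑ := by
          refine lintegral_congr fun x => ?_
          rw [div_eq_inv_mul, ENNReal.ofReal_mul (by positivity), ofReal_norm]
      _ ≤ ∫⁻ x : ℝ, ENNReal.ofReal (((1 + |x|) ^ N)⁻¹) * ∫⁻ y : ℝ, ‖f (x, y) * Φ n y‖ₑ := by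
          refine lintegral_mono fun x => ?_
          refine mul_le_mul_right ?_ _
          rw [hg]
          exact enorm_integral_le_lintegral_enorm _
      _ = ∫⁻ x : ℝ, ∫⁻ y : ℝ, ENNReal.ofReal (((1 + |x|) ^ N)⁻¹) * ‖f (x, y) * Φ n y‖ₑ := by
          refine lintegral_congr fun x => ?_
          rw [lintegral_const_mul' _ _ ENNReal.ofReal_ne_top]
      _ = ∫⁻ q : ℝ × ℝ, ENNReal.ofReal (((1 + |q.1|) ^ N)⁻¹) * ‖f q * Φ n q.2‖ₑ :=
          (lintegral_prod _ hmeas.aemeasurable).symm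
      _ ≤ ∫⁻ q : ℝ × ℝ, ENNReal.ofReal (C₀ * 2 ^ (n * N)) *
            ENNReal.ofReal (‖f q‖ / (1 + |q.1| + |q.2|) ^ N) := by
          refine lintegral_mono fun q => ?_
          rw [← ofReal_norm, ← ENNReal.ofReal_mul (by positivity),
            ← ENNReal.ofReal_mul (by positivity)]
          apply ENNReal.ofReal_le_ofReal
          rw [norm_mul]
          calc ((1 + |q.1|) ^ N)⁻¹ * (‖f q‖ * ‖Φ n q.2‖)
              ≤ ((1 + |q.1|) ^ N)⁻¹ * (‖f q‖ * ((C₀ * 2 ^ (n * N)) / (1 + |q.2|) ^ N)) := by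
                gcongr
                exact hΦb n q.2
            _ = C₀ * 2 ^ (n * N) * (‖f q‖ / ((1 + |q.1|) ^ N * (1 + |q.2|) ^ N)) := by
                field_simp
            _ ≤ C₀ * 2 ^ (n * N) * (‖f q‖ / (1 + |q.1| + |q.2|) ^ N) := by
                refine mul_le_mul_of_nonneg_left ?_ (by positivity)
                exact div_le_div_of_nonneg_left (norm_nonneg _) (by positivity) (hw _ _)
      _ = ENNReal.ofReal (C₀ * 2 ^ (n * N)) * I := by
          rw [lintegral_const_mul' _ _ ENNReal.ofReal_ne_top, ← hI]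
      _ = ENNReal.ofReal (C₀ * 2 ^ (n * N)) * ENNReal.ofReal I.toReal := by
          rw [ENNReal.ofReal_toReal hI1.ne]
      _ = ENNReal.ofReal ((C₀ * I.toReal) * 2 ^ (n * N)) := by
          rw [← ENNReal.ofReal_mul (by positivity)]
          congr 1
          ring
  -- pointwise limit
  have hlim : ∀ᵐ x : ℝ, Tendsto (fun n => g n x) atTop (𝓝 0) := by
    filter_upwards [hint] with x hx
    have h1 : ∀ n, ‖g n x‖ ≤ (1 / 2 : ℝ) ^ n * (C₀ * ∫ y : ℝ, ‖f (x, y)‖) := by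
      intro n
      rw [hg]
      have h2 : ‖∫ y : ℝ, f (x, y) * Φ n y‖ ≤ ∫ y : ℝ, ‖f (x, y)‖ * ((1 / 2) ^ n * C₀) := by
        refine norm_integral_le_of_norm_le (hx.norm.mul_const _) (Eventually.of_forall fun y => ?_)
        rw [norm_mul]
        exact mul_le_mul_of_nonneg_left (hΦa n y) (norm_nonneg _)
      refine h2.trans (le_of_eq ?_)
      rw [integral_mul_const]
      ring
    refine squeeze_zero_norm h1 ?_
    have h3 : Tendsto (fun n : ℕ => (1 / 2 : ℝ) ^ n) atTop (𝓝 0) :=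
      tendsto_pow_atTop_nhds_zero_of_lt_one (by norm_num) (by norm_num)
    simpa using h3.mul_const (C₀ * ∫ y : ℝ, ‖f (x, y)‖)
  -- Fubini
  have hIn : ∀ (n : ℕ) (A : ℝ → ℂ), Sm A →
      Integrable fun q : ℝ × ℝ => f q * (𝓕 A q.1 * Φ n q.2) := by
    intro n A hA
    obtain ⟨hAc, CA, hCA⟩ := FIN.four A hA.1 hA.2 N
    have hCA0 : 0 ≤ CA := by
      have h1 := (norm_nonneg _).trans (hCA 0)
      simpa using h1
    refine FIN.int_aux f (fun q => 𝓕 A q.1 * Φ n q.2) (fun q => (1 + |q.1| + |q.2|) ^ N) hf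
      ((hAc.measurable.comp measurable_fst).mul ((hΦc n).measurable.comp measurable_snd))
      (by rw [← hI]; exact hI1) (CA * (C₀ * 2 ^ (n * N))) (by positivity) fun q => ?_
    rw [norm_mul]
    calc ‖𝓕 A q.1‖ * ‖Φ n q.2‖ ≤ (CA / (1 + |q.1|) ^ N) * ((C₀ * 2 ^ (n * N)) / (1 + |q.2|) ^ N) :=
          mul_le_mul (hCA _) (hΦb n _) (norm_nonneg _) (by positivity)
      _ = CA * (C₀ * 2 ^ (n * N)) / ((1 + |q.1|) ^ N * (1 + |q.2|) ^ N) := by
          rw [div_mul_div_comm]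
      _ ≤ CA * (C₀ * 2 ^ (n * N)) / (1 + |q.1| + |q.2|) ^ N :=
          div_le_div_of_nonneg_left (by positivity) (by positivity) (hw _ _)
  have hinner : ∀ (n : ℕ) (A : ℝ → ℂ) (x : ℝ),
      ∫ y : ℝ, f (x, y) * (𝓕 A x * Φ n y) = g n x * 𝓕 A x := by
    intro n A x
    rw [hg]
    simp only
    rw [← integral_mul_const]
    refine integral_congr_ae (Eventually.of_forall fun y => ?_)
    show f (x, y) * (𝓕 A x * Φ n y) = f (x, y) * Φ n y * 𝓕 A x
    ring
  have hfub : ∀ (n : ℕ) (A : ℝ → ℂ), Sm A →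
      ∫ q : ℝ × ℝ, f q * (𝓕 A q.1 * Φ n q.2) = ∫ x : ℝ, g n x * 𝓕 A x := by
    intro n A hA
    rw [Measure.volume_eq_prod, integral_prod _ (hIn n A hA)]
    exact integral_congr_ae (Eventually.of_forall fun x => hinner n A x)
  have hgi : ∀ (n : ℕ) (A : ℝ → ℂ), Sm A → Integrable fun x : ℝ => g n x * 𝓕 A x := by
    intro n A hA
    have h1 := (hIn n A hA).integral_prod_left
    refine h1.congr (Eventually.of_forall fun x => hinner n A x)
  have hdiff : ∀ (n : ℕ) (A : ℝ → ℂ), Sm A → (∀ ξ ∈ tsupport A, c * (1 / 2) ^ n ≤ |ξ|) →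
      ∫ x : ℝ, (g n x - g (n + 1) x) * 𝓕 A x = 0 := by
    intro n A hA hsupp
    have h1 := hzero n A hA hsupp
    have e1 : ∀ y, 𝓕 (fun η => X (2 ^ n * η) - X (2 ^ (n + 1) * η)) y = Φ n y - Φ (n + 1) y := by
      intro y
      rw [hΦ]
      exact four_diff (hsm n).1.continuous (hsm (n + 1)).1.continuous
        ((hsm n).1.continuous.integrable_of_hasCompactSupport (hsm n).2)
        ((hsm (n + 1)).1.continuous.integrable_of_hasCompactSupport (hsm (n + 1)).2) y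
    have e2 : ∫ q : ℝ × ℝ, f q * (𝓕 A q.1 *
        𝓕 (fun η => X (2 ^ n * η) - X (2 ^ (n + 1) * η)) q.2) =
        (∫ q : ℝ × ℝ, f q * (𝓕 A q.1 * Φ n q.2)) -
          ∫ q : ℝ × ℝ, f q * (𝓕 A q.1 * Φ (n + 1) q.2) := by
      rw [← integral_sub (hIn n A hA) (hIn (n + 1) A hA)]
      refine integral_congr_ae (Eventually.of_forall fun q => ?_)
      show f q * (𝓕 A q.1 * 𝓕 (fun η => X (2 ^ n * η) - X (2 ^ (n + 1) * η)) q.2) =
        f q * (𝓕 A q.1 * Φ n q.2) - f q * (𝓕 A q.1 * Φ (n + 1) q.2)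
      rw [e1]
      ring
    rw [e2, hfub n A hA, hfub (n + 1) A hA, ← integral_sub (hgi n A hA) (hgi (n + 1) A hA)] at h1
    rw [← h1]
    refine integral_congr_ae (Eventually.of_forall fun x => ?_)
    show (g n x - g (n + 1) x) * 𝓕 A x = g n x * 𝓕 A x - g (n + 1) x * 𝓕 A x
    ring
  intro n A hA hsupp
  have hfin := h g N c (C₀ * I.toReal) hc (by positivity) hgm hgb hlim hdiff n A hA hsupp
  rw [← hfub n A hA, hΦ] at hfin
  exact hfin

end Pool.Agent.H77.RT.T.ISM
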