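import Pool.Agent.H77.RT.Stm2

/-! ISO: isolated directions are impossible. -/

set_option autoImplicit false

namespace Pool.Agent.H77.RT.T.ISO

open MeasureTheory Filter Topology Set
open scoped ENNReal ContDiff FourierTransform

/-- cut-off functions -/
lemma exists_cut (r : ℝ) (hr : 0 < r) : ∃ w : ℝ → ℝ, ContDiff ℝ ∞ w ∧
    (∀ k, |k| ≤ r / 2 → w k = 1) ∧ (∀ k, r < |k| → w k = 0) := by
  let b : ContDiffBump (0 : ℝ) := ⟨r / 2, r, by linarith, by linarith⟩
  refine ⟨b, b.contDiff, ?_, ?_⟩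
  · intro k hk
    apply b.one_of_mem_closedBall
    rw [mem_closedBall_zero_iff, Real.norm_eq_abs]
    exact hk
  · intro k hk
    apply b.zero_of_le_dist
    rw [dist_zero_right, Real.norm_eq_abs]
    exact hk.le

theorem main (hr : S_REP) (hm : S_ISM) (hp : S_PAG) (ht : S_TEM) (ha : S_ADD) (hb : S_BNI) :
    S_ISO := by
  intro f N δ hf hT hδ hint hvan a hBand Θ hΘ hsupp
  have hBand' := hBand
  obtain ⟨A, hA, hA0, rfl⟩ := hBand
  -- the cut-off `X`
  obtain ⟨χ, hχ, hχ1, hχ0⟩ := exists_cut 1 one_pos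
  set X : ℝ → ℂ := fun η => ((χ η : ℝ) : ℂ) with hX
  have hX1 : ∀ η, |η| ≤ 1 / 2 → X η = 1 := fun η hη => by
    show ((χ η : ℝ) : ℂ) = 1
    rw [hχ1 η hη, Complex.ofReal_one]
  have hX0 : ∀ η, 1 < |η| → X η = 0 := fun η hη => by
    show ((χ η : ℝ) : ℂ) = 0
    rw [hχ0 η hη, Complex.ofReal_zero]
  have hXd : ContDiff ℝ ∞ X := Complex.ofRealCLM.contDiff.comp hχ
  have hXs : Sm X := by
    refine ⟨hXd, HasCompactSupport.of_support_subset_isCompact (isCompact_closedBall (0 : ℝ) 1) ?_⟩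
    intro η hη
    rw [mem_closedBall_zero_iff, Real.norm_eq_abs]
    by_contra hcon
    exact hη (hX0 η (not_le.1 hcon))
  set c : ℝ := 1 / δ + 1 with hc
  have hc0 : 0 < c := by positivity
  have hcδ : 1 / c < δ := by
    rw [div_lt_iff₀ hc0, hc, mul_add, mul_one_div, div_self hδ.ne']
    linarith
  -- step 1
  have step : ∀ (t : ℝ) (n : ℕ) (A' : ℝ → ℂ), Sm A' → (∀ ξ ∈ tsupport A', c * (1 / 2) ^ n ≤ |ξ|) →
      ∫ q : ℝ × ℝ, tr f t q * (𝓕 A' q.1 * 𝓕 (fun η => X (2 ^ n * η)) q.2) = 0 := by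
    intro t
    have hft : Measurable (tr f t) := hf.comp (by fun_prop)
    have hTt : Tem (tr f t) N := ht.2 f N t hf hT
    refine hm (tr f t) N X c hft hTt hXs hc0 ?_ ?_
    · filter_upwards [hint] with x hx
      exact hx.comp_add_right t
    · intro n A' hA' hA'n
      have h2n : (0 : ℝ) < 2 ^ n := by positivity
      have hsub : Function.support (fun η => X (2 ^ n * η) - X (2 ^ (n + 1) * η)) ⊆
          {η : ℝ | (1 / 2) ^ (n + 2) ≤ |η| ∧ |η| ≤ (1 / 2) ^ n} := by
        intro η hη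
        have e2 : (2 : ℝ) ^ n * (1 / 2) ^ n = 1 := by
          rw [← mul_pow]
          norm_num
        constructor
        · by_contra hcon
          rw [not_le] at hcon
          apply hη
          show X (2 ^ n * η) - X (2 ^ (n + 1) * η) = 0
          have h3 : (2 : ℝ) ^ n * |η| < 1 / 4 := by
            calc (2 : ℝ) ^ n * |η| < 2 ^ n * (1 / 2) ^ (n + 2) := mul_lt_mul_of_pos_left hcon h2n
              _ = (2 ^ n * (1 / 2) ^ n) * (1 / 4) := by rw [pow_add (1 / 2 : ℝ) n 2]; ring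
              _ = 1 / 4 := by rw [e2, one_mul]
          rw [hX1, hX1, sub_self]
          · rw [abs_mul, abs_of_pos (by positivity), pow_succ]
            linarith
          · rw [abs_mul, abs_of_pos h2n]
            linarith
        · by_contra hcon
          rw [not_le] at hcon
          apply hη
          show X (2 ^ n * η) - X (2 ^ (n + 1) * η) = 0
          have h3 : 1 < (2 : ℝ) ^ n * |η| := by
            calc (1 : ℝ) = 2 ^ n * (1 / 2) ^ n := e2.symm
              _ < 2 ^ n * |η| := mul_lt_mul_of_pos_left hcon h2n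
          rw [hX0, hX0, sub_self]
          · rw [abs_mul, abs_of_pos (by positivity), pow_succ]
            linarith
          · rw [abs_mul, abs_of_pos h2n]
            exact h3
      have hcl : IsClosed {η : ℝ | (1 / 2) ^ (n + 2) ≤ |η| ∧ |η| ≤ (1 / 2) ^ n} :=
        (isClosed_le continuous_const continuous_abs).inter
          (isClosed_le continuous_abs continuous_const)
      have hts : tsupport (fun η => X (2 ^ n * η) - X (2 ^ (n + 1) * η)) ⊆
          {η : ℝ | (1 / 2) ^ (n + 2) ≤ |η| ∧ |η| ≤ (1 / 2) ^ n} := closure_minimal hsub hcl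
      refine hp (tr f t) N {k | k ≠ 0 ∧ |k| < δ} hft hTt ?_ ?_ A'
        (fun η => X (2 ^ n * η) - X (2 ^ (n + 1) * η)) hA' ?_ ⟨?_, ?_⟩ ?_
      · exact (isOpen_ne.inter (isOpen_lt continuous_abs continuous_const))
      · intro s a' ha' Θ' hΘ' hs'
        have e : tr (tr f t) s = tr f (s + t) := by
          funext q
          show f (q.1, q.2 + s + t) = f (q.1, q.2 + (s + t))
          rw [add_assoc]
        rw [e]
        exact hvan (s + t) a' ha' Θ' hΘ' hs'
      · intro h0
        have := hA'n 0 h0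
        rw [abs_zero] at this
        have h3 : 0 < c * (1 / 2) ^ n := by positivity
        linarith
      · exact (hXd.comp (contDiff_const.mul contDiff_id)).sub
          (hXd.comp (contDiff_const.mul contDiff_id))
      · refine HasCompactSupport.of_support_subset_isCompact
          (isCompact_closedBall (0 : ℝ) ((1 / 2) ^ n)) ?_
        intro η hη
        rw [mem_closedBall_zero_iff, Real.norm_eq_abs]
        exact (hsub hη).2
      · intro ξ hξ η hη
        have h4 := hts hη
        have h5 := hA'n ξ hξ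
        have h6 : 0 < c * (1 / 2) ^ n := by positivity
        have h7 : 0 < |ξ| := h6.trans_le h5
        have h8 : 0 < |η| := lt_of_lt_of_le (by positivity) h4.1
        refine ⟨?_, ?_⟩
        · exact div_ne_zero (neg_ne_zero.2 (abs_pos.1 h8)) (abs_pos.1 h7)
        · rw [abs_div, abs_neg]
          refine lt_of_le_of_lt ?_ hcδ
          rw [div_le_div_iff₀ h7 hc0, one_mul]
          calc |η| * c ≤ (1 / 2) ^ n * c := mul_le_mul_of_nonneg_right h4.2 hc0.le
            _ = c * (1 / 2) ^ n := mul_comm _ _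
            _ ≤ |ξ| := h5
  -- choose `n`
  obtain ⟨ε, hε, hε2⟩ : ∃ ε : ℝ, 0 < ε ∧ ∀ ξ ∈ tsupport A, ε ≤ |ξ| := by
    have h1 : (tsupport A)ᶜ ∈ 𝓝 (0 : ℝ) := (isClosed_tsupport A).isOpen_compl.mem_nhds hA0
    obtain ⟨ε, hε, hball⟩ := Metric.mem_nhds_iff.1 h1
    refine ⟨ε, hε, fun ξ hξ => ?_⟩
    by_contra hcon
    rw [not_le] at hcon
    apply hball _ hξ
    rw [mem_ball_zero_iff, Real.norm_eq_abs]
    exact hcon
  obtain ⟨n, hn⟩ : ∃ n : ℕ, c * (1 / 2) ^ n ≤ ε := by
    obtain ⟨n, hn⟩ := exists_pow_lt_of_lt_one (div_pos hε hc0) (by norm_num : (1 / 2 : ℝ) < 1)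
    refine ⟨n, ?_⟩
    rw [lt_div_iff₀ hc0] at hn
    linarith
  obtain ⟨B₀, hB₀⟩ : ∃ B₀ : ℝ, ∀ ξ ∈ tsupport A, |ξ| ≤ B₀ := by
    obtain ⟨B₀, h⟩ := hA.2.isBounded.exists_norm_le
    exact ⟨B₀, fun ξ hξ => by simpa using h ξ hξ⟩
  set R : ℝ := 2 ^ n with hR
  have hR0 : 0 < R := by positivity
  set r : ℝ := 1 / (2 * R * |B₀| + 1) with hrdef
  have hden : 0 < 2 * R * |B₀| + 1 := by positivity
  have hr0 : 0 < r := by positivity
  obtain ⟨w, hw, hw1, hw0⟩ := exists_cut r hr0
  have hN := hb _ hBand'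
  set Θ₁ : ℝ → ℝ := fun k => Θ k * w k with hΘ₁
  set Θ₂ : ℝ → ℝ := fun k => Θ k * (1 - w k) with hΘ₂
  have hs1 : Function.support Θ₁ ⊆ Function.support Θ := by
    intro k hk h0
    apply hk
    show Θ k * w k = 0
    rw [h0, zero_mul]
  have hs2 : Function.support Θ₂ ⊆ Function.support Θ := by
    intro k hk h0
    apply hk
    show Θ k * (1 - w k) = 0
    rw [h0, zero_mul]
  have hT1 : Test Θ₁ := ⟨hΘ.1.mul hw, HasCompactSupport.of_support_subset_isCompact hΘ.2
    (hs1.trans (subset_tsupport Θ))⟩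
  have hT2 : Test Θ₂ := ⟨hΘ.1.mul (contDiff_const.sub hw),
    HasCompactSupport.of_support_subset_isCompact hΘ.2 (hs2.trans (subset_tsupport Θ))⟩
  have hsum : Θ = Θ₁ + Θ₂ := by
    funext k
    show Θ k = Θ k * w k + Θ k * (1 - w k)
    ring
  have e1 : T f (𝓕 A) Θ₂ = 0 := by
    have h1 := hvan 0 (𝓕 A) hBand' Θ₂ hT2 ?_
    · have e : tr f 0 = f := by
        funext q
        show f (q.1, q.2 + 0) = f q
        rw [add_zero]
      rwa [e] at h1
    · intro k hk
      have h2 : k ∈ tsupport Θ := closure_mono hs2 hk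
      have h3 : tsupport Θ₂ ⊆ {k : ℝ | r / 2 ≤ |k|} := by
        apply closure_minimal _ (isClosed_le continuous_const continuous_abs)
        intro k hk
        by_contra hcon
        have hcon' : |k| < r / 2 := not_le.1 hcon
        apply hk
        show Θ k * (1 - w k) = 0
        rw [hw1 k hcon'.le, sub_self, mul_zero]
      have h4 : r / 2 ≤ |k| := h3 hk
      refine ⟨fun h0 => ?_, ?_⟩
      · rw [h0, abs_zero] at h4
        linarith
      · have := hsupp h2
        exact abs_lt.2 ⟨this.1, this.2⟩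
  have e2 : T f (𝓕 A) Θ₁ = 0 := by
    refine hr f N A X Θ₁ R hf hT hA hA0 hXs hT1 hR0 ?_ ?_
    · intro ξ hξ k hk
      have h3 : tsupport Θ₁ ⊆ {k : ℝ | |k| ≤ r} := by
        apply closure_minimal _ (isClosed_le continuous_abs continuous_const)
        intro k hk
        by_contra hcon
        apply hk
        show Θ k * w k = 0
        rw [hw0 k (not_le.1 hcon), mul_zero]
      have h4 : |k| ≤ r := h3 hk
      apply hX1
      rw [abs_neg, abs_mul, abs_mul, abs_of_pos hR0]
      have h5 : |ξ| ≤ |B₀| := (hB₀ ξ hξ).trans (le_abs_self _)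
      calc R * (|ξ| * |k|) ≤ R * (|B₀| * r) := by
            apply mul_le_mul_of_nonneg_left _ hR0.le
            exact mul_le_mul h5 h4 (abs_nonneg _) (abs_nonneg _)
        _ ≤ 1 / 2 := by
            rw [hrdef, ← mul_assoc, mul_one_div, div_le_div_iff₀ hden two_pos]
            nlinarith [mul_nonneg hR0.le (abs_nonneg B₀)]
    · intro t A' hA' hA's
      exact step t n A' hA' (fun ξ hξ => hn.trans (hε2 ξ (hA's hξ)))
  rw [hsum, ha f N (𝓕 A) hf hT hN Θ₁ Θ₂ hT1 hT2, e1, e2, add_zero]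

end Pool.Agent.H77.RT.T.ISO
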