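import Pool.Agent.H77.RT.Stm2
import Pool.Agent.H77.RT.T.PAI

set_option autoImplicit false

/-! RT-PAG: the pairing of `f` with products of Fourier transforms (after helper51, `PAI.lean`). -/

namespace Pool.Agent.H77.RT.T.PAG

open MeasureTheory Filter Topology Set
open scoped ENNReal ContDiff FourierTransform
open Pool.Agent.H77.RT.T.PAI (nice_cont kern_meas four_sch sch_int)

theorem main (h : S_KER) (hb : S_BNI) (hi : S_IDG) : S_PAG := by
  intro f N U hf hT hU h0 A B hA hA0 hB hAB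
  obtain ⟨a, Θ, haB, hΘ, hΘU, hid⟩ := hi A B U hA hA0 hB hU hAB
  have ha : Nice a := hb a haB
  obtain ⟨C, hC⟩ := h a ha Θ hΘ N
  obtain ⟨S, hS⟩ := four_sch hB.1 hB.2
  have hC0 : 0 ≤ C := by
    have h1 := (norm_nonneg _).trans (hC 0 0)
    simpa using h1
  have hk : ∀ x y t : ℝ, ‖kern a Θ x (y - t)‖ ≤ C * (1 + |t|) ^ N / (1 + |x| + |y|) ^ N := by
    intro x y t
    refine (hC x (y - t)).trans ?_
    have h1 : 1 + |x| + |y| ≤ (1 + |t|) * (1 + |x| + |y - t|) := by
      have h2 : |y| ≤ |y - t| + |t| := by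
        have := abs_add_le (y - t) t
        simpa using this
      have h3 := abs_nonneg x
      have h4 := abs_nonneg (y - t)
      have h5 := abs_nonneg t
      nlinarith [mul_nonneg h5 h3, mul_nonneg h5 h4]
    have h2 : (1 + |x| + |y|) ^ N ≤ (1 + |t|) ^ N * (1 + |x| + |y - t|) ^ N := by
      rw [← mul_pow]
      exact pow_le_pow_left₀ (by positivity) h1 N
    rw [div_le_div_iff₀ (by positivity) (by positivity), mul_assoc]
    exact mul_le_mul_of_nonneg_left h2 hC0
  have hm : StronglyMeasurable fun p : (ℝ × ℝ) × ℝ => kern a Θ p.1.1 (p.1.2 - p.2) := by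
    have h1 : Measurable fun p : (ℝ × ℝ) × ℝ => (p.1.1, p.1.2 - p.2) := by fun_prop
    exact (kern_meas ha hΘ).comp_measurable h1
  have hint : Integrable (fun p : (ℝ × ℝ) × ℝ => f p.1 * (S p.2 * kern a Θ p.1.1 (p.1.2 - p.2)))
      ((volume : Measure (ℝ × ℝ)).prod (volume : Measure ℝ)) := by
    have h1 := (hT.mul_prod (sch_int S N)).const_mul C
    refine h1.mono' ?_ (Eventually.of_forall fun p => ?_)
    · exact (hf.comp measurable_fst).aestronglyMeasurable.mul
        (((S.continuous.comp continuous_snd).aestronglyMeasurable).mul hm.aestronglyMeasurable)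
    · rw [norm_mul, norm_mul]
      calc ‖f p.1‖ * (‖S p.2‖ * ‖kern a Θ p.1.1 (p.1.2 - p.2)‖)
          ≤ ‖f p.1‖ * (‖S p.2‖ * (C * (1 + |p.2|) ^ N / (1 + |p.1.1| + |p.1.2|) ^ N)) := by
            gcongr
            exact hk _ _ _
        _ = C * (‖f p.1‖ / (1 + |p.1.1| + |p.1.2|) ^ N * ((1 + |p.2|) ^ N * ‖S p.2‖)) := by ring
  have e1 : ∫ q : ℝ × ℝ, f q * (𝓕 A q.1 * 𝓕 B q.2) =
      ∫ q : ℝ × ℝ, ∫ t : ℝ, f q * (S t * kern a Θ q.1 (q.2 - t)) := by
    refine integral_congr_ae (Eventually.of_forall fun q => ?_)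
    show f q * (𝓕 A q.1 * 𝓕 B q.2) = ∫ t : ℝ, f q * (S t * kern a Θ q.1 (q.2 - t))
    rw [hid, integral_const_mul]
    congr 1
    exact integral_congr_ae (Eventually.of_forall fun t => by simp only [hS t])
  rw [e1, integral_integral_swap hint]
  have e2 : ∀ t : ℝ, ∫ q : ℝ × ℝ, f q * (S t * kern a Θ q.1 (q.2 - t)) = 0 := by
    intro t
    have e3 : ∫ q : ℝ × ℝ, f q * (S t * kern a Θ q.1 (q.2 - t)) =
        S t * ∫ q : ℝ × ℝ, f q * kern a Θ q.1 (q.2 - t) := by
      rw [← integral_const_mul]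
      refine integral_congr_ae (Eventually.of_forall fun q => ?_)
      show f q * (S t * kern a Θ q.1 (q.2 - t)) = S t * (f q * kern a Θ q.1 (q.2 - t))
      ring
    have e4 : ∫ q : ℝ × ℝ, f q * kern a Θ q.1 (q.2 - t) = 0 := by
      rw [← integral_add_right_eq_self _ ((0 : ℝ), t)]
      have h1 := h0 t a haB Θ hΘ hΘU
      unfold T tr at h1
      rw [← h1]
      refine integral_congr_ae (Eventually.of_forall fun q => ?_)
      show f (q + ((0 : ℝ), t)) * kern a Θ (q.1 + 0) (q.2 + t - t) = f (q.1, q.2 + t) * kern a Θ q.1 q.2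
      have e5 : q + ((0 : ℝ), t) = (q.1, q.2 + t) := by
        ext <;> simp
      rw [e5, add_zero, add_sub_cancel_right]
    rw [e3, e4, mul_zero]
  simp only [e2, integral_zero]

end Pool.Agent.H77.RT.T.PAG
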