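import Pool.Agent.H77.RT.Stm2
import Pool.Agent.H77.RT.T.IDF
import Pool.Agent.H77.RT.T.PAI

/-! # Project RT, stub REP (helper97) -/

set_option autoImplicit false

namespace Pool.Agent.H77.RT.T.REP

open MeasureTheory Filter Topology Set
open scoped ENNReal ContDiff FourierTransform
open Pool.Agent.H77.RT.T.IDF Pool.Agent.H77.RT.T.PAI

theorem four_int {B : ℝ → ℂ} (hB : Sm B) : Integrable (𝓕 B) := by
  have := (𝓕 (hB.2.toSchwartzMap hB.1)).integrable (μ := volume)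
  rwa [SchwartzMap.fourier_coe] at this

theorem four_four {B : ℝ → ℂ} (hB : Sm B) (w : ℝ) : 𝓕 (𝓕 B) w = B (-w) := by
  have hBi : Integrable B := hB.1.continuous.integrable_of_hasCompactSupport hB.2
  have h1 := hB.1.continuous.fourierInv_fourier_eq hBi (four_int hB)
  have h2 := congrFun h1 (-w)
  rw [Real.fourierInv_eq_fourier_neg, neg_neg] at h2
  exact h2

theorem four_cont {B : ℝ → ℂ} (hB : Sm B) : Continuous (𝓕 B) := by
  obtain ⟨S, hS⟩ := four_sch hB.1 hB.2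
  have : 𝓕 B = S := funext hS
  rw [this]
  exact S.continuous

theorem four_bdd {B : ℝ → ℂ} (hB : Sm B) : ∃ C : ℝ, ∀ t, ‖𝓕 B t‖ ≤ C := by
  refine ⟨∫ v, ‖B v‖, fun t => ?_⟩
  rw [four]
  refine (norm_integral_le_integral_norm _).trans (le_of_eq ?_)
  refine integral_congr_ae (ae_of_all _ fun v => ?_)
  show ‖B v * E (-(v * t))‖ = ‖B v‖
  rw [norm_mul, E_norm, mul_one]

/-- the reproducing formula -/
theorem rep {A B : ℝ → ℂ} {Θ : ℝ → ℝ} (hA : Sm A) (hB : Sm B) (hΘ : Test Θ)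
    (h1 : ∀ ξ ∈ tsupport A, ∀ k ∈ tsupport Θ, B (-(ξ * k)) = 1) (x y : ℝ) :
    kern (𝓕 A) Θ x y = ∫ v : ℝ, 𝓕 B v * kern (𝓕 A) Θ x (y - v) := by
  have hΘi : Integrable fun k => (Θ k : ℂ) :=
    (hΘ.1.continuous.integrable_of_hasCompactSupport hΘ.2).ofReal
  have hAi : Integrable A := hA.1.continuous.integrable_of_hasCompactSupport hA.2
  obtain ⟨C, hC⟩ := four_bdd hA
  have hcA := four_cont hA
  unfold kern
  have hf := fub (𝓕 B) (fun k => (Θ k : ℂ)) (fun z => 𝓕 A (x - z.2 * (y - z.1))) (four_int hB) hΘi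
    (hcA.comp (by fun_prop)) C (fun z => hC _)
  simp only at hf
  rw [hf]
  refine integral_congr_ae (ae_of_all _ fun k => ?_)
  show (Θ k : ℂ) * 𝓕 A (x - k * y) = (Θ k : ℂ) * ∫ s, 𝓕 B s * 𝓕 A (x - k * (y - s))
  by_cases hk : k ∈ tsupport Θ
  · congr 1
    have h2 : ∀ s : ℝ, 𝓕 B s * 𝓕 A (x - k * (y - s)) =
        𝓕 B s * ∫ ξ, A ξ * E (-(ξ * (x - k * (y - s)))) := by
      intro s
      rw [four A]
    simp_rw [h2]
    have hf2 := fub (𝓕 B) A (fun z => E (-(z.2 * (x - k * (y - z.1))))) (four_int hB) hAi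
      (E_cont.comp (by fun_prop)) 1 (fun z => (E_norm _).le)
    simp only at hf2
    rw [hf2, four A]
    refine integral_congr_ae (ae_of_all _ fun ξ => ?_)
    show A ξ * E (-(ξ * (x - k * y))) = A ξ * ∫ s, 𝓕 B s * E (-(ξ * (x - k * (y - s))))
    by_cases hξ : A ξ = 0
    · rw [hξ, zero_mul, zero_mul]
    · congr 1
      have h3 : ∫ s, 𝓕 B s * E (-(ξ * (x - k * (y - s)))) =
          E (-(ξ * (x - k * y))) * B (-(ξ * k)) := by
        rw [← four_four hB, four (𝓕 B), ← integral_const_mul]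
        refine integral_congr_ae (ae_of_all _ fun t => ?_)
        show 𝓕 B t * E (-(ξ * (x - k * (y - t)))) =
          E (-(ξ * (x - k * y))) * (𝓕 B t * E (-(t * (ξ * k))))
        rw [show -(ξ * (x - k * (y - t))) = -(ξ * (x - k * y)) + -(t * (ξ * k)) by ring, E_add]
        ring
      rw [h3, h1 ξ (subset_tsupport _ hξ) k hk, mul_one]
  · rw [image_eq_zero_of_notMem_tsupport hk]
    simp

theorem sm_comp {X : ℝ → ℂ} (hX : Sm X) {R : ℝ} (hR : 0 < R) : Sm fun η => X (R * η) := by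
  refine ⟨hX.1.comp (by fun_prop), ?_⟩
  have h1 := hX.2.comp_smul hR.ne'
  simp only [smul_eq_mul] at h1
  exact h1

/-- the kernel bound for differences -/
theorem hkb {a : ℝ → ℂ} {Θ : ℝ → ℝ} {C : ℝ} {N : ℕ} (hC0 : 0 ≤ C)
    (hC : ∀ x y : ℝ, ‖kern a Θ x y‖ ≤ C / (1 + |x| + |y|) ^ N) (x y t : ℝ) :
    ‖kern a Θ x (y - t)‖ ≤ C * (1 + |t|) ^ N / (1 + |x| + |y|) ^ N := by
  refine (hC x (y - t)).trans ?_
  have h1 : 1 + |x| + |y| ≤ (1 + |t|) * (1 + |x| + |y - t|) := by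
    have h2 : |y| ≤ |y - t| + |t| := by
      have := abs_add_le (y - t) t
      simpa using this
    have h3 := abs_nonneg x
    have h4 := abs_nonneg (y - t)
    have h5 := abs_nonneg t
    nlinarith [mul_nonneg h5 h3, mul_nonneg h5 h4]
  have h2 : (1 + |x| + |y|) ^ N ≤ (1 + |t|) ^ N * (1 + |x| + |y - t|) ^ N := by
    rw [← mul_pow]
    exact pow_le_pow_left₀ (by positivity) h1 N
  rw [div_le_div_iff₀ (by positivity) (by positivity), mul_assoc]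
  exact mul_le_mul_of_nonneg_left h2 hC0

theorem hint1 {f : ℝ × ℝ → ℂ} {N : ℕ} {a : ℝ → ℂ} {Θ : ℝ → ℝ} {C : ℝ} (S : SchwartzMap ℝ ℂ)
    (hf : Measurable f) (hT : Tem f N) (ha : Nice a) (hΘ : Test Θ) (hC0 : 0 ≤ C)
    (hC : ∀ x y : ℝ, ‖kern a Θ x y‖ ≤ C / (1 + |x| + |y|) ^ N) :
    Integrable (fun p : (ℝ × ℝ) × ℝ => f p.1 * (S p.2 * kern a Θ p.1.1 (p.1.2 - p.2)))
      ((volume : Measure (ℝ × ℝ)).prod (volume : Measure ℝ)) := by
  have hk := hkb hC0 hC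
  have hm : StronglyMeasurable fun p : (ℝ × ℝ) × ℝ => kern a Θ p.1.1 (p.1.2 - p.2) := by
    have h1 : Measurable fun p : (ℝ × ℝ) × ℝ => (p.1.1, p.1.2 - p.2) := by fun_prop
    exact (kern_meas ha hΘ).comp_measurable h1
  have h1 := (hT.mul_prod (sch_int S N)).const_mul C
  refine h1.mono' ?_ (Eventually.of_forall fun p => ?_)
  · exact (hf.comp measurable_fst).aestronglyMeasurable.mul
      (((S.continuous.comp continuous_snd).aestronglyMeasurable).mul hm.aestronglyMeasurable)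
  · rw [norm_mul, norm_mul]
    calc ‖f p.1‖ * (‖S p.2‖ * ‖kern a Θ p.1.1 (p.1.2 - p.2)‖)
        ≤ ‖f p.1‖ * (‖S p.2‖ * (C * (1 + |p.2|) ^ N / (1 + |p.1.1| + |p.1.2|) ^ N)) := by
          gcongr
          exact hk _ _ _
      _ = C * (‖f p.1‖ / (1 + |p.1.1| + |p.1.2|) ^ N * ((1 + |p.2|) ^ N * ‖S p.2‖)) := by ring

theorem mp : MeasurePreserving (fun p : (ℝ × ℝ) × ℝ => (p.1, p.1.2 - p.2))
    ((volume : Measure (ℝ × ℝ)).prod (volume : Measure ℝ))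
    ((volume : Measure (ℝ × ℝ)).prod (volume : Measure ℝ)) := by
  refine (MeasurePreserving.id (volume : Measure (ℝ × ℝ))).skew_product
    (g := fun q y => q.2 - y) (by fun_prop) (ae_of_all _ fun q => ?_)
  exact ((volume : Measure ℝ).measurePreserving_sub_left q.2).map_eq

theorem hint2 {f : ℝ × ℝ → ℂ} {N : ℕ} {a : ℝ → ℂ} {Θ : ℝ → ℝ} {C : ℝ} (S : SchwartzMap ℝ ℂ)
    (hf : Measurable f) (hT : Tem f N) (ha : Nice a) (hΘ : Test Θ) (hC0 : 0 ≤ C)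
    (hC : ∀ x y : ℝ, ‖kern a Θ x y‖ ≤ C / (1 + |x| + |y|) ^ N) :
    Integrable (Function.uncurry fun (q : ℝ × ℝ) (t : ℝ) => f q * (S (q.2 - t) * kern a Θ q.1 t))
      ((volume : Measure (ℝ × ℝ)).prod (volume : Measure ℝ)) := by
  have h1 := hint1 S hf hT ha hΘ hC0 hC
  have h2 := (mp.integrable_comp h1.aestronglyMeasurable).2 h1
  refine h2.congr (ae_of_all _ fun p => ?_)
  simp only [Function.comp, Function.uncurry, sub_sub_cancel]

/-- the pairing as an iterated integral -/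
theorem swap {f : ℝ × ℝ → ℂ} {N : ℕ} {a : ℝ → ℂ} {Θ : ℝ → ℝ} {C : ℝ} (S : SchwartzMap ℝ ℂ)
    (hf : Measurable f) (hT : Tem f N) (ha : Nice a) (hΘ : Test Θ) (hC0 : 0 ≤ C)
    (hC : ∀ x y : ℝ, ‖kern a Θ x y‖ ≤ C / (1 + |x| + |y|) ^ N)
    (hrep : ∀ x y : ℝ, kern a Θ x y = ∫ v : ℝ, S v * kern a Θ x (y - v)) :
    T f a Θ = ∫ t : ℝ, ∫ q : ℝ × ℝ, f (q.1, q.2 + t) * (S q.2 * kern a Θ q.1 t) := by
  have e1 : T f a Θ = ∫ q : ℝ × ℝ, ∫ t : ℝ, f q * (S (q.2 - t) * kern a Θ q.1 t) := by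
    unfold T
    refine integral_congr_ae (Eventually.of_forall fun q => ?_)
    show f q * kern a Θ q.1 q.2 = ∫ t : ℝ, f q * (S (q.2 - t) * kern a Θ q.1 t)
    rw [integral_const_mul]
    congr 1
    rw [hrep, ← integral_sub_left_eq_self (fun t => S (q.2 - t) * kern a Θ q.1 t) volume q.2]
    refine integral_congr_ae (Eventually.of_forall fun t => ?_)
    simp only [sub_sub_cancel]
  rw [e1, integral_integral_swap (hint2 S hf hT ha hΘ hC0 hC)]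
  refine integral_congr_ae (Eventually.of_forall fun t => ?_)
  show ∫ q : ℝ × ℝ, f q * (S (q.2 - t) * kern a Θ q.1 t) =
    ∫ q : ℝ × ℝ, f (q.1, q.2 + t) * (S q.2 * kern a Θ q.1 t)
  rw [← integral_add_right_eq_self _ ((0 : ℝ), t)]
  refine integral_congr_ae (Eventually.of_forall fun q => ?_)
  show f (q + ((0 : ℝ), t)) * (S (q.2 + t - t) * kern a Θ (q.1 + 0) t) =
    f (q.1, q.2 + t) * (S q.2 * kern a Θ q.1 t)
  have e5 : q + ((0 : ℝ), t) = (q.1, q.2 + t) := by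
    ext <;> simp
  rw [e5, add_zero, add_sub_cancel_right]

/-- for fixed `y` the kernel is a Fourier transform -/
theorem kern_four {A : ℝ → ℂ} {Θ : ℝ → ℝ} (hA : Sm A) (hΘ : Test Θ) (x t : ℝ) :
    kern (𝓕 A) Θ x t = 𝓕 (fun ξ => A ξ * 𝓕 (fun k => (Θ k : ℂ)) (-(ξ * t))) x := by
  have hΘi : Integrable fun k => (Θ k : ℂ) :=
    (hΘ.1.continuous.integrable_of_hasCompactSupport hΘ.2).ofReal
  have hAi : Integrable A := hA.1.continuous.integrable_of_hasCompactSupport hA.2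
  rw [stepA A Θ hAi hΘi, four]
  refine integral_congr_ae (ae_of_all _ fun ξ => ?_)
  show A ξ * E (-(ξ * x)) * 𝓕 (fun k => (Θ k : ℂ)) (-(ξ * t)) =
    A ξ * 𝓕 (fun k => (Θ k : ℂ)) (-(ξ * t)) * E (-(ξ * x))
  ring

theorem sm_prod {A : ℝ → ℂ} {Θ : ℝ → ℝ} (hA : Sm A) (hΘ : Test Θ) (t : ℝ) :
    Sm fun ξ => A ξ * 𝓕 (fun k => (Θ k : ℂ)) (-(ξ * t)) := by
  have hΘc : HasCompactSupport fun k => (Θ k : ℂ) :=
    hΘ.2.comp_left (g := fun r : ℝ => (r : ℂ)) (by simp)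
  have hΘs : ContDiff ℝ ∞ fun k => (Θ k : ℂ) := Complex.ofRealCLM.contDiff.comp hΘ.1
  obtain ⟨F, hF⟩ := four_sch hΘs hΘc
  refine ⟨?_, hA.2.mul_right⟩
  have e3 : (fun ξ => A ξ * 𝓕 (fun k => (Θ k : ℂ)) (-(ξ * t))) = fun ξ => A ξ * F (-(ξ * t)) := by
    funext ξ
    rw [hF]
  rw [e3]
  exact hA.1.mul ((F.smooth ⊤).comp (by fun_prop))

theorem main (h : S_KER) (hb : S_BNI) : S_REP := by
  intro f N A X Θ R hf hT hA hA0 hX hΘ hR hone h0
  have ha : Nice (𝓕 A) := hb _ ⟨A, hA, hA0, rfl⟩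
  have hXR := sm_comp hX hR
  obtain ⟨B, hBdef⟩ : ∃ B : ℝ → ℂ, B = fun η => X (R * η) := ⟨_, rfl⟩
  rw [← hBdef] at hXR h0
  have h1 : ∀ ξ ∈ tsupport A, ∀ k ∈ tsupport Θ, B (-(ξ * k)) = 1 := by
    intro ξ hξ k hk
    rw [hBdef]
    show X (R * -(ξ * k)) = 1
    rw [mul_neg]
    exact hone ξ hξ k hk
  obtain ⟨C, hC⟩ := h _ ha Θ hΘ N
  obtain ⟨S, hS⟩ := four_sch hXR.1 hXR.2
  have hC0 : 0 ≤ C := by
    have h1 := (norm_nonneg _).trans (hC 0 0)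
    simpa using h1
  have hrep : ∀ x y : ℝ, kern (𝓕 A) Θ x y = ∫ v : ℝ, S v * kern (𝓕 A) Θ x (y - v) := by
    intro x y
    rw [rep hA hXR hΘ h1 x y]
    refine integral_congr_ae (Eventually.of_forall fun v => ?_)
    show 𝓕 B v * kern (𝓕 A) Θ x (y - v) = S v * kern (𝓕 A) Θ x (y - v)
    rw [hS]
  rw [swap S hf hT ha hΘ hC0 hC hrep]
  have e2 : ∀ t : ℝ, ∫ q : ℝ × ℝ, f (q.1, q.2 + t) * (S q.2 * kern (𝓕 A) Θ q.1 t) = 0 := by
    intro t
    have h2 := h0 t _ (sm_prod hA hΘ t) (tsupport_mul_subset_left)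
    rw [← h2]
    refine integral_congr_ae (Eventually.of_forall fun q => ?_)
    show f (q.1, q.2 + t) * (S q.2 * kern (𝓕 A) Θ q.1 t) =
      f (q.1, q.2 + t) * (𝓕 (fun ξ => A ξ * 𝓕 (fun k => (Θ k : ℂ)) (-(ξ * t))) q.1 * 𝓕 B q.2)
    rw [hS, kern_four hA hΘ]
    ring
  simp only [e2, integral_zero]

end Pool.Agent.H77.RT.T.REP
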