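import Pool.Agent.H77.RT.Stm2

set_option autoImplicit false

/-! RT-SEQ (helper10): the one-dimensional key lemma. -/

namespace Pool.Agent.H77.RT.T.SEQ

open MeasureTheory Filter Topology Set
open scoped ENNReal ContDiff FourierTransform SchwartzMap

/-- the Fourier transform of a test function is a Schwartz function -/
theorem four_sch {B : ℝ → ℂ} (hB : ContDiff ℝ ∞ B) (hBc : HasCompactSupport B) :
    ∃ S : SchwartzMap ℝ ℂ, ∀ t, 𝓕 B t = S t := by
  refine ⟨𝓕 (hBc.toSchwartzMap hB), fun t => ?_⟩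
  rw [SchwartzMap.fourier_coe]
  rfl

theorem sch_int (S : SchwartzMap ℝ ℂ) (N : ℕ) :
    Integrable fun t : ℝ => (1 + |t|) ^ N * ‖S t‖ := by
  have h1 : Integrable fun t : ℝ => ‖t‖ ^ N * ‖S t‖ := S.integrable_pow_mul volume N
  have h2 : Integrable fun t : ℝ => ‖S t‖ := S.integrable.norm
  refine ((h2.add h1).const_mul (2 ^ (N - 1))).mono' ?_ (Eventually.of_forall fun t => ?_)
  · have : Continuous fun t : ℝ => (1 + |t|) ^ N * ‖S t‖ :=
      (by fun_prop : Continuous fun t : ℝ => (1 + |t|) ^ N).mul S.continuous.norm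
    exact this.aestronglyMeasurable
  · rw [Real.norm_eq_abs, abs_of_nonneg (by positivity)]
    have h3 := add_pow_le (zero_le_one (α := ℝ)) (abs_nonneg t) N
    rw [one_pow] at h3
    simp only [Pi.add_apply, Real.norm_eq_abs]
    calc (1 + |t|) ^ N * ‖S t‖ ≤ (2 ^ (N - 1) * (1 + |t| ^ N)) * ‖S t‖ :=
          mul_le_mul_of_nonneg_right h3 (norm_nonneg _)
      _ = 2 ^ (N - 1) * (‖S t‖ + |t| ^ N * ‖S t‖) := by ring

theorem sch_bd (S : SchwartzMap ℝ ℂ) (N : ℕ) : ∃ C : ℝ, 0 ≤ C ∧ ∀ y, ‖S y‖ ≤ C / (1 + |y|) ^ N := by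
  have h0 : ∀ y, ‖S y‖ ≤ 2 ^ N * ((Finset.Iic (N, 0)).sup fun m => SchwartzMap.seminorm ℝ m.1 m.2) S
      / (1 + |y|) ^ N := by
    intro y
    have h3 := SchwartzMap.one_add_le_sup_seminorm_apply (𝕜 := ℝ) (m := (N, 0)) (k := N) (n := 0)
      le_rfl le_rfl S y
    rw [norm_iteratedFDeriv_zero, Real.norm_eq_abs] at h3
    rw [le_div_iff₀ (by positivity), mul_comm]
    exact h3
  refine ⟨_, ?_, h0⟩
  exact mul_nonneg (by positivity) (apply_nonneg _ _)

theorem int1 (f : ℝ → ℂ) (K : ℕ) (hf : Measurable f)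
    (hI : ∫⁻ x : ℝ, ENNReal.ofReal (‖f x‖ / (1 + |x|) ^ K) < ⊤)
    (w : ℝ → ℂ) (hw : Measurable w) (C : ℝ) (hC : 0 ≤ C) (hb : ∀ x, ‖w x‖ ≤ C / (1 + |x|) ^ K) :
    Integrable fun x => f x * w x := by
  refine ⟨(hf.mul hw).aestronglyMeasurable, ?_⟩
  rw [hasFiniteIntegral_iff_norm]
  have h1 : ∫⁻ x : ℝ, ENNReal.ofReal ‖f x * w x‖ ≤
      ENNReal.ofReal C * ∫⁻ x : ℝ, ENNReal.ofReal (‖f x‖ / (1 + |x|) ^ K) := by
    rw [← lintegral_const_mul' _ _ ENNReal.ofReal_ne_top]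
    refine lintegral_mono fun x => ?_
    rw [← ENNReal.ofReal_mul hC]
    apply ENNReal.ofReal_le_ofReal
    rw [norm_mul]
    calc ‖f x‖ * ‖w x‖ ≤ ‖f x‖ * (C / (1 + |x|) ^ K) :=
          mul_le_mul_of_nonneg_left (hb x) (norm_nonneg _)
      _ = C * (‖f x‖ / (1 + |x|) ^ K) := by ring
  exact h1.trans_lt (ENNReal.mul_lt_top ENNReal.ofReal_lt_top hI)

/-- polynomial bound -/
theorem poly_bd (P : Polynomial ℂ) (L : ℕ) (hP : P.natDegree ≤ L) :
    ∃ M : ℝ, 0 ≤ M ∧ ∀ u : ℝ, ‖P.eval (u : ℂ)‖ ≤ M * (1 + |u|) ^ L := by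
  refine ⟨∑ i ∈ Finset.range (P.natDegree + 1), ‖P.coeff i‖,
    Finset.sum_nonneg fun _ _ => norm_nonneg _, fun u => ?_⟩
  rw [Polynomial.eval_eq_sum_range, Finset.sum_mul]
  refine (norm_sum_le _ _).trans (Finset.sum_le_sum fun i hi => ?_)
  rw [norm_mul, norm_pow, Complex.norm_real, Real.norm_eq_abs]
  refine mul_le_mul_of_nonneg_left ?_ (norm_nonneg _)
  have hi' : i ≤ L := (Nat.lt_succ_iff.1 (Finset.mem_range.1 hi)).trans hP
  calc |u| ^ i ≤ (1 + |u|) ^ i := pow_le_pow_left₀ (abs_nonneg _) (by linarith) _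
    _ ≤ (1 + |u|) ^ L := pow_le_pow_right₀ (by linarith [abs_nonneg u]) hi'

theorem lag (s : Finset ℝ) (L : ℕ) (hs : s.card = L + 1) :
    ∃ M : ℝ, 0 ≤ M ∧ ∀ (Q : Polynomial ℂ) (R : ℝ), Q.natDegree ≤ L →
      (∀ x ∈ s, ‖Q.eval (x : ℂ)‖ ≤ R) →
      ∀ u : ℝ, ‖Q.eval (u : ℂ)‖ ≤ R * M * (1 + |u|) ^ L := by
  classical
  set v : ℝ → ℂ := fun x => (x : ℂ) with hv
  have hvs : Set.InjOn v s := fun a _ b _ h => Complex.ofReal_injective h
  have hb : ∀ i ∈ s, (Lagrange.basis s v i).natDegree ≤ L := by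
    intro i hi
    rw [Polynomial.natDegree_le_iff_degree_le, Lagrange.degree_basis hvs hi, hs]
    exact le_rfl
  have hb' : ∀ i ∈ s, ∃ M : ℝ, 0 ≤ M ∧
      ∀ u : ℝ, ‖(Lagrange.basis s v i).eval (u : ℂ)‖ ≤ M * (1 + |u|) ^ L :=
    fun i hi => poly_bd _ L (hb i hi)
  choose! M hM0 hM using hb'
  refine ⟨∑ i ∈ s, M i, Finset.sum_nonneg hM0, fun Q R hQ hR u => ?_⟩
  have hdeg : Q.degree < s.card := by
    rw [hs]
    exact (Polynomial.degree_le_of_natDegree_le hQ).trans_lt (by exact_mod_cast Nat.lt_succ_self L)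
  have e := Lagrange.eq_interpolate hvs hdeg
  have e2 : Q.eval (u : ℂ) = ∑ i ∈ s, Q.eval (v i) * (Lagrange.basis s v i).eval (u : ℂ) := by
    conv_lhs => rw [e]
    rw [Lagrange.interpolate_apply, Polynomial.eval_finsetSum]
    refine Finset.sum_congr rfl fun i _ => ?_
    rw [Polynomial.eval_mul, Polynomial.eval_C]
  rw [e2, Finset.mul_sum, Finset.sum_mul]
  refine (norm_sum_le _ _).trans (Finset.sum_le_sum fun i hi => ?_)
  rw [norm_mul, mul_assoc]
  exact mul_le_mul (hR i hi) (hM i hi u) (norm_nonneg _) ((norm_nonneg _).trans (hR i hi))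

theorem main (h : S_TAY) : S_SEQ := by
  intro g K c C hc hC hg hI hlim hband n A hA hA0
  obtain ⟨q, q', C₁, hT⟩ := h K c hc
  set D : ℝ := C * (1 + 2 ^ K) with hD
  have hD0 : 0 ≤ D := by positivity
  have hdiff : ∀ j, ∫⁻ x : ℝ, ENNReal.ofReal (‖g j x - g (j + 1) x‖ / (1 + |x|) ^ K) ≤
      ENNReal.ofReal (D * 2 ^ (j * K)) := by
    intro j
    calc ∫⁻ x : ℝ, ENNReal.ofReal (‖g j x - g (j + 1) x‖ / (1 + |x|) ^ K)
        ≤ ∫⁻ x : ℝ, (ENNReal.ofReal (‖g j x‖ / (1 + |x|) ^ K) +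
            ENNReal.ofReal (‖g (j + 1) x‖ / (1 + |x|) ^ K)) := by
          refine lintegral_mono fun x => ?_
          rw [← ENNReal.ofReal_add (by positivity) (by positivity), ← add_div]
          exact ENNReal.ofReal_le_ofReal
            (div_le_div_of_nonneg_right (norm_sub_le _ _) (by positivity))
      _ = (∫⁻ x : ℝ, ENNReal.ofReal (‖g j x‖ / (1 + |x|) ^ K)) +
            ∫⁻ x : ℝ, ENNReal.ofReal (‖g (j + 1) x‖ / (1 + |x|) ^ K) := by
          refine lintegral_add_left ?_ _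
          have hj : Measurable (g j) := hg j
          have h2 : Measurable fun x : ℝ => (1 + |x|) ^ K := by fun_prop
          exact (hj.norm.div h2).ennreal_ofReal
      _ ≤ ENNReal.ofReal (C * 2 ^ (j * K)) + ENNReal.ofReal (C * 2 ^ ((j + 1) * K)) :=
          add_le_add (hI j) (hI (j + 1))
      _ = ENNReal.ofReal (D * 2 ^ (j * K)) := by
          rw [← ENNReal.ofReal_add (by positivity) (by positivity)]
          congr 1
          rw [hD, add_mul j 1 K, one_mul, pow_add]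
          ring
  have hTj : ∀ j, ∃ (P : Polynomial ℂ) (e : ℝ → ℂ), P.natDegree ≤ q ∧
      (∀ u, ‖e u‖ ≤ C₁ * D * (1 / 4) ^ j * (1 + |u|) ^ q') ∧
      (fun x => g j x - g (j + 1) x) =ᵐ[volume] fun u => P.eval (u : ℂ) + e u := by
    intro j
    exact hT j (fun x => g j x - g (j + 1) x) D hD0 ((hg j).sub (hg (j + 1))) (hdiff j) (hband j)
  choose P e hP he hPe using hTj
  set B : ℝ → ℝ := fun u => C₁ * D * (1 + |u|) ^ q' with hB
  have hB0 : ∀ u, 0 ≤ B u := by
    intro u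
    have := (norm_nonneg _).trans (he 0 u)
    simpa [hB] using this
  set G : Set ℝ := {u | Tendsto (fun m => g m u) atTop (𝓝 0) ∧
    ∀ j, g j u - g (j + 1) u = (P j).eval (u : ℂ) + e j u} with hG
  have hall : ∀ᵐ u : ℝ, u ∈ G := by
    filter_upwards [hlim, ae_all_iff.2 hPe] with u h1 h2
    exact ⟨h1, h2⟩
  have hgeo : ∀ m, ∑ j ∈ Finset.Ico n m, (1 / 4 : ℝ) ^ j ≤ 2 := by
    intro m
    have h1 : Summable fun j : ℕ => (1 / 4 : ℝ) ^ j :=
      summable_geometric_of_lt_one (by norm_num) (by norm_num)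
    have h2 := h1.sum_le_tsum (Finset.Ico n m) fun _ _ => by positivity
    rw [tsum_geometric_of_lt_one (by norm_num) (by norm_num)] at h2
    refine h2.trans ?_
    norm_num
  have htel : ∀ u ∈ G, ∀ m, n ≤ m →
      ‖g n u - g m u - (∑ j ∈ Finset.Ico n m, P j).eval (u : ℂ)‖ ≤ 2 * B u := by
    intro u hu m hm
    have h1 : g n u - g m u = ∑ j ∈ Finset.Ico n m, (g j u - g (j + 1) u) := by
      induction m, hm using Nat.le_induction with
      | base => simp
      | succ m hm ih => rw [Finset.sum_Ico_succ_top hm, ← ih]; ring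
    rw [h1, Polynomial.eval_finsetSum, ← Finset.sum_sub_distrib]
    have h2 : ∀ j ∈ Finset.Ico n m,
        ‖g j u - g (j + 1) u - (P j).eval (u : ℂ)‖ ≤ B u * (1 / 4) ^ j := by
      intro j _
      rw [hu.2 j, add_sub_cancel_left]
      refine (he j u).trans (le_of_eq ?_)
      rw [hB]; ring
    calc ‖∑ j ∈ Finset.Ico n m, (g j u - g (j + 1) u - (P j).eval (u : ℂ))‖
        ≤ ∑ j ∈ Finset.Ico n m, B u * (1 / 4 : ℝ) ^ j := norm_sum_le_of_le _ h2
      _ = B u * ∑ j ∈ Finset.Ico n m, (1 / 4 : ℝ) ^ j := by rw [Finset.mul_sum]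
      _ ≤ B u * 2 := mul_le_mul_of_nonneg_left (hgeo m) (hB0 u)
      _ = 2 * B u := by ring
  obtain ⟨s, hsG, hscard⟩ : ∃ s : Finset ℝ, (∀ u ∈ s, u ∈ G) ∧ s.card = q + 1 := by
    have hGinf : G.Infinite := by
      intro hfin
      have h1 : volume G = 0 := hfin.measure_zero volume
      have h2 : volume Gᶜ = 0 := hall
      have h3 : volume (univ : Set ℝ) = 0 := by
        rw [← Set.union_compl_self G]
        exact measure_union_null h1 h2
      simp at h3
    obtain ⟨s, hs1, hs2⟩ := hGinf.exists_subset_card_eq (q + 1)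
    exact ⟨s, fun u hu => hs1 hu, hs2⟩
  have hbp : ∀ u ∈ s, ∃ R : ℝ, 0 ≤ R ∧
      ∀ m, n ≤ m → ‖(∑ j ∈ Finset.Ico n m, P j).eval (u : ℂ)‖ ≤ R := by
    intro u hu
    have hu' := hsG u hu
    obtain ⟨R, hR⟩ := (Metric.isBounded_range_of_tendsto _ hu'.1).exists_norm_le
    have hR0 : 0 ≤ R := (norm_nonneg _).trans (hR _ (mem_range_self 0))
    refine ⟨‖g n u‖ + R + 2 * B u,
      add_nonneg (add_nonneg (norm_nonneg _) hR0) (mul_nonneg zero_le_two (hB0 u)), fun m hm => ?_⟩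
    have h1 := htel u hu' m hm
    have h2 : ‖g m u‖ ≤ R := hR _ (mem_range_self m)
    have h3 : (∑ j ∈ Finset.Ico n m, P j).eval (u : ℂ) =
        (g n u - g m u) - (g n u - g m u - (∑ j ∈ Finset.Ico n m, P j).eval (u : ℂ)) := by ring
    rw [h3]
    have h4 := norm_sub_le (g n u - g m u)
      (g n u - g m u - (∑ j ∈ Finset.Ico n m, P j).eval (u : ℂ))
    have h5 := norm_sub_le (g n u) (g m u)
    linarith
  choose! R hR0 hR using hbp
  set R₀ := ∑ u ∈ s, R u with hR₀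
  have hQ : ∀ m, n ≤ m → ∀ u ∈ s, ‖(∑ j ∈ Finset.Ico n m, P j).eval (u : ℂ)‖ ≤ R₀ :=
    fun m hm u hu => (hR u hu m hm).trans (Finset.single_le_sum (fun i hi => hR0 i hi) hu)
  obtain ⟨M, hM0, hM⟩ := lag s q hscard
  have hdeg : ∀ m, (∑ j ∈ Finset.Ico n m, P j).natDegree ≤ q := fun m =>
    Polynomial.natDegree_sum_le_of_forall_le _ _ fun j _ => hP j
  have hQb : ∀ m, n ≤ m → ∀ u : ℝ,
      ‖(∑ j ∈ Finset.Ico n m, P j).eval (u : ℂ)‖ ≤ R₀ * M * (1 + |u|) ^ q :=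
    fun m hm u => hM _ _ (hdeg m) (hQ m hm) u
  have hdom : ∀ u ∈ G, ∀ m, n ≤ m →
      ‖g m u‖ ≤ ‖g n u‖ + R₀ * M * (1 + |u|) ^ q + 2 * B u := by
    intro u hu m hm
    have h1 := htel u hu m hm
    have h2 := hQb m hm u
    have h3 : g m u = (g n u - (∑ j ∈ Finset.Ico n m, P j).eval (u : ℂ)) -
        (g n u - g m u - (∑ j ∈ Finset.Ico n m, P j).eval (u : ℂ)) := by ring
    have h4 := norm_sub_le (g n u - (∑ j ∈ Finset.Ico n m, P j).eval (u : ℂ))
      (g n u - g m u - (∑ j ∈ Finset.Ico n m, P j).eval (u : ℂ))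
    have h5 := norm_sub_le (g n u) ((∑ j ∈ Finset.Ico n m, P j).eval (u : ℂ))
    rw [← h3] at h4
    linarith
  obtain ⟨S, hS⟩ := four_sch hA.1 hA.2
  have hFA : 𝓕 A = S := funext hS
  obtain ⟨CA, hCA0, hCA⟩ := sch_bd S K
  have hgi : ∀ m, Integrable fun x => g m x * 𝓕 A x := by
    intro m
    rw [hFA]
    exact int1 (g m) K (hg m) ((hI m).trans_lt ENNReal.ofReal_lt_top) S S.continuous.measurable
      CA hCA0 hCA
  have hconst : ∀ k, ∫ x : ℝ, g (n + k) x * 𝓕 A x = ∫ x : ℝ, g n x * 𝓕 A x := by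
    intro k
    induction k with
    | zero => rfl
    | succ k ih =>
      rw [← ih]
      have h1 := hband (n + k) A hA (fun ξ hξ => le_trans (mul_le_mul_of_nonneg_left
        (pow_le_pow_of_le_one (by norm_num) (by norm_num) (Nat.le_add_right n k)) hc.le) (hA0 ξ hξ))
      have h2 : ∫ x : ℝ, (g (n + k) x - g (n + k + 1) x) * 𝓕 A x =
          (∫ x : ℝ, g (n + k) x * 𝓕 A x) - ∫ x : ℝ, g (n + k + 1) x * 𝓕 A x := by
        rw [← integral_sub (hgi _) (hgi _)]
        congr 1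
        ext x
        ring
      rw [h2] at h1
      exact (sub_eq_zero.1 h1).symm
  have hFint : Integrable fun u : ℝ =>
      (‖g n u‖ + R₀ * M * (1 + |u|) ^ q + 2 * B u) * ‖𝓕 A u‖ := by
    have i1 := (hgi n).norm
    have i2 := (sch_int S q).const_mul (R₀ * M)
    have i3 := (sch_int S q').const_mul (2 * (C₁ * D))
    refine ((i1.add i2).add i3).congr (Eventually.of_forall fun u => ?_)
    simp only [Pi.add_apply, norm_mul, hS u, hB]
    ring
  have hlim2 : Tendsto (fun k => ∫ x : ℝ, g (n + k) x * 𝓕 A x) atTop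
      (𝓝 (∫ _x : ℝ, (0 : ℂ))) := by
    refine tendsto_integral_of_dominated_convergence _
      (fun k => (hgi (n + k)).aestronglyMeasurable) hFint (fun k => ?_) ?_
    · filter_upwards [hall] with u hu
      rw [norm_mul]
      exact mul_le_mul_of_nonneg_right (hdom u hu (n + k) (Nat.le_add_right n k)) (norm_nonneg _)
    · filter_upwards [hall] with u hu
      have h1 : Tendsto (fun k => g (n + k) u) atTop (𝓝 0) := by
        have h2 := hu.1.comp (tendsto_add_atTop_nat n)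
        refine h2.congr fun k => ?_
        simp only [Function.comp_apply, add_comm]
      have h2 := h1.mul_const (𝓕 A u)
      rwa [zero_mul] at h2
  simp only [hconst, integral_zero] at hlim2
  exact tendsto_nhds_unique tendsto_const_nhds hlim2

end Pool.Agent.H77.RT.T.SEQ
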