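import Pool.Agent.H77.RT.Stm2

/-! SHR: shears. -/

set_option autoImplicit false

namespace Pool.Agent.H77.RT.T.SHR

open MeasureTheory Filter Topology Set
open scoped ENNReal ContDiff FourierTransform

/-- the shear `(x, y) ↦ (x + z (y + t), y)` -/
def Se (z t : ℝ) : (ℝ × ℝ) ≃ᵐ (ℝ × ℝ) where
  toFun := fun q => (q.1 + z * (q.2 + t), q.2)
  invFun := fun q => (q.1 - z * (q.2 + t), q.2)
  left_inv := by
    intro q
    ext <;> simp
  right_inv := by
    intro q
    ext <;> simp
  measurable_toFun := by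
    show Measurable fun q : ℝ × ℝ => (q.1 + z * (q.2 + t), q.2)
    fun_prop
  measurable_invFun := by
    show Measurable fun q : ℝ × ℝ => (q.1 - z * (q.2 + t), q.2)
    fun_prop

lemma Se_apply (z t : ℝ) (q : ℝ × ℝ) : Se z t q = (q.1 + z * (q.2 + t), q.2) := rfl

lemma Se_mp (z t : ℝ) : MeasurePreserving (Se z t) volume volume := by
  have h := (MeasurePreserving.id (volume : Measure ℝ)).skew_product
    (g := fun (a : ℝ) (b : ℝ) => b + z * (a + t)) (μc := (volume : Measure ℝ))
    (μd := (volume : Measure ℝ)) (by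
      show Measurable fun q : ℝ × ℝ => q.2 + z * (q.1 + t)
      fun_prop) (Eventually.of_forall fun a => by
      have := measurePreserving_add_right (volume : Measure ℝ) (z * (a + t))
      exact this.map_eq)
  have h1 : MeasurePreserving (Prod.swap : ℝ × ℝ → ℝ × ℝ) (volume.prod volume)
    (volume.prod volume) := Measure.measurePreserving_swap
  exact (h1.comp h).comp h1

lemma kern_shift (a : ℝ → ℂ) (Θ : ℝ → ℝ) (z t x y : ℝ) :
    kern (fun x => a (x - z * t)) (fun k => Θ (k - z)) (x + z * (y + t)) y = kern a Θ x y := by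
  unfold kern
  have h := integral_sub_right_eq_self (μ := (volume : Measure ℝ))
    (fun k : ℝ => (Θ k : ℂ) * a (x - k * y)) z
  rw [← h]
  congr 1
  funext k
  congr 2
  ring

lemma part1 (f : ℝ × ℝ → ℂ) (z t : ℝ) (a : ℝ → ℂ) (Θ : ℝ → ℝ) :
    T (tr (shf f z) t) a Θ = T (tr f t) (fun x => a (x - z * t)) (fun k => Θ (k - z)) := by
  unfold T
  have h := (Se_mp z t).integral_comp' (fun q : ℝ × ℝ => tr f t q *
    kern (fun x => a (x - z * t)) (fun k => Θ (k - z)) q.1 q.2)
  rw [← h]
  congr 1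
  funext q
  rw [Se_apply]
  rw [kern_shift]
  rfl

lemma part2 (f : ℝ × ℝ → ℂ) (z : ℝ) (N : ℕ) (hf : Measurable f) (hT : Tem f N) :
    Tem (shf f z) N := by
  unfold Tem at hT ⊢
  have h1 : Integrable (fun q : ℝ × ℝ => ‖f (q.1 + z * q.2, q.2)‖ /
      (1 + |q.1 + z * q.2| + |q.2|) ^ N) := by
    have h := ((Se_mp z 0).integrable_comp_emb (Se z 0).measurableEmbedding).2 hT
    refine h.congr (Eventually.of_forall fun q => ?_)
    show ‖f (q.1 + z * (q.2 + 0), q.2)‖ / (1 + |q.1 + z * (q.2 + 0)| + |q.2|) ^ N = _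
    rw [add_zero]
  refine (h1.const_mul ((1 + |z|) ^ N)).mono' ?_ ?_
  · apply Measurable.aestronglyMeasurable
    apply Measurable.div
    · apply Measurable.norm
      exact hf.comp (by fun_prop)
    · fun_prop
  · refine Eventually.of_forall fun q => ?_
    show ‖‖f (q.1 + z * q.2, q.2)‖ / (1 + |q.1| + |q.2|) ^ N‖ ≤ _
    have h0 : 0 < 1 + |q.1| + |q.2| := by positivity
    have h2 : 0 < 1 + |q.1 + z * q.2| + |q.2| := by positivity
    rw [Real.norm_of_nonneg (by positivity), ← mul_div_assoc, div_le_div_iff₀ (by positivity)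
      (by positivity)]
    have h3 : (1 + |q.1 + z * q.2| + |q.2|) ^ N ≤ (1 + |z|) ^ N * (1 + |q.1| + |q.2|) ^ N := by
      rw [← mul_pow]
      apply pow_le_pow_left₀ h2.le
      have h4 : |q.1 + z * q.2| ≤ |q.1| + |z| * |q.2| := by
        rw [← abs_mul]
        exact abs_add_le _ _
      nlinarith [abs_nonneg z, abs_nonneg q.1, abs_nonneg q.2,
        mul_nonneg (abs_nonneg z) (abs_nonneg q.1), mul_nonneg (abs_nonneg z) (abs_nonneg q.2)]
    calc ‖f (q.1 + z * q.2, q.2)‖ * (1 + |q.1 + z * q.2| + |q.2|) ^ N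
        ≤ ‖f (q.1 + z * q.2, q.2)‖ * ((1 + |z|) ^ N * (1 + |q.1| + |q.2|) ^ N) :=
          mul_le_mul_of_nonneg_left h3 (norm_nonneg _)
      _ = _ := by ring

lemma part3 (a : ℝ → ℂ) (s : ℝ) (ha : Band a) : Band fun x => a (x - s) := by
  obtain ⟨A, hA, h0, rfl⟩ := ha
  set e : ℝ → ℂ := fun ξ => Complex.exp (((2 * Real.pi * (ξ * s) : ℝ) : ℂ) * Complex.I) with he
  have hes : ContDiff ℝ ∞ e := by
    rw [he]
    apply ContDiff.cexp
    apply ContDiff.mul _ contDiff_const
    exact Complex.ofRealCLM.contDiff.comp (contDiff_const.mul (contDiff_id.mul contDiff_const))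
  have hsup : Function.support (fun ξ => e ξ * A ξ) ⊆ Function.support A := by
    intro ξ hξ hA0
    apply hξ
    show e ξ * A ξ = 0
    rw [hA0, mul_zero]
  have hts : tsupport (fun ξ => e ξ * A ξ) ⊆ tsupport A := closure_mono hsup
  refine ⟨fun ξ => e ξ * A ξ, ⟨hes.mul hA.1, ?_⟩, fun h => h0 (hts h), ?_⟩
  · exact HasCompactSupport.of_support_subset_isCompact hA.2
      (hsup.trans (subset_tsupport A))
  · funext x
    rw [Real.fourier_real_eq_integral_exp_smul, Real.fourier_real_eq_integral_exp_smul]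
    congr 1
    funext v
    rw [he]
    simp only [smul_eq_mul]
    rw [← mul_assoc, ← Complex.exp_add]
    congr 2
    push_cast
    ring

theorem main : S_SHR := by
  refine ⟨fun f z t a Θ _ => part1 f z t a Θ, fun f z N hf hT => part2 f z N hf hT,
    fun a s ha => part3 a s ha, fun f z h => h⟩

end Pool.Agent.H77.RT.T.SHR
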