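import Pool.Agent.H77.RT.Stm2

/-!
# SL2: from directions to slopes, with exceptional directions
-/

set_option autoImplicit false

namespace Pool.Agent.H77.RT.T.SL2

open MeasureTheory Filter Topology Set
open scoped ENNReal ContDiff FourierTransform

theorem main (h : S_ALS) : S_SL2 := by
  intro f Z hf hZ hyp
  refine ⟨(fun z : ℝ × ℝ => -z.2 / z.1) '' Z, hZ.image _, fun k => ?_⟩
  have hne : ((1 : ℝ), -k) ≠ 0 := by
    intro h0
    have := congrArg Prod.fst h0
    simp at this
  rcases hyp (1, -k) hne with h1 | ⟨⟨z, hz, hz0, hpar⟩, hex⟩
  · exact Or.inl (h f k hf h1)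
  · right
    simp only [one_mul] at hpar
    have hz1 : z.1 ≠ 0 := by
      intro h0
      apply hz0
      rw [h0, mul_zero] at hpar
      exact Prod.ext h0 hpar
    refine ⟨⟨z, hz, ?_⟩, ?_⟩
    · simp only
      rw [hpar]
      field_simp
    · filter_upwards [hex] with p hp
      have h2 := hp.comp_add_right (p * k / (1 + k ^ 2))
      refine h2.congr (Filter.Eventually.of_forall fun y => ?_)
      simp only
      have hk : (1 : ℝ) + k ^ 2 ≠ 0 := by positivity
      congr 1
      ext
      · simp only
        field_simp
        ring
      · simp only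
        field_simp
        ring

end Pool.Agent.H77.RT.T.SL2
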