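import Pool.Agent.H77.RT.Stm2

/-!
# RT-TAY (helper1)
-/

set_option autoImplicit false

namespace Pool.Agent.H77.RT.T.TAY

open MeasureTheory Filter Topology Set
open scoped ENNReal ContDiff FourierTransform SchwartzMap

/-- Taylor formula -/
theorem taylor (G : ℕ → ℝ → ℂ) (hG : ∀ j s, HasDerivAt (G j) (G (j + 1) s) s) (a : ℝ) :
    ∀ (Q : ℕ) (i : ℕ) (C : ℝ) (t : ℝ), (∀ s, |s - a| ≤ |t| → ‖G (i + Q) s‖ ≤ C) →
      ‖G i (a + t) - ∑ j ∈ Finset.range Q, G (i + j) a * ((t : ℂ) ^ j / (j.factorial : ℂ))‖ ≤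
        C * |t| ^ Q := by
  intro Q
  induction Q with
  | zero =>
    intro i C t h
    simp only [Finset.range_zero, Finset.sum_empty, sub_zero, pow_zero, mul_one]
    exact h (a + t) (by rw [add_sub_cancel_left])
  | succ Q ih =>
    intro i C t h
    have hC : 0 ≤ C := (norm_nonneg _).trans (h a (by simp))
    set F : ℝ → ℂ := fun s => G i (a + s) -
      ∑ j ∈ Finset.range (Q + 1), G (i + j) a * ((s : ℂ) ^ j / (j.factorial : ℂ)) with hF
    have hderiv : ∀ s, HasDerivAt F (G (i + 1) (a + s) -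
        ∑ j ∈ Finset.range Q, G (i + 1 + j) a * ((s : ℂ) ^ j / (j.factorial : ℂ))) s := by
      intro s
      have h1 : HasDerivAt (fun s => G i (a + s)) (G (i + 1) (a + s)) s :=
        (hG i (a + s)).comp_const_add a s
      have h2 : HasDerivAt (fun s : ℝ => ∑ j ∈ Finset.range (Q + 1),
          G (i + j) a * ((s : ℂ) ^ j / (j.factorial : ℂ)))
          (∑ j ∈ Finset.range Q, G (i + 1 + j) a * ((s : ℂ) ^ j / (j.factorial : ℂ))) s := by
        have h3 : ∀ j, HasDerivAt (fun s : ℝ => G (i + j) a * ((s : ℂ) ^ j / (j.factorial : ℂ)))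
            (G (i + j) a * ((j : ℂ) * (s : ℂ) ^ (j - 1) / (j.factorial : ℂ))) s := by
          intro j
          have h4 : HasDerivAt (fun s : ℝ => (s : ℂ)) 1 s := Complex.ofRealCLM.hasDerivAt
          have h5 := (h4.fun_pow j).div_const (j.factorial : ℂ)
          rw [mul_one] at h5
          exact h5.const_mul (G (i + j) a)
        have h6 := HasDerivAt.fun_sum (u := Finset.range (Q + 1)) (fun j _ => h3 j)
        have h7 : ∑ j ∈ Finset.range (Q + 1),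
            (G (i + j) a * ((j : ℂ) * (s : ℂ) ^ (j - 1) / (j.factorial : ℂ))) =
            ∑ j ∈ Finset.range Q, G (i + 1 + j) a * ((s : ℂ) ^ j / (j.factorial : ℂ)) := by
          rw [Finset.sum_range_succ']
          simp only [Nat.cast_zero, zero_mul, zero_div, mul_zero, add_zero]
          refine Finset.sum_congr rfl fun j _ => ?_
          rw [Nat.factorial_succ, show i + (j + 1) = i + 1 + j by ring, Nat.add_sub_cancel]
          have h8 : ((j + 1 : ℕ) : ℂ) ≠ 0 := by exact_mod_cast Nat.succ_ne_zero j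
          have h9 : (j.factorial : ℂ) ≠ 0 := by exact_mod_cast j.factorial_ne_zero
          rw [Nat.cast_mul]
          field_simp
        rw [h7] at h6
        exact h6
      exact h1.sub h2
    have h0 : F 0 = 0 := by
      rw [hF]
      simp only [Finset.sum_range_succ', add_zero, Complex.ofReal_zero]
      simp
    have hb : ∀ s ∈ Metric.closedBall (0 : ℝ) |t|, ‖G (i + 1) (a + s) -
        ∑ j ∈ Finset.range Q, G (i + 1 + j) a * ((s : ℂ) ^ j / (j.factorial : ℂ))‖ ≤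
          C * |t| ^ Q := by
      intro s hs
      have hs' : |s| ≤ |t| := by simpa using hs
      refine (ih (i + 1) C s (fun r hr => ?_)).trans ?_
      · have := h r (hr.trans hs')
        rwa [show i + (Q + 1) = i + 1 + Q by ring] at this
      · exact mul_le_mul_of_nonneg_left (pow_le_pow_left₀ (abs_nonneg _) hs' _) hC
    have h10 := (convex_closedBall (0 : ℝ) |t|).norm_image_sub_le_of_norm_hasDerivWithin_le
      (fun s _ => (hderiv s).hasDerivWithinAt) hb (x := 0) (y := t) (by simp) (by simp)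
    rw [h0, sub_zero, sub_zero] at h10
    calc ‖F t‖ ≤ C * |t| ^ Q * ‖t‖ := h10
      _ = C * |t| ^ (Q + 1) := by rw [Real.norm_eq_abs]; ring

theorem sw_bound (φ : 𝓢(ℝ, ℂ)) (K : ℕ) : ∃ C : ℝ, 0 ≤ C ∧ ∀ x, ‖φ x‖ ≤ C / (1 + |x|) ^ K := by
  refine ⟨2 ^ K * ((Finset.Iic (K, 0)).sup (fun m => SchwartzMap.seminorm ℝ m.1 m.2)) φ,
    mul_nonneg (by positivity) (apply_nonneg _ _), fun x => ?_⟩
  have h := SchwartzMap.one_add_le_sup_seminorm_apply (𝕜 := ℝ) (m := (K, 0)) (k := K) (n := 0)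
    le_rfl le_rfl φ x
  rw [norm_iteratedFDeriv_zero, Real.norm_eq_abs] at h
  rw [le_div_iff₀ (by positivity), mul_comm]
  exact h

/-- derivatives -/
noncomputable def Gs (Z : 𝓢(ℝ, ℂ)) : ℕ → 𝓢(ℝ, ℂ)
  | 0 => Z
  | j + 1 => SchwartzMap.derivCLM ℝ ℂ (Gs Z j)

theorem Gs_deriv (Z : 𝓢(ℝ, ℂ)) (j : ℕ) (s : ℝ) : HasDerivAt (Gs Z j) (Gs Z (j + 1) s) s :=
  (Gs Z j).hasDerivAt s

theorem key_ineq {ε x u s : ℝ} (h0 : 0 < ε) (h1 : ε ≤ 1) (h : |s - ε * x| ≤ ε * |u|) (K : ℕ)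
    {C : ℝ} (hC : 0 ≤ C) :
    C / (1 + |s|) ^ K ≤ C * ((1 + |u|) ^ K / ε ^ K) / (1 + |x|) ^ K := by
  have h2 : ε * (1 + |x|) ≤ (1 + |s|) * (1 + |u|) := by
    have h3 : ε * |x| ≤ |s| + ε * |u| := by
      have h4 : ε * |x| = |ε * x| := by rw [abs_mul, abs_of_pos h0]
      rw [h4]
      have h5 : |ε * x| ≤ |s| + |s - ε * x| := by
        have := abs_sub_abs_le_abs_sub (ε * x) s
        rw [abs_sub_comm] at this
        linarith
      linarith
    have h6 : ε * |u| ≤ |u| := by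
      have := abs_nonneg u
      nlinarith
    have h7 := mul_nonneg (abs_nonneg s) (abs_nonneg u)
    nlinarith
  have h8 : (ε * (1 + |x|)) ^ K ≤ ((1 + |s|) * (1 + |u|)) ^ K :=
    pow_le_pow_left₀ (by positivity) h2 K
  rw [mul_pow, mul_pow] at h8
  have h9 : 0 < (1 + |s|) ^ K := by positivity
  have h10 : 0 < (1 + |x|) ^ K := by positivity
  have h11 : 0 < ε ^ K := by positivity
  rw [← mul_div_assoc, div_div, div_le_div_iff₀ h9 (by positivity)]
  calc C * (ε ^ K * (1 + |x|) ^ K) ≤ C * ((1 + |s|) ^ K * (1 + |u|) ^ K) :=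
        mul_le_mul_of_nonneg_left h8 hC
    _ = C * (1 + |u|) ^ K * (1 + |s|) ^ K := by ring

theorem int_w {h : ℝ → ℂ} (hm : Measurable h) {K : ℕ}
    (hw : Integrable fun x : ℝ => ‖h x‖ / (1 + |x|) ^ K) {ψ : ℝ → ℂ} (hψ : Continuous ψ) {C : ℝ}
    (hC : ∀ x, ‖ψ x‖ ≤ C / (1 + |x|) ^ K) :
    Integrable (fun x => h x * ψ x) ∧
      ‖∫ x, h x * ψ x‖ ≤ C * ∫ x : ℝ, ‖h x‖ / (1 + |x|) ^ K := by
  have hb : ∀ x, ‖h x * ψ x‖ ≤ C * (‖h x‖ / (1 + |x|) ^ K) := by
    intro x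
    rw [norm_mul]
    calc ‖h x‖ * ‖ψ x‖ ≤ ‖h x‖ * (C / (1 + |x|) ^ K) :=
          mul_le_mul_of_nonneg_left (hC x) (norm_nonneg _)
      _ = C * (‖h x‖ / (1 + |x|) ^ K) := by ring
  constructor
  · exact (hw.const_mul C).mono' ((hm.aestronglyMeasurable).mul hψ.aestronglyMeasurable)
      (Eventually.of_forall hb)
  · rw [← integral_const_mul]
    exact norm_integral_le_of_norm_le (hw.const_mul C) (Eventually.of_forall hb)

/-- a smooth cut-off -/
theorem cutoff (c : ℝ) (hc : 0 < c) : ∃ Y : ℝ → ℂ, Sm Y ∧ ∀ ξ, |ξ| ≤ 2 * c → Y ξ = 1 := by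
  let φ : ContDiffBump (0 : ℝ) := ⟨2 * c, 2 * c + 1, by positivity, by linarith⟩
  refine ⟨fun ξ => ((φ ξ : ℝ) : ℂ), ⟨?_, ?_⟩, ?_⟩
  · exact Complex.ofRealCLM.contDiff.comp φ.contDiff
  · exact φ.hasCompactSupport.comp_left Complex.ofReal_zero
  · intro ξ hξ
    have h1 : φ ξ = 1 := φ.one_of_mem_closedBall (by simpa using hξ)
    simp only
    rw [h1, Complex.ofReal_one]

theorem sm_scale {Y : ℝ → ℂ} (hY : Sm Y) {r : ℝ} (hr : r ≠ 0) : Sm fun ξ => Y (r * ξ) := by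
  refine ⟨hY.1.comp (contDiff_const.mul contDiff_id), ?_⟩
  exact hY.2.comp_homeomorph (Homeomorph.mulLeft₀ r hr)

theorem fourier_scale (Y : ℝ → ℂ) {r : ℝ} (hr : 0 < r) (x : ℝ) :
    𝓕 (fun ξ => Y (r * ξ)) x = (r⁻¹ : ℂ) * 𝓕 Y (r⁻¹ * x) := by
  rw [Real.fourier_real_eq, Real.fourier_real_eq]
  have h := Measure.integral_comp_mul_left
    (fun v : ℝ => Real.fourierChar (-(v * (r⁻¹ * x))) • Y v) r
  have h1 : (fun v : ℝ => Real.fourierChar (-(v * x)) • Y (r * v)) =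
      fun v : ℝ => (fun v : ℝ => Real.fourierChar (-(v * (r⁻¹ * x))) • Y v) (r * v) := by
    funext v
    simp only
    congr 3
    field_simp
  rw [h1, h, abs_of_pos (inv_pos.2 hr)]
  rw [Complex.real_smul, Complex.ofReal_inv]

theorem main (hban : S_BAN) : S_TAY := by
  intro K c hc
  obtain ⟨Y₀, hY₀, hY₀1⟩ := cutoff c hc
  set Z : 𝓢(ℝ, ℂ) := 𝓕 (hY₀.2.toSchwartzMap hY₀.1) with hZ
  have hZ' : ∀ x, Z x = 𝓕 Y₀ x := fun x => rfl
  obtain ⟨Q, hQ⟩ : ∃ Q, Q = 2 * K + 1 := ⟨_, rfl⟩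
  have hCj : ∀ j, ∃ C : ℝ, 0 ≤ C ∧ ∀ x, ‖Gs Z j x‖ ≤ C / (1 + |x|) ^ K := fun j =>
    sw_bound _ K
  choose Cj hCj0 hCj using hCj
  refine ⟨Q, K + Q, Cj Q, ?_⟩
  intro n h D hD hm hint htest
  obtain ⟨ε, hε⟩ : ∃ ε : ℝ, ε = (1 / 2) ^ n := ⟨_, rfl⟩
  have hε0 : 0 < ε := by rw [hε]; positivity
  have hε1 : ε ≤ 1 := by rw [hε]; exact pow_le_one₀ (by norm_num) (by norm_num)
  have hεinv : ((2 : ℝ) ^ n)⁻¹ = ε := by rw [hε, one_div, inv_pow]
  have h2n : (0 : ℝ) < 2 ^ n := by positivity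
  -- the weight
  have hmw : Measurable fun x : ℝ => ‖h x‖ / (1 + |x|) ^ K := by
    refine hm.norm.div ?_
    fun_prop
  have hw0 : ∀ x : ℝ, 0 ≤ ‖h x‖ / (1 + |x|) ^ K := fun x => by positivity
  have hw : Integrable fun x : ℝ => ‖h x‖ / (1 + |x|) ^ K := by
    refine ⟨hmw.aestronglyMeasurable, ?_⟩
    rw [hasFiniteIntegral_iff_ofReal (Eventually.of_forall hw0)]
    exact lt_of_le_of_lt hint ENNReal.ofReal_lt_top
  have hwI : ∫ x : ℝ, ‖h x‖ / (1 + |x|) ^ K ≤ D * 2 ^ (n * K) := by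
    rw [integral_eq_lintegral_of_nonneg_ae (Eventually.of_forall hw0) hmw.aestronglyMeasurable]
    exact ENNReal.toReal_le_of_le_ofReal (by positivity) hint
  -- the kernel
  have hfin : ∫⁻ x : ℝ, ENNReal.ofReal (‖h x‖ / (1 + |x|) ^ K) < ⊤ :=
    lt_of_le_of_lt hint ENNReal.ofReal_lt_top
  have hB := hban h K (c * (1 / 2) ^ n) (fun ξ => Y₀ (2 ^ n * ξ)) (by positivity) hm hfin htest
    (sm_scale hY₀ h2n.ne') (fun ξ hξ => by
      apply hY₀1
      rw [abs_mul, abs_of_pos h2n]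
      have h3 : (2 : ℝ) ^ n * (1 / 2) ^ n = 1 := by rw [← mul_pow]; norm_num
      calc (2 : ℝ) ^ n * |ξ| ≤ 2 ^ n * (2 * (c * (1 / 2) ^ n)) :=
            mul_le_mul_of_nonneg_left hξ h2n.le
        _ = 2 * c * (2 ^ n * (1 / 2) ^ n) := by ring
        _ = 2 * c := by rw [h3, mul_one])
  have hker : ∀ x : ℝ, 𝓕 (fun ξ => Y₀ (2 ^ n * ξ)) x = (ε : ℂ) * Z (ε * x) := by
    intro x
    rw [fourier_scale Y₀ h2n x, hεinv, hZ']
    congr 1
    rw [← hεinv]
    push_cast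
    rfl
  -- the coefficients
  set α : ℕ → ℂ := fun j => ∫ x : ℝ, h x * ((ε : ℂ) * Gs Z j (ε * x)) with hα
  set P : Polynomial ℂ := ∑ j ∈ Finset.range Q,
    Polynomial.C (α j * ((-ε : ℂ) ^ j / (j.factorial : ℂ))) * Polynomial.X ^ j with hP
  have hPdeg : P.natDegree ≤ Q := by
    refine Polynomial.natDegree_sum_le_of_forall_le _ _ ?_
    intro j hj
    exact (Polynomial.natDegree_C_mul_X_pow_le _ _).trans (Finset.mem_range.1 hj).le
  have hcont : ∀ (j : ℕ) (u : ℝ), Continuous fun x : ℝ => (ε : ℂ) * Gs Z j (ε * x - ε * u) := by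
    intro j u
    exact continuous_const.mul ((Gs Z j).continuous.comp (by fun_prop))
  have hbd : ∀ (j : ℕ) (u : ℝ) (x : ℝ), ‖(ε : ℂ) * Gs Z j (ε * x - ε * u)‖ ≤
      (ε * (Cj j * ((1 + |u|) ^ K / ε ^ K))) / (1 + |x|) ^ K := by
    intro j u x
    rw [norm_mul, Complex.norm_real, Real.norm_eq_abs, abs_of_pos hε0, mul_div_assoc]
    refine mul_le_mul_of_nonneg_left ?_ hε0.le
    refine (hCj j _).trans (key_ineq hε0 hε1 ?_ K (hCj0 j))
    rw [show ε * x - ε * u - ε * x = -(ε * u) by ring, abs_neg, abs_mul, abs_of_pos hε0]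
  have hI := fun (j : ℕ) (u : ℝ) => (int_w hm hw (hcont j u) (hbd j u)).1
  have hI0 : ∀ j, Integrable fun x : ℝ => h x * ((ε : ℂ) * Gs Z j (ε * x)) := by
    intro j
    have := hI j 0
    simpa using this
  -- the remainder
  have hrem : ∀ u : ℝ, (∫ x : ℝ, h x * 𝓕 (fun ξ => Y₀ (2 ^ n * ξ)) (x - u)) - P.eval (u : ℂ) =
      ∫ x : ℝ, h x * ((ε : ℂ) * (Gs Z 0 (ε * x + -(ε * u)) - ∑ j ∈ Finset.range Q,
        Gs Z (0 + j) (ε * x) * (((-(ε * u) : ℝ) : ℂ) ^ j / (j.factorial : ℂ)))) := by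
    intro u
    have e1 : (fun x : ℝ => h x * ((ε : ℂ) * (Gs Z 0 (ε * x + -(ε * u)) -
        ∑ j ∈ Finset.range Q, Gs Z (0 + j) (ε * x) *
          (((-(ε * u) : ℝ) : ℂ) ^ j / (j.factorial : ℂ))))) =
        fun x : ℝ => h x * ((ε : ℂ) * Gs Z 0 (ε * x - ε * u)) -
          ∑ j ∈ Finset.range Q, (h x * ((ε : ℂ) * Gs Z j (ε * x))) *
            (((-(ε * u) : ℝ) : ℂ) ^ j / (j.factorial : ℂ)) := by
      funext x
      rw [mul_sub, mul_sub, Finset.mul_sum, Finset.mul_sum, ← sub_eq_add_neg]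
      congr 1
      refine Finset.sum_congr rfl fun j _ => ?_
      rw [zero_add]
      ring
    rw [e1, integral_sub (hI 0 u) (integrable_finsetSum _ fun j _ => (hI0 j).mul_const _),
      integral_finsetSum _ fun j _ => (hI0 j).mul_const _]
    congr 1
    · refine integral_congr_ae (Eventually.of_forall fun x => ?_)
      simp only
      rw [hker, show ε * (x - u) = ε * x - ε * u by ring]
      rfl
    · rw [hP, Polynomial.eval_finsetSum]
      refine Finset.sum_congr rfl fun j _ => ?_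
      rw [Polynomial.eval_mul, Polynomial.eval_C, Polynomial.eval_pow, Polynomial.eval_X,
        integral_mul_const]
      rw [hα]
      simp only
      push_cast
      rw [show (-((ε : ℂ) * (u : ℂ))) = (-(ε : ℂ)) * (u : ℂ) by ring, mul_pow]
      ring
  refine ⟨P, fun u => (∫ x : ℝ, h x * 𝓕 (fun ξ => Y₀ (2 ^ n * ξ)) (x - u)) - P.eval (u : ℂ),
    hPdeg, ?_, ?_⟩
  · intro u
    simp only
    rw [hrem u]
    have hψ : Continuous fun x : ℝ => ((ε : ℂ) * (Gs Z 0 (ε * x + -(ε * u)) -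
        ∑ j ∈ Finset.range Q, Gs Z (0 + j) (ε * x) *
          (((-(ε * u) : ℝ) : ℂ) ^ j / (j.factorial : ℂ)))) := by
      refine continuous_const.mul (Continuous.sub ?_ ?_)
      · exact (Gs Z 0).continuous.comp (by fun_prop)
      · refine continuous_finsetSum _ fun j _ => ?_
        exact ((Gs Z (0 + j)).continuous.comp (by fun_prop)).mul continuous_const
    have hψb : ∀ x : ℝ, ‖((ε : ℂ) * (Gs Z 0 (ε * x + -(ε * u)) -
        ∑ j ∈ Finset.range Q, Gs Z (0 + j) (ε * x) *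
          (((-(ε * u) : ℝ) : ℂ) ^ j / (j.factorial : ℂ))))‖ ≤
        (ε * (Cj Q * ((1 + |u|) ^ K / ε ^ K) * (ε * |u|) ^ Q)) / (1 + |x|) ^ K := by
      intro x
      have ht := taylor (fun j => Gs Z j) (fun j s => Gs_deriv Z j s) (ε * x) Q 0
        (Cj Q * ((1 + |u|) ^ K / ε ^ K) / (1 + |x|) ^ K) (-(ε * u)) (by
          intro s hs
          rw [abs_neg, abs_mul, abs_of_pos hε0] at hs
          rw [zero_add]
          exact (hCj Q s).trans (key_ineq hε0 hε1 hs K (hCj0 Q)))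
      rw [norm_mul, Complex.norm_real, Real.norm_eq_abs, abs_of_pos hε0, mul_div_assoc]
      refine mul_le_mul_of_nonneg_left (ht.trans (le_of_eq ?_)) hε0.le
      rw [abs_neg, abs_mul, abs_of_pos hε0]
      ring
    refine (int_w hm hw hψ hψb).2.trans ?_
    have hnn : 0 ≤ ε * (Cj Q * ((1 + |u|) ^ K / ε ^ K) * (ε * |u|) ^ Q) := by
      have := hCj0 Q
      positivity
    refine (mul_le_mul_of_nonneg_left hwI hnn).trans ?_
    have h2K : (2 : ℝ) ^ (n * K) = (ε ^ K)⁻¹ := by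
      rw [pow_mul, ← hεinv, inv_pow, inv_inv]
    have h4n : ((1 : ℝ) / 4) ^ n = ε ^ 2 := by
      rw [hε, ← pow_mul, mul_comm n 2, pow_mul]
      norm_num
    rw [h2K, h4n]
    have hεK : ε ^ K ≠ 0 := by positivity
    have e3 : ε * (Cj Q * ((1 + |u|) ^ K / ε ^ K) * (ε * |u|) ^ Q) * (D * (ε ^ K)⁻¹) =
        Cj Q * D * ε ^ 2 * ((1 + |u|) ^ K * |u| ^ Q) := by
      rw [hQ, mul_pow, show ε ^ (2 * K + 1) = ε ^ K * ε ^ K * ε by ring]
      field_simp
    rw [e3, pow_add]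
    have h5 : |u| ^ Q ≤ (1 + |u|) ^ Q :=
      pow_le_pow_left₀ (abs_nonneg u) (by linarith) Q
    have := hCj0 Q
    gcongr
  · filter_upwards [hB] with u hu
    rw [hu]
    ring

end Pool.Agent.H77.RT.T.TAY
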