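import Pool.Agent.H77.RT.Stm2
import Pool.Agent.H77.RT.T.PAI

set_option autoImplicit false

/-! RT-UNI: uniqueness of tempered functions tested with band-limited functions. -/

namespace Pool.Agent.H77.RT.T.UNI

open MeasureTheory Filter Topology Set
open scoped ENNReal ContDiff FourierTransform
open Pool.Agent.H77.RT.T.PAI (four_sch)

theorem flip {f g : ℝ → ℂ} (hf : Integrable f) (hg : Integrable g) :
    ∫ ξ, 𝓕 f ξ * g ξ = ∫ x, f x * 𝓕 g x := by
  have := VectorFourier.integral_fourierIntegral_smul_eq_flip (L := innerₗ ℝ) (μ := (volume : Measure ℝ))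
    (ν := (volume : Measure ℝ)) (f := f) (g := g) Real.continuous_fourierChar continuous_inner hf hg
  rw [flip_innerₗ] at this
  exact this

theorem l1 {g : ℝ → ℂ} (hg : Integrable g) (h : ∀ ξ, 𝓕 g ξ = 0) : g =ᵐ[volume] 0 := by
  refine ae_eq_zero_of_integral_contDiff_smul_eq_zero hg.locallyIntegrable fun φ hφ hφc => ?_
  have h1 : ContDiff ℝ ∞ fun x => (φ x : ℂ) := Complex.ofRealCLM.contDiff.comp hφ
  have h2 : HasCompactSupport fun x => (φ x : ℂ) := hφc.comp_left (g := fun r : ℝ => (r : ℂ)) (by simp)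
  let S : SchwartzMap ℝ ℂ := h2.toSchwartzMap h1
  have e1 : ∀ x, (φ x : ℂ) = 𝓕 (𝓕⁻ S : SchwartzMap ℝ ℂ) x := by
    intro x
    have : (𝓕 (𝓕⁻ S) : SchwartzMap ℝ ℂ) = S := by simp
    rw [this]; rfl
  have e2 : ∀ x, 𝓕 (𝓕⁻ S : SchwartzMap ℝ ℂ) x = 𝓕 ((𝓕⁻ S : SchwartzMap ℝ ℂ) : ℝ → ℂ) x := by
    intro x
    rw [SchwartzMap.fourier_coe]
  calc ∫ x, φ x • g x = ∫ x, 𝓕 ((𝓕⁻ S : SchwartzMap ℝ ℂ) : ℝ → ℂ) x * g x := by
        refine integral_congr_ae (Eventually.of_forall fun x => ?_)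
        show φ x • g x = 𝓕 ((𝓕⁻ S : SchwartzMap ℝ ℂ) : ℝ → ℂ) x * g x
        rw [← e2, ← e1, Complex.real_smul]
    _ = ∫ x, (𝓕⁻ S : SchwartzMap ℝ ℂ) x * 𝓕 g x := flip (𝓕⁻ S : SchwartzMap ℝ ℂ).integrable hg
    _ = 0 := by simp [h]

theorem decay (S : SchwartzMap ℝ ℂ) (N : ℕ) : ∃ C : ℝ, 0 ≤ C ∧ ∀ y, ‖S y‖ ≤ C / (1 + |y|) ^ N := by
  have h3 := fun y => SchwartzMap.one_add_le_sup_seminorm_apply (𝕜 := ℝ) (m := (N, 0)) (k := N) (n := 0)
      le_rfl le_rfl S y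
  have h4 : ∀ y, ‖S y‖ ≤ 2 ^ N * ((Finset.Iic (N, 0)).sup fun m => SchwartzMap.seminorm ℝ m.1 m.2) S / (1 + |y|) ^ N := by
    intro y
    have h5 := h3 y
    rw [norm_iteratedFDeriv_zero, Real.norm_eq_abs] at h5
    rw [le_div_iff₀ (by positivity), mul_comm]
    exact h5
  refine ⟨_, ?_, h4⟩
  have h5 := (norm_nonneg _).trans (h4 0)
  simpa only [abs_zero, add_zero, one_pow, div_one] using h5

/-- `|x - y|` and the weights -/
theorem shift_le (N : ℕ) {F C x y : ℝ} (hC : 0 ≤ C) (hF : F ≤ C / (1 + |x - y|) ^ N) :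
    F ≤ C * (1 + |y|) ^ N / (1 + |x|) ^ N := by
  refine hF.trans ?_
  have h1 : 1 + |x| ≤ (1 + |y|) * (1 + |x - y|) := by
    have h2 : |x| ≤ |x - y| + |y| := by
      have := abs_add_le (x - y) y
      simpa using this
    nlinarith [mul_nonneg (abs_nonneg y) (abs_nonneg (x - y))]
  have h2 : (1 + |x|) ^ N ≤ (1 + |y|) ^ N * (1 + |x - y|) ^ N := by
    rw [← mul_pow]
    exact pow_le_pow_left₀ (by positivity) h1 N
  rw [div_le_div_iff₀ (by positivity) (by positivity), mul_assoc]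
  exact mul_le_mul_of_nonneg_left h2 hC

theorem wint {u : ℝ → ℂ} {K : ℕ} (hu : Measurable u)
    (h : ∫⁻ x : ℝ, ENNReal.ofReal (‖u x‖ / (1 + |x|) ^ K) < ⊤) :
    Integrable fun x : ℝ => ‖u x‖ / (1 + |x|) ^ K := by
  have hm : Measurable fun x : ℝ => ‖u x‖ / (1 + |x|) ^ K := by
    have h1 : Continuous fun x : ℝ => (1 + |x|) ^ K := by fun_prop
    exact hu.norm.div h1.measurable
  refine ⟨hm.aestronglyMeasurable, ?_⟩
  rw [hasFiniteIntegral_iff_ofReal (Eventually.of_forall fun q => by positivity)]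
  exact h

theorem wmul {u : ℝ → ℂ} {K : ℕ} (hu : Measurable u) (h : Integrable fun x : ℝ => ‖u x‖ / (1 + |x|) ^ K)
    {v : ℝ → ℂ} (hv : Measurable v) {C : ℝ} (hb : ∀ x, ‖v x‖ ≤ C / (1 + |x|) ^ K) :
    Integrable fun x => u x * v x := by
  refine (h.const_mul C).mono' (hu.mul hv).aestronglyMeasurable (Eventually.of_forall fun x => ?_)
  rw [norm_mul]
  calc ‖u x‖ * ‖v x‖ ≤ ‖u x‖ * (C / (1 + |x|) ^ K) := mul_le_mul_of_nonneg_left (hb x) (norm_nonneg _)
    _ = C * (‖u x‖ / (1 + |x|) ^ K) := by ring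

/-- modulation and translation -/
noncomputable def md (B : ℝ → ℂ) (x₀ ξ₀ : ℝ) (ξ : ℝ) : ℂ :=
  B (ξ - ξ₀) * Complex.exp (((2 * Real.pi * ξ * x₀ : ℝ) : ℂ) * Complex.I)

theorem md_sm {B : ℝ → ℂ} (hB : Sm B) (x₀ ξ₀ : ℝ) : Sm (md B x₀ ξ₀) := by
  constructor
  · refine (hB.1.comp (contDiff_id.sub contDiff_const)).mul ?_
    refine Complex.contDiff_exp.comp ?_
    refine ContDiff.mul ?_ contDiff_const
    have h1 : ContDiff ℝ ∞ fun ξ : ℝ => 2 * Real.pi * ξ * x₀ :=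
      (contDiff_const.mul contDiff_id).mul contDiff_const
    exact Complex.ofRealCLM.contDiff.comp h1
  · exact (hB.2.comp_homeomorph (Homeomorph.subRight ξ₀)).mul_right

theorem md_four (B : ℝ → ℂ) (x₀ ξ₀ x : ℝ) :
    𝓕 (md B x₀ ξ₀) x = Complex.exp (((-2 * Real.pi * ξ₀ * (x - x₀) : ℝ) : ℂ) * Complex.I) * 𝓕 B (x - x₀) := by
  rw [Real.fourier_real_eq_integral_exp_smul, Real.fourier_real_eq_integral_exp_smul,
    ← integral_add_right_eq_self _ ξ₀, ← integral_const_mul]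
  refine integral_congr_ae (Eventually.of_forall fun ξ => ?_)
  simp only [md, smul_eq_mul, add_sub_cancel_right]
  rw [← mul_assoc, mul_comm _ (B ξ), mul_assoc, ← Complex.exp_add, ← mul_assoc, ← Complex.exp_add,
    mul_comm _ (B ξ)]
  congr 2
  push_cast
  ring

theorem main : S_UNI := by
  intro u K hu hI h
  have hI' := wint hu hI
  let b : ContDiffBump (0 : ℝ) := ⟨1, 2, one_pos, one_lt_two⟩
  let B : ℝ → ℂ := fun x => (b x : ℂ)
  have hB : Sm B := by
    refine ⟨Complex.ofRealCLM.contDiff.comp b.contDiff, ?_⟩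
    exact b.hasCompactSupport.comp_left (g := fun r : ℝ => (r : ℂ)) (by simp)
  obtain ⟨S, hS⟩ := four_sch hB.1 hB.2
  have hSB : 𝓕 B = S := funext hS
  have hS0 : S 0 ≠ 0 := by
    rw [← hS 0, Real.fourier_real_eq_integral_exp_smul]
    have e1 : ∫ v : ℝ, Complex.exp (((-2 * Real.pi * v * 0 : ℝ) : ℂ) * Complex.I) • B v = ((∫ v, b v : ℝ) : ℂ) := by
      rw [← integral_complex_ofReal]
      refine integral_congr_ae (Eventually.of_forall fun v => ?_)
      simp [B]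
    rw [e1]
    have := b.integral_pos (μ := (volume : Measure ℝ))
    exact_mod_cast this.ne'
  obtain ⟨δ, hδ, hδS⟩ : ∃ δ : ℝ, 0 < δ ∧ ∀ s : ℝ, |s| < δ → S s ≠ 0 := by
    have h1 := S.continuous.continuousAt.eventually_ne hS0
    obtain ⟨δ, hδ, h2⟩ := Metric.eventually_nhds_iff.1 h1
    exact ⟨δ, hδ, fun s hs => h2 (by rwa [Real.dist_eq, sub_zero])⟩
  have key : ∀ x₀ : ℝ, ∀ᵐ x : ℝ, u x * S (x - x₀) = 0 := by
    intro x₀
    obtain ⟨C, hC, hCS⟩ := decay S K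
    have hw : Integrable fun x => u x * S (x - x₀) := by
      refine wmul hu hI' (C := C * (1 + |x₀|) ^ K) ?_ fun x => shift_le K hC (hCS _)
      exact (S.continuous.comp (continuous_id.sub continuous_const)).measurable
    refine l1 hw fun ξ => ?_
    have h1 := h (md B x₀ ξ) (md_sm hB x₀ ξ)
    rw [Real.fourier_real_eq_integral_exp_smul]
    have e1 : ∫ v : ℝ, Complex.exp (((-2 * Real.pi * v * ξ : ℝ) : ℂ) * Complex.I) • (u v * S (v - x₀)) =
        Complex.exp (((-2 * Real.pi * x₀ * ξ : ℝ) : ℂ) * Complex.I) * ∫ x : ℝ, u x * 𝓕 (md B x₀ ξ) x := by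
      rw [← integral_const_mul]
      refine integral_congr_ae (Eventually.of_forall fun v => ?_)
      simp only [smul_eq_mul]
      rw [md_four, hSB]
      have e2 : Complex.exp (((-2 * Real.pi * v * ξ : ℝ) : ℂ) * Complex.I) =
          Complex.exp (((-2 * Real.pi * x₀ * ξ : ℝ) : ℂ) * Complex.I) *
            Complex.exp (((-2 * Real.pi * ξ * (v - x₀) : ℝ) : ℂ) * Complex.I) := by
        rw [← Complex.exp_add]
        congr 1
        push_cast
        ring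
      rw [e2]; ring
    rw [e1, h1, mul_zero]
  have hall : ∀ᵐ x : ℝ, ∀ k : ℤ, u x * S (x - k * δ) = 0 := ae_all_iff.2 fun k => key (k * δ)
  filter_upwards [hall] with x hx
  have h1 := hx (round (x / δ))
  have h2 : |x - round (x / δ) * δ| < δ := by
    have h3 := abs_sub_round (x / δ)
    have e : x - round (x / δ) * δ = (x / δ - round (x / δ)) * δ := by field_simp
    rw [e, abs_mul, abs_of_pos hδ]
    nlinarith
  rcases mul_eq_zero.1 h1 with h3 | h3
  · exact h3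
  · exact absurd h3 (hδS _ h2)

end Pool.Agent.H77.RT.T.UNI
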