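import Pool.Agent.H77.RT.Stm2

/-!
# ZE2 (helper62): the pairing vanishes for all test functions, with exceptional directions
-/

set_option autoImplicit false

namespace Pool.Agent.H77.RT.T.ZE2

open MeasureTheory Filter Topology Set
open scoped ENNReal ContDiff FourierTransform

theorem W_anti (f : ℝ × ℝ → ℂ) {N N' : ℕ} (h : N ≤ N') (k : ℝ) : W f N' k ≤ W f N k := by
  unfold W
  refine lintegral_mono fun q => ENNReal.ofReal_le_ofReal ?_
  have h1 : (1 : ℝ) ≤ 1 + |q.1 - k * q.2| := by linarith [abs_nonneg (q.1 - k * q.2)]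
  exact div_le_div_of_nonneg_left (norm_nonneg _) (by positivity) (pow_le_pow_right₀ h1 h)

theorem Tem_mono {f : ℝ × ℝ → ℂ} (hf : Measurable f) {N N' : ℕ} (h : N ≤ N') (ht : Tem f N) : Tem f N' := by
  unfold Tem at *
  refine ht.mono ?_ (Eventually.of_forall fun q => ?_)
  · refine (hf.norm.div ?_).aestronglyMeasurable
    exact ((measurable_const.add measurable_fst.norm).add measurable_snd.norm).pow_const _
  · have h1 : (1 : ℝ) ≤ 1 + |q.1| + |q.2| := by linarith [abs_nonneg q.1, abs_nonneg q.2]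
    rw [Real.norm_of_nonneg (by positivity), Real.norm_of_nonneg (by positivity)]
    exact div_le_div_of_nonneg_left (norm_nonneg _) (by positivity) (pow_le_pow_right₀ h1 h)

theorem abs_le_of_mem {c d k : ℝ} (hc : c < k) (hd : k < d) : |k| ≤ max |c| |d| := by
  rw [abs_le]
  constructor
  · have h1 := neg_abs_le c
    have h2 := le_max_left |c| |d|
    linarith
  · have h1 := le_abs_self d
    have h2 := le_max_right |c| |d|
    linarith

/-- bound of `W` for translates on an interval -/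
theorem W_tr (htw : S_TRW) {f : ℝ × ℝ → ℂ} (hf : Measurable f) (N : ℕ) (t : ℝ) {c d k : ℝ} (hc : c < k)
    (hd : k < d) : W (tr f t) N k ≤ ENNReal.ofReal ((1 + max |c| |d| * |t|) ^ N) * W f N k := by
  refine (htw f N k t hf).trans (mul_le_mul_left ?_ _)
  apply ENNReal.ofReal_le_ofReal
  rw [abs_mul]
  have := abs_le_of_mem hc hd
  gcongr

theorem test_shift {Θ : ℝ → ℝ} (h : Test Θ) (z : ℝ) : Test (fun k => Θ (k + z)) := by
  refine ⟨h.1.comp (contDiff_id.add contDiff_const), ?_⟩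
  exact h.2.comp_homeomorph (Homeomorph.addRight z)

theorem tsupport_shift (Θ : ℝ → ℝ) (z k : ℝ) : k ∈ tsupport (fun k => Θ (k + z)) ↔ k + z ∈ tsupport Θ := by
  have h := tsupport_comp_eq_preimage Θ (Homeomorph.addRight z)
  have h2 : (fun k => Θ (k + z)) = Θ ∘ (Homeomorph.addRight z) := rfl
  rw [h2, h]
  rfl

theorem main (ha : S_ADD) (hal : S_ALP) (hl : S_LSC) (hlo : S_LOC) (hb : S_BAI) (hp : S_POR)
    (ht : S_TRA) (hte : S_TEM) (htw : S_TRW) (hs : S_SHR) (hi : S_ISO) (hbn : S_BNI) : S_ZE2 := by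
  intro f N₀ Z hf hT hZ hgood hvan
  have hftr : ∀ t, Measurable (tr f t) := fun t =>
    hf.comp (measurable_fst.prodMk (measurable_snd.add_const t))
  have hTtr : ∀ t, Tem (tr f t) N₀ := fun t => hte.2 f N₀ t hf hT
  have hvtr : ∀ t, ∀ᵐ k : ℝ, Van (tr f t) k := fun t => hvan.mono fun k hk => (ht f t hf).2 k hk
  obtain ⟨E, hE⟩ : ∃ E : Set ℝ, E = {k | ∀ ε : ℝ, 0 < ε → ∃ (t : ℝ) (a : ℝ → ℂ) (Θ : ℝ → ℝ), Band a ∧
    Test Θ ∧ tsupport Θ ⊆ Ioo (k - ε) (k + ε) ∧ T (tr f t) a Θ ≠ 0} := ⟨_, rfl⟩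
  have hnotE : ∀ k, k ∉ E → ∃ ε : ℝ, 0 < ε ∧ ∀ (t : ℝ) (a : ℝ → ℂ) (Θ : ℝ → ℝ), Band a → Test Θ →
      tsupport Θ ⊆ Ioo (k - ε) (k + ε) → T (tr f t) a Θ = 0 := by
    intro k hk
    rw [hE, mem_setOf_eq] at hk
    push Not at hk
    exact hk
  have hclosed : IsClosed E := by
    rw [← isOpen_compl_iff, Metric.isOpen_iff]
    intro k hk
    obtain ⟨ε, hε, h⟩ := hnotE k hk
    refine ⟨ε / 2, by positivity, fun k' hk' hmem => ?_⟩
    rw [hE] at hmem
    obtain ⟨t, a, Θ, h0, h1, h2, h3⟩ := hmem (ε / 2) (by positivity)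
    rw [Metric.mem_ball, Real.dist_eq, abs_lt] at hk'
    exact h3 (h t a Θ h0 h1 (h2.trans (Ioo_subset_Ioo (by linarith) (by linarith))))
  have hE0 : ∀ (t : ℝ) (a : ℝ → ℂ), Band a → ∀ Θ, Test Θ → Disjoint (tsupport Θ) E →
      T (tr f t) a Θ = 0 := by
    intro t a hBa Θ hΘ hdis
    refine hlo (T (tr f t) a) (ha (tr f t) N₀ a (hftr t) (hTtr t) (hbn a hBa)) Θ hΘ fun k hk => ?_
    obtain ⟨ε, hε, h⟩ := hnotE k (disjoint_left.1 hdis hk)
    exact ⟨ε, hε, fun Θ' h1 h2 => h t a Θ' hBa h1 h2⟩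
  have hnear : ∀ k ∈ E, ∀ c d : ℝ, c < k → k < d →
      ∃ (t : ℝ) (a : ℝ → ℂ) (Θ : ℝ → ℝ), Band a ∧ Test Θ ∧ tsupport Θ ⊆ Ioo c d ∧
        T (tr f t) a Θ ≠ 0 := by
    intro k hk c d hc hd
    rw [hE] at hk
    obtain ⟨t, a, Θ, h0, h1, h2, h3⟩ := hk (min (k - c) (d - k)) (lt_min (by linarith) (by linarith))
    refine ⟨t, a, Θ, h0, h1, h2.trans (Ioo_subset_Ioo ?_ ?_), h3⟩
    · linarith [min_le_left (k - c) (d - k)]
    · linarith [min_le_right (k - c) (d - k)]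
  by_contra hcon
  push Not at hcon
  obtain ⟨t₀, a₀, ha₀, Θ₀, hΘ₀, hne⟩ := hcon
  have hEne : E.Nonempty := by
    by_contra h
    rw [not_nonempty_iff_eq_empty] at h
    exact hne (hE0 t₀ a₀ ha₀ Θ₀ hΘ₀ (by rw [h]; exact disjoint_empty _))
  -- exceptional slopes
  obtain ⟨Z', hZ'⟩ : ∃ Z' : Set ℝ, Z' = {k | k ∈ Z ∧ ∀ᵐ p : ℝ, Integrable fun y : ℝ => f (p + k * y, y)} :=
    ⟨_, rfl⟩
  have hZc : Z'.Countable := hZ.mono (by rw [hZ']; exact fun k hk => hk.1)
  obtain ⟨z, hz⟩ := countable_iff_exists_subset_range.1 hZc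
  obtain ⟨F, hF⟩ : ∃ F : ℕ → Set ℝ, F = fun n => if (Nat.unpair n).1 = 0 then
      {k : ℝ | W f (Nat.unpair (Nat.unpair n).2).1 k ≤ ((Nat.unpair (Nat.unpair n).2).2 : ℝ≥0∞)}
      else {z (Nat.unpair n).2} ∩ Z' := ⟨_, rfl⟩
  have hFc : ∀ n, IsClosed (F n) := by
    intro n
    rw [hF]
    simp only
    split_ifs
    · exact hl f _ _ hf
    · exact ((finite_singleton _).subset inter_subset_left).isClosed
  have hcov : E ⊆ ⋃ n : ℕ, F n := by
    intro k hk
    rcases hgood k with hg | hg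
    · have h1 : ∃ N, W f N k < ⊤ := by
        rcases hg with h | ⟨N, c, d, hc, hd, h⟩
        · exact h
        · exfalso
          obtain ⟨t, a, Θ, h0, h1, h2, h3⟩ := hnear k hk c d hc hd
          refine h3 (hal (tr f t) N c d (hftr t) ?_ (hvtr t) a (hbn a h0) Θ h1 h2)
          calc ∫⁻ s in Ioo c d, W (tr f t) N s ≤
                ∫⁻ s in Ioo c d, ENNReal.ofReal ((1 + max |c| |d| * |t|) ^ N) * W f N s := by
                refine setLIntegral_mono' measurableSet_Ioo fun s hs => ?_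
                exact W_tr htw hf N t hs.1 hs.2
            _ = ENNReal.ofReal ((1 + max |c| |d| * |t|) ^ N) * ∫⁻ s in Ioo c d, W f N s :=
                lintegral_const_mul' _ _ ENNReal.ofReal_ne_top
            _ < ⊤ := ENNReal.mul_lt_top ENNReal.ofReal_lt_top h
      obtain ⟨N, hN⟩ := h1
      obtain ⟨M, hM⟩ := ENNReal.exists_nat_gt hN.ne
      refine mem_iUnion.2 ⟨Nat.pair 0 (Nat.pair N M), ?_⟩
      rw [hF]
      simp only [Nat.unpair_pair, if_true, mem_setOf_eq]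
      exact hM.le
    · have h1 : k ∈ Z' := by rw [hZ']; exact hg
      obtain ⟨m, hm⟩ := hz h1
      refine mem_iUnion.2 ⟨Nat.pair 1 m, ?_⟩
      rw [hF]
      simp only [Nat.unpair_pair, one_ne_zero, if_false]
      exact ⟨by rw [hm]; exact mem_singleton _, h1⟩
  obtain ⟨n, c, d, ⟨k₀, hk₀, hk₀'⟩, hsub⟩ := hb E F hclosed hEne hFc hcov
  rw [hF] at hsub
  simp only at hsub
  by_cases hn : (Nat.unpair n).1 = 0
  · -- first case
    rw [if_pos hn] at hsub
    obtain ⟨N, hN⟩ : ∃ N, N = (Nat.unpair (Nat.unpair n).2).1 := ⟨_, rfl⟩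
    obtain ⟨M, hM⟩ : ∃ M, M = (Nat.unpair (Nat.unpair n).2).2 := ⟨_, rfl⟩
    rw [← hN, ← hM] at hsub
    obtain ⟨t, a, Θ, h0, h1, h2, h3⟩ := hnear k₀ hk₀ c d hk₀'.1 hk₀'.2
    refine h3 (hp (tr f t) (max N N₀) a (hftr t) (hbn a h0) (hvtr t) E c d
      (ENNReal.ofReal ((1 + max |c| |d| * |t|) ^ (max N N₀)) * (M : ℝ≥0∞)) hclosed
      (ENNReal.mul_lt_top ENNReal.ofReal_lt_top (ENNReal.natCast_lt_top _)) ?_
      (Tem_mono (hftr t) (le_max_right _ _) (hTtr t)) (hE0 t a h0) Θ h1 h2)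
    intro k hk hc hd
    refine (W_tr htw hf _ t hc hd).trans (mul_le_mul_right ?_ _)
    exact (W_anti f (le_max_left _ _) k).trans (hsub ⟨hk, hc, hd⟩)
  · -- second case
    rw [if_neg hn] at hsub
    have hk0 := hsub ⟨hk₀, hk₀'⟩
    have hk0z : k₀ = z (Nat.unpair n).2 := hk0.1
    rw [← hk0z] at hsub
    have hint : ∀ᵐ p : ℝ, Integrable fun y : ℝ => f (p + k₀ * y, y) := by
      have := hk0.2
      rw [hZ'] at this
      exact this.2
    obtain ⟨δ, hδ⟩ : ∃ δ, δ = min (k₀ - c) (d - k₀) := ⟨_, rfl⟩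
    have hδ0 : 0 < δ := by
      rw [hδ]
      exact lt_min (by linarith [hk₀'.1]) (by linarith [hk₀'.2])
    have hδ1 : δ ≤ k₀ - c := by rw [hδ]; exact min_le_left _ _
    have hδ2 : δ ≤ d - k₀ := by rw [hδ]; exact min_le_right _ _
    obtain ⟨hs1, hs2, hs3, hs4⟩ := hs
    obtain ⟨t, a, Θ, h0, h1, h2, h3⟩ := hnear k₀ hk₀ (k₀ - δ) (k₀ + δ) (by linarith) (by linarith)
    have hsm : Measurable (shf f k₀) :=
      hf.comp ((measurable_fst.add (measurable_const.mul measurable_snd)).prodMk measurable_snd)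
    have hgm : Measurable (tr (shf f k₀) t) :=
      hsm.comp (measurable_fst.prodMk (measurable_snd.add_const t))
    have hgT : Tem (tr (shf f k₀) t) N₀ := hte.2 (shf f k₀) N₀ t hsm (hs2 f k₀ N₀ hf hT)
    have hgi : ∀ᵐ x : ℝ, Integrable fun y : ℝ => tr (shf f k₀) t (x, y) := by
      filter_upwards [hs4 f k₀ hint] with x hx
      exact hx.comp_add_right t
    have key := hi (tr (shf f k₀) t) N₀ δ hgm hgT hδ0 hgi (by
      intro s b hbB Θ' hΘ' hsupp
      have e1 : tr (tr (shf f k₀) t) s = tr (shf f k₀) (s + t) := by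
        funext q
        show shf f k₀ (q.1, q.2 + s + t) = shf f k₀ (q.1, q.2 + (s + t))
        rw [add_assoc]
      rw [e1, hs1 f k₀ (s + t) b Θ' hf]
      refine hE0 (s + t) _ (hs3 b (k₀ * (s + t)) hbB) _ ?_ ?_
      · have := test_shift hΘ' (-k₀)
        exact this
      · rw [disjoint_left]
        intro k hk hkE
        have h5 : k - k₀ ∈ tsupport Θ' := by
          have h6 := (tsupport_shift Θ' (-k₀) k).1 hk
          exact h6
        obtain ⟨h7, h8⟩ := hsupp h5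
        rw [abs_lt] at h8
        have h9 := hsub ⟨hkE, by linarith [h8.1], by linarith [h8.2]⟩
        have h10 : k = k₀ := h9.1
        exact h7 (by rw [h10, sub_self]))
    have hfin := key (fun x => a (x - (-(k₀ * t)))) (hs3 a (-(k₀ * t)) h0) (fun k => Θ (k + k₀))
      (test_shift h1 k₀) (by
        intro k hk
        have h5 := h2 ((tsupport_shift Θ k₀ k).1 hk)
        exact ⟨by linarith [h5.1], by linarith [h5.2]⟩)
    rw [hs1 f k₀ t _ _ hf] at hfin
    have e2 : (fun x => a (x - k₀ * t - -(k₀ * t))) = a := by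
      funext x
      congr 1
      ring
    have e3 : (fun k => Θ (k - k₀ + k₀)) = Θ := by
      funext k
      congr 1
      ring
    rw [e2, e3] at hfin
    exact h3 hfin

end Pool.Agent.H77.RT.T.ZE2
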