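import Pool.Agent.H77.RT.Stm3

set_option autoImplicit false

/-! # RT-BOX: Baire in the space of lines (helper83) -/

namespace Pool.Agent.H77.RT.T.BOX

open MeasureTheory Filter Topology Set
open scoped ENNReal

theorem closed (f : ℝ × ℝ → ℂ) (hf : Continuous f) (M : ℝ≥0∞) :
    IsClosed {q : ℝ × ℝ | ∫⁻ y : ℝ, ENNReal.ofReal ‖f (q.2 + q.1 * y, y)‖ ≤ M} := by
  apply IsSeqClosed.isClosed
  intro x a hx ha
  have h1 : ∀ y : ℝ, Tendsto (fun n => ENNReal.ofReal ‖f ((x n).2 + (x n).1 * y, y)‖) atTop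
      (𝓝 (ENNReal.ofReal ‖f (a.2 + a.1 * y, y)‖)) := by
    intro y
    have hc : Continuous (fun q : ℝ × ℝ => ENNReal.ofReal ‖f (q.2 + q.1 * y, y)‖) :=
      ENNReal.continuous_ofReal.comp (by fun_prop)
    exact (hc.tendsto a).comp ha
  show ∫⁻ y : ℝ, ENNReal.ofReal ‖f (a.2 + a.1 * y, y)‖ ≤ M
  calc ∫⁻ y : ℝ, ENNReal.ofReal ‖f (a.2 + a.1 * y, y)‖
      = ∫⁻ y : ℝ, liminf (fun n => ENNReal.ofReal ‖f ((x n).2 + (x n).1 * y, y)‖) atTop := by
        congr 1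
        ext y
        exact (h1 y).liminf_eq.symm
    _ ≤ liminf (fun n => ∫⁻ y : ℝ, ENNReal.ofReal ‖f ((x n).2 + (x n).1 * y, y)‖) atTop :=
        lintegral_liminf_le fun n => by fun_prop
    _ ≤ M := Filter.liminf_le_of_frequently_le' (Frequently.of_forall hx)

theorem main : S_BOX := by
  intro f hf hint c d hcd
  have hcov : ⋃ n : ℕ, {q : ℝ × ℝ | ∫⁻ y : ℝ, ENNReal.ofReal ‖f (q.2 + q.1 * y, y)‖ ≤ (n : ℝ≥0∞)} =
      univ := by
    rw [eq_univ_iff_forall]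
    intro q
    have h1 : ∫⁻ y : ℝ, ENNReal.ofReal ‖f (q.2 + q.1 * y, y)‖ < ⊤ := by
      have h2 := (hint q.1 q.2).2
      simp only [HasFiniteIntegral] at h2
      simp only [ofReal_norm]
      exact h2
    obtain ⟨n, hn⟩ := ENNReal.exists_nat_gt h1.ne
    exact mem_iUnion.2 ⟨n, hn.le⟩
  have hdense := dense_iUnion_interior_of_closed (fun n : ℕ => closed f hf (n : ℝ≥0∞)) hcov
  have hop : IsOpen (Ioo c d ×ˢ (univ : Set ℝ)) := isOpen_Ioo.prod isOpen_univ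
  have hne : (Ioo c d ×ˢ (univ : Set ℝ)).Nonempty :=
    ⟨((c + d) / 2, 0), ⟨by constructor <;> linarith, mem_univ _⟩⟩
  obtain ⟨q, hq1, hq2⟩ := hdense.inter_open_nonempty _ hop hne
  rw [mem_iUnion] at hq2
  obtain ⟨n, hn⟩ := hq2
  obtain ⟨ε, hε, hball⟩ := Metric.isOpen_iff.1 isOpen_interior q hn
  have hc : c < q.1 := hq1.1.1
  have hd : q.1 < d := hq1.1.2
  obtain ⟨δ, hδ⟩ : ∃ δ, δ = min ε (min (q.1 - c) (d - q.1)) := ⟨_, rfl⟩
  have hδ0 : 0 < δ := by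
    rw [hδ]
    exact lt_min hε (lt_min (by linarith) (by linarith))
  have h1 : δ ≤ ε := by rw [hδ]; exact min_le_left _ _
  have h2 : δ ≤ q.1 - c := by rw [hδ]; exact (min_le_right _ _).trans (min_le_left _ _)
  have h3 : δ ≤ d - q.1 := by rw [hδ]; exact (min_le_right _ _).trans (min_le_right _ _)
  refine ⟨q.1 - δ, q.1 + δ, q.2 - δ, q.2 + δ, n, by linarith, by linarith, by linarith, by linarith,
    ?_⟩
  intro k hk p hp
  have hmem : (k, p) ∈ Metric.ball q ε := by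
    rw [Metric.mem_ball, Prod.dist_eq, max_lt_iff, Real.dist_eq, Real.dist_eq, abs_lt, abs_lt]
    exact ⟨⟨by linarith [hk.1], by linarith [hk.2]⟩, ⟨by linarith [hp.1], by linarith [hp.2]⟩⟩
  have h4 := interior_subset (hball hmem)
  rw [ENNReal.ofReal_natCast]
  exact h4

end Pool.Agent.H77.RT.T.BOX
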