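import Pool.Agent.H77.RT.Stm3

/-! Stub CLO of project RT: the set of singular directions together with `0` is closed. -/

set_option autoImplicit false

namespace Pool.Agent.H77.RT.T.CLO

open Set

theorem main : S_CLO := by
  intro f
  rw [← closure_subset_iff_isClosed]
  intro n hn
  by_cases h0 : n = 0
  · exact Or.inr h0
  left
  refine ⟨h0, ?_⟩
  intro ε hε
  have hpos : 0 < ‖n‖ := norm_pos_iff.2 h0
  obtain ⟨n', hn', hd⟩ := Metric.mem_closure_iff.1 hn (min (ε / 4) ‖n‖)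
    (lt_min (by positivity) hpos)
  rw [dist_eq_norm] at hd
  have hd1 : ‖n - n'‖ < ε / 4 := lt_of_lt_of_le hd (min_le_left _ _)
  have hd2 : ‖n - n'‖ < ‖n‖ := lt_of_lt_of_le hd (min_le_right _ _)
  have hn0 : n' ≠ 0 := by
    intro h
    rw [h, sub_zero] at hd2
    exact lt_irrefl _ hd2
  rcases hn' with hn' | hn'
  · obtain ⟨Φ, hΦ, hm, hI⟩ := hn'.2 (ε / 2) (by positivity)
    refine ⟨Φ, hΦ, ?_, hI⟩
    intro m hmem
    obtain ⟨hm0, hlt⟩ := hm m hmem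
    refine ⟨hm0, ?_⟩
    have e1 : |m.1| ≤ ‖m‖ := norm_fst_le m
    have e2 : |m.2| ≤ ‖m‖ := norm_snd_le m
    have e3 : |n.1 - n'.1| ≤ ‖n - n'‖ := norm_fst_le (n - n')
    have e4 : |n.2 - n'.2| ≤ ‖n - n'‖ := norm_snd_le (n - n')
    have hmp : 0 < ‖m‖ := norm_pos_iff.2 hm0
    have key : m.1 * n.2 - m.2 * n.1 =
        (m.1 * n'.2 - m.2 * n'.1) + (m.1 * (n.2 - n'.2) - m.2 * (n.1 - n'.1)) := by ring
    have h1 : |m.1 * (n.2 - n'.2)| ≤ ‖m‖ * ‖n - n'‖ := by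
      rw [abs_mul]
      exact mul_le_mul e1 e4 (abs_nonneg _) (norm_nonneg _)
    have h2 : |m.2 * (n.1 - n'.1)| ≤ ‖m‖ * ‖n - n'‖ := by
      rw [abs_mul]
      exact mul_le_mul e2 e3 (abs_nonneg _) (norm_nonneg _)
    have h3 : |m.1 * (n.2 - n'.2) - m.2 * (n.1 - n'.1)| ≤
        |m.1 * (n.2 - n'.2)| + |m.2 * (n.1 - n'.1)| := abs_sub _ _
    have h4 : |m.1 * n.2 - m.2 * n.1| ≤ |m.1 * n'.2 - m.2 * n'.1| +
        |m.1 * (n.2 - n'.2) - m.2 * (n.1 - n'.1)| := by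
      rw [key]
      exact abs_add_le _ _
    have h5 : ‖m‖ * ‖n - n'‖ ≤ ‖m‖ * (ε / 4) := mul_le_mul_of_nonneg_left hd1.le hmp.le
    nlinarith
  · exact absurd hn' hn0

end Pool.Agent.H77.RT.T.CLO
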