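import Pool.Agent.H77.RT.Stm3

/-! # RT-CLT (helper32) -/

set_option autoImplicit false

namespace Pool.Agent.H77.RT.T.CLT

open MeasureTheory Filter Topology Set
open scoped ENNReal

theorem tem {f : ℝ × ℝ → ℂ} (hf : Continuous f) {c : ℝ} {m : ℕ} (h : ∀ x, ‖f x‖ ≤ c * (1 + ‖x‖ ^ m)) :
    Tem f (m + 3) := by
  unfold Tem
  have h1 : Integrable (fun x : ℝ × ℝ => (2 * |c|) * (1 + ‖x‖) ^ (-(3 : ℝ))) := by
    apply Integrable.const_mul
    apply integrable_one_add_norm
    rw [Module.finrank_prod, Module.finrank_self]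
    norm_num
  refine h1.mono' ?_ ?_
  · apply Continuous.aestronglyMeasurable
    refine hf.norm.div (by fun_prop) fun q => ?_
    positivity
  · refine Eventually.of_forall fun q => ?_
    have hn : ‖q‖ ≤ |q.1| + |q.2| := by
      rw [Prod.norm_def, Real.norm_eq_abs, Real.norm_eq_abs]
      exact max_le (by linarith [abs_nonneg q.2]) (by linarith [abs_nonneg q.1])
    have hn0 := norm_nonneg q
    set u : ℝ := 1 + |q.1| + |q.2| with hu
    have hu1 : 1 + ‖q‖ ≤ u := by rw [hu]; linarith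
    have hu0 : 0 < u := by linarith
    rw [norm_div, norm_norm, norm_pow, Real.norm_eq_abs u, abs_of_pos hu0]
    have h2 : ‖f q‖ ≤ 2 * |c| * u ^ m := by
      have h3 : ‖q‖ ^ m ≤ u ^ m := pow_le_pow_left₀ hn0 (by linarith) m
      have h4 : 1 ≤ u ^ m := one_le_pow₀ (by linarith)
      calc ‖f q‖ ≤ c * (1 + ‖q‖ ^ m) := h q
        _ ≤ |c| * (1 + ‖q‖ ^ m) := mul_le_mul_of_nonneg_right (le_abs_self c) (by positivity)
        _ ≤ |c| * (2 * u ^ m) := mul_le_mul_of_nonneg_left (by linarith) (abs_nonneg c)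
        _ = 2 * |c| * u ^ m := by ring
    have e : (1 + ‖q‖) ^ (-(3 : ℝ)) = 1 / (1 + ‖q‖) ^ 3 := by
      rw [Real.rpow_neg (by linarith), one_div]
      congr 1
      exact_mod_cast Real.rpow_natCast (1 + ‖q‖) 3
    rw [e, div_le_iff₀ (by positivity)]
    have h5 : (1 + ‖q‖) ^ 3 ≤ u ^ 3 := pow_le_pow_left₀ (by linarith) hu1 3
    have h6 : 1 ≤ 1 / (1 + ‖q‖) ^ 3 * u ^ 3 := by
      rw [one_div, ← div_eq_inv_mul, one_le_div (by positivity)]
      exact h5
    calc ‖f q‖ ≤ 2 * |c| * u ^ m := h2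
      _ = 2 * |c| * u ^ m * 1 := (mul_one _).symm
      _ ≤ 2 * |c| * u ^ m * (1 / (1 + ‖q‖) ^ 3 * u ^ 3) :=
          mul_le_mul_of_nonneg_left h6 (by positivity)
      _ = 2 * |c| * (1 / (1 + ‖q‖) ^ 3) * u ^ (m + 3) := by ring

theorem main : S_CLT := by
  intro f hf
  obtain ⟨hc, ⟨c, m, hcm⟩, hl⟩ := hf
  have h1 : ∀ k p : ℝ, (Integrable fun y : ℝ => f (p + k * y, y)) ∧ ∫ y : ℝ, f (p + k * y, y) = 0 := by
    intro k p
    have h2 := hl (p, 0) (k, 1) (by
      intro h
      have := congrArg Prod.snd h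
      simp at this)
    have e : (fun s : ℝ => f ((p, 0) + s • (k, 1))) = fun y : ℝ => f (p + k * y, y) := by
      funext s
      congr 1
      ext
      · simp [mul_comm]
      · simp
    rw [e] at h2
    exact h2
  refine ⟨⟨m + 3, tem hc hcm⟩, fun k p => (h1 k p).1, fun k => Eventually.of_forall fun p => (h1 k p).2, ?_⟩
  intro y
  have h2 := (hl (0, y) (1, 0) (by
      intro h
      have := congrArg Prod.fst h
      simp at this)).1
  have e : (fun s : ℝ => f ((0, y) + s • (1, 0))) = fun x : ℝ => f (x, y) := by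
    funext s
    congr 1
    ext
    · simp
    · simp
  rw [e] at h2
  exact h2

end Pool.Agent.H77.RT.T.CLT
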