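import Pool.Agent.H77.RT.Stm3

/-! # RT-CON (helper71). The file name is `CONT` because `CON` is a reserved module name. -/

set_option autoImplicit false

namespace Pool.Agent.H77.RT.T.CON

open MeasureTheory Filter Topology Set
open scoped ENNReal ContDiff FourierTransform

/-- scaling -/
theorem scale (g : ℝ → ℝ≥0∞) (hg : Measurable g) (x y : ℝ) (hy : y ≠ 0) :
    ∫⁻ k : ℝ, g (x - k * y) = ENNReal.ofReal |y⁻¹| * ∫⁻ s : ℝ, g s := by
  have h1 : ∫⁻ k : ℝ, g (x - k * y) = ∫⁻ s, g (x - s) ∂(Measure.map (y * ·) volume) := by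
    rw [lintegral_map (by fun_prop) (by fun_prop)]
    refine lintegral_congr fun k => ?_
    rw [mul_comm]
  rw [h1, Real.map_volume_mul_left hy, lintegral_smul_measure, lintegral_sub_left_eq_self g x]
  rfl

theorem main : S_CON := by
  intro f N c d a b M hf hT hcd hab hM
  obtain ⟨D, hD⟩ : ∃ D, D = d - c := ⟨_, rfl⟩
  have hD0 : 0 < D := by rw [hD]; linarith
  obtain ⟨P, hP⟩ : ∃ P, P = max N 2 := ⟨_, rfl⟩
  have hPN : N ≤ P := by rw [hP]; exact le_max_left _ _
  have hP2 : 2 ≤ P := by rw [hP]; exact le_max_right _ _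
  refine ⟨c + D / 3, d - D / 3, P, by linarith, by linarith, by linarith, ?_⟩
  obtain ⟨F, hF⟩ : ∃ F : ℝ × ℝ → ℝ≥0∞, ∀ q, F q = ENNReal.ofReal ‖f q‖ := ⟨_, fun _ => rfl⟩
  have hFm : Measurable F := by
    have : F = fun q => ENNReal.ofReal ‖f q‖ := funext hF
    rw [this]
    exact hf.norm.ennreal_ofReal
  obtain ⟨w, hw⟩ : ∃ w : ℝ → ℝ≥0∞, ∀ s, w s = ENNReal.ofReal (1 / (1 + |s|) ^ P) := ⟨_, fun _ => rfl⟩
  have hwm : Measurable w := by
    have : w = fun s => ENNReal.ofReal (1 / (1 + |s|) ^ P) := funext hw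
    rw [this]
    apply Measurable.ennreal_ofReal
    fun_prop
  obtain ⟨ind, hind⟩ : ∃ ind : ℝ → ℝ≥0∞, ind = (Ioo a b).indicator 1 := ⟨_, rfl⟩
  have hindm : Measurable ind := by
    rw [hind]
    exact measurable_one.indicator measurableSet_Ioo
  obtain ⟨u, hu⟩ : ∃ u : ℝ × ℝ → ℝ≥0∞, ∀ q, u q = ENNReal.ofReal (1 / (1 + |q.1| + |q.2|) ^ N) :=
    ⟨_, fun _ => rfl⟩
  have hum : Measurable u := by
    have : u = fun q : ℝ × ℝ => ENNReal.ofReal (1 / (1 + |q.1| + |q.2|) ^ N) := funext hu
    rw [this]
    apply Measurable.ennreal_ofReal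
    fun_prop
  -- W as an integral of products
  have hW : ∀ k, W f P k = ∫⁻ q : ℝ × ℝ, F q * w (q.1 - k * q.2) := by
    intro k
    unfold W
    refine lintegral_congr fun q => ?_
    rw [hF, hw, ← ENNReal.ofReal_mul (norm_nonneg _)]
    congr 1
    ring
  -- finite integrals
  have hfin1 : ∫⁻ q : ℝ × ℝ, F q * u q < ⊤ := by
    have h1 := hT.lintegral_lt_top
    refine lt_of_le_of_lt (le_of_eq ?_) h1
    refine lintegral_congr fun q => ?_
    rw [hF, hu, ← ENNReal.ofReal_mul (norm_nonneg _)]
    congr 1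
    ring
  have hI2 : ∫⁻ s : ℝ, w s < ⊤ := by
    have h1 : ∫⁻ s : ℝ, ENNReal.ofReal ((1 + ‖s‖) ^ (-(2 : ℝ))) < ⊤ := by
      apply finite_integral_one_add_norm
      simp
    refine lt_of_le_of_lt (lintegral_mono fun s => ?_) h1
    rw [hw]
    apply ENNReal.ofReal_le_ofReal
    have h2 : (1 : ℝ) ≤ 1 + |s| := by linarith [abs_nonneg s]
    rw [Real.rpow_neg (by positivity), Real.norm_eq_abs, one_div]
    have h3 : (1 + |s|) ^ (2 : ℝ) = (1 + |s|) ^ 2 := by
      rw [← Real.rpow_natCast]; norm_num
    rw [h3]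
    apply inv_anti₀ (by positivity)
    exact pow_le_pow_right₀ h2 hP2
  -- the functions G and V
  obtain ⟨G, hG⟩ : ∃ G : ℝ × ℝ → ℝ≥0∞, ∀ q, G q = ∫⁻ k in Ioo (c + D / 3) (d - D / 3), w (q.1 - k * q.2) :=
    ⟨_, fun _ => rfl⟩
  obtain ⟨V, hV⟩ : ∃ V : ℝ × ℝ → ℝ≥0∞, ∀ q, V q = ∫⁻ k in Ioo c d, ind (q.1 - k * q.2) :=
    ⟨_, fun _ => rfl⟩
  have hsub : Measurable fun p : ℝ × (ℝ × ℝ) => p.2.1 - p.1 * p.2.2 := by fun_prop
  have hsub' : Measurable fun p : (ℝ × ℝ) × ℝ => p.1.1 - p.2 * p.1.2 := by fun_prop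
  have hGm : Measurable G := by
    have : G = fun q => ∫⁻ k in Ioo (c + D / 3) (d - D / 3), w (q.1 - k * q.2) := funext hG
    rw [this]
    exact Measurable.lintegral_prod_right' (f := fun p : (ℝ × ℝ) × ℝ => w (p.1.1 - p.2 * p.1.2))
      (hwm.comp hsub')
  have hVm : Measurable V := by
    have : V = fun q => ∫⁻ k in Ioo c d, ind (q.1 - k * q.2) := funext hV
    rw [this]
    exact Measurable.lintegral_prod_right' (f := fun p : (ℝ × ℝ) × ℝ => ind (p.1.1 - p.2 * p.1.2))
      (hindm.comp hsub')
  have hswap1 : ∫⁻ k in Ioo (c + D / 3) (d - D / 3), W f P k = ∫⁻ q : ℝ × ℝ, F q * G q := by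
    simp only [hW]
    rw [lintegral_lintegral_swap]
    · refine lintegral_congr fun q => ?_
      rw [hG, lintegral_const_mul]
      exact hwm.comp (by fun_prop)
    · exact ((hFm.comp measurable_snd).mul (hwm.comp hsub)).aemeasurable
  have hswap2 : ∫⁻ q : ℝ × ℝ, F q * V q = ∫⁻ k in Ioo c d, ∫⁻ q : ℝ × ℝ, F q * ind (q.1 - k * q.2) := by
    rw [lintegral_lintegral_swap]
    · refine lintegral_congr fun q => ?_
      rw [hV, lintegral_const_mul]
      exact hindm.comp (by fun_prop)
    · exact ((hFm.comp measurable_snd).mul (hindm.comp hsub)).aemeasurable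
  have hline : ∀ k ∈ Ioo c d, ∫⁻ q : ℝ × ℝ, F q * ind (q.1 - k * q.2) ≤
      ENNReal.ofReal M * ENNReal.ofReal (b - a) := by
    intro k hk
    have hm0 : Measurable fun q : ℝ × ℝ => F q * ind (q.1 - k * q.2) :=
      hFm.mul (hindm.comp (by fun_prop))
    rw [Measure.volume_eq_prod, lintegral_prod_symm' _ hm0]
    have e1 : ∀ y : ℝ, ∫⁻ x : ℝ, F (x, y) * ind (x - k * y) = ∫⁻ p : ℝ, F (p + k * y, y) * ind p := by
      intro y
      rw [← lintegral_add_right_eq_self (fun x : ℝ => F (x, y) * ind (x - k * y)) (k * y)]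
      refine lintegral_congr fun p => ?_
      rw [add_sub_cancel_right]
    simp only [e1]
    rw [lintegral_lintegral_swap]
    · have e2 : ∀ p : ℝ, ∫⁻ y : ℝ, F (p + k * y, y) * ind p ≤ ENNReal.ofReal M * ind p := by
        intro p
        have hm1 : Measurable fun y : ℝ => F (p + k * y, y) := hFm.comp (by fun_prop)
        rw [lintegral_mul_const _ hm1]
        by_cases hp : p ∈ Ioo a b
        · apply mul_le_mul_left
          have := hM k hk p hp
          simpa only [hF] using this
        · have : ind p = 0 := by rw [hind]; exact indicator_of_notMem hp _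
          rw [this, mul_zero, mul_zero]
      refine (lintegral_mono e2).trans ?_
      rw [lintegral_const_mul _ hindm, hind, lintegral_indicator_one measurableSet_Ioo, Real.volume_Ioo]
    · have : Measurable fun p : ℝ × ℝ => F (p.2 + k * p.1, p.1) * ind p.2 :=
        (hFm.comp (by fun_prop)).mul (hindm.comp measurable_snd)
      exact this.aemeasurable
  have hfin2 : ∫⁻ q : ℝ × ℝ, F q * V q < ⊤ := by
    rw [hswap2]
    refine lt_of_le_of_lt (setLIntegral_mono' measurableSet_Ioo hline) ?_
    rw [setLIntegral_const, Real.volume_Ioo]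
    exact ENNReal.mul_lt_top (ENNReal.mul_lt_top ENNReal.ofReal_lt_top ENNReal.ofReal_lt_top)
      ENNReal.ofReal_lt_top
  -- the pointwise bound
  obtain ⟨Y, hY⟩ : ∃ Y, Y = max 1 (8 * (|a| + |b|) / D) := ⟨_, rfl⟩
  have hY1 : 1 ≤ Y := by rw [hY]; exact le_max_left _ _
  have hY2 : 8 * (|a| + |b|) ≤ Y * D := by
    have : 8 * (|a| + |b|) / D ≤ Y := by rw [hY]; exact le_max_right _ _
    rwa [div_le_iff₀ hD0] at this
  obtain ⟨K, hK⟩ : ∃ K, K = |c| + |d| := ⟨_, rfl⟩
  have hK0 : 0 ≤ K := by rw [hK]; positivity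
  obtain ⟨C0, hC0⟩ : ∃ C0, C0 = 1 + K * Y + Y + 12 * K / D + 12 / D := ⟨_, rfl⟩
  have hC00 : 0 < C0 := by rw [hC0]; positivity
  have hbound : ∀ q, G q ≤ (∫⁻ s : ℝ, w s) / ENNReal.ofReal (b - a) * V q +
      ENNReal.ofReal (C0 ^ P) * ENNReal.ofReal (d - c) * u q := by
    rintro ⟨x, y⟩
    by_cases hR : Y ≤ |y| ∧ c + D / 4 < x / y ∧ x / y < d - D / 4
    · obtain ⟨r1, r2, r3⟩ := hR
      have hy0 : 0 < |y| := by linarith
      have hy : y ≠ 0 := abs_pos.1 hy0
      have h1 : G (x, y) ≤ ENNReal.ofReal |y⁻¹| * ∫⁻ s : ℝ, w s := by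
        rw [hG, ← scale w hwm x y hy]
        exact setLIntegral_le_lintegral _ _
      have h2 : V (x, y) = ENNReal.ofReal |y⁻¹| * ENNReal.ofReal (b - a) := by
        have e1 : ∫⁻ s : ℝ, ind s = ENNReal.ofReal (b - a) := by
          rw [hind, lintegral_indicator_one measurableSet_Ioo, Real.volume_Ioo]
        rw [hV, ← e1, ← scale ind hindm x y hy, ← lintegral_indicator measurableSet_Ioo]
        refine lintegral_congr fun k => ?_
        by_cases hk : k ∈ Ioo c d
        · rw [indicator_of_mem hk]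
        · rw [indicator_of_notMem hk]
          have hs : x - k * y ∉ Ioo a b := by
            intro hs
            apply hk
            have g1 : |x - k * y| ≤ |a| + |b| := by
              rw [abs_le]
              constructor
              · linarith [hs.1, neg_abs_le a, abs_nonneg b]
              · linarith [hs.2, le_abs_self b, abs_nonneg a]
            have g2 : |x / y - k| * |y| = |x - k * y| := by
              rw [← abs_mul]
              congr 1
              field_simp
            have g3 : |x / y - k| ≤ D / 8 := by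
              have : |x / y - k| * |y| ≤ D / 8 * |y| := by
                rw [g2]
                nlinarith
              exact le_of_mul_le_mul_right this hy0
            have g4 := abs_le.1 g3
            exact ⟨by linarith [g4.2], by linarith [g4.1]⟩
          rw [hind, indicator_of_notMem hs]
      refine le_trans ?_ le_self_add
      refine h1.trans (le_of_eq ?_)
      rw [h2]
      have hb0 : ENNReal.ofReal (b - a) ≠ 0 := by
        rw [Ne, ENNReal.ofReal_eq_zero, not_le]; linarith
      rw [mul_comm (ENNReal.ofReal |y⁻¹|) (ENNReal.ofReal (b - a)), ← mul_assoc,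
        ENNReal.div_mul_cancel hb0 ENNReal.ofReal_ne_top, mul_comm]
    · refine le_trans ?_ le_add_self
      have hk : ∀ k ∈ Ioo (c + D / 3) (d - D / 3), w (x - k * y) ≤ ENNReal.ofReal (C0 ^ P) * u (x, y) := by
        intro k hk
        have hkK : |k| ≤ K := by
          rw [hK, abs_le]
          constructor
          · linarith [hk.1, neg_abs_le c, abs_nonneg d]
          · linarith [hk.2, le_abs_self d, abs_nonneg c]
        have hx : |x| ≤ |x - k * y| + K * |y| := by
          have g1 : |x| ≤ |x - k * y| + |k * y| := by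
            calc |x| = |(x - k * y) + k * y| := by congr 1; ring
              _ ≤ _ := abs_add_le _ _
          rw [abs_mul] at g1
          have := mul_le_mul_of_nonneg_right hkK (abs_nonneg y)
          linarith
        have hs0 := abs_nonneg (x - k * y)
        have hmain : 1 + |x| + |y| ≤ C0 * (1 + |x - k * y|) := by
          have p1 : 0 ≤ K * Y := by positivity
          have p2 : 0 ≤ 12 * K / D := by positivity
          have p3 : 0 ≤ 12 / D := by positivity
          by_cases hyY : Y ≤ |y|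
          · have hy0 : 0 < |y| := by linarith
            have hy : y ≠ 0 := abs_pos.1 hy0
            have hfar : D / 12 ≤ |x / y - k| := by
              by_contra hcon
              push Not at hcon
              have g4 := abs_lt.1 hcon
              exact hR ⟨hyY, by linarith [g4.1, hk.1], by linarith [g4.2, hk.2]⟩
            have g2 : |x / y - k| * |y| = |x - k * y| := by
              rw [← abs_mul]
              congr 1
              field_simp
            have g3 : D / 12 * |y| ≤ |x - k * y| := by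
              rw [← g2]
              exact mul_le_mul_of_nonneg_right hfar hy0.le
            have g5 : |y| ≤ 12 / D * |x - k * y| := by
              rw [div_mul_eq_mul_div, le_div_iff₀ hD0]
              nlinarith
            have g6 : K * |y| ≤ 12 * K / D * |x - k * y| := by
              calc K * |y| ≤ K * (12 / D * |x - k * y|) := mul_le_mul_of_nonneg_left g5 hK0
                _ = _ := by ring
            rw [hC0]
            nlinarith [mul_nonneg p1 hs0, mul_nonneg p2 hs0, mul_nonneg p3 hs0,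
              mul_nonneg (by linarith : (0 : ℝ) ≤ Y) hs0]
          · push Not at hyY
            have g6 : K * |y| ≤ K * Y := mul_le_mul_of_nonneg_left hyY.le hK0
            rw [hC0]
            nlinarith [mul_nonneg p1 hs0, mul_nonneg p2 hs0, mul_nonneg p3 hs0,
              mul_nonneg (by linarith : (0 : ℝ) ≤ Y) hs0]
        rw [hw, hu, ← ENNReal.ofReal_mul (by positivity)]
        apply ENNReal.ofReal_le_ofReal
        have hA1 : (1 : ℝ) ≤ 1 + |x| + |y| := by linarith [abs_nonneg x, abs_nonneg y]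
        have hB1 : (0 : ℝ) < 1 + |x - k * y| := by linarith
        rw [mul_one_div]
        show _ ≤ C0 ^ P / (1 + |x| + |y|) ^ N
        rw [div_le_div_iff₀ (by positivity) (by positivity), one_mul]
        calc (1 + |x| + |y|) ^ N ≤ (1 + |x| + |y|) ^ P := pow_le_pow_right₀ hA1 hPN
          _ ≤ (C0 * (1 + |x - k * y|)) ^ P := pow_le_pow_left₀ (by linarith) hmain P
          _ = C0 ^ P * (1 + |x - k * y|) ^ P := mul_pow _ _ _
      rw [hG]
      refine (setLIntegral_mono' measurableSet_Ioo hk).trans ?_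
      rw [setLIntegral_const, Real.volume_Ioo, mul_assoc, mul_assoc]
      apply mul_le_mul_right
      rw [mul_comm]
      apply mul_le_mul_left
      apply ENNReal.ofReal_le_ofReal
      linarith
  rw [hswap1]
  refine lt_of_le_of_lt (lintegral_mono fun q => mul_le_mul_right (hbound q) (F q)) ?_
  have hsplit : ∫⁻ q : ℝ × ℝ, F q * ((∫⁻ s : ℝ, w s) / ENNReal.ofReal (b - a) * V q +
      ENNReal.ofReal (C0 ^ P) * ENNReal.ofReal (d - c) * u q) =
      (∫⁻ s : ℝ, w s) / ENNReal.ofReal (b - a) * (∫⁻ q : ℝ × ℝ, F q * V q) +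
      ENNReal.ofReal (C0 ^ P) * ENNReal.ofReal (d - c) * ∫⁻ q : ℝ × ℝ, F q * u q := by
    have hFV : Measurable fun q : ℝ × ℝ => F q * V q := hFm.mul hVm
    have hFu : Measurable fun q : ℝ × ℝ => F q * u q := hFm.mul hum
    rw [← lintegral_const_mul _ hFV, ← lintegral_const_mul _ hFu,
      ← lintegral_add_left (hFV.const_mul _)]
    refine lintegral_congr fun q => ?_
    ring
  rw [hsplit]
  have hb0 : ENNReal.ofReal (b - a) ≠ 0 := by
    rw [Ne, ENNReal.ofReal_eq_zero, not_le]; linarith
  refine ENNReal.add_lt_top.2 ⟨ENNReal.mul_lt_top ?_ hfin2, ENNReal.mul_lt_top ?_ hfin1⟩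
  · exact ENNReal.div_lt_top hI2.ne hb0
  · exact ENNReal.mul_lt_top ENNReal.ofReal_lt_top ENNReal.ofReal_lt_top

end Pool.Agent.H77.RT.T.CON
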