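import Pool.Agent.H77.RT.Stm3

/-! # Project RT, stub EVL (helper27) -/

set_option autoImplicit false

namespace Pool.Agent.H77.RT.T.EVL

open MeasureTheory Filter Topology Set
open scoped ENNReal ContDiff FourierTransform SchwartzMap

theorem sw_bound (φ : 𝓢(ℝ, ℂ)) (K : ℕ) : ∃ C : ℝ, 0 ≤ C ∧ ∀ x, ‖φ x‖ ≤ C / (1 + |x|) ^ K := by
  refine ⟨2 ^ K * ((Finset.Iic (K, 0)).sup (fun m => SchwartzMap.seminorm ℝ m.1 m.2)) φ,
    mul_nonneg (by positivity) (apply_nonneg _ _), fun x => ?_⟩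
  have h := SchwartzMap.one_add_le_sup_seminorm_apply (𝕜 := ℝ) (m := (K, 0)) (k := K) (n := 0)
    le_rfl le_rfl φ x
  rw [norm_iteratedFDeriv_zero, Real.norm_eq_abs] at h
  rw [le_div_iff₀ (by positivity), mul_comm]
  exact h

/-- a smooth cut-off -/
theorem cutoff : ∃ Y : ℝ → ℂ, Sm Y ∧ Y 0 = 1 := by
  let φ : ContDiffBump (0 : ℝ) := ⟨1, 2, by positivity, by linarith⟩
  refine ⟨fun ξ => ((φ ξ : ℝ) : ℂ), ⟨?_, ?_⟩, ?_⟩
  · exact Complex.ofRealCLM.contDiff.comp φ.contDiff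
  · exact φ.hasCompactSupport.comp_left Complex.ofReal_zero
  · have h1 : φ 0 = 1 := φ.one_of_mem_closedBall (Metric.mem_closedBall_self φ.rIn_pos.le)
    simp only
    rw [h1, Complex.ofReal_one]

theorem sm_scale {Y : ℝ → ℂ} (hY : Sm Y) {r : ℝ} (hr : r ≠ 0) : Sm fun ξ => Y (r * ξ) := by
  refine ⟨hY.1.comp (contDiff_const.mul contDiff_id), ?_⟩
  exact hY.2.comp_homeomorph (Homeomorph.mulLeft₀ r hr)

theorem fourier_scale (Y : ℝ → ℂ) {r : ℝ} (hr : 0 < r) (x : ℝ) :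
    𝓕 (fun ξ => Y (r * ξ)) x = (r⁻¹ : ℂ) * 𝓕 Y (r⁻¹ * x) := by
  rw [Real.fourier_real_eq, Real.fourier_real_eq]
  have h := Measure.integral_comp_mul_left
    (fun v : ℝ => Real.fourierChar (-(v * (r⁻¹ * x))) • Y v) r
  have h1 : (fun v : ℝ => Real.fourierChar (-(v * x)) • Y (r * v)) =
      fun v : ℝ => (fun v : ℝ => Real.fourierChar (-(v * (r⁻¹ * x))) • Y v) (r * v) := by
    funext v
    simp only
    congr 3
    field_simp
  rw [h1, h, abs_of_pos (inv_pos.2 hr)]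
  rw [Complex.real_smul, Complex.ofReal_inv]

/-- modulation -/
noncomputable def md (B : ℝ → ℂ) (x₀ : ℝ) (ξ : ℝ) : ℂ :=
  B ξ * Complex.exp (((2 * Real.pi * ξ * x₀ : ℝ) : ℂ) * Complex.I)

theorem md_sm {B : ℝ → ℂ} (hB : Sm B) (x₀ : ℝ) : Sm (md B x₀) := by
  constructor
  · refine hB.1.mul ?_
    refine Complex.contDiff_exp.comp ?_
    refine ContDiff.mul ?_ contDiff_const
    have h1 : ContDiff ℝ ∞ fun ξ : ℝ => 2 * Real.pi * ξ * x₀ :=
      (contDiff_const.mul contDiff_id).mul contDiff_const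
    exact Complex.ofRealCLM.contDiff.comp h1
  · exact hB.2.mul_right

theorem md_four (B : ℝ → ℂ) (x₀ x : ℝ) : 𝓕 (md B x₀) x = 𝓕 B (x - x₀) := by
  rw [Real.fourier_real_eq_integral_exp_smul, Real.fourier_real_eq_integral_exp_smul]
  refine integral_congr_ae (Eventually.of_forall fun ξ => ?_)
  simp only [md, smul_eq_mul]
  rw [mul_comm (B ξ), ← mul_assoc, ← Complex.exp_add]
  congr 2
  push_cast
  ring

theorem int_w2 : Integrable fun x : ℝ => 1 / (1 + |x|) ^ 2 := by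
  have := integrable_one_add_norm (E := ℝ) (μ := volume) (r := 2) (by simp)
  refine this.congr (ae_of_all _ fun x => ?_)
  simp only [Real.norm_eq_abs]
  rw [Real.rpow_neg (by positivity), one_div]
  norm_cast

theorem fbound {f : ℝ × ℝ → ℂ} {c : ℝ} {m : ℕ} (h : ∀ x, ‖f x‖ ≤ c * (1 + ‖x‖ ^ m)) :
    ∃ c' : ℝ, 0 ≤ c' ∧ ∀ x y, ‖f (x, y)‖ ≤ c' * ((1 + |x|) ^ m * (1 + |y|) ^ m) := by
  refine ⟨2 * |c|, by positivity, fun x y => (h _).trans ?_⟩
  have h1 : ‖((x, y) : ℝ × ℝ)‖ ≤ (1 + |x|) * (1 + |y|) := by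
    rw [Prod.norm_def, Real.norm_eq_abs, Real.norm_eq_abs]
    have := mul_nonneg (abs_nonneg x) (abs_nonneg y)
    exact max_le (by nlinarith [abs_nonneg x, abs_nonneg y]) (by nlinarith [abs_nonneg x, abs_nonneg y])
  have h2 : ‖((x, y) : ℝ × ℝ)‖ ^ m ≤ (1 + |x|) ^ m * (1 + |y|) ^ m := by
    rw [← mul_pow]; exact pow_le_pow_left₀ (norm_nonneg _) h1 m
  have h3 : 1 ≤ (1 + |x|) ^ m * (1 + |y|) ^ m := by
    rw [← mul_pow]
    refine one_le_pow₀ ?_
    nlinarith [abs_nonneg x, abs_nonneg y, mul_nonneg (abs_nonneg x) (abs_nonneg y)]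
  have h4 : 0 ≤ 1 + ‖((x, y) : ℝ × ℝ)‖ ^ m := by positivity
  calc c * (1 + ‖((x, y) : ℝ × ℝ)‖ ^ m) ≤ |c| * (1 + ‖((x, y) : ℝ × ℝ)‖ ^ m) :=
        mul_le_mul_of_nonneg_right (le_abs_self c) h4
    _ ≤ |c| * ((1 + |x|) ^ m * (1 + |y|) ^ m + (1 + |x|) ^ m * (1 + |y|) ^ m) := by gcongr
    _ = 2 * |c| * ((1 + |x|) ^ m * (1 + |y|) ^ m) := by ring

theorem mulbound {f : ℝ × ℝ → ℂ} {c : ℝ} {m : ℕ} (hc : 0 ≤ c)
    (h : ∀ x y, ‖f (x, y)‖ ≤ c * ((1 + |x|) ^ m * (1 + |y|) ^ m)) {w : ℂ} {C : ℝ} (x y : ℝ)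
    (hC : ‖w‖ ≤ C / (1 + |y|) ^ (m + 2)) :
    ‖f (x, y) * w‖ ≤ c * C * (1 + |x|) ^ m * (1 / (1 + |y|) ^ 2) := by
  rw [norm_mul]
  have h1 : (0 : ℝ) < (1 + |y|) ^ m := by positivity
  have h2 : (0 : ℝ) < (1 + |y|) ^ 2 := by positivity
  calc ‖f (x, y)‖ * ‖w‖ ≤ (c * ((1 + |x|) ^ m * (1 + |y|) ^ m)) * (C / (1 + |y|) ^ (m + 2)) :=
        mul_le_mul (h x y) hC (norm_nonneg _) (by positivity)
    _ = c * C * (1 + |x|) ^ m * (1 / (1 + |y|) ^ 2) := by
      rw [pow_add]; field_simp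

/-- an integrable polynomial is zero -/
theorem poly_zero (P : Polynomial ℂ) (h : Integrable fun x : ℝ => P.eval (x : ℂ)) : P = 0 := by
  by_contra hP
  have key : ∃ c : ℝ, 0 < c ∧ ∀ᶠ x : ℝ in atTop, c ≤ ‖P.eval (x : ℂ)‖ := by
    by_cases hd : 0 < P.degree
    · have h1 : Tendsto (fun x : ℝ => ‖(x : ℂ)‖) atTop atTop := by
        simp only [Complex.norm_real]
        exact tendsto_norm_atTop_atTop
      exact ⟨1, one_pos, (P.tendsto_norm_atTop hd h1).eventually_ge_atTop 1⟩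
    · have h1 := Polynomial.eq_C_of_degree_le_zero (not_lt.1 hd)
      have h2 : P.coeff 0 ≠ 0 := by
        intro h0
        rw [h0, Polynomial.C_0] at h1
        exact hP h1
      refine ⟨‖P.coeff 0‖, norm_pos_iff.2 h2, Eventually.of_forall fun x => ?_⟩
      rw [h1]
      simp
  obtain ⟨c, hc, h1⟩ := key
  obtain ⟨x₀, hx₀⟩ := eventually_atTop.1 h1
  have h2 := h.measure_norm_ge_lt_top hc
  have h3 : volume (Ici x₀) ≤ volume {x : ℝ | c ≤ ‖P.eval (x : ℂ)‖} := measure_mono fun x hx => hx₀ x hx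
  rw [Real.volume_Ici] at h3
  exact absurd (h3.trans_lt h2) (lt_irrefl _)

/-- limits of polynomials of bounded degree -/
theorem poly_lim (q : ℕ) (P : ℕ → Polynomial ℂ) (hP : ∀ n, (P n).natDegree ≤ q) (S : Set ℝ) (g : ℝ → ℂ)
    (h : ∀ x ∈ S, Tendsto (fun n => (P n).eval (x : ℂ)) atTop (𝓝 (g x))) :
    ∃ Q : Polynomial ℂ, ∀ x ∈ S, Q.eval (x : ℂ) = g x := by
  let L : Polynomial ℂ →ₗ[ℂ] (S → ℂ) :=
    { toFun := fun P x => P.eval (((x : ℝ)) : ℂ)
      map_add' := fun P Q => by funext x; simp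
      map_smul' := fun c P => by funext x; simp }
  have : FiniteDimensional ℂ (Polynomial.degreeLT ℂ (q + 1)) :=
    Module.Finite.equiv (Polynomial.degreeLTEquiv ℂ (q + 1)).symm
  have : FiniteDimensional ℂ ((Polynomial.degreeLT ℂ (q + 1)).map L) := inferInstance
  have hcl : IsClosed (((Polynomial.degreeLT ℂ (q + 1)).map L : Submodule ℂ (S → ℂ)) : Set (S → ℂ)) :=
    Submodule.closed_of_finiteDimensional _
  have hmem : ∀ n, L (P n) ∈ (((Polynomial.degreeLT ℂ (q + 1)).map L : Submodule ℂ (S → ℂ)) : Set (S → ℂ)) := by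
    intro n
    refine Submodule.mem_map_of_mem ?_
    rw [Polynomial.mem_degreeLT]
    exact Polynomial.degree_lt_iff_coeff_zero _ _ |>.2 fun k hk =>
      Polynomial.coeff_eq_zero_of_natDegree_lt (by have := hP n; omega)
  have hlim : Tendsto (fun n => L (P n)) atTop (𝓝 (fun x : S => g x)) := by
    rw [tendsto_pi_nhds]
    exact fun x => h x x.2
  have h1 := hcl.mem_of_tendsto hlim (Eventually.of_forall hmem)
  obtain ⟨Q, -, hQ⟩ := h1
  exact ⟨Q, fun x hx => congrFun hQ ⟨x, hx⟩⟩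

theorem main (hpol : S_POL) : S_EVL := by
  intro f hf ⟨c₀, m, hc₀⟩ hint hzero
  obtain ⟨c, hc, hfb⟩ := fbound hc₀
  obtain ⟨q, hq⟩ := hpol (m + 2)
  obtain ⟨X, hX, hX0⟩ := cutoff
  obtain ⟨C, hC, hCb⟩ := sw_bound (𝓕 (hX.2.toSchwartzMap hX.1)) (m + 2)
  have hψc : Continuous (𝓕 X) := (𝓕 (hX.2.toSchwartzMap hX.1)).continuous
  have hψb : ∀ y, ‖𝓕 X y‖ ≤ C / (1 + |y|) ^ (m + 2) := hCb
  have hψi : Integrable (𝓕 X) := by
    have := (𝓕 (hX.2.toSchwartzMap hX.1)).integrable (μ := volume)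
    rwa [SchwartzMap.fourier_coe] at this
  have hψ1 : ∫ s : ℝ, 𝓕 X s = 1 := by
    have hXi : Integrable X := hX.1.continuous.integrable_of_hasCompactSupport hX.2
    have h1 := congrFun (hX.1.continuous.fourierInv_fourier_eq hXi hψi) 0
    rw [hX0, Real.fourierInv_eq] at h1
    simpa using h1
  suffices hmain : ∀ y₀ : ℝ, ∀ x, f (x, y₀) = 0 by
    rintro ⟨x, y⟩
    exact hmain y x
  intro y₀
  set r : ℕ → ℝ := fun n => 1 / ((n : ℝ) + 1) with hr
  have hr0 : ∀ n, 0 < r n := fun n => by simp only [hr]; positivity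
  have hr1 : ∀ n, r n ≤ 1 := fun n => by
    simp only [hr]; rw [div_le_one (by positivity)]; linarith [(Nat.cast_nonneg n : (0 : ℝ) ≤ n)]
  set B : ℕ → ℝ → ℂ := fun n => md (fun ξ => X (r n * ξ)) y₀ with hB
  have hBsm : ∀ n, Sm (B n) := fun n => md_sm (sm_scale hX (hr0 n).ne') y₀
  have hBf : ∀ n y, 𝓕 (B n) y = ((r n)⁻¹ : ℂ) * 𝓕 X ((r n)⁻¹ * (y - y₀)) := by
    intro n y
    rw [hB, md_four, fourier_scale X (hr0 n)]
  have hgood : ∀ A : ℝ → ℂ, Sm A → Continuous (𝓕 A) ∧ ∃ C : ℝ, 0 ≤ C ∧ ∀ y, ‖𝓕 A y‖ ≤ C / (1 + |y|) ^ (m + 2) := by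
    intro A hA
    exact ⟨(𝓕 (hA.2.toSchwartzMap hA.1)).continuous, sw_bound (𝓕 (hA.2.toSchwartzMap hA.1)) (m + 2)⟩
  -- the means
  set g : ℕ → ℝ → ℂ := fun n x => ∫ y : ℝ, f (x, y) * 𝓕 (B n) y with hg
  have hpoly : ∀ n, ∃ P : Polynomial ℂ, P.natDegree ≤ q ∧ g n =ᵐ[volume] fun x => P.eval (x : ℂ) := by
    intro n
    obtain ⟨hBc, D, hD, hDb⟩ := hgood (B n) (hBsm n)
    refine hq (g n) ?_ ?_ ?_
    · have h1 : StronglyMeasurable (Function.uncurry fun x y : ℝ => f (x, y) * 𝓕 (B n) y) := by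
        have : Continuous (Function.uncurry fun x y : ℝ => f (x, y) * 𝓕 (B n) y) :=
          (hf.comp (continuous_fst.prodMk continuous_snd)).mul (hBc.comp continuous_snd)
        exact this.stronglyMeasurable
      exact h1.integral_prod_right.measurable
    · set I : ℝ := ∫ y : ℝ, 1 / (1 + |y|) ^ 2 with hI
      have h1 : ∀ x, ‖g n x‖ ≤ c * D * (1 + |x|) ^ m * I := by
        intro x
        rw [hI, ← integral_const_mul]
        exact norm_integral_le_of_norm_le (int_w2.const_mul _)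
          (Eventually.of_forall fun y => mulbound hc hfb x y (hDb y))
      have h2 : ∀ x, ‖g n x‖ / (1 + |x|) ^ (m + 2) ≤ c * D * I * (1 / (1 + |x|) ^ 2) := by
        intro x
        rw [div_le_iff₀ (by positivity)]
        refine (h1 x).trans (le_of_eq ?_)
        rw [pow_add]; field_simp
      have h3 : Integrable fun x : ℝ => c * D * I * (1 / (1 + |x|) ^ 2) := int_w2.const_mul _
      refine lt_of_le_of_lt (lintegral_mono fun x => ENNReal.ofReal_le_ofReal (h2 x)) ?_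
      exact h3.lintegral_lt_top
    · intro A hA hA0
      obtain ⟨hAc, D', hD', hDb'⟩ := hgood A hA
      have h1 : Integrable (fun p : ℝ × ℝ => f p * (𝓕 A p.1 * 𝓕 (B n) p.2)) := by
        have h2 := (int_w2.mul_prod int_w2).const_mul (c * D' * D)
        refine h2.mono' ?_ (Eventually.of_forall fun p => ?_)
        · exact (hf.mul ((hAc.comp continuous_fst).mul (hBc.comp continuous_snd))).aestronglyMeasurable
        · obtain ⟨x, y⟩ := p
          show ‖f (x, y) * (𝓕 A x * 𝓕 (B n) y)‖ ≤ c * D' * D * (1 / (1 + |x|) ^ 2 * (1 / (1 + |y|) ^ 2))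
          have h3 := mulbound hc hfb x y (hDb y)
          have h4 : ‖f (x, y) * (𝓕 A x * 𝓕 (B n) y)‖ = ‖f (x, y) * 𝓕 (B n) y‖ * ‖𝓕 A x‖ := by
            rw [norm_mul, norm_mul, norm_mul]; ring
          rw [h4]
          calc ‖f (x, y) * 𝓕 (B n) y‖ * ‖𝓕 A x‖
              ≤ (c * D * (1 + |x|) ^ m * (1 / (1 + |y|) ^ 2)) * (D' / (1 + |x|) ^ (m + 2)) :=
                mul_le_mul h3 (hDb' x) (norm_nonneg _) (by positivity)
            _ = c * D' * D * (1 / (1 + |x|) ^ 2 * (1 / (1 + |y|) ^ 2)) := by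
              rw [pow_add]; field_simp
      have h2 := hzero A (B n) hA hA0 (hBsm n)
      rw [Measure.volume_eq_prod] at h1 h2
      rw [integral_prod _ h1] at h2
      rw [← h2]
      refine integral_congr_ae (Eventually.of_forall fun x => ?_)
      simp only [hg]
      rw [← integral_mul_const]
      refine integral_congr_ae (Eventually.of_forall fun y => ?_)
      simp only
      ring
  -- the limit
  have hlim : ∀ x, Tendsto (fun n => g n x) atTop (𝓝 (f (x, y₀))) := by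
    intro x
    have h1 : ∀ n, g n x = ∫ s : ℝ, f (x, y₀ + r n * s) * 𝓕 X s := by
      intro n
      have hrn := hr0 n
      set G : ℝ → ℂ := fun s => f (x, y₀ + r n * s) * 𝓕 X s with hG
      have h2 : g n x = ∫ y : ℝ, ((r n)⁻¹ : ℂ) * G ((r n)⁻¹ * (y - y₀)) := by
        simp only [hg]
        refine integral_congr_ae (Eventually.of_forall fun y => ?_)
        simp only [hG]
        rw [hBf, show y₀ + r n * ((r n)⁻¹ * (y - y₀)) = y by field_simp; ring]
        ring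
      rw [h2, integral_const_mul, integral_sub_right_eq_self (fun y => G ((r n)⁻¹ * y)) y₀,
        Measure.integral_comp_mul_left G (r n)⁻¹, inv_inv, abs_of_pos hrn, Complex.real_smul, ← mul_assoc]
      rw [inv_mul_cancel₀ (by exact_mod_cast hrn.ne'), one_mul]
    simp only [h1]
    have h3 : f (x, y₀) = ∫ s : ℝ, f (x, y₀) * 𝓕 X s := by
      rw [integral_const_mul, hψ1, mul_one]
    rw [h3]
    refine tendsto_integral_of_dominated_convergence
      (fun s => c * C * ((1 + |x|) ^ m * (1 + |y₀|) ^ m) * (1 / (1 + |s|) ^ 2)) ?_ (int_w2.const_mul _) ?_ ?_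
    · intro n
      exact ((hf.comp (by fun_prop)).mul hψc).aestronglyMeasurable
    · intro n
      refine Eventually.of_forall fun s => ?_
      rw [norm_mul]
      have h4 : 1 + |y₀ + r n * s| ≤ (1 + |y₀|) * (1 + |s|) := by
        have h5 : |y₀ + r n * s| ≤ |y₀| + |s| := by
          refine (abs_add_le _ _).trans ?_
          rw [abs_mul, abs_of_pos (hr0 n)]
          have := mul_le_mul_of_nonneg_right (hr1 n) (abs_nonneg s)
          linarith
        nlinarith [mul_nonneg (abs_nonneg y₀) (abs_nonneg s)]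
      have h6 : (1 + |y₀ + r n * s|) ^ m ≤ (1 + |y₀|) ^ m * (1 + |s|) ^ m := by
        rw [← mul_pow]; exact pow_le_pow_left₀ (by positivity) h4 m
      calc ‖f (x, y₀ + r n * s)‖ * ‖𝓕 X s‖
          ≤ (c * ((1 + |x|) ^ m * ((1 + |y₀|) ^ m * (1 + |s|) ^ m))) * (C / (1 + |s|) ^ (m + 2)) := by
            refine mul_le_mul ((hfb _ _).trans ?_) (hψb s) (norm_nonneg _) (by positivity)
            gcongr
        _ = c * C * ((1 + |x|) ^ m * (1 + |y₀|) ^ m) * (1 / (1 + |s|) ^ 2) := by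
          rw [pow_add]; field_simp
    · refine Eventually.of_forall fun s => ?_
      refine Tendsto.mul_const _ ?_
      have h7 : Tendsto (fun n => y₀ + r n * s) atTop (𝓝 (y₀ + 0 * s)) :=
        (tendsto_one_div_add_atTop_nhds_zero_nat.mul_const s).const_add y₀
      rw [zero_mul, add_zero] at h7
      have h8 : Tendsto (fun n => ((x, y₀ + r n * s) : ℝ × ℝ)) atTop (𝓝 (x, y₀)) :=
        tendsto_const_nhds.prodMk_nhds h7
      exact (hf.tendsto _).comp h8
  choose P hP1 hP2 using hpoly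
  have hS : ∀ᵐ x : ℝ, x ∈ {x : ℝ | ∀ n, g n x = (P n).eval (x : ℂ)} := ae_all_iff.2 hP2
  obtain ⟨Q, hQ⟩ := poly_lim q P hP1 {x : ℝ | ∀ n, g n x = (P n).eval (x : ℂ)} (fun x => f (x, y₀)) (by
    intro x hx
    refine (hlim x).congr fun n => hx n)
  have h1 : (fun x : ℝ => f (x, y₀)) =ᵐ[volume] fun x => Q.eval (x : ℂ) := by
    filter_upwards [hS] with x hx
    exact (hQ x hx).symm
  have hQ0 : Q = 0 := poly_zero Q ((hint y₀).congr h1)
  have h2 : (fun x : ℝ => f (x, y₀)) =ᵐ[volume] fun _ => 0 := by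
    filter_upwards [h1] with x hx
    rw [hx, hQ0, Polynomial.eval_zero]
  have h3 := (Continuous.ae_eq_iff_eq volume (hf.comp (continuous_id.prodMk continuous_const)) continuous_const).1 h2
  exact fun x => congrFun h3 x

end Pool.Agent.H77.RT.T.EVL
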