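import Pool.Agent.H77.RT.Stm3
import Pool.Agent.H77.RT.T.IDG
import Pool.Agent.H77.RT.T.PAI

/-! # Project RT, stub FTK -/

set_option autoImplicit false

namespace Pool.Agent.H77.RT.T.FTK

open MeasureTheory Filter Topology Set
open scoped ENNReal ContDiff FourierTransform RealInnerProductSpace
open Pool.Agent.H77.RT.T.IDF (E E_norm E_add E_cont four)
open Pool.Agent.H77.RT.T.PAI (nice_cont kern_meas)

abbrev V := WithLp 2 (ℝ × ℝ)

theorem FT_E (Φ : ℝ × ℝ → ℂ) (x : ℝ × ℝ) :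
    FT Φ x = ∫ m : ℝ × ℝ, Φ m * E (-(m.1 * x.1 + m.2 * x.2)) := by
  unfold FT E
  refine integral_congr_ae (ae_of_all _ fun m => ?_)
  simp only
  congr 3
  push_cast
  ring

theorem ft_sch {Φ : ℝ × ℝ → ℂ} (hΦ : Sm2 Φ) :
    ∃ S : SchwartzMap V ℂ, (∀ x : ℝ × ℝ, FT Φ x = S (WithLp.toLp 2 x)) ∧
      ∀ w : ℝ × ℝ, ∫ x : ℝ × ℝ, FT Φ x * E (w.1 * x.1 + w.2 * x.2) = Φ w := by
  have hs : ContDiff ℝ ∞ (fun v : V => Φ (WithLp.ofLp v)) := by
    refine hΦ.1.comp ?_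
    exact (WithLp.prodContinuousLinearEquiv 2 ℝ ℝ ℝ).contDiff
  have hc : HasCompactSupport (fun v : V => Φ (WithLp.ofLp v)) :=
    hΦ.2.comp_homeomorph (WithLp.prodContinuousLinearEquiv 2 ℝ ℝ ℝ).toHomeomorph
  set P : SchwartzMap V ℂ := hc.toSchwartzMap hs with hP
  have hPa : ∀ v : V, P v = Φ (WithLp.ofLp v) := fun v => rfl
  have h1 : ∀ x : ℝ × ℝ, FT Φ x = (𝓕 P) (WithLp.toLp 2 x) := by
    intro x
    rw [FT_E, SchwartzMap.fourier_coe, Real.fourier_eq',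
      ← (WithLp.volume_preserving_ofLp ℝ ℝ).integral_comp
        (WithLp.prodContinuousLinearEquiv 2 ℝ ℝ ℝ).toHomeomorph.measurableEmbedding]
    refine integral_congr_ae (ae_of_all _ fun v => ?_)
    simp only [WithLp.prod_inner_apply, smul_eq_mul, hPa]
    rw [mul_comm]
    unfold E
    congr 2
    simp only [RCLike.inner_apply, conj_trivial]
    push_cast
    ring
  refine ⟨𝓕 P, h1, fun w => ?_⟩
  have h2 : 𝓕⁻ (𝓕 (P : V → ℂ)) = (P : V → ℂ) :=
    P.continuous.fourierInv_fourier_eq P.integrable (by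
      rw [← SchwartzMap.fourier_coe]; exact (𝓕 P).integrable)
  have h3 := congrFun h2 (WithLp.toLp 2 w)
  rw [Real.fourierInv_eq', hPa] at h3
  have h4 : Φ (WithLp.ofLp (WithLp.toLp 2 w)) = Φ w := rfl
  rw [h4] at h3
  rw [← h3, ← (WithLp.volume_preserving_ofLp ℝ ℝ).integral_comp
        (WithLp.prodContinuousLinearEquiv 2 ℝ ℝ ℝ).toHomeomorph.measurableEmbedding]
  refine integral_congr_ae (ae_of_all _ fun v => ?_)
  simp only [WithLp.prod_inner_apply, smul_eq_mul]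
  rw [h1, SchwartzMap.fourier_coe, mul_comm]
  unfold E
  congr 2

/-- weighted integrability -/
theorem ft_int {Φ : ℝ × ℝ → ℂ} {S : SchwartzMap V ℂ} (hS : ∀ x : ℝ × ℝ, FT Φ x = S (WithLp.toLp 2 x))
    (N : ℕ) : Integrable fun x : ℝ × ℝ => (1 + |x.1| + |x.2|) ^ N * ‖FT Φ x‖ := by
  have hme := (WithLp.prodContinuousLinearEquiv 2 ℝ ℝ ℝ).toHomeomorph.measurableEmbedding
  rw [← (WithLp.volume_preserving_ofLp ℝ ℝ).integrable_comp_emb hme]
  have h1 : Integrable fun v : V => ‖v‖ ^ N * ‖S v‖ := S.integrable_pow_mul volume N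
  have h2 : Integrable fun v : V => ‖S v‖ := S.integrable.norm
  have hc1 : Continuous fun v : V => (WithLp.ofLp v) :=
    (WithLp.prodContinuousLinearEquiv 2 ℝ ℝ ℝ).continuous
  have hcomp : ∀ v : V, |(WithLp.ofLp v).1| ≤ ‖v‖ ∧ |(WithLp.ofLp v).2| ≤ ‖v‖ := by
    intro v
    have h3 : ‖v‖ ^ 2 = |(WithLp.ofLp v).1| ^ 2 + |(WithLp.ofLp v).2| ^ 2 :=
      WithLp.prod_norm_sq_eq_of_L2 v
    have h4 : |(WithLp.ofLp v).1| ^ 2 ≤ ‖v‖ ^ 2 := by
      rw [h3]
      nlinarith [sq_nonneg |(WithLp.ofLp v).2|]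
    have h5 : |(WithLp.ofLp v).2| ^ 2 ≤ ‖v‖ ^ 2 := by
      rw [h3]
      nlinarith [sq_nonneg |(WithLp.ofLp v).1|]
    exact ⟨abs_le_of_sq_le_sq' h4 (norm_nonneg _) |>.2, abs_le_of_sq_le_sq' h5 (norm_nonneg _) |>.2⟩
  refine (((h2.add h1).const_mul (2 ^ (N - 1) * 2 ^ N))).mono' ?_ (Eventually.of_forall fun v => ?_)
  · have : Continuous fun v : V => (1 + |(WithLp.ofLp v).1| + |(WithLp.ofLp v).2|) ^ N * ‖S v‖ := by
      have := S.continuous
      fun_prop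
    refine this.aestronglyMeasurable.congr (ae_of_all _ fun v => ?_)
    simp only [Function.comp, hS]
  · simp only [Function.comp, Pi.add_apply]
    rw [hS, Real.norm_of_nonneg (by positivity)]
    obtain ⟨h3, h4⟩ := hcomp v
    have h5 : (1 + |(WithLp.ofLp v).1| + |(WithLp.ofLp v).2|) ^ N ≤ (2 * (1 + ‖v‖)) ^ N :=
      pow_le_pow_left₀ (by positivity) (by linarith) N
    have h6 : (1 + ‖v‖) ^ N ≤ 2 ^ (N - 1) * (1 ^ N + ‖v‖ ^ N) :=
      add_pow_le (by norm_num) (norm_nonneg _) N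
    rw [mul_pow] at h5
    rw [one_pow] at h6
    have h7 : WithLp.toLp 2 (WithLp.ofLp v) = v := rfl
    rw [h7]
    calc _ ≤ (2 ^ N * (1 + ‖v‖) ^ N) * ‖S v‖ := mul_le_mul_of_nonneg_right h5 (norm_nonneg _)
      _ ≤ (2 ^ N * (2 ^ (N - 1) * (1 + ‖v‖ ^ N))) * ‖S v‖ := by gcongr
      _ = _ := by ring

theorem ft_integrable {Φ : ℝ × ℝ → ℂ} {S : SchwartzMap V ℂ}
    (hS : ∀ x : ℝ × ℝ, FT Φ x = S (WithLp.toLp 2 x)) : Integrable (FT Φ) := by
  have hme := (WithLp.prodContinuousLinearEquiv 2 ℝ ℝ ℝ).toHomeomorph.measurableEmbedding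
  rw [← (WithLp.volume_preserving_ofLp ℝ ℝ).integrable_comp_emb hme]
  refine (S.integrable (μ := volume)).congr (ae_of_all _ fun v => ?_)
  simp only [Function.comp, hS]

theorem kern_E (g : ℝ → ℂ) (Θ : ℝ → ℝ) (hg : Integrable g) (hΘ : Integrable fun k => (Θ k : ℂ))
    (u w : ℝ) :
    kern (𝓕 g) Θ u w = ∫ z : ℝ × ℝ, ((Θ z.1 : ℂ) * g z.2) * E (-(z.2 * (u - z.1 * w))) := by
  have hi : Integrable (fun z : ℝ × ℝ => ((Θ z.1 : ℂ) * g z.2) * E (-(z.2 * (u - z.1 * w))))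
      ((volume : Measure ℝ).prod (volume : Measure ℝ)) := by
    have h1 := (hΘ.mul_prod hg).bdd_mul (c := 1)
      (f := fun z : ℝ × ℝ => E (-(z.2 * (u - z.1 * w))))
      ((E_cont.comp (by fun_prop)).aestronglyMeasurable) (ae_of_all _ fun z => (E_norm _).le)
    refine h1.congr (ae_of_all _ fun z => ?_)
    simp only
    ring
  rw [Measure.volume_eq_prod, integral_prod _ hi]
  unfold kern
  refine integral_congr_ae (ae_of_all _ fun k => ?_)
  simp only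
  rw [four, ← integral_const_mul]
  refine integral_congr_ae (ae_of_all _ fun ξ => ?_)
  simp only
  ring

theorem ident {Φ : ℝ × ℝ → ℂ} (hΦ : Sm2 Φ) (F Θ : ℝ → ℝ)
    (hg : Integrable fun ξ : ℝ => ((|ξ| * F ξ : ℝ) : ℂ)) (hΘ : Integrable fun k => (Θ k : ℂ))
    (h0 : ∀ η, Φ (0, η) = 0) (h1 : ∀ ξ η, Φ (ξ, η) ≠ 0 → F ξ = 1 ∧ Θ (-η / ξ) = 1) (q : ℝ × ℝ) :
    ∫ p : ℝ × ℝ, FT Φ p * kern (𝓕 fun ξ : ℝ => ((|ξ| * F ξ : ℝ) : ℂ)) Θ (q.1 - p.1) (q.2 - p.2) =
      FT Φ q := by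
  obtain ⟨S, hS, hinv⟩ := ft_sch hΦ
  have hFi := ft_integrable hS
  set g : ℝ → ℂ := fun ξ : ℝ => ((|ξ| * F ξ : ℝ) : ℂ) with hgd
  have hpr : Integrable (fun z : ℝ × ℝ => (Θ z.1 : ℂ) * g z.2) (volume : Measure (ℝ × ℝ)) :=
    hΘ.mul_prod hg
  have hswap : Integrable (fun w : (ℝ × ℝ) × (ℝ × ℝ) => FT Φ w.1 *
      (((Θ w.2.1 : ℂ) * g w.2.2) * E (-(w.2.2 * (q.1 - w.1.1 - w.2.1 * (q.2 - w.1.2))))))
      ((volume : Measure (ℝ × ℝ)).prod (volume : Measure (ℝ × ℝ))) := by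
    have h2 := (hFi.mul_prod hpr).bdd_mul (c := 1)
      (f := fun w : (ℝ × ℝ) × (ℝ × ℝ) => E (-(w.2.2 * (q.1 - w.1.1 - w.2.1 * (q.2 - w.1.2)))))
      ((E_cont.comp (by fun_prop)).aestronglyMeasurable) (ae_of_all _ fun z => (E_norm _).le)
    refine h2.congr (ae_of_all _ fun z => ?_)
    simp only
    ring
  have e1 : ∫ p : ℝ × ℝ, FT Φ p * kern (𝓕 g) Θ (q.1 - p.1) (q.2 - p.2) =
      ∫ p : ℝ × ℝ, ∫ z : ℝ × ℝ, FT Φ p *
        (((Θ z.1 : ℂ) * g z.2) * E (-(z.2 * (q.1 - p.1 - z.1 * (q.2 - p.2))))) := by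
    refine integral_congr_ae (ae_of_all _ fun p => ?_)
    simp only
    rw [kern_E g Θ hg hΘ, integral_const_mul]
  rw [e1, integral_integral_swap hswap]
  have e2 : ∀ z : ℝ × ℝ, ∫ p : ℝ × ℝ, FT Φ p *
        (((Θ z.1 : ℂ) * g z.2) * E (-(z.2 * (q.1 - p.1 - z.1 * (q.2 - p.2))))) =
      ((Θ z.1 : ℂ) * g z.2) * (E (-(z.2 * (q.1 - z.1 * q.2))) * Φ (z.2, -z.2 * z.1)) := by
    intro z
    rw [← hinv (z.2, -z.2 * z.1), ← mul_assoc, ← integral_const_mul]
    refine integral_congr_ae (ae_of_all _ fun p => ?_)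
    simp only
    have : E (-(z.2 * (q.1 - p.1 - z.1 * (q.2 - p.2)))) =
        E (-(z.2 * (q.1 - z.1 * q.2))) * E (z.2 * p.1 + -z.2 * z.1 * p.2) := by
      rw [← E_add]; congr 1; ring
    rw [this]; ring
  rw [integral_congr_ae (ae_of_all _ e2)]
  obtain ⟨C, hC⟩ := hΦ.1.continuous.bounded_above_of_compact_support hΦ.2
  have hi3 : Integrable (fun z : ℝ × ℝ => ((Θ z.1 : ℂ) * g z.2) *
      (E (-(z.2 * (q.1 - z.1 * q.2))) * Φ (z.2, -z.2 * z.1)))
      ((volume : Measure ℝ).prod (volume : Measure ℝ)) := by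
    have hcont : Continuous fun z : ℝ × ℝ =>
        E (-(z.2 * (q.1 - z.1 * q.2))) * Φ (z.2, -z.2 * z.1) :=
      (E_cont.comp (by fun_prop)).mul (hΦ.1.continuous.comp (by fun_prop))
    have h2 := (hΘ.mul_prod hg).bdd_mul (c := C) hcont.aestronglyMeasurable
      (ae_of_all _ fun z => by rw [norm_mul, E_norm, one_mul]; exact hC _)
    refine h2.congr (ae_of_all _ fun z => ?_)
    simp only
    ring
  rw [Measure.volume_eq_prod, integral_prod_symm _ hi3, FT_E, Measure.volume_eq_prod,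
    integral_prod]
  · refine integral_congr_ae (ae_of_all _ fun ξ => ?_)
    simp only
    by_cases hξ : ξ = 0
    · subst hξ
      simp [hgd, h0]
    · have h4 := Measure.integral_comp_mul_left
        (fun η : ℝ => (((Θ (-η / ξ) : ℝ) : ℂ) * g ξ) * (E (-(ξ * q.1 + η * q.2)) * Φ (ξ, η))) (-ξ)
      have h5 : ∀ k : ℝ, (((Θ (-(-ξ * k) / ξ) : ℝ) : ℂ) * g ξ) *
          (E (-(ξ * q.1 + -ξ * k * q.2)) * Φ (ξ, -ξ * k)) =
          ((Θ k : ℂ) * g ξ) * (E (-(ξ * (q.1 - k * q.2))) * Φ (ξ, -ξ * k)) := by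
        intro k
        have e3 : -(-ξ * k) / ξ = k := by field_simp
        have e4 : -(ξ * q.1 + -ξ * k * q.2) = -(ξ * (q.1 - k * q.2)) := by ring
        rw [e3, e4]
      rw [integral_congr_ae (ae_of_all _ h5)] at h4
      rw [h4, ← integral_smul]
      refine integral_congr_ae (ae_of_all _ fun η => ?_)
      simp only
      by_cases hz : Φ (ξ, η) = 0
      · rw [hz]; simp
      · obtain ⟨h6, h7⟩ := h1 ξ η hz
        have h8 : |(-ξ)⁻¹| * |ξ| = 1 := by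
          rw [abs_inv, abs_neg, inv_mul_cancel₀ (abs_ne_zero.2 hξ)]
        rw [h7, hgd]
        simp only [h6, mul_one, Complex.ofReal_one, one_mul, Complex.real_smul]
        rw [← mul_assoc, ← Complex.ofReal_mul, h8, Complex.ofReal_one, one_mul, mul_comm]
  · have hcont : Continuous fun m : ℝ × ℝ => Φ m * E (-(m.1 * q.1 + m.2 * q.2)) :=
      hΦ.1.continuous.mul (E_cont.comp (by fun_prop))
    exact hcont.integrable_of_hasCompactSupport (hΦ.2.mul_right)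

theorem main (h : S_KER) (hb : S_BNI) (hs : S_SHR) : S_FTK := by
  intro f N U hf hT hU hV Φ hΦ hm
  have hK1 : IsCompact (Prod.fst '' tsupport Φ) := hΦ.2.isCompact.image continuous_fst
  have hK2 : IsCompact ((fun m : ℝ × ℝ => -m.2 / m.1) '' tsupport Φ) := by
    refine hΦ.2.isCompact.image_of_continuousOn ?_
    exact ContinuousOn.div (by fun_prop) (by fun_prop) fun m hmm => (hm m hmm).1
  obtain ⟨F, hFs, hFc, hFU, hF1⟩ := Pool.Agent.H77.RT.T.IDG.exists_one hK1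
    (isOpen_compl_singleton (x := (0 : ℝ))) (by
      rintro _ ⟨m, hmm, rfl⟩
      exact (hm m hmm).1)
  obtain ⟨Θ, hΘs, hΘc, hΘU, hΘ1⟩ := Pool.Agent.H77.RT.T.IDG.exists_one hK2 hU (by
    rintro _ ⟨m, hmm, rfl⟩
    exact (hm m hmm).2)
  have hF0 : (0 : ℝ) ∉ tsupport F := fun h => hFU h rfl
  -- smoothness of `g`
  have hgr : ContDiff ℝ ∞ (fun ξ : ℝ => |ξ| * F ξ) := by
    rw [contDiff_iff_contDiffAt]
    intro ξ
    by_cases hξ : ξ = 0
    · subst hξ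
      refine (contDiffAt_const (c := (0 : ℝ))).congr_of_eventuallyEq ?_
      filter_upwards [notMem_tsupport_iff_eventuallyEq.1 hF0] with ξ h
      rw [h]
      simp
    · exact (contDiffAt_abs hξ).mul hFs.contDiffAt
  have hgs : ContDiff ℝ ∞ (fun ξ : ℝ => ((|ξ| * F ξ : ℝ) : ℂ)) :=
    Complex.ofRealCLM.contDiff.comp hgr
  have hgc0 : HasCompactSupport (fun ξ : ℝ => |ξ| * F ξ) := hFc.mul_left
  have hgc : HasCompactSupport (fun ξ : ℝ => ((|ξ| * F ξ : ℝ) : ℂ)) :=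
    hgc0.comp_left (g := fun r : ℝ => (r : ℂ)) Complex.ofReal_zero
  have hgt : (0 : ℝ) ∉ tsupport (fun ξ : ℝ => ((|ξ| * F ξ : ℝ) : ℂ)) := by
    rw [notMem_tsupport_iff_eventuallyEq]
    filter_upwards [notMem_tsupport_iff_eventuallyEq.1 hF0] with ξ h
    rw [h]
    simp
  have hgi : Integrable (fun ξ : ℝ => ((|ξ| * F ξ : ℝ) : ℂ)) :=
    hgs.continuous.integrable_of_hasCompactSupport hgc
  have hΘi : Integrable (fun k => ((Θ k : ℝ) : ℂ)) :=
    (Complex.ofRealCLM.contDiff.comp hΘs).continuous.integrable_of_hasCompactSupport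
      (hΘc.comp_left (g := fun r : ℝ => (r : ℂ)) Complex.ofReal_zero)
  have haB : Band (𝓕 fun ξ : ℝ => ((|ξ| * F ξ : ℝ) : ℂ)) := ⟨_, ⟨hgs, hgc⟩, hgt, rfl⟩
  have hid := ident hΦ F Θ hgi hΘi (fun η => by
    by_contra hne
    exact (hm (0, η) (subset_tsupport Φ hne)).1 rfl) (fun ξ η hne =>
      ⟨hF1 ξ ⟨(ξ, η), subset_tsupport Φ hne, rfl⟩, hΘ1 _ ⟨(ξ, η), subset_tsupport Φ hne, rfl⟩⟩)
  generalize (𝓕 fun ξ : ℝ => ((|ξ| * F ξ : ℝ) : ℂ)) = a at haB hid
  have ha : Nice a := hb a haB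
  have hΘT : Test Θ := ⟨hΘs, hΘc⟩
  obtain ⟨C, hC⟩ := h a ha Θ hΘT N
  obtain ⟨S, hS, -⟩ := ft_sch hΦ
  have hC0 : 0 ≤ C := by
    have h1 := (norm_nonneg _).trans (hC 0 0)
    simpa using h1
  have hk : ∀ x y s t : ℝ, ‖kern a Θ (x - s) (y - t)‖ ≤
      C * (1 + |s| + |t|) ^ N / (1 + |x| + |y|) ^ N := by
    intro x y s t
    refine (hC (x - s) (y - t)).trans ?_
    have h1 : 1 + |x| + |y| ≤ (1 + |s| + |t|) * (1 + |x - s| + |y - t|) := by
      have h2 : |y| ≤ |y - t| + |t| := by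
        have := abs_add_le (y - t) t
        simpa using this
      have h3 : |x| ≤ |x - s| + |s| := by
        have := abs_add_le (x - s) s
        simpa using this
      have h4 := abs_nonneg (x - s)
      have h5 := abs_nonneg (y - t)
      have h6 := abs_nonneg s
      have h7 := abs_nonneg t
      nlinarith [mul_nonneg h6 h4, mul_nonneg h6 h5, mul_nonneg h7 h4, mul_nonneg h7 h5]
    have h2 : (1 + |x| + |y|) ^ N ≤ (1 + |s| + |t|) ^ N * (1 + |x - s| + |y - t|) ^ N := by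
      rw [← mul_pow]
      exact pow_le_pow_left₀ (by positivity) h1 N
    rw [div_le_div_iff₀ (by positivity) (by positivity), mul_assoc]
    exact mul_le_mul_of_nonneg_left h2 hC0
  have hmeas : StronglyMeasurable fun p : (ℝ × ℝ) × (ℝ × ℝ) =>
      kern a Θ (p.1.1 - p.2.1) (p.1.2 - p.2.2) := by
    have h1 : Measurable fun p : (ℝ × ℝ) × (ℝ × ℝ) => (p.1.1 - p.2.1, p.1.2 - p.2.2) := by fun_prop
    exact (kern_meas ha hΘT).comp_measurable h1
  have hFTm : StronglyMeasurable (FT Φ) := by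
    have h1 : FT Φ = fun x : ℝ × ℝ => S (WithLp.toLp 2 x) := funext hS
    rw [h1]
    have h2 : Continuous fun x : ℝ × ℝ => (WithLp.toLp 2 x : V) :=
      (WithLp.prodContinuousLinearEquiv 2 ℝ ℝ ℝ).symm.continuous
    have h3 : Continuous fun x : ℝ × ℝ => S (WithLp.toLp 2 x) := S.continuous.comp h2
    exact h3.stronglyMeasurable
  have hint : Integrable (fun p : (ℝ × ℝ) × (ℝ × ℝ) =>
      f p.1 * (FT Φ p.2 * kern a Θ (p.1.1 - p.2.1) (p.1.2 - p.2.2)))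
      ((volume : Measure (ℝ × ℝ)).prod (volume : Measure (ℝ × ℝ))) := by
    have h1 := (hT.mul_prod (ft_int hS N)).const_mul C
    refine h1.mono' ?_ (Eventually.of_forall fun p => ?_)
    · have m1 : AEStronglyMeasurable (fun p : (ℝ × ℝ) × (ℝ × ℝ) => f p.1)
          ((volume : Measure (ℝ × ℝ)).prod (volume : Measure (ℝ × ℝ))) :=
        (hf.comp measurable_fst).aestronglyMeasurable
      have m2 : AEStronglyMeasurable (fun p : (ℝ × ℝ) × (ℝ × ℝ) => FT Φ p.2)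
          ((volume : Measure (ℝ × ℝ)).prod (volume : Measure (ℝ × ℝ))) :=
        (hFTm.comp_measurable measurable_snd).aestronglyMeasurable
      have m3 : AEStronglyMeasurable (fun p : (ℝ × ℝ) × (ℝ × ℝ) =>
          kern a Θ (p.1.1 - p.2.1) (p.1.2 - p.2.2))
          ((volume : Measure (ℝ × ℝ)).prod (volume : Measure (ℝ × ℝ))) :=
        hmeas.aestronglyMeasurable
      exact m1.mul (m2.mul m3)
    · rw [norm_mul, norm_mul]
      calc ‖f p.1‖ * (‖FT Φ p.2‖ * ‖kern a Θ (p.1.1 - p.2.1) (p.1.2 - p.2.2)‖)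
          ≤ ‖f p.1‖ * (‖FT Φ p.2‖ * (C * (1 + |p.2.1| + |p.2.2|) ^ N /
              (1 + |p.1.1| + |p.1.2|) ^ N)) := by
            gcongr
            exact hk _ _ _ _
        _ = C * (‖f p.1‖ / (1 + |p.1.1| + |p.1.2|) ^ N *
              ((1 + |p.2.1| + |p.2.2|) ^ N * ‖FT Φ p.2‖)) := by ring
  have e1 : ∫ q : ℝ × ℝ, f q * FT Φ q =
      ∫ q : ℝ × ℝ, ∫ p : ℝ × ℝ, f q * (FT Φ p * kern a Θ (q.1 - p.1) (q.2 - p.2)) := by
    refine integral_congr_ae (Eventually.of_forall fun q => ?_)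
    simp only
    rw [integral_const_mul, hid q]
  rw [e1, integral_integral_swap hint]
  have e2 : ∀ p : ℝ × ℝ, ∫ q : ℝ × ℝ, f q * (FT Φ p * kern a Θ (q.1 - p.1) (q.2 - p.2)) = 0 := by
    intro p
    have e3 : ∫ q : ℝ × ℝ, f q * (FT Φ p * kern a Θ (q.1 - p.1) (q.2 - p.2)) =
        FT Φ p * ∫ q : ℝ × ℝ, f q * kern a Θ (q.1 - p.1) (q.2 - p.2) := by
      rw [← integral_const_mul]
      refine integral_congr_ae (Eventually.of_forall fun q => ?_)
      simp only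
      ring
    have e4 : ∫ q : ℝ × ℝ, f q * kern a Θ (q.1 - p.1) (q.2 - p.2) = 0 := by
      rw [← integral_add_right_eq_self _ ((0 : ℝ), p.2)]
      have h1 := hV p.2 (fun x => a (x - p.1)) (hs.2.2.1 a p.1 haB) Θ hΘT hΘU
      unfold T tr at h1
      rw [← h1]
      refine integral_congr_ae (Eventually.of_forall fun q => ?_)
      have e5 : q + ((0 : ℝ), p.2) = (q.1, q.2 + p.2) := by
        ext <;> simp
      have e6 : kern (fun x => a (x - p.1)) Θ q.1 q.2 = kern a Θ (q.1 - p.1) q.2 := by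
        unfold kern
        refine integral_congr_ae (Eventually.of_forall fun k => ?_)
        simp only
        congr 2
        ring
      simp only
      rw [e6, e5]
      simp
    rw [e3, e4, mul_zero]
  simp only [e2, integral_zero]

end Pool.Agent.H77.RT.T.FTK
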