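import Pool.Agent.H77.RT.Stm3

set_option autoImplicit false

/-! # RT-GDS: every slope of an interval on which `W f N` is integrable is good -/

namespace Pool.Agent.H77.RT.T.GDS

open MeasureTheory Filter Topology Set
open scoped ENNReal ContDiff FourierTransform

theorem main (h : S_LZE) : S_GDS := by
  intro f N₀ N c d hm ht hv hW
  exact h f N₀ c d ∅ hm ht Set.countable_empty hv
    (fun k h1 h2 => Or.inr (Or.inl (Or.inr ⟨N, c, d, h1, h2, hW⟩)))

end Pool.Agent.H77.RT.T.GDS
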