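import Pool.Agent.H77.RT.Stm3
import Pool.Agent.H77.RT.T.IDF

/-! # Project RT, stub KFT (helper63) -/

set_option autoImplicit false

namespace Pool.Agent.H77.RT.T.KFT

open MeasureTheory Filter Topology Set
open scoped ENNReal ContDiff FourierTransform
open Pool.Agent.H77.RT.T.IDF (E E_norm E_add E_cont four stepA)

/-- the function on the frequency side -/
noncomputable def Ph (A : ℝ → ℂ) (Θ : ℝ → ℝ) (t : ℝ) (m : ℝ × ℝ) : ℂ :=
  A m.1 * (((Θ (-m.2 / m.1) * |m.1|⁻¹ : ℝ) : ℂ) * E (m.2 * t))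

theorem main : S_KFT := by
  intro A Θ t hA h0 hΘ
  obtain ⟨hA1, hA2⟩ := hA
  obtain ⟨hΘ1, hΘ2⟩ := hΘ
  obtain ⟨K, hK⟩ : ∃ K : Set (ℝ × ℝ), K = (fun z : ℝ × ℝ => ((z.1, -(z.1 * z.2)) : ℝ × ℝ)) ''
    (tsupport A ×ˢ tsupport Θ) := ⟨_, rfl⟩
  have hKc : IsCompact K := by
    rw [hK]
    exact (hA2.isCompact.prod hΘ2.isCompact).image (by fun_prop)
  have hsub : Function.support (Ph A Θ t) ⊆ K := by
    intro m hm
    rw [Function.mem_support] at hm
    unfold Ph at hm
    have h1 : A m.1 ≠ 0 := left_ne_zero_of_mul hm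
    have h2 : Θ (-m.2 / m.1) ≠ 0 := by
      intro h
      apply hm
      rw [h]
      simp
    have h3 : m.1 ∈ tsupport A := subset_tsupport _ h1
    have h4 : m.1 ≠ 0 := fun h => h0 (h ▸ h3)
    rw [hK]
    refine ⟨(m.1, -m.2 / m.1), ⟨h3, subset_tsupport _ h2⟩, ?_⟩
    refine Prod.ext rfl ?_
    show -(m.1 * (-m.2 / m.1)) = m.2
    field_simp
  have hts : tsupport (Ph A Θ t) ⊆ K := closure_minimal hsub hKc.isClosed
  have hcs : HasCompactSupport (Ph A Θ t) :=
    HasCompactSupport.of_support_subset_isCompact hKc hsub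
  have hsm : ContDiff ℝ ∞ (Ph A Θ t) := by
    rw [contDiff_iff_contDiffAt]
    intro m
    by_cases hm : m.1 ∈ tsupport A
    · have h4 : m.1 ≠ 0 := fun h => h0 (h ▸ hm)
      have e1 : ContDiffAt ℝ ∞ (fun m : ℝ × ℝ => A m.1) m := (hA1.comp contDiff_fst).contDiffAt
      have e2 : ContDiffAt ℝ ∞ (fun m : ℝ × ℝ => Θ (-m.2 / m.1)) m :=
        ContDiffAt.comp m hΘ1.contDiffAt (ContDiffAt.div contDiffAt_snd.neg contDiffAt_fst h4)
      have e3 : ContDiffAt ℝ ∞ (fun m : ℝ × ℝ => |m.1|⁻¹) m :=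
        ContDiffAt.inv (ContDiffAt.comp m (contDiffAt_abs h4) contDiffAt_fst) (abs_ne_zero.2 h4)
      have e4 : ContDiffAt ℝ ∞ (fun m : ℝ × ℝ => ((Θ (-m.2 / m.1) * |m.1|⁻¹ : ℝ) : ℂ)) m :=
        ContDiffAt.comp m Complex.ofRealCLM.contDiff.contDiffAt (e2.mul e3)
      have e5 : ContDiffAt ℝ ∞ (fun m : ℝ × ℝ => E (m.2 * t)) m := by
        unfold E
        refine ContDiffAt.cexp (ContDiffAt.mul ?_ contDiffAt_const)
        refine ContDiffAt.comp m Complex.ofRealCLM.contDiff.contDiffAt ?_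
        exact contDiffAt_const.mul (contDiffAt_snd.mul contDiffAt_const)
      exact e1.mul (e4.mul e5)
    · have hev : Ph A Θ t =ᶠ[𝓝 m] fun _ => 0 := by
        have h5 : ∀ᶠ z : ℝ × ℝ in 𝓝 m, z.1 ∉ tsupport A :=
          (continuous_fst.tendsto m).eventually ((isClosed_tsupport A).isOpen_compl.mem_nhds hm)
        filter_upwards [h5] with z hz
        unfold Ph
        rw [image_eq_zero_of_notMem_tsupport hz, zero_mul]
      exact contDiffAt_const.congr_of_eventuallyEq hev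
  refine ⟨Ph A Θ t, ⟨hsm, hcs⟩, ?_, ?_⟩
  · intro m hm
    have h1 := hts hm
    rw [hK] at h1
    obtain ⟨z, ⟨hz1, hz2⟩, rfl⟩ := h1
    have h4 : z.1 ≠ 0 := fun h => h0 (h ▸ hz1)
    refine ⟨h4, hz1, ?_⟩
    show -(-(z.1 * z.2)) / z.1 ∈ tsupport Θ
    have h5 : -(-(z.1 * z.2)) / z.1 = z.2 := by field_simp
    rw [h5]
    exact hz2
  · intro x y
    have hAi : Integrable A := hA1.continuous.integrable_of_hasCompactSupport hA2
    have hΘi : Integrable fun k => (Θ k : ℂ) :=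
      (hΘ1.continuous.integrable_of_hasCompactSupport hΘ2).ofReal
    rw [stepA A Θ hAi hΘi]
    unfold FT
    have hint : Integrable (fun m : ℝ × ℝ => Ph A Θ t m * E (-(m.1 * x + m.2 * y))) := by
      refine Continuous.integrable_of_hasCompactSupport ?_ hcs.mul_right
      exact hsm.continuous.mul (E_cont.comp (by fun_prop))
    have h1 : ∫ m : ℝ × ℝ, Ph A Θ t m *
        Complex.exp (((-2 * Real.pi * (m.1 * x + m.2 * y) : ℝ) : ℂ) * Complex.I) =
        ∫ m : ℝ × ℝ, Ph A Θ t m * E (-(m.1 * x + m.2 * y)) := by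
      refine integral_congr_ae (ae_of_all _ fun m => ?_)
      simp only
      unfold E
      congr 3
      congr 1
      ring
    rw [h1, Measure.volume_eq_prod, integral_prod _ (by rw [← Measure.volume_eq_prod]; exact hint)]
    refine integral_congr_ae (ae_of_all _ fun ξ => ?_)
    simp only
    by_cases hξA : A ξ = 0
    · unfold Ph
      simp [hξA]
    · have h3 : ξ ∈ tsupport A := subset_tsupport _ hξA
      have hξ : ξ ≠ 0 := fun h => h0 (h ▸ h3)
      have h4 : ∀ η : ℝ, Ph A Θ t (ξ, η) * E (-(ξ * x + η * y)) =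
          (A ξ * E (-(ξ * x))) * ((|ξ|⁻¹ : ℝ) * (((Θ (-η / ξ) : ℝ) : ℂ) * E (-(η * (y - t))))) := by
        intro η
        unfold Ph
        simp only
        have h5 : E (-(ξ * x + η * y)) * E (η * t) = E (-(ξ * x)) * E (-(η * (y - t))) := by
          rw [← E_add, ← E_add]
          congr 1
          ring
        push_cast
        linear_combination (A ξ * (Θ (-η / ξ) : ℂ) * ((|ξ| : ℝ) : ℂ)⁻¹) * h5
      simp_rw [h4]
      rw [integral_const_mul]
      congr 1
      rw [integral_const_mul, four]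
      have h6 := Measure.integral_comp_mul_left
        (fun η : ℝ => ((Θ (-η / ξ) : ℝ) : ℂ) * E (-(η * (y - t)))) (-ξ)
      rw [abs_inv, abs_neg, Complex.real_smul] at h6
      rw [← h6]
      refine integral_congr_ae (ae_of_all _ fun k => ?_)
      simp only
      rw [show -(-ξ * k) / ξ = k by field_simp, show -(k * -(ξ * (y - t))) = -(-ξ * k * (y - t)) by ring]

end Pool.Agent.H77.RT.T.KFT

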