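import Pool.Agent.H77.RT.Stm3

/-! # Project RT, stub KTF: from the Fourier transform to the tests -/

set_option autoImplicit false

namespace Pool.Agent.H77.RT.T.KTF

open MeasureTheory Filter Topology Set
open scoped ENNReal ContDiff FourierTransform

theorem aux (f : ℝ × ℝ → ℂ) (k : ℝ → ℝ → ℂ) (t : ℝ) :
    ∫ q : ℝ × ℝ, f (q.1, q.2 + t) * k q.1 q.2 = ∫ q : ℝ × ℝ, f q * k q.1 (q.2 - t) := by
  have h2 := integral_add_right_eq_self (μ := (volume : Measure (ℝ × ℝ)))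
    (fun q : ℝ × ℝ => f q * k q.1 (q.2 - t)) ((0, t) : ℝ × ℝ)
  rw [← h2]
  refine integral_congr_ae (Eventually.of_forall fun q => ?_)
  have e1 : q + ((0, t) : ℝ × ℝ) = (q.1, q.2 + t) := by
    ext <;> simp
  simp only [e1, add_sub_cancel_right]

theorem main (h : S_KFT) : S_KTF := by
  intro f U _ hV t a ha Θ hΘ hΘU
  obtain ⟨A, hA, hA0, rfl⟩ := ha
  obtain ⟨Φ, hΦ, hsup, hk⟩ := h A Θ t hA hA0 hΘ
  have h0 := hV Φ hΦ fun m hm => ⟨(hsup m hm).1, hΘU (hsup m hm).2.2⟩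
  have h1 : ∫ q : ℝ × ℝ, f q * kern (𝓕 A) Θ q.1 (q.2 - t) = 0 := by
    refine Eq.trans ?_ h0
    refine integral_congr_ae (Eventually.of_forall fun q => ?_)
    have := hk q.1 q.2
    simp only [this]
  have h2 := aux f (kern (𝓕 A) Θ) t
  exact (h2.trans h1 : ∫ q : ℝ × ℝ, f (q.1, q.2 + t) * kern (𝓕 A) Θ q.1 q.2 = 0)

end Pool.Agent.H77.RT.T.KTF
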