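import Pool.Agent.H77.RT.Stm3
import Pool.Agent.H77.RT.T.ZE2

/-!
# LZE (helper10, from helper62's ZE2): local form of ZE2
-/

set_option autoImplicit false

namespace Pool.Agent.H77.RT.T.LZE

open MeasureTheory Filter Topology Set
open scoped ENNReal ContDiff FourierTransform
open Pool.Agent.H77.RT.T.ZE2 (W_anti Tem_mono abs_le_of_mem W_tr test_shift tsupport_shift)

theorem main (ha : S_ADD) (hal : S_ALP) (hl : S_LSC) (hlo : S_LOC) (hb : S_BAI) (hp : S_POR)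
    (ht : S_TRA) (hte : S_TEM) (htw : S_TRW) (hs : S_SHR) (hi : S_ISO) (hbn : S_BNI) : S_LZE := by
  intro f N₀ c₀ d₀ Z hf hT hZ hvan hgood
  have hftr : ∀ t, Measurable (tr f t) := fun t =>
    hf.comp (measurable_fst.prodMk (measurable_snd.add_const t))
  have hTtr : ∀ t, Tem (tr f t) N₀ := fun t => hte.2 f N₀ t hf hT
  have hvtr : ∀ t, ∀ᵐ k : ℝ, Van (tr f t) k := fun t => hvan.mono fun k hk => (ht f t hf).2 k hk
  obtain ⟨E, hE⟩ : ∃ E : Set ℝ, E = {k | ∀ ε : ℝ, 0 < ε → ∃ (t : ℝ) (a : ℝ → ℂ) (Θ : ℝ → ℝ), Band a ∧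
    Test Θ ∧ tsupport Θ ⊆ Ioo (k - ε) (k + ε) ∧ T (tr f t) a Θ ≠ 0} := ⟨_, rfl⟩
  have hnotE : ∀ k, k ∉ E → ∃ ε : ℝ, 0 < ε ∧ ∀ (t : ℝ) (a : ℝ → ℂ) (Θ : ℝ → ℝ), Band a → Test Θ →
      tsupport Θ ⊆ Ioo (k - ε) (k + ε) → T (tr f t) a Θ = 0 := by
    intro k hk
    rw [hE, mem_setOf_eq] at hk
    push Not at hk
    exact hk
  have hclosed : IsClosed E := by
    rw [← isOpen_compl_iff, Metric.isOpen_iff]
    intro k hk
    obtain ⟨ε, hε, h⟩ := hnotE k hk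
    refine ⟨ε / 2, by positivity, fun k' hk' hmem => ?_⟩
    rw [hE] at hmem
    obtain ⟨t, a, Θ, h0, h1, h2, h3⟩ := hmem (ε / 2) (by positivity)
    rw [Metric.mem_ball, Real.dist_eq, abs_lt] at hk'
    exact h3 (h t a Θ h0 h1 (h2.trans (Ioo_subset_Ioo (by linarith) (by linarith))))
  have hE0 : ∀ (t : ℝ) (a : ℝ → ℂ), Band a → ∀ Θ, Test Θ → Disjoint (tsupport Θ) E →
      T (tr f t) a Θ = 0 := by
    intro t a hBa Θ hΘ hdis
    refine hlo (T (tr f t) a) (ha (tr f t) N₀ a (hftr t) (hTtr t) (hbn a hBa)) Θ hΘ fun k hk => ?_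
    obtain ⟨ε, hε, h⟩ := hnotE k (disjoint_left.1 hdis hk)
    exact ⟨ε, hε, fun Θ' h1 h2 => h t a Θ' hBa h1 h2⟩
  have hnear : ∀ k ∈ E, ∀ c d : ℝ, c < k → k < d →
      ∃ (t : ℝ) (a : ℝ → ℂ) (Θ : ℝ → ℝ), Band a ∧ Test Θ ∧ tsupport Θ ⊆ Ioo c d ∧
        T (tr f t) a Θ ≠ 0 := by
    intro k hk c d hc hd
    rw [hE] at hk
    obtain ⟨t, a, Θ, h0, h1, h2, h3⟩ := hk (min (k - c) (d - k)) (lt_min (by linarith) (by linarith))
    refine ⟨t, a, Θ, h0, h1, h2.trans (Ioo_subset_Ioo ?_ ?_), h3⟩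
    · linarith [min_le_left (k - c) (d - k)]
    · linarith [min_le_right (k - c) (d - k)]
  by_contra hcon
  obtain ⟨t₀, a₀, ha₀, Θ₀, hΘ₀, hsupp₀, hne⟩ : ∃ (t : ℝ) (a : ℝ → ℂ), Band a ∧ ∃ Θ : ℝ → ℝ, Test Θ ∧
      tsupport Θ ⊆ Ioo c₀ d₀ ∧ T (tr f t) a Θ ≠ 0 := by
    unfold VanT at hcon
    push Not at hcon
    obtain ⟨t, a, h1, Θ, h2, h3, h4⟩ := hcon
    exact ⟨t, a, h1, Θ, h2, h3, h4⟩
  obtain ⟨E', hE'⟩ : ∃ E' : Set ℝ, E' = closure (E ∩ Ioo c₀ d₀) := ⟨_, rfl⟩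
  have hcl' : IsClosed E' := by rw [hE']; exact isClosed_closure
  have hE'E : E' ⊆ E := by
    rw [hE']
    exact closure_minimal inter_subset_left hclosed
  have hE'I : E' ⊆ Icc c₀ d₀ := by
    rw [hE']
    exact closure_minimal (inter_subset_right.trans Ioo_subset_Icc_self) isClosed_Icc
  have hEne : E'.Nonempty := by
    by_contra h
    rw [not_nonempty_iff_eq_empty] at h
    refine hne (hE0 t₀ a₀ ha₀ Θ₀ hΘ₀ (disjoint_left.2 fun k hk hkE => ?_))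
    have h1 : k ∈ E' := by
      rw [hE']
      exact subset_closure ⟨hkE, hsupp₀ hk⟩
    rw [h] at h1
    exact h1
  -- exceptional slopes
  obtain ⟨Z', hZ'⟩ : ∃ Z' : Set ℝ, Z' = {k | k ∈ Z ∧ ∀ᵐ p : ℝ, Integrable fun y : ℝ => f (p + k * y, y)} :=
    ⟨_, rfl⟩
  have hZc : Z'.Countable := hZ.mono (by rw [hZ']; exact fun k hk => hk.1)
  obtain ⟨z, hz⟩ := countable_iff_exists_subset_range.1 hZc
  obtain ⟨F, hF⟩ : ∃ F : ℕ → Set ℝ, F = fun n => if (Nat.unpair n).1 = 0 then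
      {k : ℝ | W f (Nat.unpair (Nat.unpair n).2).1 k ≤ ((Nat.unpair (Nat.unpair n).2).2 : ℝ≥0∞)}
      else if (Nat.unpair n).1 = 1 then {z (Nat.unpair n).2} ∩ Z' else {c₀, d₀} := ⟨_, rfl⟩
  have hFc : ∀ n, IsClosed (F n) := by
    intro n
    rw [hF]
    simp only
    split_ifs
    · exact hl f _ _ hf
    · exact ((finite_singleton _).subset inter_subset_left).isClosed
    · exact (toFinite ({c₀, d₀} : Set ℝ)).isClosed
  have hcov : E' ⊆ ⋃ n : ℕ, F n := by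
    intro k hk'
    have hk := hE'E hk'
    have hkI := hE'I hk'
    by_cases hend : k = c₀ ∨ k = d₀
    · refine mem_iUnion.2 ⟨Nat.pair 2 0, ?_⟩
      rw [hF]
      simp only [Nat.unpair_pair, OfNat.ofNat_ne_zero, OfNat.ofNat_ne_one, if_false]
      exact hend
    push Not at hend
    have hkc : c₀ < k := lt_of_le_of_ne hkI.1 (Ne.symm hend.1)
    have hkd : k < d₀ := lt_of_le_of_ne hkI.2 hend.2
    rcases hgood k hkc hkd with hg | hg | hg
    · exfalso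
      obtain ⟨ε, hε, hv⟩ := hg
      obtain ⟨t, a, Θ, h0, h1, h2, h3⟩ := hnear k hk (k - ε) (k + ε) (by linarith) (by linarith)
      exact h3 (hv t a h0 Θ h1 h2)
    · have h1 : ∃ N, W f N k < ⊤ := by
        rcases hg with h | ⟨N, c, d, hc, hd, h⟩
        · exact h
        · exfalso
          obtain ⟨t, a, Θ, h0, h1, h2, h3⟩ := hnear k hk c d hc hd
          refine h3 (hal (tr f t) N c d (hftr t) ?_ (hvtr t) a (hbn a h0) Θ h1 h2)
          calc ∫⁻ s in Ioo c d, W (tr f t) N s ≤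
                ∫⁻ s in Ioo c d, ENNReal.ofReal ((1 + max |c| |d| * |t|) ^ N) * W f N s := by
                refine setLIntegral_mono' measurableSet_Ioo fun s hs => ?_
                exact W_tr htw hf N t hs.1 hs.2
            _ = ENNReal.ofReal ((1 + max |c| |d| * |t|) ^ N) * ∫⁻ s in Ioo c d, W f N s :=
                lintegral_const_mul' _ _ ENNReal.ofReal_ne_top
            _ < ⊤ := ENNReal.mul_lt_top ENNReal.ofReal_lt_top h
      obtain ⟨N, hN⟩ := h1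
      obtain ⟨M, hM⟩ := ENNReal.exists_nat_gt hN.ne
      refine mem_iUnion.2 ⟨Nat.pair 0 (Nat.pair N M), ?_⟩
      rw [hF]
      simp only [Nat.unpair_pair, if_true, mem_setOf_eq]
      exact hM.le
    · have h1 : k ∈ Z' := by rw [hZ']; exact hg
      obtain ⟨m, hm⟩ := hz h1
      refine mem_iUnion.2 ⟨Nat.pair 1 m, ?_⟩
      rw [hF]
      simp only [Nat.unpair_pair, one_ne_zero, if_false, if_true]
      exact ⟨by rw [hm]; exact mem_singleton _, h1⟩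
  obtain ⟨n, c₁, d₁, ⟨k₁, hk₁, hk₁'⟩, hsub₁⟩ := hb E' F hcl' hEne hFc hcov
  obtain ⟨c, hc'⟩ : ∃ c, c = max c₀ c₁ := ⟨_, rfl⟩
  obtain ⟨d, hd'⟩ : ∃ d, d = min d₀ d₁ := ⟨_, rfl⟩
  obtain ⟨k₀, hk₀, hk₀'⟩ : (E ∩ Ioo c d).Nonempty := by
    rw [hE'] at hk₁
    obtain ⟨k₂, h2, h3, h4⟩ := mem_closure_iff.1 hk₁ (Ioo c₁ d₁) isOpen_Ioo hk₁'
    refine ⟨k₂, h3, ?_, ?_⟩
    · rw [hc']; exact max_lt h4.1 h2.1
    · rw [hd']; exact lt_min h4.2 h2.2
  have hIn : ∀ k, k ∈ Ioo c d → k ∈ Ioo c₀ d₀ ∧ k ∈ Ioo c₁ d₁ := by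
    intro k hk
    have h1 : max c₀ c₁ < k := hc' ▸ hk.1
    have h2 : k < min d₀ d₁ := hd' ▸ hk.2
    exact ⟨⟨(le_max_left _ _).trans_lt h1, h2.trans_le (min_le_left _ _)⟩,
      ⟨(le_max_right _ _).trans_lt h1, h2.trans_le (min_le_right _ _)⟩⟩
  have hsub : E ∩ Ioo c d ⊆ F n := by
    intro k hk
    obtain ⟨h1, h2⟩ := hIn k hk.2
    refine hsub₁ ⟨?_, h2⟩
    rw [hE']
    exact subset_closure ⟨hk.1, h1⟩
  rw [hF] at hsub
  simp only at hsub
  by_cases hn : (Nat.unpair n).1 = 0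
  · -- first case
    rw [if_pos hn] at hsub
    obtain ⟨N, hN⟩ : ∃ N, N = (Nat.unpair (Nat.unpair n).2).1 := ⟨_, rfl⟩
    obtain ⟨M, hM⟩ : ∃ M, M = (Nat.unpair (Nat.unpair n).2).2 := ⟨_, rfl⟩
    rw [← hN, ← hM] at hsub
    obtain ⟨t, a, Θ, h0, h1, h2, h3⟩ := hnear k₀ hk₀ c d hk₀'.1 hk₀'.2
    refine h3 (hp (tr f t) (max N N₀) a (hftr t) (hbn a h0) (hvtr t) E c d
      (ENNReal.ofReal ((1 + max |c| |d| * |t|) ^ (max N N₀)) * (M : ℝ≥0∞)) hclosed
      (ENNReal.mul_lt_top ENNReal.ofReal_lt_top (ENNReal.natCast_lt_top _)) ?_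
      (Tem_mono (hftr t) (le_max_right _ _) (hTtr t)) (hE0 t a h0) Θ h1 h2)
    intro k hk hc hd
    refine (W_tr htw hf _ t hc hd).trans (mul_le_mul_right ?_ _)
    exact (W_anti f (le_max_left _ _) k).trans (hsub ⟨hk, hc, hd⟩)
  · -- second case
    rw [if_neg hn] at hsub
    have hn1 : (Nat.unpair n).1 = 1 := by
      by_contra hn1
      rw [if_neg hn1] at hsub
      obtain ⟨h1, _⟩ := hIn k₀ hk₀'
      rcases hsub ⟨hk₀, hk₀'⟩ with h | h
      · exact h1.1.ne' h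
      · exact h1.2.ne h
    rw [if_pos hn1] at hsub
    have hk0 := hsub ⟨hk₀, hk₀'⟩
    have hk0z : k₀ = z (Nat.unpair n).2 := hk0.1
    rw [← hk0z] at hsub
    have hint : ∀ᵐ p : ℝ, Integrable fun y : ℝ => f (p + k₀ * y, y) := by
      have := hk0.2
      rw [hZ'] at this
      exact this.2
    obtain ⟨δ, hδ⟩ : ∃ δ, δ = min (k₀ - c) (d - k₀) := ⟨_, rfl⟩
    have hδ0 : 0 < δ := by
      rw [hδ]
      exact lt_min (by linarith [hk₀'.1]) (by linarith [hk₀'.2])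
    have hδ1 : δ ≤ k₀ - c := by rw [hδ]; exact min_le_left _ _
    have hδ2 : δ ≤ d - k₀ := by rw [hδ]; exact min_le_right _ _
    obtain ⟨hs1, hs2, hs3, hs4⟩ := hs
    obtain ⟨t, a, Θ, h0, h1, h2, h3⟩ := hnear k₀ hk₀ (k₀ - δ) (k₀ + δ) (by linarith) (by linarith)
    have hsm : Measurable (shf f k₀) :=
      hf.comp ((measurable_fst.add (measurable_const.mul measurable_snd)).prodMk measurable_snd)
    have hgm : Measurable (tr (shf f k₀) t) :=
      hsm.comp (measurable_fst.prodMk (measurable_snd.add_const t))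
    have hgT : Tem (tr (shf f k₀) t) N₀ := hte.2 (shf f k₀) N₀ t hsm (hs2 f k₀ N₀ hf hT)
    have hgi : ∀ᵐ x : ℝ, Integrable fun y : ℝ => tr (shf f k₀) t (x, y) := by
      filter_upwards [hs4 f k₀ hint] with x hx
      exact hx.comp_add_right t
    have key := hi (tr (shf f k₀) t) N₀ δ hgm hgT hδ0 hgi (by
      intro s b hbB Θ' hΘ' hsupp
      have e1 : tr (tr (shf f k₀) t) s = tr (shf f k₀) (s + t) := by
        funext q
        show shf f k₀ (q.1, q.2 + s + t) = shf f k₀ (q.1, q.2 + (s + t))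
        rw [add_assoc]
      rw [e1, hs1 f k₀ (s + t) b Θ' hf]
      refine hE0 (s + t) _ (hs3 b (k₀ * (s + t)) hbB) _ ?_ ?_
      · have := test_shift hΘ' (-k₀)
        exact this
      · rw [disjoint_left]
        intro k hk hkE
        have h5 : k - k₀ ∈ tsupport Θ' := by
          have h6 := (tsupport_shift Θ' (-k₀) k).1 hk
          exact h6
        obtain ⟨h7, h8⟩ := hsupp h5
        rw [abs_lt] at h8
        have h9 := hsub ⟨hkE, by linarith [h8.1], by linarith [h8.2]⟩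
        have h10 : k = k₀ := h9.1
        exact h7 (by rw [h10, sub_self]))
    have hfin := key (fun x => a (x - (-(k₀ * t)))) (hs3 a (-(k₀ * t)) h0) (fun k => Θ (k + k₀))
      (test_shift h1 k₀) (by
        intro k hk
        have h5 := h2 ((tsupport_shift Θ k₀ k).1 hk)
        exact ⟨by linarith [h5.1], by linarith [h5.2]⟩)
    rw [hs1 f k₀ t _ _ hf] at hfin
    have e2 : (fun x => a (x - k₀ * t - -(k₀ * t))) = a := by
      funext x
      congr 1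
      ring
    have e3 : (fun k => Θ (k - k₀ + k₀)) = Θ := by
      funext k
      congr 1
      ring
    rw [e2, e3] at hfin
    exact h3 hfin

end Pool.Agent.H77.RT.T.LZE
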