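import Pool.Agent.H77.RT.Stm3

set_option autoImplicit false

/-! RT-POL (helper5): functions with spectrum in the origin are polynomials. -/

namespace Pool.Agent.H77.RT.T.POL

open MeasureTheory Filter Topology Set
open scoped ENNReal ContDiff FourierTransform

theorem interp_eval (s : Finset ℝ) (Q : Polynomial ℂ) (hQ : Q.degree < s.card) (x : ℝ) :
    Q.eval (x : ℂ) = ∑ i ∈ s, Q.eval (i : ℂ) *
      (Lagrange.basis s (fun x : ℝ => (x : ℂ)) i).eval (x : ℂ) := by
  classical
  have hvs : Set.InjOn (fun x : ℝ => (x : ℂ)) s := fun a _ b _ h => Complex.ofReal_injective h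
  have e := Lagrange.eq_interpolate hvs hQ
  conv_lhs => rw [e]
  rw [Lagrange.interpolate_apply, Polynomial.eval_finsetSum]
  refine Finset.sum_congr rfl fun i _ => ?_
  rw [Polynomial.eval_mul, Polynomial.eval_C]

theorem main (h : S_TAY) : S_POL := by
  classical
  intro K
  obtain ⟨q, q', C₁, hT⟩ := h K 1 one_pos
  refine ⟨q, fun u hu hI hA => ?_⟩
  set D : ℝ := (∫⁻ x : ℝ, ENNReal.ofReal (‖u x‖ / (1 + |x|) ^ K)).toReal with hD
  have hD0 : 0 ≤ D := ENNReal.toReal_nonneg
  have hID : ∫⁻ x : ℝ, ENNReal.ofReal (‖u x‖ / (1 + |x|) ^ K) = ENNReal.ofReal D := by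
    rw [hD, ENNReal.ofReal_toReal hI.ne]
  have hTn : ∀ n : ℕ, ∃ (P : Polynomial ℂ) (e : ℝ → ℂ), P.natDegree ≤ q ∧
      (∀ x, ‖e x‖ ≤ C₁ * D * (1 / 4) ^ n * (1 + |x|) ^ q') ∧
      u =ᵐ[volume] fun x => P.eval (x : ℂ) + e x := by
    intro n
    refine hT n u D hD0 hu ?_ fun A hAs hA0 => hA A hAs ?_
    · rw [hID]
      apply ENNReal.ofReal_le_ofReal
      have h1 : (1 : ℝ) ≤ 2 ^ (n * K) := one_le_pow₀ (by norm_num)
      nlinarith
    · intro h0
      have h1 := hA0 0 h0
      rw [abs_zero, one_mul] at h1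
      have h2 : (0 : ℝ) < (1 / 2) ^ n := by positivity
      linarith
  choose P e hP he hPe using hTn
  set G : Set ℝ := {x | ∀ n, u x = (P n).eval (x : ℂ) + e n x} with hG
  have hall : ∀ᵐ x : ℝ, x ∈ G := by
    filter_upwards [ae_all_iff.2 hPe] with x hx
    exact hx
  obtain ⟨s, hsG, hscard⟩ : ∃ s : Finset ℝ, (∀ x ∈ s, x ∈ G) ∧ s.card = q + 1 := by
    have hGinf : G.Infinite := by
      intro hfin
      have h1 : volume G = 0 := hfin.measure_zero volume
      have h2 : volume Gᶜ = 0 := hall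
      have h3 : volume (univ : Set ℝ) = 0 := by
        rw [← Set.union_compl_self G]
        exact measure_union_null h1 h2
      simp at h3
    obtain ⟨s, hs1, hs2⟩ := hGinf.exists_subset_card_eq (q + 1)
    exact ⟨s, fun x hx => hs1 hx, hs2⟩
  have hlim : ∀ x ∈ G, Tendsto (fun n => (P n).eval (x : ℂ)) atTop (𝓝 (u x)) := by
    intro x hx
    have h1 : Tendsto (fun n => e n x) atTop (𝓝 0) := by
      rw [tendsto_zero_iff_norm_tendsto_zero]
      have h2 : Tendsto (fun n : ℕ => C₁ * D * (1 / 4 : ℝ) ^ n * (1 + |x|) ^ q') atTop (𝓝 0) := by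
        have h3 := tendsto_pow_atTop_nhds_zero_of_lt_one (r := (1 / 4 : ℝ)) (by norm_num)
          (by norm_num)
        have h4 := (h3.const_mul (C₁ * D)).mul_const ((1 + |x|) ^ q')
        simpa using h4
      exact squeeze_zero (fun n => norm_nonneg _) (fun n => he n x) h2
    have h5 : Tendsto (fun n => u x - e n x) atTop (𝓝 (u x - 0)) := tendsto_const_nhds.sub h1
    rw [sub_zero] at h5
    refine h5.congr fun n => ?_
    rw [hx n]
    ring
  have hvs : Set.InjOn (fun x : ℝ => (x : ℂ)) s := fun a _ b _ h => Complex.ofReal_injective h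
  have hQdeg := Lagrange.degree_interpolate_lt (fun i : ℝ => u i) hvs
  set Q := Lagrange.interpolate s (fun x : ℝ => (x : ℂ)) (fun i : ℝ => u i) with hQ
  refine ⟨Q, ?_, ?_⟩
  · by_cases h0 : Q = 0
    · rw [h0, Polynomial.natDegree_zero]
      exact Nat.zero_le _
    · rw [hscard] at hQdeg
      have h1 := (Polynomial.natDegree_lt_iff_degree_lt h0).2 hQdeg
      omega
  · filter_upwards [hall] with x hx
    have h1 : ∀ n, (P n).eval (x : ℂ) = ∑ i ∈ s, (P n).eval (i : ℂ) *
        (Lagrange.basis s (fun x : ℝ => (x : ℂ)) i).eval (x : ℂ) := by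
      intro n
      apply interp_eval
      rw [hscard]
      exact (Polynomial.degree_le_of_natDegree_le (hP n)).trans_lt
        (by exact_mod_cast Nat.lt_succ_self q)
    have h2 : Tendsto (fun n => (P n).eval (x : ℂ)) atTop (𝓝 (∑ i ∈ s, u i *
        (Lagrange.basis s (fun x : ℝ => (x : ℂ)) i).eval (x : ℂ))) := by
      simp only [h1]
      exact tendsto_finsetSum _ fun i hi => (hlim i (hsG i hi)).mul_const _
    have h3 : Q.eval (x : ℂ) = ∑ i ∈ s, u i *
        (Lagrange.basis s (fun x : ℝ => (x : ℂ)) i).eval (x : ℂ) := by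
      rw [hQ, Lagrange.interpolate_apply, Polynomial.eval_finsetSum]
      refine Finset.sum_congr rfl fun i _ => ?_
      rw [Polynomial.eval_mul, Polynomial.eval_C]
    rw [h3]
    exact tendsto_nhds_unique (hlim x hx) h2

end Pool.Agent.H77.RT.T.POL
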