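import Pool.Agent.H77.RT.Stm3

/-! Project RT, stub SLO (helper96). -/

set_option autoImplicit false

namespace Pool.Agent.H77.RT.T.SLO

open Pool.Agent.H77.RT
open MeasureTheory Filter Topology Set
open scoped ENNReal ContDiff FourierTransform

lemma det_eq (m n : ℝ × ℝ) (hm : m.1 ≠ 0) (hn : n.1 ≠ 0) :
    m.1 * n.2 - m.2 * n.1 = m.1 * n.1 * (-m.2 / m.1 - -n.2 / n.1) := by
  field_simp
  ring

lemma fst_le (m : ℝ × ℝ) : |m.1| ≤ ‖m‖ := by
  rw [Prod.norm_def, Real.norm_eq_abs]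
  exact le_max_left _ _

lemma small (n : ℝ × ℝ) (hn : n.1 ≠ 0) (δ : ℝ) (hδ : 0 < δ) : ∃ ε : ℝ, 0 < ε ∧
    ∀ m : ℝ × ℝ, m ≠ 0 → |m.1 * n.2 - m.2 * n.1| < ε * ‖m‖ →
      m.1 ≠ 0 ∧ -m.2 / m.1 ∈ Ioo (-n.2 / n.1 - δ) (-n.2 / n.1 + δ) := by
  have hA : 0 < |n.1| := abs_pos.mpr hn
  obtain ⟨z, hz⟩ : ∃ z, z = -n.2 / n.1 := ⟨_, rfl⟩
  have hz1 : 0 < 1 + 2 * |z| := by positivity
  refine ⟨min (|n.1| / 2) (δ * |n.1| / (1 + 2 * |z|)), lt_min (by positivity) (by positivity), ?_⟩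
  intro m hm h
  obtain ⟨ε, hε⟩ : ∃ ε, ε = min (|n.1| / 2) (δ * |n.1| / (1 + 2 * |z|)) := ⟨_, rfl⟩
  rw [← hε] at h
  have hε1 : ε ≤ |n.1| / 2 := hε ▸ min_le_left _ _
  have hε2 : ε ≤ δ * |n.1| / (1 + 2 * |z|) := hε ▸ min_le_right _ _
  have hm0 : 0 < ‖m‖ := norm_pos_iff.mpr hm
  have hm1 : m.1 ≠ 0 := by
    intro h0
    have h1 : ‖m‖ = |m.2| := by
      rw [Prod.norm_def, Real.norm_eq_abs, Real.norm_eq_abs, h0, abs_zero]
      exact max_eq_right (abs_nonneg _)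
    rw [h0, zero_mul, zero_sub, abs_neg, abs_mul, ← h1] at h
    nlinarith
  refine ⟨hm1, ?_⟩
  rw [← hz]
  obtain ⟨κ, hκ⟩ : ∃ κ, κ = -m.2 / m.1 := ⟨_, rfl⟩
  have hd := det_eq m n hm1 hn
  rw [← hκ, ← hz] at hd
  rw [← hκ]
  have hp : 0 < |m.1| := abs_pos.mpr hm1
  have hm2 : |m.2| = |κ| * |m.1| := by
    rw [← abs_mul, hκ, div_mul_cancel₀ _ hm1, abs_neg]
  have hn' : ‖m‖ ≤ |m.1| * (1 + |κ|) := by
    rw [Prod.norm_def, Real.norm_eq_abs, Real.norm_eq_abs, hm2]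
    have h1 : 0 ≤ |κ| * |m.1| := by positivity
    refine max_le ?_ ?_ <;> nlinarith
  have hn'' : ‖m‖ ≤ |m.1| * max 1 |κ| := by
    rw [Prod.norm_def, Real.norm_eq_abs, Real.norm_eq_abs, hm2, mul_comm |κ|]
    refine max_le ?_ ?_
    · exact le_mul_of_one_le_right hp.le (le_max_left _ _)
    · exact mul_le_mul_of_nonneg_left (le_max_right _ _) hp.le
  rw [hd, abs_mul, abs_mul] at h
  have hε0 : 0 < ε := by
    rw [hε]
    exact lt_min (by positivity) (by positivity)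
  -- |n.1| |κ - z| < ε max 1 |κ|
  have h2 : |n.1| * |κ - z| < ε * max 1 |κ| := by
    have h3 : |m.1| * |n.1| * |κ - z| < ε * (|m.1| * max 1 |κ|) :=
      lt_of_lt_of_le h (mul_le_mul_of_nonneg_left hn'' hε0.le)
    by_contra hcon
    push Not at hcon
    have h4 := mul_le_mul_of_nonneg_left hcon hp.le
    nlinarith
  have hk : |κ| ≤ |z| + |κ - z| := by
    have h3 : κ = z + (κ - z) := by ring
    calc |κ| = |z + (κ - z)| := by rw [← h3]
      _ ≤ |z| + |κ - z| := abs_add_le _ _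
  have hmax : max 1 |κ| ≤ 1 + |z| + |κ - z| := by
    refine max_le ?_ ?_
    · linarith [abs_nonneg z, abs_nonneg (κ - z)]
    · linarith
  have h3 : |κ - z| < 1 + |z| := by
    have h4 : ε * max 1 |κ| ≤ |n.1| / 2 * (1 + |z| + |κ - z|) :=
      mul_le_mul hε1 hmax (le_trans zero_le_one (le_max_left _ _)) (by positivity)
    by_contra hcon
    push Not at hcon
    nlinarith
  have h5 : max 1 |κ| ≤ 1 + 2 * |z| := by
    refine max_le ?_ ?_
    · linarith [abs_nonneg z]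
    · linarith
  have h6 : |n.1| * |κ - z| < |n.1| * δ := by
    calc |n.1| * |κ - z| < ε * max 1 |κ| := h2
      _ ≤ δ * |n.1| / (1 + 2 * |z|) * (1 + 2 * |z|) :=
        mul_le_mul hε2 h5 (le_trans zero_le_one (le_max_left _ _)) (by positivity)
      _ = |n.1| * δ := by
        rw [div_mul_cancel₀ _ hz1.ne']
        ring
  have h7 : |κ - z| < δ := lt_of_mul_lt_mul_left h6 hA.le
  rw [abs_lt] at h7
  constructor
  · linarith [h7.1]
  · linarith [h7.2]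

theorem main : S_SLO := by
  intro f n hn
  have hA : 0 < |n.1| := abs_pos.mpr hn
  have hn0 : n ≠ 0 := by
    intro h
    exact hn (by rw [h]; rfl)
  constructor
  · intro h
    have h1 : ∃ ε : ℝ, 0 < ε ∧ ∀ Φ, Sm2 Φ →
        (∀ m ∈ tsupport Φ, m ≠ 0 ∧ |m.1 * n.2 - m.2 * n.1| < ε * ‖m‖) →
          ∫ x : ℝ × ℝ, f x * FT Φ x = 0 := by
      by_contra hcon
      push Not at hcon
      exact h ⟨hn0, hcon⟩
    obtain ⟨ε, hε, h2⟩ := h1
    refine ⟨ε / |n.1|, by positivity, ?_⟩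
    intro Φ hΦ hs
    refine h2 Φ hΦ fun m hm => ?_
    obtain ⟨hm1, hm2⟩ := hs m hm
    refine ⟨fun h0 => hm1 (by rw [h0]; rfl), ?_⟩
    rw [det_eq m n hm1 hn, abs_mul, abs_mul]
    have h3 : |-m.2 / m.1 - -n.2 / n.1| < ε / |n.1| := by
      rw [abs_lt]
      constructor
      · linarith [hm2.1]
      · linarith [hm2.2]
    have hp : 0 < |m.1| := abs_pos.mpr hm1
    calc |m.1| * |n.1| * |-m.2 / m.1 - -n.2 / n.1| < |m.1| * |n.1| * (ε / |n.1|) :=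
          mul_lt_mul_of_pos_left h3 (by positivity)
      _ = ε * |m.1| := by
          field_simp
      _ ≤ ε * ‖m‖ := mul_le_mul_of_nonneg_left (fst_le m) hε.le
  · rintro ⟨δ, hδ, h⟩ ⟨_, hs⟩
    obtain ⟨ε, hε, h1⟩ := small n hn δ hδ
    obtain ⟨Φ, hΦ, h2, h3⟩ := hs ε hε
    exact h3 (h Φ hΦ fun m hm => h1 m (h2 m hm).1 (h2 m hm).2)

end Pool.Agent.H77.RT.T.SLO
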