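import Pool.Agent.H77.RT.Stm

set_option autoImplicit false

open MeasureTheory

namespace Pool.Agent.H77.RT.T.LIN

theorem main : S_LIN := by
  intro f k p hp h
  have hk : (0 : ℝ) < 1 + k ^ 2 := by positivity
  have hD : (1 / p) ^ 2 + (-k / p) ^ 2 = (1 + k ^ 2) / p ^ 2 := by
    field_simp
  set F : ℝ → ℂ := fun y => f (p + k * y, y) with hF
  have h1 : ∀ s : ℝ, f ((1 / p) / ((1 / p) ^ 2 + (-k / p) ^ 2) - s * (-k / p),
      (-k / p) / ((1 / p) ^ 2 + (-k / p) ^ 2) + s * (1 / p)) =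
      F (p⁻¹ * s + (-k * p / (1 + k ^ 2))) := by
    intro s
    simp only [hF, hD]
    congr 1
    have e2 : (-k / p) / ((1 + k ^ 2) / p ^ 2) + s * (1 / p) = p⁻¹ * s + (-k * p / (1 + k ^ 2)) := by
      field_simp
      ring
    have e1 : (1 / p) / ((1 + k ^ 2) / p ^ 2) - s * (-k / p) =
        p + k * (p⁻¹ * s + (-k * p / (1 + k ^ 2))) := by
      field_simp
      ring
    rw [e1, e2]
  simp_rw [h1] at h
  have h2 : (∫ s : ℝ, F (p⁻¹ * s + (-k * p / (1 + k ^ 2)))) = |(p⁻¹)⁻¹| • ∫ y : ℝ, F y := by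
    have := Measure.integral_comp_mul_left (fun t => F (t + (-k * p / (1 + k ^ 2)))) p⁻¹
    rw [this, integral_add_right_eq_self (μ := volume) F]
  rw [h2] at h
  have hne : |(p⁻¹)⁻¹| ≠ 0 := by
    simpa using hp
  exact (smul_eq_zero.mp h).resolve_left hne

end Pool.Agent.H77.RT.T.LIN
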