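import Pool.Agent.H77.RT.Stm3

/-! # RT-SWP: symmetry (helper90) -/

set_option autoImplicit false

namespace Pool.Agent.H77.RT.T.SWP

open MeasureTheory Filter Topology Set
open scoped ENNReal ContDiff FourierTransform

theorem isw (g : ℝ × ℝ → ℂ) : ∫ x : ℝ × ℝ, g (x.2, x.1) = ∫ x : ℝ × ℝ, g x := by
  have h := MeasureTheory.integral_prod_swap (μ := (volume : Measure ℝ)) (ν := (volume : Measure ℝ)) g
  rw [← Measure.volume_eq_prod] at h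
  exact h

theorem lsw (g : ℝ × ℝ → ℝ≥0∞) : ∫⁻ x : ℝ × ℝ, g (x.2, x.1) = ∫⁻ x : ℝ × ℝ, g x := by
  have h := MeasureTheory.lintegral_prod_swap (μ := (volume : Measure ℝ)) (ν := (volume : Measure ℝ)) g
  rw [← Measure.volume_eq_prod] at h
  exact h

theorem nsw (m : ℝ × ℝ) : ‖((m.2, m.1) : ℝ × ℝ)‖ = ‖m‖ := by
  rw [Prod.norm_def, Prod.norm_def]
  exact max_comm _ _

theorem cls {f : ℝ × ℝ → ℂ} (hf : Cls f) : Cls fun q => f (q.2, q.1) := by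
  obtain ⟨h1, ⟨c, m, h2⟩, h3⟩ := hf
  refine ⟨h1.comp (continuous_snd.prodMk continuous_fst), ⟨c, m, fun x => ?_⟩, fun x v hv => ?_⟩
  · rw [← nsw x]
    exact h2 _
  · have hv' : ((v.2, v.1) : ℝ × ℝ) ≠ 0 := by
      intro h
      apply hv
      rw [Prod.mk_eq_zero] at h
      exact Prod.ext h.2 h.1
    exact h3 (x.2, x.1) (v.2, v.1) hv'

theorem ftsw (Φ : ℝ × ℝ → ℂ) (x : ℝ × ℝ) : FT (fun m => Φ (m.2, m.1)) x = FT Φ (x.2, x.1) := by
  unfold FT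
  rw [← isw]
  refine integral_congr_ae (Filter.Eventually.of_forall fun m => ?_)
  simp only
  rw [add_comm (m.2 * x.1)]

theorem tsw {Φ : ℝ × ℝ → ℂ} {m : ℝ × ℝ} (h : m ∈ tsupport fun m : ℝ × ℝ => Φ (m.2, m.1)) :
    ((m.2, m.1) : ℝ × ℝ) ∈ tsupport Φ := by
  have h1 : (Homeomorph.prodComm ℝ ℝ) ⁻¹' (closure (Function.support Φ)) =
      closure ((Homeomorph.prodComm ℝ ℝ) ⁻¹' (Function.support Φ)) :=
    (Homeomorph.prodComm ℝ ℝ).preimage_closure _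
  have h2 : m ∈ closure ((Homeomorph.prodComm ℝ ℝ) ⁻¹' (Function.support Φ)) := h
  rw [← h1] at h2
  exact h2

theorem sing {f : ℝ × ℝ → ℂ} {n : ℝ × ℝ} (hn : n ∈ Sing f) :
    ((n.2, n.1) : ℝ × ℝ) ∈ Sing fun q => f (q.2, q.1) := by
  obtain ⟨hn0, h⟩ := hn
  refine ⟨fun h0 => hn0 ?_, fun ε hε => ?_⟩
  · rw [Prod.mk_eq_zero] at h0
    exact Prod.ext h0.2 h0.1
  · obtain ⟨Φ, ⟨hΦ1, hΦ2⟩, hΦ3, hΦ4⟩ := h ε hε
    refine ⟨fun m => Φ (m.2, m.1), ⟨hΦ1.comp (contDiff_snd.prodMk contDiff_fst),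
      hΦ2.comp_homeomorph (Homeomorph.prodComm ℝ ℝ)⟩, fun m hm => ?_, ?_⟩
    · obtain ⟨h1, h2⟩ := hΦ3 _ (tsw hm)
      refine ⟨fun h0 => h1 ?_, ?_⟩
      · rw [h0]
        rfl
      · rw [nsw m] at h2
        rw [abs_sub_comm]
        exact h2
    · simp only [ftsw]
      have := isw fun x => f x * FT Φ x
      rw [this]
      exact hΦ4

theorem main : S_SWP := by
  intro f
  refine ⟨cls, fun n => ⟨sing, fun h => ?_⟩, fun N n => ?_⟩
  · exact sing (f := fun q => f (q.2, q.1)) (n := (n.2, n.1)) h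
  · unfold Wn
    rw [← lsw]
    refine lintegral_congr fun q => ?_
    simp only
    rw [add_comm (n.2 * q.2)]

end Pool.Agent.H77.RT.T.SWP
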