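import Pool.Agent.H77.RT.Stm2

/-!
# TRW: the weights of a translate
-/

set_option autoImplicit false

namespace Pool.Agent.H77.RT.T.TRW

open MeasureTheory Filter Topology Set
open scoped ENNReal ContDiff FourierTransform

theorem main : S_TRW := by
  intro f N k t _
  unfold W tr
  have h1 : ∫⁻ q : ℝ × ℝ, ENNReal.ofReal (‖f (q.1, q.2 + t)‖ / (1 + |q.1 - k * q.2|) ^ N) =
      ∫⁻ q : ℝ × ℝ, ENNReal.ofReal (‖f q‖ / (1 + |q.1 - k * (q.2 - t)|) ^ N) := by
    rw [← lintegral_add_right_eq_self (μ := (volume : Measure (ℝ × ℝ)))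
      (fun q : ℝ × ℝ => ENNReal.ofReal (‖f q‖ / (1 + |q.1 - k * (q.2 - t)|) ^ N)) ((0 : ℝ), t)]
    refine lintegral_congr fun q => ?_
    have e1 : q + ((0 : ℝ), t) = (q.1, q.2 + t) := by ext <;> simp
    rw [e1]
    simp only [add_sub_cancel_right]
  rw [h1, ← lintegral_const_mul' _ _ ENNReal.ofReal_ne_top]
  refine lintegral_mono fun q => ?_
  simp only
  rw [← ENNReal.ofReal_mul (by positivity)]
  apply ENNReal.ofReal_le_ofReal
  rw [mul_div_assoc', div_le_div_iff₀ (by positivity) (by positivity)]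
  have h2 : 1 + |q.1 - k * q.2| ≤ (1 + |k * t|) * (1 + |q.1 - k * (q.2 - t)|) := by
    have e1 : q.1 - k * q.2 = (q.1 - k * (q.2 - t)) - k * t := by ring
    have e2 : |q.1 - k * q.2| ≤ |q.1 - k * (q.2 - t)| + |k * t| := by
      rw [e1]
      exact abs_sub _ _
    nlinarith [abs_nonneg (k * t), abs_nonneg (q.1 - k * (q.2 - t)),
      mul_nonneg (abs_nonneg (k * t)) (abs_nonneg (q.1 - k * (q.2 - t)))]
  have h3 := pow_le_pow_left₀ (by positivity) h2 N
  rw [mul_pow] at h3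
  calc ‖f q‖ * (1 + |q.1 - k * q.2|) ^ N ≤
        ‖f q‖ * ((1 + |k * t|) ^ N * (1 + |q.1 - k * (q.2 - t)|) ^ N) :=
        mul_le_mul_of_nonneg_left h3 (norm_nonneg _)
    _ = _ := by ring

end Pool.Agent.H77.RT.T.TRW
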